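import Mathlib

/-!
Rising factorials over `ℚ`, the Pfaff-Saalschutz sum and Whipple's balanced `4F3`
transformation, in polynomial form.
-/

set_option autoImplicit false

namespace Pool.Agent.Helper91.SC

open Finset

/-- rising factorial -/
def poch (x : ℚ) (n : ℕ) : ℚ := ∏ i ∈ range n, (x + i)

theorem poch_zero (x : ℚ) : poch x 0 = 1 := by simp [poch]

theorem poch_succ (x : ℚ) (n : ℕ) : poch x (n + 1) = poch x n * (x + n) := by
  simp [poch, prod_range_succ]

theorem poch_succ_left (x : ℚ) (n : ℕ) : poch x (n + 1) = x * poch (x + 1) n := by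
  induction n with
  | zero => simp [poch]
  | succ n ih =>
    rw [poch_succ, ih, poch_succ]
    push_cast
    ring

theorem poch_add (x : ℚ) (m n : ℕ) : poch x (m + n) = poch x m * poch (x + m) n := by
  induction n with
  | zero => simp [poch]
  | succ n ih =>
    rw [← add_assoc, poch_succ, ih, poch_succ]
    push_cast
    ring

theorem poch_refl (x : ℚ) (n : ℕ) : poch (1 - x - n) n = (-1) ^ n * poch x n := by
  induction n with
  | zero => simp [poch]
  | succ n ih =>
    rw [poch_succ_left]
    have : (1 - x - ((n + 1 : ℕ) : ℚ) + 1) = 1 - x - n := by push_cast; ring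
    rw [this, ih, poch_succ]
    push_cast
    ring

theorem poch_one (n : ℕ) : poch 1 n = (n.factorial : ℚ) := by
  induction n with
  | zero => simp [poch]
  | succ n ih =>
    rw [poch_succ, ih, Nat.factorial_succ]
    push_cast
    ring

theorem poch_nat (m n : ℕ) : poch ((m : ℚ) + 1) n = ((m + n).factorial : ℚ) / m.factorial := by
  induction n with
  | zero => simp [poch, Nat.factorial_ne_zero]
  | succ n ih =>
    rw [poch_succ, ih, ← add_assoc, Nat.factorial_succ]
    push_cast
    ring

theorem poch_ne_zero {x : ℚ} (n : ℕ) (h : ∀ i < n, x + i ≠ 0) : poch x n ≠ 0 := by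
  rw [poch, prod_ne_zero_iff]
  intro i hi
  exact h i (mem_range.mp hi)

theorem poch_pos {x : ℚ} (n : ℕ) (h : 0 < x) : 0 < poch x n := by
  apply prod_pos
  intro i _
  positivity

/-- finite sums for the certificate of the Pfaff-Saalschutz sum. -/
theorem saal_aux (A B C : ℚ) (n : ℕ) : ∀ k ≤ n,
    ∑ j ∈ range (k + 1), (((n + 1).choose j : ℚ) * poch A j * poch B j * poch (C + j) (n + 1 - j) *
        poch (C - A - B) (n + 1 - j) -
      (C - A + n) * (C - B + n) * ((n.choose j : ℚ) * poch A j * poch B j * poch (C + j) (n - j) *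
        poch (C - A - B) (n - j))) =
    -((n.choose k : ℚ) * poch A (k + 1) * poch B (k + 1) * poch (C + k) (n - k) *
        poch (C - A - B) (n - k)) := by
  intro k
  induction k with
  | zero =>
    intro _
    simp only [zero_add, range_one, sum_singleton, Nat.choose_zero_right, Nat.cast_one,
      Nat.sub_zero, poch_zero, Nat.cast_zero, add_zero]
    rw [poch_succ, poch_succ, poch_succ, poch_succ, poch_zero, poch_zero]
    push_cast
    ring
  | succ k ih =>
    intro hk
    rw [sum_range_succ, ih (by omega)]
    obtain ⟨m, hm⟩ : ∃ m, n = k + 1 + m := ⟨n - (k + 1), by omega⟩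
    have e1 : n + 1 - (k + 1) = m + 1 := by omega
    have e2 : n - (k + 1) = m := by omega
    have e3 : n - k = m + 1 := by omega
    rw [e1, e2, e3]
    -- binomials
    have b1 : ((n + 1).choose (k + 1) : ℚ) = (n.choose k : ℚ) + (n.choose (k + 1) : ℚ) := by
      rw [Nat.choose_succ_succ]; push_cast; ring
    have b2 : (n.choose k : ℚ) * ((m : ℚ) + 1) = (n.choose (k + 1) : ℚ) * ((k : ℚ) + 1) := by
      have := Nat.choose_succ_right_eq n k
      rw [e3] at this
      exact_mod_cast this.symm
    rw [b1]
    have hk1 : ((k : ℚ) + 1) ≠ 0 := by positivity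
    have b3 : (n.choose (k + 1) : ℚ) = (n.choose k : ℚ) * ((m : ℚ) + 1) / ((k : ℚ) + 1) := by
      rw [eq_div_iff hk1]; exact b2.symm
    rw [b3]
    have hn : (n : ℚ) = k + 1 + m := by rw [hm]; push_cast; ring
    rw [hn]
    rw [poch_succ A (k + 1), poch_succ B (k + 1), poch_succ_left (C + (k : ℚ)) m,
      poch_succ (C + ((k + 1 : ℕ) : ℚ)) m, poch_succ (C - A - B) m]
    have e4 : C + (k : ℚ) + 1 = C + ((k + 1 : ℕ) : ℚ) := by push_cast; ring
    rw [e4]
    generalize poch (C + ((k + 1 : ℕ) : ℚ)) m = P
    generalize poch A (k + 1) = PA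
    generalize poch B (k + 1) = PB
    generalize poch (C - A - B) m = PX
    push_cast
    field_simp
    ring

/-- Pfaff-Saalschutz, polynomial form. -/
theorem saal (A B C : ℚ) (n : ℕ) :
    ∑ j ∈ range (n + 1), ((n.choose j : ℚ) * poch A j * poch B j * poch (C + j) (n - j) *
        poch (C - A - B) (n - j)) = poch (C - A) n * poch (C - B) n := by
  induction n with
  | zero => simp [poch]
  | succ n ih =>
    have h := saal_aux A B C n n le_rfl
    rw [sum_sub_distrib, ← mul_sum, ih] at h
    rw [sum_range_succ, Nat.choose_self, Nat.sub_self, poch_zero, poch_zero]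
    rw [Nat.choose_self, Nat.sub_self, poch_zero, poch_zero] at h
    rw [poch_succ (C - A), poch_succ (C - B)]
    push_cast at h ⊢
    linear_combination h

/-- Saalschutz in the alternating form. -/
theorem saal_alt (a B e f : ℚ) (n : ℕ) (h : e - a - B = 1 - f - n) :
    ∑ m ∈ range (n + 1), ((-1) ^ m * (n.choose m : ℚ) * poch a m * poch B m *
      poch (e + m) (n - m) * poch (f + m) (n - m)) = poch (e - a) n * poch (f - a) n := by
  have h1 := saal a B e n
  have h2 : poch (e - B) n = (-1) ^ n * poch (f - a) n := by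
    rw [← poch_refl]
    congr 1
    linear_combination h
  rw [h2] at h1
  have h3 : ∀ m ∈ range (n + 1), (-1) ^ m * (n.choose m : ℚ) * poch a m * poch B m *
      poch (e + m) (n - m) * poch (f + m) (n - m) = (-1) ^ n * ((n.choose m : ℚ) * poch a m *
      poch B m * poch (e + m) (n - m) * poch (e - a - B) (n - m)) := by
    intro m hm
    have hm := mem_range.mp hm
    have h4 : poch (e - a - B) (n - m) = (-1) ^ (n - m) * poch (f + m) (n - m) := by
      rw [← poch_refl, h]
      congr 1
      have : ((n - m : ℕ) : ℚ) = n - m := by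
        rw [Nat.cast_sub (by omega)]
      rw [this]; ring
    rw [h4]
    have h5 : (-1 : ℚ) ^ n = (-1) ^ m * (-1) ^ (n - m) := by
      rw [← pow_add]; congr 1; omega
    have h6 : ((-1 : ℚ) ^ (n - m)) * (-1) ^ (n - m) = 1 := by
      rw [← mul_pow]; norm_num
    rw [h5]
    linear_combination (-((-1 : ℚ) ^ m * (n.choose m : ℚ) * poch a m * poch B m *
      poch (e + m) (n - m) * poch (f + m) (n - m))) * h6
  rw [sum_congr rfl h3, ← mul_sum, h1]
  have h6 : ((-1 : ℚ) ^ n) * (-1) ^ n = 1 := by
    rw [← mul_pow]; norm_num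
  linear_combination (poch (e - a) n * poch (f - a) n) * h6

/-- Whipple's transformation of a balanced terminating `4F3`. -/
theorem whipple (a b c d e f : ℚ) (n : ℕ) (hd : ∀ i < n, d + i ≠ 0)
    (h : d + e + f = a + b + c - n + 1) :
    ∑ k ∈ range (n + 1), ((-1) ^ k * (n.choose k : ℚ) * poch a k * poch b k * poch c k *
      poch (e + k) (n - k) * poch (f + k) (n - k) / poch d k) =
    ∑ j ∈ range (n + 1), ((-1) ^ j * (n.choose j : ℚ) * poch a j * poch (d - b) j *
      poch (d - c) j / poch d j * poch (e - a) (n - j) * poch (f - a) (n - j)) := by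
  have hd' : ∀ k ≤ n, poch d k ≠ 0 := fun k hk =>
    poch_ne_zero k (fun i hi => hd i (by omega))
  -- the Euler type expansion
  have h1 : ∀ k ∈ range (n + 1), (-1) ^ k * (n.choose k : ℚ) * poch a k * poch b k * poch c k *
      poch (e + k) (n - k) * poch (f + k) (n - k) / poch d k =
      ∑ j ∈ range (k + 1), ((-1) ^ k * (n.choose k : ℚ) * poch a k *
        poch (e + k) (n - k) * poch (f + k) (n - k) * ((k.choose j : ℚ) * poch (d - b) j *
        poch (d - c) j * poch (b + c - d) (k - j) / poch d j)) := by
    intro k hk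
    have hk := mem_range.mp hk
    have h2 := saal (d - b) (d - c) d k
    have e1 : d - (d - b) - (d - c) = b + c - d := by ring
    have e2 : d - (d - b) = b := by ring
    have e3 : d - (d - c) = c := by ring
    rw [e1, e2, e3] at h2
    rw [← mul_sum]
    have h3 : ∑ j ∈ range (k + 1), ((k.choose j : ℚ) * poch (d - b) j *
        poch (d - c) j * poch (b + c - d) (k - j) / poch d j) = poch b k * poch c k / poch d k := by
      rw [← h2, sum_div]
      apply sum_congr rfl
      intro j hj
      have hj := mem_range.mp hj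
      have h4 : poch d k = poch d j * poch (d + j) (k - j) := by
        rw [← poch_add]; congr 1; omega
      have h5 := hd' k (by omega)
      rw [h4] at h5
      have h6 := left_ne_zero_of_mul h5
      have h7 := right_ne_zero_of_mul h5
      rw [h4]
      field_simp
    rw [h3]
    ring
  rw [sum_congr rfl h1]
  -- swap the sums
  have h2 : ∑ k ∈ range (n + 1), ∑ j ∈ range (k + 1), ((-1) ^ k * (n.choose k : ℚ) * poch a k *
        poch (e + k) (n - k) * poch (f + k) (n - k) * ((k.choose j : ℚ) * poch (d - b) j *
        poch (d - c) j * poch (b + c - d) (k - j) / poch d j)) =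
      ∑ j ∈ range (n + 1), ∑ m ∈ range (n - j + 1), ((-1) ^ (j + m) * (n.choose (j + m) : ℚ) *
        poch a (j + m) * poch (e + ((j + m : ℕ) : ℚ)) (n - (j + m)) *
        poch (f + ((j + m : ℕ) : ℚ)) (n - (j + m)) * (((j + m).choose j : ℚ) * poch (d - b) j *
        poch (d - c) j * poch (b + c - d) (j + m - j) / poch d j)) := by
    rw [sum_sigma', sum_sigma']
    refine sum_bij' (fun x _ => ⟨x.2, x.1 - x.2⟩) (fun x _ => ⟨x.1 + x.2, x.1⟩) ?_ ?_ ?_ ?_ ?_
    · rintro ⟨k, j⟩ h; simp only [mem_sigma, mem_range] at h ⊢; omega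
    · rintro ⟨j, m⟩ h; simp only [mem_sigma, mem_range] at h ⊢; omega
    · rintro ⟨k, j⟩ h
      simp only [mem_sigma, mem_range] at h
      simp only [Sigma.mk.injEq, heq_eq_eq, and_true]
      omega
    · rintro ⟨j, m⟩ h
      simp only [mem_sigma, mem_range] at h
      simp only [Sigma.mk.injEq, heq_eq_eq, true_and]
      omega
    · rintro ⟨k, j⟩ h
      simp only [mem_sigma, mem_range] at h
      have : j + (k - j) = k := by omega
      simp only [this]
  rw [h2]
  apply sum_congr rfl
  intro j hj
  have hj := mem_range.mp hj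
  have hc : e + j - (a + j) - (b + c - d) = 1 - (f + j) - ((n - j : ℕ) : ℚ) := by
    rw [Nat.cast_sub (by omega)]
    linear_combination h
  have h3 := saal_alt (a + j) (b + c - d) (e + j) (f + j) (n - j) hc
  have e1 : e + j - (a + j) = e - a := by ring
  have e2 : f + j - (a + j) = f - a := by ring
  rw [e1, e2] at h3
  have h4 : ∀ m ∈ range (n - j + 1), (-1) ^ (j + m) * (n.choose (j + m) : ℚ) *
        poch a (j + m) * poch (e + ((j + m : ℕ) : ℚ)) (n - (j + m)) *
        poch (f + ((j + m : ℕ) : ℚ)) (n - (j + m)) * (((j + m).choose j : ℚ) * poch (d - b) j *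
        poch (d - c) j * poch (b + c - d) (j + m - j) / poch d j) =
      ((-1) ^ j * (n.choose j : ℚ) * poch a j * poch (d - b) j *
      poch (d - c) j / poch d j) * ((-1) ^ m * ((n - j).choose m : ℚ) * poch (a + j) m *
      poch (b + c - d) m * poch (e + j + m) (n - j - m) * poch (f + j + m) (n - j - m)) := by
    intro m hm
    have hm := mem_range.mp hm
    have c1 : (n.choose (j + m) : ℚ) * ((j + m).choose j : ℚ) =
        (n.choose j : ℚ) * ((n - j).choose m : ℚ) := by
      have := Nat.choose_mul (n := n) (k := j + m) (s := j) (by omega)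
      have e4 : j + m - j = m := by omega
      rw [e4] at this
      exact_mod_cast this
    have e4 : j + m - j = m := by omega
    have e5 : n - (j + m) = n - j - m := by omega
    have e6 : e + ((j + m : ℕ) : ℚ) = e + j + m := by push_cast; ring
    have e7 : f + ((j + m : ℕ) : ℚ) = f + j + m := by push_cast; ring
    rw [e4, e5, e6, e7, poch_add, pow_add]
    linear_combination ((-1) ^ j * (-1) ^ m * (poch a j * poch (a + ↑j) m) *
      poch (e + ↑j + ↑m) (n - j - m) * poch (f + ↑j + ↑m) (n - j - m) * (poch (d - b) j *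
      poch (d - c) j * poch (b + c - d) m / poch d j)) * c1
  rw [sum_congr rfl h4, ← mul_sum, h3]
  ring

end Pool.Agent.Helper91.SC
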