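import Mathlib
import Pool.Agent.Helper91.SC.Poch

/-!
Exact formulas for `S N = ∑_{k<N} (35k+8) M_k / 81^k`.
-/

set_option autoImplicit false

namespace Pool.Agent.Helper91.SC

open Finset

/-- the truncated sum -/
def SS (N : ℕ) : ℚ := ∑ k ∈ range N, ((35 * (k : ℚ) + 8) / (81 : ℚ) ^ k) *
  ((Nat.factorial (4 * k) : ℚ) / (Nat.factorial k : ℚ) ^ 4)

/-- central binomial coefficient -/
def cb (j : ℕ) : ℚ := ((2 * j).factorial : ℚ) / (j.factorial : ℚ) ^ 2

/-- the WZ function, first argument shifted by one -/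
def Wf (m j : ℕ) : ℚ := cb j * ((3 * m + 2 + j).factorial : ℚ) /
  (((m + 1).factorial : ℚ) ^ 2 * ((m + 1 + j).factorial : ℚ) * 3 ^ (3 * m + 3 + j))

theorem cb_succ (j : ℕ) : cb (j + 1) * ((j : ℚ) + 1) = 2 * (2 * j + 1) * cb j := by
  unfold cb
  have e : 2 * (j + 1) = 2 * j + 1 + 1 := by ring
  rw [e, Nat.factorial_succ, Nat.factorial_succ, Nat.factorial_succ]
  have h : (j.factorial : ℚ) ≠ 0 := by exact_mod_cast j.factorial_ne_zero
  push_cast
  field_simp
  ring

theorem wz (m j : ℕ) : 108 * ((m : ℚ) + 2) ^ 2 * Wf (m + 1) j - 108 * ((m : ℚ) + 1) ^ 2 * Wf m j =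
    12 * ((j : ℚ) + 1) ^ 2 * Wf m (j + 1) - 12 * (j : ℚ) ^ 2 * Wf m j := by
  unfold Wf
  have e1 : 3 * (m + 1) + 2 + j = 3 * m + 2 + j + 1 + 1 + 1 := by ring
  have e2 : m + 1 + 1 + j = m + 1 + j + 1 := by ring
  have e3 : 3 * (m + 1) + 3 + j = 3 * m + 3 + j + 3 := by ring
  have e4 : 3 * m + 2 + (j + 1) = 3 * m + 2 + j + 1 := by ring
  have e5 : m + 1 + (j + 1) = m + 1 + j + 1 := by ring
  have e6 : 3 * m + 3 + (j + 1) = 3 * m + 3 + j + 1 := by ring
  have hc : cb (j + 1) = 2 * (2 * j + 1) * cb j / ((j : ℚ) + 1) := by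
    rw [eq_div_iff (by positivity)]; exact cb_succ j
  rw [e1, e2, e3, e4, e5, e6, hc, pow_add, pow_add _ _ 1]
  simp only [Nat.factorial_succ]
  have h1 : ((3 * m + 2 + j).factorial : ℚ) ≠ 0 := by exact_mod_cast Nat.factorial_ne_zero _
  have h2 : ((m).factorial : ℚ) ≠ 0 := by exact_mod_cast Nat.factorial_ne_zero _
  have h3 : ((m + 1 + j).factorial : ℚ) ≠ 0 := by exact_mod_cast Nat.factorial_ne_zero _
  push_cast
  generalize cb j = c
  generalize ((3 * m + 2 + j).factorial : ℚ) = A at *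
  generalize ((m).factorial : ℚ) = B at *
  generalize ((m + 1 + j).factorial : ℚ) = D at *
  have h4 : ((m : ℚ) + 1 + j + 1) ≠ 0 := by positivity
  field_simp
  ring

theorem wz_end (m : ℕ) : 108 * ((m : ℚ) + 2) ^ 2 * Wf (m + 1) (m + 1) +
    12 * ((m : ℚ) + 1) ^ 2 * Wf m (m + 1) = ((35 * ((m + 1 : ℕ) : ℚ) + 8) / (81 : ℚ) ^ (m + 1)) *
  ((Nat.factorial (4 * (m + 1)) : ℚ) / (Nat.factorial (m + 1) : ℚ) ^ 4) := by
  unfold Wf cb
  have e1 : 3 * (m + 1) + 2 + (m + 1) = 4 * m + 6 := by ring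
  have e2 : m + 1 + 1 + (m + 1) = 2 * m + 3 := by ring
  have e3 : 3 * (m + 1) + 3 + (m + 1) = 4 * m + 7 := by ring
  have e4 : 3 * m + 2 + (m + 1) = 4 * m + 3 := by ring
  have e5 : m + 1 + (m + 1) = 2 * m + 2 := by ring
  have e6 : 3 * m + 3 + (m + 1) = 4 * m + 4 := by ring
  have e7 : 4 * (m + 1) = 4 * m + 4 := by ring
  have e8 : 2 * (m + 1) = 2 * m + 2 := by ring
  rw [e1, e2, e3, e4, e5, e6, e7, e8]
  have e9 : (81 : ℚ) ^ (m + 1) = 3 ^ (4 * m + 4) := by
    rw [show (81 : ℚ) = 3 ^ 4 by norm_num, ← pow_mul]; congr 1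
  rw [e9, show 4 * m + 7 = 4 * m + 4 + 3 by ring, pow_add _ (4 * m + 4) 3]
  simp only [Nat.factorial_succ]
  have h1 : ((4 * m + 3).factorial : ℚ) ≠ 0 := by exact_mod_cast Nat.factorial_ne_zero _
  have h2 : ((m).factorial : ℚ) ≠ 0 := by exact_mod_cast Nat.factorial_ne_zero _
  have h3 : ((2 * m).factorial : ℚ) ≠ 0 := by exact_mod_cast Nat.factorial_ne_zero _
  have h4 : ((4 * m).factorial : ℚ) ≠ 0 := by exact_mod_cast Nat.factorial_ne_zero _
  push_cast
  generalize ((4 * m).factorial : ℚ) = A at *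
  generalize ((m).factorial : ℚ) = B at *
  generalize ((2 * m).factorial : ℚ) = D at *
  field_simp
  ring

theorem SS_eq_W (m : ℕ) : SS (m + 1) = ∑ j ∈ range (m + 1), 108 * ((m : ℚ) + 1) ^ 2 * Wf m j := by
  induction m with
  | zero =>
    simp only [SS, zero_add, range_one, sum_singleton, Wf, cb]
    norm_num [Nat.factorial]
  | succ m ih =>
    have h1 : SS (m + 1 + 1) = SS (m + 1) + ((35 * ((m + 1 : ℕ) : ℚ) + 8) / (81 : ℚ) ^ (m + 1)) *
        ((Nat.factorial (4 * (m + 1)) : ℚ) / (Nat.factorial (m + 1) : ℚ) ^ 4) := by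
      rw [SS, sum_range_succ, ← SS]
    rw [h1, ih, ← wz_end, sum_range_succ _ (m + 1)]
    have h2 : ∑ j ∈ range (m + 1), (108 * (((m + 1 : ℕ) : ℚ) + 1) ^ 2 * Wf (m + 1) j -
        108 * ((m : ℚ) + 1) ^ 2 * Wf m j) = 12 * (((m + 1 : ℕ) : ℚ)) ^ 2 * Wf m (m + 1) := by
      have h3 := sum_range_sub (fun j : ℕ => 12 * (j : ℚ) ^ 2 * Wf m j) (m + 1)
      simp only [Nat.cast_zero, ne_eq, OfNat.ofNat_ne_zero, not_false_eq_true, zero_pow,
        mul_zero, zero_mul, sub_zero] at h3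
      rw [← h3]
      apply sum_congr rfl
      intro j _
      have := wz m j
      push_cast
      have e : ((m : ℚ) + 1 + 1) = m + 2 := by ring
      rw [e]
      exact this
    rw [sum_sub_distrib] at h2
    push_cast at h2 ⊢
    have e : ((m : ℚ) + 1 + 1) = m + 2 := by ring
    rw [e] at h2 ⊢
    linear_combination (-1) * h2

/-! ### the second form -/

/-- coefficients of the short sum -/
def dd (N l : ℕ) : ℚ := if 3 * l + 1 ≤ N then ((N - 1 - l).factorial : ℚ) /
  ((l.factorial : ℚ) ^ 2 * 27 ^ l * ((N - 1 - 3 * l).factorial : ℚ)) else 0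

/-- auxiliary coefficients -/
def gg (N l : ℕ) : ℚ := if 3 * l ≤ N then 3 ^ (N - 3 * l) * ((N - 1 - l).factorial : ℚ) /
  ((l.factorial : ℚ) ^ 2 * ((N - 3 * l).factorial : ℚ)) else 0

/-- certificate -/
def QQ (N l : ℕ) : ℚ := if 3 * l ≤ N + 1 then -9 * (l : ℚ) ^ 2 * 3 ^ (N + 1 - 3 * l) *
  ((N - l).factorial : ℚ) / ((l.factorial : ℚ) ^ 2 * ((N + 1 - 3 * l).factorial : ℚ)) else 0

theorem gg_cert (N l : ℕ) (hN : 1 ≤ N) :
    ((N : ℚ) + 1) ^ 2 * gg (N + 1) l - 2 * N * (2 * N + 1) * gg N l = QQ N (l + 1) - QQ N l := by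
  have hl : ((l).factorial : ℚ) ≠ 0 := by exact_mod_cast Nat.factorial_ne_zero _
  by_cases h1 : 3 * (l + 1) ≤ N + 1
  · obtain ⟨r, hr⟩ : ∃ r, N = 3 * l + 2 + r := ⟨N - (3 * l + 2), by omega⟩
    unfold gg QQ
    rw [if_pos (by omega), if_pos (by omega), if_pos (by omega), if_pos (by omega)]
    have e1 : N + 1 - 3 * l = r + 3 := by omega
    have e2 : N + 1 - 1 - l = 2 * l + r + 1 + 1 := by omega
    have e3 : N - 3 * l = r + 2 := by omega
    have e4 : N - 1 - l = 2 * l + r + 1 := by omega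
    have e5 : N + 1 - 3 * (l + 1) = r := by omega
    have e6 : N - (l + 1) = 2 * l + r + 1 := by omega
    have e7 : N - l = 2 * l + r + 1 + 1 := by omega
    rw [e1, e2, e3, e4, e5, e6, e7, hr, pow_add _ r 3, pow_add _ r 2]
    simp only [Nat.factorial_succ]
    have h2 : ((r).factorial : ℚ) ≠ 0 := by exact_mod_cast Nat.factorial_ne_zero _
    push_cast
    generalize ((2 * l + r).factorial : ℚ) = A at *
    generalize ((l).factorial : ℚ) = B at *
    generalize ((r).factorial : ℚ) = D at *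
    field_simp
    ring
  · by_cases h2 : N + 1 < 3 * l
    · unfold gg QQ
      rw [if_neg (by omega), if_neg (by omega), if_neg (by omega), if_neg (by omega)]
      ring
    · unfold gg QQ
      rw [if_neg (show ¬ (3 * (l + 1) ≤ N + 1) from h1)]
      have h3 : N + 1 = 3 * l + 2 ∨ N + 1 = 3 * l + 1 ∨ N + 1 = 3 * l := by omega
      rcases h3 with h3 | h3 | h3
      · rw [if_pos (by omega), if_pos (by omega), if_pos (by omega)]
        have e0 : N = 3 * l + 1 := by omega
        have e1 : N + 1 - 3 * l = 2 := by omega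
        have e2 : N + 1 - 1 - l = 2 * l + 1 := by omega
        have e3 : N - 3 * l = 1 := by omega
        have e4 : N - 1 - l = 2 * l := by omega
        have e7 : N - l = 2 * l + 1 := by omega
        rw [e1, e2, e3, e4, e7, e0]
        simp only [Nat.factorial_succ, Nat.factorial_two, Nat.factorial_one]
        push_cast
        generalize ((2 * l).factorial : ℚ) = A at *
        generalize ((l).factorial : ℚ) = B at *
        field_simp
        ring
      · rw [if_pos (by omega), if_pos (by omega), if_pos (by omega)]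
        obtain ⟨q, hq⟩ : ∃ q, l = q + 1 := ⟨l - 1, by omega⟩
        have e0 : N = 3 * l := by omega
        have e1 : N + 1 - 3 * l = 1 := by omega
        have e2 : N + 1 - 1 - l = 2 * q + 1 + 1 := by omega
        have e3 : N - 3 * l = 0 := by omega
        have e4 : N - 1 - l = 2 * q + 1 := by omega
        have e7 : N - l = 2 * q + 1 + 1 := by omega
        rw [e1, e2, e3, e4, e7, e0]
        simp only [Nat.factorial_succ, Nat.factorial_zero]
        have hq' : (l : ℚ) = q + 1 := by rw [hq]; push_cast; ring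
        push_cast
        rw [hq']
        generalize ((2 * q).factorial : ℚ) = A at *
        generalize ((l).factorial : ℚ) = B at *
        field_simp
        ring
      · rw [if_pos (by omega), if_neg (by omega), if_pos (by omega)]
        obtain ⟨q, hq⟩ : ∃ q, l = q + 1 := ⟨l - 1, by omega⟩
        have e1 : N + 1 - 3 * l = 0 := by omega
        have e2 : N + 1 - 1 - l = 2 * q + 1 := by omega
        have e7 : N - l = 2 * q + 1 := by omega
        have e0 : ((N : ℚ) + 1) = 3 * l := by exact_mod_cast h3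
        rw [e1, e2, e7, e0]
        simp only [Nat.factorial_zero]
        have hq' : (l : ℚ) = q + 1 := by rw [hq]; push_cast; ring
        push_cast
        generalize ((2 * q + 1).factorial : ℚ) = A at *
        generalize ((l).factorial : ℚ) = B at *
        field_simp
        ring

theorem gg_sum_rec (N K : ℕ) (hN : 1 ≤ N) (hK : N + 2 ≤ K) :
    ((N : ℚ) + 1) ^ 2 * ∑ l ∈ range K, gg (N + 1) l =
      2 * N * (2 * N + 1) * ∑ l ∈ range K, gg N l := by
  have h1 : ∑ l ∈ range K, (((N : ℚ) + 1) ^ 2 * gg (N + 1) l - 2 * N * (2 * N + 1) * gg N l) =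
      QQ N K - QQ N 0 := by
    rw [← sum_range_sub (fun l => QQ N l) K]
    exact sum_congr rfl (fun l _ => gg_cert N l hN)
  have h2 : QQ N K = 0 := by unfold QQ; rw [if_neg (by omega)]
  have h3 : QQ N 0 = 0 := by unfold QQ; simp
  rw [h2, h3, sum_sub_distrib, ← mul_sum, ← mul_sum] at h1
  linear_combination h1

theorem gg_sum (N : ℕ) : ∀ K, N + 2 ≤ K →
    ∑ l ∈ range K, gg (N + 1) l = 3 / (2 * ((N : ℚ) + 1)) * cb (N + 1) := by
  induction N with
  | zero =>
    intro K hK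
    have h1 : ∀ l ∈ range K, l ≠ 0 → gg (0 + 1) l = 0 := by
      intro l _ hl
      unfold gg
      rw [if_neg (by omega)]
    rw [sum_eq_single 0 h1 (fun h => absurd (mem_range.mpr (by omega)) h)]
    norm_num [gg, cb, Nat.factorial]
  | succ N ih =>
    intro K hK
    have h1 := gg_sum_rec (N + 1) K (by omega) (by omega)
    rw [ih K (by omega)] at h1
    have h2 := cb_succ (N + 1)
    push_cast at h1 h2 ⊢
    have h3 : ((N : ℚ) + 1 + 1) ≠ 0 := by positivity
    have h4 : ((N : ℚ) + 1) ≠ 0 := by positivity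
    have h5 : cb (N + 1 + 1) = 2 * (2 * ((N : ℚ) + 1) + 1) * cb (N + 1) / ((N : ℚ) + 1 + 1) := by
      rw [eq_div_iff h3]; exact h2
    have h6 : ∑ l ∈ range K, gg (N + 1 + 1) l = (2 * ((N : ℚ) + 1) * (2 * ((N : ℚ) + 1) + 1) *
        (3 / (2 * ((N : ℚ) + 1)) * cb (N + 1))) / ((N : ℚ) + 1 + 1) ^ 2 := by
      rw [eq_div_iff (by positivity)]
      linear_combination h1
    rw [h6, h5]
    field_simp

theorem dd_gg (N l : ℕ) (hN : 1 ≤ N) :
    3 * dd (N + 1) l - dd N l = 2 * N / 3 ^ N * gg N l := by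
  have hl : ((l).factorial : ℚ) ≠ 0 := by exact_mod_cast Nat.factorial_ne_zero _
  by_cases h : 3 * l + 1 ≤ N
  · obtain ⟨r, hr⟩ : ∃ r, N = 3 * l + 1 + r := ⟨N - (3 * l + 1), by omega⟩
    unfold dd gg
    rw [if_pos (by omega), if_pos (by omega), if_pos (by omega)]
    have e1 : N + 1 - 1 - l = 2 * l + r + 1 := by omega
    have e2 : N + 1 - 1 - 3 * l = r + 1 := by omega
    have e3 : N - 1 - l = 2 * l + r := by omega
    have e4 : N - 1 - 3 * l = r := by omega
    have e5 : N - 3 * l = r + 1 := by omega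
    rw [e1, e2, e3, e4, e5, hr]
    have e6 : (3 : ℚ) ^ (3 * l + 1 + r) = 27 ^ l * 3 ^ (r + 1) := by
      rw [show (27 : ℚ) = 3 ^ 3 by norm_num, ← pow_mul, ← pow_add]
      congr 1; ring
    rw [e6]
    simp only [Nat.factorial_succ]
    have h2 : ((r).factorial : ℚ) ≠ 0 := by exact_mod_cast Nat.factorial_ne_zero _
    push_cast
    generalize ((2 * l + r).factorial : ℚ) = A at *
    generalize ((l).factorial : ℚ) = B at *
    generalize ((r).factorial : ℚ) = D at *
    field_simp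
    ring
  · by_cases h1 : 3 * l ≤ N
    · unfold dd gg
      rw [if_pos (by omega), if_neg (by omega), if_pos (by omega)]
      obtain ⟨q, hq⟩ : ∃ q, l = q + 1 := ⟨l - 1, by omega⟩
      have e1 : N + 1 - 1 - l = 2 * q + 1 + 1 := by omega
      have e2 : N + 1 - 1 - 3 * l = 0 := by omega
      have e3 : N - 1 - l = 2 * q + 1 := by omega
      have e5 : N - 3 * l = 0 := by omega
      have e0 : N = 3 * l := by omega
      rw [e1, e2, e3, e5, e0]
      have e6 : (3 : ℚ) ^ (3 * l) = 27 ^ l := by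
        rw [show (27 : ℚ) = 3 ^ 3 by norm_num, ← pow_mul]
      rw [e6]
      simp only [Nat.factorial_succ, Nat.factorial_zero]
      have hq' : (l : ℚ) = q + 1 := by rw [hq]; push_cast; ring
      push_cast
      rw [hq']
      generalize ((2 * q).factorial : ℚ) = A at *
      generalize ((l).factorial : ℚ) = B at *
      field_simp
      ring
    · unfold dd gg
      rw [if_neg (by omega), if_neg (by omega), if_neg (by omega)]
      ring

theorem dd_sum (N K : ℕ) (hN : 1 ≤ N) (hK : N + 1 ≤ K) :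
    3 * ∑ l ∈ range K, dd (N + 1) l - ∑ l ∈ range K, dd N l = 3 * cb N / 3 ^ N := by
  rw [mul_sum, ← sum_sub_distrib, sum_congr rfl (fun l _ => dd_gg N l hN), ← mul_sum]
  obtain ⟨M, rfl⟩ : ∃ M, N = M + 1 := ⟨N - 1, by omega⟩
  rw [gg_sum M K (by omega)]
  have h4 : ((M : ℚ) + 1) ≠ 0 := by positivity
  push_cast
  field_simp

theorem dd_rel (N l : ℕ) (hN : 1 ≤ N) :
    ((N : ℚ) - 3 * l) * dd (N + 1) l = ((N : ℚ) - l) * dd N l := by
  by_cases h : 3 * l + 1 ≤ N
  · obtain ⟨r, hr⟩ : ∃ r, N = 3 * l + 1 + r := ⟨N - (3 * l + 1), by omega⟩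
    unfold dd
    rw [if_pos (by omega), if_pos (by omega)]
    have e1 : N + 1 - 1 - l = 2 * l + r + 1 := by omega
    have e2 : N + 1 - 1 - 3 * l = r + 1 := by omega
    have e3 : N - 1 - l = 2 * l + r := by omega
    have e4 : N - 1 - 3 * l = r := by omega
    rw [e1, e2, e3, e4, hr]
    simp only [Nat.factorial_succ]
    have h2 : ((r).factorial : ℚ) ≠ 0 := by exact_mod_cast Nat.factorial_ne_zero _
    have hl : ((l).factorial : ℚ) ≠ 0 := by exact_mod_cast Nat.factorial_ne_zero _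
    push_cast
    generalize ((2 * l + r).factorial : ℚ) = A at *
    generalize ((l).factorial : ℚ) = B at *
    generalize ((r).factorial : ℚ) = D at *
    field_simp
    ring
  · have h1 : dd N l = 0 := by unfold dd; rw [if_neg h]
    rw [h1, mul_zero]
    by_cases h2 : 3 * l ≤ N
    · have : (N : ℚ) = 3 * l := by
        have : N = 3 * l := by omega
        rw [this]; push_cast; ring
      rw [this]; ring
    · have : dd (N + 1) l = 0 := by unfold dd; rw [if_neg (by omega)]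
      rw [this, mul_zero]

/-- the short sum -/
def RR (x : ℚ) (N : ℕ) : ℚ := ∑ l ∈ range N, x / (x + l) * dd N l

theorem dd_zero_of (N l : ℕ) (h : N < 3 * l + 1) : dd N l = 0 := by
  unfold dd; rw [if_neg (by omega)]

theorem RR_rec (x : ℚ) (hx : 0 < x) (N : ℕ) (hN : 1 ≤ N) :
    (3 * x + N) * RR x (N + 1) - (x + N) * RR x N = 3 * x * cb N / 3 ^ N := by
  have h1 : RR x N = ∑ l ∈ range (N + 1), x / (x + l) * dd N l := by
    rw [sum_range_succ, dd_zero_of N N (by omega)]; simp [RR]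
  rw [h1, RR, mul_sum, mul_sum, ← sum_sub_distrib]
  have h2 : ∀ l ∈ range (N + 1), (3 * x + N) * (x / (x + l) * dd (N + 1) l) -
      (x + N) * (x / (x + l) * dd N l) = x * (3 * dd (N + 1) l - dd N l) := by
    intro l _
    have h3 := dd_rel N l hN
    have h4 : (x + (l : ℚ)) ≠ 0 := by positivity
    field_simp
    linear_combination h3
  rw [sum_congr rfl h2, ← mul_sum, sum_sub_distrib, ← mul_sum, dd_sum N (N + 1) hN le_rfl]
  ring

theorem FF_eq (x : ℚ) (hx : 0 < x) (M : ℕ) :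
    ∑ j ∈ range (M + 1), cb j * poch (3 * x) j / (poch (x + 1) j * 3 ^ j) =
      poch (3 * x + 1) M / poch (x + 1) M * RR x (M + 1) := by
  induction M with
  | zero =>
    have h1 : x ≠ 0 := hx.ne'
    simp only [zero_add, range_one, sum_singleton, RR, dd, poch_zero, cb]
    norm_num
    rw [div_self h1]
  | succ M ih =>
    rw [sum_range_succ, ih]
    have h1 := RR_rec x hx (M + 1) (by omega)
    have h2 : poch (x + 1) M ≠ 0 := (poch_pos M (by positivity)).ne'
    have h3 : (x + 1 + (M : ℚ)) ≠ 0 := by positivity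
    rw [poch_succ (x + 1) M, poch_succ_left (3 * x) M, poch_succ (3 * x + 1) M]
    push_cast at h1 ⊢
    have h4 : (3 : ℚ) ^ (M + 1) ≠ 0 := by positivity
    have h5 : cb (M + 1) = ((3 * x + (M + 1)) * RR x (M + 1 + 1) - (x + (M + 1)) * RR x (M + 1)) *
        3 ^ (M + 1) / (3 * x) := by
      rw [h1]; field_simp
    rw [h5]
    field_simp
    ring

theorem SS_exact (N : ℕ) (hN : 1 ≤ N) :
    SS N = 18 * N * ((4 * N).factorial : ℚ) / ((N.factorial : ℚ) ^ 2 * ((2 * N).factorial : ℚ) *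
      27 ^ N) * RR N N := by
  obtain ⟨m, rfl⟩ : ∃ m, N = m + 1 := ⟨N - 1, by omega⟩
  rw [SS_eq_W]
  have h1 : ∀ j ∈ range (m + 1), 108 * ((m : ℚ) + 1) ^ 2 * Wf m j =
      (108 * ((m : ℚ) + 1) ^ 2 * ((3 * m + 2).factorial : ℚ) / (((m + 1).factorial : ℚ) ^ 3 *
        27 ^ (m + 1))) * (cb j * poch (3 * ((m + 1 : ℕ) : ℚ)) j /
          (poch (((m + 1 : ℕ) : ℚ) + 1) j * 3 ^ j)) := by
    intro j _
    have e1 : (3 * ((m + 1 : ℕ) : ℚ)) = ((3 * m + 2 : ℕ) : ℚ) + 1 := by push_cast; ring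
    rw [e1, poch_nat, poch_nat, Wf]
    have e2 : (3 : ℚ) ^ (3 * m + 3 + j) = 27 ^ (m + 1) * 3 ^ j := by
      rw [show (27 : ℚ) = 3 ^ 3 by norm_num, ← pow_mul, ← pow_add]
      congr 1
    rw [e2]
    have h2 : ((3 * m + 2).factorial : ℚ) ≠ 0 := by exact_mod_cast Nat.factorial_ne_zero _
    have h3 : ((m + 1).factorial : ℚ) ≠ 0 := by exact_mod_cast Nat.factorial_ne_zero _
    have h4 : ((m + 1 + j).factorial : ℚ) ≠ 0 := by exact_mod_cast Nat.factorial_ne_zero _
    field_simp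
  rw [sum_congr rfl h1, ← mul_sum, FF_eq _ (by positivity)]
  have e1 : (3 * ((m + 1 : ℕ) : ℚ)) + 1 = ((3 * m + 3 : ℕ) : ℚ) + 1 := by push_cast; ring
  rw [e1, poch_nat, poch_nat]
  have e2 : 3 * m + 3 + m = 4 * m + 3 := by ring
  have e3 : m + 1 + m = 2 * m + 1 := by ring
  have e4 : 4 * (m + 1) = 4 * m + 3 + 1 := by ring
  have e5 : 2 * (m + 1) = 2 * m + 1 + 1 := by ring
  have e6 : 3 * m + 3 = 3 * m + 2 + 1 := by ring
  rw [e2, e3, e4, e5, e6, Nat.factorial_succ (4 * m + 3), Nat.factorial_succ (2 * m + 1),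
    Nat.factorial_succ (3 * m + 2)]
  have h2 : ((3 * m + 2).factorial : ℚ) ≠ 0 := by exact_mod_cast Nat.factorial_ne_zero _
  have h3 : ((m + 1).factorial : ℚ) ≠ 0 := by exact_mod_cast Nat.factorial_ne_zero _
  have h4 : ((2 * m + 1).factorial : ℚ) ≠ 0 := by exact_mod_cast Nat.factorial_ne_zero _
  push_cast
  generalize ((3 * m + 2).factorial : ℚ) = A at *
  generalize ((m + 1).factorial : ℚ) = B at *
  generalize ((2 * m + 1).factorial : ℚ) = D at *
  generalize ((4 * m + 3).factorial : ℚ) = E at *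
  generalize RR ((m : ℚ) + 1) (m + 1) = R at *
  field_simp
  ring

end Pool.Agent.Helper91.SC
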