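import Mathlib
import Pool.Agent.Helper91.SC.Exact
import Pool.Agent.Helper91.Prods

/-!
The short sum `RR N N` transformed by Whipple's formula.
-/

set_option autoImplicit false

namespace Pool.Agent.Helper91.SC

open Finset

section
variable {N L : ℕ} (hN : N = 3 * L + 1 ∨ N = 3 * L + 2)
include hN

theorem cast_cases : ((N : ℚ) = 3 * L + 1) ∨ ((N : ℚ) = 3 * L + 2) := by
  rcases hN with h | h
  · left; rw [h]; push_cast; ring
  · right; rw [h]; push_cast; ring

theorem dd_ratio (l : ℕ) (hl : l < L) :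
    dd N (l + 1) * (((l : ℚ) + 1) ^ 2 * 27 * (N - 1 - l)) =
      dd N l * ((N - 1 - 3 * l) * (N - 2 - 3 * l) * (N - 3 - 3 * l)) := by
  obtain ⟨r, hr⟩ : ∃ r, N = 3 * l + 4 + r := ⟨N - (3 * l + 4), by omega⟩
  unfold dd
  rw [if_pos (by omega), if_pos (by omega)]
  have e1 : N - 1 - (l + 1) = 2 * l + 2 + r := by omega
  have e2 : N - 1 - 3 * (l + 1) = r := by omega
  have e3 : N - 1 - l = 2 * l + 2 + r + 1 := by omega
  have e4 : N - 1 - 3 * l = r + 3 := by omega
  rw [e1, e2, e3, e4]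
  have hc : (N : ℚ) = 3 * l + 4 + r := by rw [hr]; push_cast; ring
  rw [hc]
  simp only [Nat.factorial_succ]
  have h2 : ((r).factorial : ℚ) ≠ 0 := by exact_mod_cast Nat.factorial_ne_zero _
  have hl' : ((l).factorial : ℚ) ≠ 0 := by exact_mod_cast Nat.factorial_ne_zero _
  push_cast
  generalize ((2 * l + 2 + r).factorial : ℚ) = A at *
  generalize ((l).factorial : ℚ) = B at *
  generalize ((r).factorial : ℚ) = D at *
  field_simp
  ring

theorem dd_form (l : ℕ) (hl : l ≤ L) :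
    dd N l * ((l.factorial : ℚ) * poch (1 - N) l) =
      (-1) ^ l * (L.choose l : ℚ) * poch (1 - 2 * N / 3 + L) l * poch (1 - N / 3) l := by
  induction l with
  | zero =>
    unfold dd
    rw [if_pos (by rcases hN with h | h <;> omega)]
    have h1 : ((N - 1).factorial : ℚ) ≠ 0 := by exact_mod_cast Nat.factorial_ne_zero _
    simp [poch_zero, Nat.factorial_ne_zero]
  | succ l ih =>
    have ih := ih (by omega)
    have h1 := dd_ratio hN l (by omega)
    have h2 : (L.choose (l + 1) : ℚ) * ((l : ℚ) + 1) = (L.choose l : ℚ) * ((L : ℚ) - l) := by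
      have := Nat.choose_succ_right_eq L l
      have e : ((L - l : ℕ) : ℚ) = L - l := by rw [Nat.cast_sub (by omega)]
      rw [← e]
      exact_mod_cast this
    have h3 : ((N : ℚ) - 1 - 3 * l) * (N - 2 - 3 * l) * (N - 3 - 3 * l) =
        27 * (L - l) * (1 - 2 * N / 3 + L + l) * (1 - N / 3 + l) := by
      rcases cast_cases hN with h | h <;> rw [h] <;> ring
    have hl1 : ((l : ℚ) + 1) ≠ 0 := by positivity
    have h4 : dd N (l + 1) * ((((l + 1 : ℕ).factorial : ℕ) : ℚ) * poch (1 - N) (l + 1)) *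
        (((l : ℚ) + 1) * 27) = - (dd N (l + 1) * (((l : ℚ) + 1) ^ 2 * 27 * (N - 1 - l))) *
          ((l.factorial : ℚ) * poch (1 - N) l) := by
      rw [Nat.factorial_succ, poch_succ]; push_cast; ring
    apply mul_right_cancel₀ (mul_ne_zero hl1 (by norm_num : (27 : ℚ) ≠ 0))
    rw [h4, h1, h3, poch_succ, poch_succ, pow_succ]
    linear_combination (-(27 * ((L : ℚ) - l) * (1 - 2 * N / 3 + L + l) * (1 - N / 3 + l))) * ih +
      ((-1) ^ l * poch (1 - 2 * ↑N / 3 + ↑L) l * (1 - 2 * ↑N / 3 + ↑L + ↑l) *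
        poch (1 - ↑N / 3) l * (1 - ↑N / 3 + ↑l) * 27) * h2

omit hN in
theorem fact_split (l : ℕ) (hl : l ≤ L) : (l.factorial : ℚ) * poch (1 + l) (L - l) =
    (L.factorial : ℚ) := by
  have := poch_add 1 l (L - l)
  have e : l + (L - l) = L := by omega
  rw [e, poch_one, poch_one] at this
  exact this.symm

theorem poch_shift (l : ℕ) : poch (N : ℚ) l / poch ((N : ℚ) + 1) l = N / (N + l) := by
  have hN0 : 0 < (N : ℚ) := by rcases cast_cases hN with h | h <;> rw [h] <;> positivity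
  have h1 := poch_succ (N : ℚ) l
  have h2 := poch_succ_left (N : ℚ) l
  have h3 : poch ((N : ℚ) + 1) l ≠ 0 := (poch_pos l (by positivity)).ne'
  have h4 : ((N : ℚ) + l) ≠ 0 := by positivity
  rw [div_eq_div_iff h3 h4]
  rw [← h1, h2]

theorem poch_neg_ne (l : ℕ) (hl : l ≤ L) : poch (1 - (N : ℚ)) l ≠ 0 := by
  apply poch_ne_zero
  intro i hi h
  have h1 : (N : ℚ) = 1 + i := by linear_combination -h
  have h2 : N = 1 + i := by exact_mod_cast h1
  omega

/-- the transformed terms -/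
def Tw (x : ℚ) (L j : ℕ) : ℚ := (-1) ^ j * (L.choose j : ℚ) * poch x j * poch (5 * x / 3 - L) j *
  poch (4 * x / 3) j / poch (x + 1) j * poch (1 - x) (L - j) * poch (1 - 2 * x) (L - j)

theorem RR_whipple :
    RR N N * ((L.factorial : ℚ) * poch (1 - N) L) = ∑ j ∈ range (L + 1), Tw N L j := by
  have hN0 : 0 < (N : ℚ) := by rcases cast_cases hN with h | h <;> rw [h] <;> positivity
  have h1 := whipple (N : ℚ) (1 - 2 * N / 3 + L) (1 - N / 3) (N + 1) 1 (1 - N) L
    (fun i _ => by positivity) (by ring)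
  have e1 : ∑ j ∈ range (L + 1), Tw N L j =
      ∑ j ∈ range (L + 1), ((-1) ^ j * (L.choose j : ℚ) * poch N j *
        poch ((N : ℚ) + 1 - (1 - 2 * N / 3 + L)) j *
      poch ((N : ℚ) + 1 - (1 - N / 3)) j / poch ((N : ℚ) + 1) j * poch (1 - (N : ℚ)) (L - j) *
        poch (1 - (N : ℚ) - N) (L - j)) := by
    apply sum_congr rfl
    intro j _
    unfold Tw
    congr 2
    · congr 4
      · ring
      · ring
    · ring
  rw [e1, ← h1, RR]
  have h2 : ∑ l ∈ range N, (N : ℚ) / (N + l) * dd N l =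
      ∑ l ∈ range (L + 1), (N : ℚ) / (N + l) * dd N l := by
    symm
    apply sum_subset
    · intro x hx
      rw [mem_range] at hx ⊢
      rcases hN with h | h <;> omega
    · intro x _ hx
      rw [mem_range] at hx
      rw [dd_zero_of N x (by rcases hN with h | h <;> omega), mul_zero]
  rw [h2, sum_mul]
  apply sum_congr rfl
  intro l hl
  have hl := mem_range.mp hl
  have h3 := dd_form hN l (by omega)
  have h4 := fact_split (L := L) l (by omega)
  have h5 : poch (1 - (N : ℚ)) l * poch (1 - (N : ℚ) + l) (L - l) = poch (1 - (N : ℚ)) L := by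
    rw [← poch_add]; congr 1; omega
  have h6 := poch_shift hN l
  have h7 : poch ((N : ℚ) + 1) l ≠ 0 := (poch_pos l (by positivity)).ne'
  rw [← h4, ← h5, ← h6]
  rw [div_mul_eq_mul_div, div_mul_eq_mul_div, div_left_inj' h7]
  linear_combination (poch (N : ℚ) l * poch (1 + (l : ℚ)) (L - l) *
    poch (1 - (N : ℚ) + l) (L - l)) * h3

/-- the factor appearing in reversed order -/
def hq (u : ℚ) : ℚ := (1 - 5 * u / 3) / ((1 - u) * (1 - 2 * u))

theorem Tw_ratio (j : ℕ) (hj : j < L) :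
    Tw N L (j + 1) * (((j : ℚ) + 1) * (N + j + 1) * (L - j - N) * (L - j - 2 * N)) =
      - Tw N L j * ((L - j) * (N + j) * (5 * N / 3 - L + j) * (4 * N / 3 + j)) := by
  have hN0 : 0 < (N : ℚ) := by rcases cast_cases hN with h | h <;> rw [h] <;> positivity
  obtain ⟨r, hr⟩ : ∃ r, L = j + 1 + r := ⟨L - (j + 1), by omega⟩
  have e1 : L - (j + 1) = r := by omega
  have e2 : L - j = r + 1 := by omega
  have h2 : (L.choose (j + 1) : ℚ) * ((j : ℚ) + 1) = (L.choose j : ℚ) * ((L : ℚ) - j) := by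
    have := Nat.choose_succ_right_eq L j
    have e : ((L - j : ℕ) : ℚ) = L - j := by rw [Nat.cast_sub (by omega)]
    rw [← e]
    exact_mod_cast this
  unfold Tw
  rw [e1, e2]
  simp only [poch_succ, pow_succ]
  have h7 : poch ((N : ℚ) + 1) j ≠ 0 := (poch_pos j (by positivity)).ne'
  have h8 : ((N : ℚ) + 1 + j) ≠ 0 := by positivity
  have hLc : (L : ℚ) = j + 1 + r := by rw [hr]; push_cast; ring
  have h9 : (r : ℚ) = L - j - 1 := by rw [hLc]; ring
  rw [h9]
  generalize poch ((N : ℚ) + 1) j = P1 at *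
  generalize poch (N : ℚ) j = P2 at *
  generalize poch (5 * (N : ℚ) / 3 - L) j = P3 at *
  generalize poch (4 * (N : ℚ) / 3) j = P4 at *
  generalize poch (1 - (N : ℚ)) r = P5 at *
  generalize poch (1 - 2 * (N : ℚ)) r = P6 at *
  generalize ((-1 : ℚ)) ^ j = P7 at *
  generalize (L.choose (j + 1) : ℚ) = C1 at *
  generalize (L.choose j : ℚ) = C0 at *
  have h10 : C1 = C0 * (L - j) / (j + 1) := by
    rw [eq_div_iff (by positivity)]; exact h2
  rw [h10]
  field_simp
  ring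

omit hN in
theorem zq_rev (j : ℕ) (hj : j < L) : zq N (L - 1 - j) = N / (L - j) := by
  unfold zq
  have : ((L - 1 - j : ℕ) : ℚ) = L - 1 - j := by
    rw [Nat.cast_sub (by omega), Nat.cast_sub (by omega)]; push_cast; ring
  rw [this]
  congr 1
  ring

theorem hq_val (j : ℕ) (hj : j < L) : hq (zq N (L - 1 - j)) =
    (L - j) * (L - j - 5 * N / 3) / ((L - j - N) * (L - j - 2 * N)) := by
  rw [zq_rev j hj, hq]
  obtain ⟨r, hr⟩ : ∃ r, L = j + 1 + r := ⟨L - (j + 1), by omega⟩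
  have h1 : ((L : ℚ) - j) = r + 1 := by rw [hr]; push_cast; ring
  have h2 : ((L : ℚ) - j - N) ≠ 0 := by
    rw [h1]
    intro h
    have : (r : ℚ) + 1 = N := by linear_combination h
    have : r + 1 = N := by exact_mod_cast this
    omega
  have h3 : ((L : ℚ) - j - 2 * N) ≠ 0 := by
    rw [h1]
    intro h
    have : (r : ℚ) + 1 = 2 * N := by linear_combination h
    have : r + 1 = 2 * N := by exact_mod_cast this
    omega
  rw [h1] at *
  have h0 : ((r : ℚ) + 1) ≠ 0 := by positivity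
  have h4 : (1 - (N : ℚ) / (r + 1)) ≠ 0 := by
    intro h
    apply h2
    field_simp at h
    linear_combination h
  have h5 : (1 - 2 * ((N : ℚ) / (r + 1))) ≠ 0 := by
    intro h
    apply h3
    field_simp at h
    linear_combination h
  field_simp

/-- the transformed sum, normalized -/
def YY (N L : ℕ) : ℚ := 1 + 4 / 3 * ∑ j ∈ range L, zq N j ^ 2 / (1 + zq N j) *
  (∏ i ∈ range j, (1 + 4 / 3 * zq N i)) * ∏ i ∈ range (j + 1), hq (zq N (L - 1 - i))

theorem den_ne (j : ℕ) (hj : j < L) : ((L : ℚ) - j - N) ≠ 0 ∧ ((L : ℚ) - j - 2 * N) ≠ 0 := by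
  obtain ⟨r, hr⟩ : ∃ r, L = j + 1 + r := ⟨L - (j + 1), by omega⟩
  have h1 : ((L : ℚ) - j) = r + 1 := by rw [hr]; push_cast; ring
  constructor
  · rw [h1]
    intro h
    have : (r : ℚ) + 1 = N := by linear_combination h
    have : r + 1 = N := by exact_mod_cast this
    omega
  · rw [h1]
    intro h
    have : (r : ℚ) + 1 = 2 * N := by linear_combination h
    have : r + 1 = 2 * N := by exact_mod_cast this
    omega

theorem Tw_form (j : ℕ) (hj : j < L) : Tw N L (j + 1) = Tw N L 0 * (4 / 3 *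
    (zq N j ^ 2 / (1 + zq N j) * (∏ i ∈ range j, (1 + 4 / 3 * zq N i)) *
      ∏ i ∈ range (j + 1), hq (zq N (L - 1 - i)))) := by
  have hN0 : 0 < (N : ℚ) := by rcases cast_cases hN with h | h <;> rw [h] <;> positivity
  induction j with
  | zero =>
    have h1 := Tw_ratio hN 0 hj
    obtain ⟨h2, h3⟩ := den_ne hN 0 hj
    rw [zero_add, range_zero, prod_empty, range_one, prod_singleton, hq_val hN 0 hj]
    push_cast at h1 h2 h3 ⊢
    unfold zq
    have h4 : Tw N L 1 = - Tw N L 0 * ((L - 0) * (N + 0) * (5 * N / 3 - L + 0) *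
        (4 * N / 3 + 0)) / (((0 : ℚ) + 1) * (N + 0 + 1) * (L - 0 - N) * (L - 0 - 2 * N)) := by
      rw [eq_div_iff (by
        refine mul_ne_zero (mul_ne_zero (by positivity) h2) h3)]
      exact h1
    rw [h4]
    generalize Tw N L 0 = T at *
    push_cast
    field_simp
    ring
  | succ j ih =>
    have ih := ih (by omega)
    have h1 := Tw_ratio hN (j + 1) hj
    obtain ⟨h2, h3⟩ := den_ne hN (j + 1) hj
    rw [prod_range_succ _ j, prod_range_succ _ (j + 1), hq_val hN (j + 1) hj]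
    rw [ih] at h1
    generalize Tw N L 0 = T at *
    generalize ∏ i ∈ range j, (1 + 4 / 3 * zq N i) = P at *
    generalize ∏ i ∈ range (j + 1), hq (zq N (L - 1 - i)) = P' at *
    have h4 : ((N : ℚ) + j + 1) ≠ 0 := by positivity
    have h5 : ((N : ℚ) + ((j + 1 : ℕ) : ℚ) + 1) ≠ 0 := by positivity
    have h6 : Tw N L (j + 1 + 1) = (-(T * (4 / 3 * (zq N j ^ 2 / (1 + zq N j) * P * P'))) *
        ((L - ((j + 1 : ℕ) : ℚ)) * (N + ((j + 1 : ℕ) : ℚ)) * (5 * N / 3 - L + ((j + 1 : ℕ) : ℚ)) *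
          (4 * N / 3 + ((j + 1 : ℕ) : ℚ)))) /
        (((((j + 1 : ℕ) : ℚ)) + 1) * (N + ((j + 1 : ℕ) : ℚ) + 1) * (L - ((j + 1 : ℕ) : ℚ) - N) *
          (L - ((j + 1 : ℕ) : ℚ) - 2 * N)) := by
      rw [eq_div_iff (by
        refine mul_ne_zero (mul_ne_zero (by positivity) h2) h3)]
      exact h1
    rw [h6]
    unfold zq
    push_cast at h2 h3 h5 ⊢
    field_simp
    ring

theorem RR_eq : RR N N = (∏ i ∈ range L, (1 - 2 * zq N i)) * YY N L := by
  have h1 := RR_whipple hN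
  rw [sum_range_succ', sum_congr rfl (fun j hj => Tw_form hN j (mem_range.mp hj)), ← mul_sum,
    ← mul_sum] at h1
  have h2 : (∏ i ∈ range L, (1 - 2 * zq N i)) * (L.factorial : ℚ) = poch (1 - 2 * N) L := by
    clear h1 hN
    induction L with
    | zero => simp [poch_zero]
    | succ L ih =>
      rw [prod_range_succ, Nat.factorial_succ, poch_succ, ← ih]
      unfold zq
      push_cast
      field_simp
      ring
  have h3 := poch_neg_ne hN L le_rfl
  have h4 : (L.factorial : ℚ) ≠ 0 := by exact_mod_cast Nat.factorial_ne_zero _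
  have h5 : Tw N L 0 = poch (1 - N) L * poch (1 - 2 * N) L := by
    unfold Tw
    simp [poch_zero]
  rw [h5, ← h2] at h1
  apply mul_right_cancel₀ (mul_ne_zero h4 h3)
  rw [h1, YY]
  ring

omit hN in
theorem poch_triple (y : ℚ) (n : ℕ) :
    poch y n * poch (y + 1 / 3) n * poch (y + 2 / 3) n * 27 ^ n = poch (3 * y) (3 * n) := by
  induction n with
  | zero => simp [poch_zero]
  | succ n ih =>
    have e : 3 * (n + 1) = 3 * n + 1 + 1 + 1 := by ring
    rw [e, poch_succ y, poch_succ (y + 1 / 3), poch_succ (y + 2 / 3), poch_succ (3 * y),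
      poch_succ (3 * y), poch_succ (3 * y), ← ih, pow_succ]
    push_cast
    ring

omit hN in
theorem prod_zq (N : ℕ) (c : ℚ) (n : ℕ) :
    (∏ i ∈ range n, (1 + c * zq N i)) * (n.factorial : ℚ) = poch (1 + c * N) n := by
  induction n with
  | zero => simp [poch_zero]
  | succ n ih =>
    rw [prod_range_succ, Nat.factorial_succ, poch_succ, ← ih]
    unfold zq
    push_cast
    field_simp
    ring

/-- the multiplication formula used to remove the power of 3. -/
theorem prod_three :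
    3 ^ (N - 1) * ((∏ i ∈ range L, (1 + 1 / 3 * zq N i)) * ∏ i ∈ range L, (1 + (-2 / 3) * zq N i)) =
    (∏ i ∈ range (N - 1), (1 + 1 * zq N i)) * ∏ i ∈ range L, (1 + (-1) * zq N i) := by
  have hL : (L.factorial : ℚ) ≠ 0 := by exact_mod_cast Nat.factorial_ne_zero _
  have hN1 : ((N - 1).factorial : ℚ) ≠ 0 := by exact_mod_cast Nat.factorial_ne_zero _
  apply mul_right_cancel₀ (mul_ne_zero (mul_ne_zero hL hL) hN1)
  have g1 := prod_zq N (1 / 3) L
  have g2 := prod_zq N (-2 / 3) L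
  have g3 := prod_zq N (-1) L
  have g4 := prod_zq N 1 (N - 1)
  have e1 : 3 ^ (N - 1) * ((∏ i ∈ range L, (1 + 1 / 3 * zq N i)) *
      ∏ i ∈ range L, (1 + (-2 / 3) * zq N i)) *
      ((L.factorial : ℚ) * (L.factorial : ℚ) * ((N - 1).factorial : ℚ)) =
      3 ^ (N - 1) * ((N - 1).factorial : ℚ) * (poch (1 + 1 / 3 * N) L *
        poch (1 + (-2 / 3) * N) L) := by
    rw [← g1, ← g2]; ring
  have e2 : (∏ i ∈ range (N - 1), (1 + 1 * zq N i)) * (∏ i ∈ range L, (1 + (-1) * zq N i)) *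
      ((L.factorial : ℚ) * (L.factorial : ℚ) * ((N - 1).factorial : ℚ)) =
      poch (1 + 1 * N) (N - 1) * poch (1 + (-1) * N) L * (L.factorial : ℚ) := by
    rw [← g3, ← g4]; ring
  rw [e1, e2]
  have h27 : (27 : ℚ) ^ L = 3 ^ (3 * L) := by
    rw [show (27 : ℚ) = 3 ^ 3 by norm_num, ← pow_mul]
  have hs : ((-1 : ℚ) ^ L) * (-1) ^ L = 1 := by rw [← mul_pow]; norm_num
  rcases hN with h | h
  · have hc : (N : ℚ) = 3 * L + 1 := by rw [h]; push_cast; ring
    have hn : N - 1 = 3 * L := by omega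
    have a1 : poch (1 + (-2 / 3) * N) L = (-1) ^ L * poch ((L : ℚ) + 2 / 3) L := by
      rw [← poch_refl]; congr 1; rw [hc]; ring
    have a2 : poch (1 + (-1) * N) L = (-1) ^ L * poch (((2 * L : ℕ) : ℚ) + 1) L := by
      rw [← poch_refl]; congr 1; rw [hc]; push_cast; ring
    have a3 : poch (1 + 1 / 3 * N) L = poch ((L : ℚ) + 2 / 3 + 2 / 3) L := by
      congr 1; rw [hc]; ring
    have a4 := poch_triple ((L : ℚ) + 2 / 3) L
    have a5 : 3 * ((L : ℚ) + 2 / 3) = ((3 * L + 1 : ℕ) : ℚ) + 1 := by push_cast; ring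
    have a6 : (L : ℚ) + 2 / 3 + 1 / 3 = (L : ℚ) + 1 := by ring
    have a7 : (1 + 1 * (N : ℚ)) = ((3 * L + 1 : ℕ) : ℚ) + 1 := by rw [hc]; push_cast; ring
    rw [a5, a6, poch_nat, poch_nat, h27] at a4
    rw [a1, a2, a3, a7, poch_nat, poch_nat, hn]
    have f1 : ((2 * L).factorial : ℚ) ≠ 0 := by exact_mod_cast Nat.factorial_ne_zero _
    have f2 : ((3 * L + 1).factorial : ℚ) ≠ 0 := by exact_mod_cast Nat.factorial_ne_zero _
    have f3 : 2 * L + L = 3 * L := by ring
    have f4 : L + L = 2 * L := by ring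
    rw [f3]
    rw [f4] at a4
    generalize poch ((L : ℚ) + 2 / 3) L = P1 at *
    generalize poch ((L : ℚ) + 2 / 3 + 2 / 3) L = P2 at *
    field_simp at a4 ⊢
    linear_combination a4
  · have hc : (N : ℚ) = 3 * L + 2 := by rw [h]; push_cast; ring
    have hn : N - 1 = 3 * L + 1 := by omega
    have a1 : poch (1 + (-2 / 3) * N) L = (-1) ^ L * poch ((L : ℚ) + 4 / 3) L := by
      rw [← poch_refl]; congr 1; rw [hc]; ring
    have a2 : poch (1 + (-1) * N) L = (-1) ^ L * poch (((2 * L + 1 : ℕ) : ℚ) + 1) L := by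
      rw [← poch_refl]; congr 1; rw [hc]; push_cast; ring
    have a3 : poch (1 + 1 / 3 * N) L = poch ((L : ℚ) + 4 / 3 + 1 / 3) L := by
      congr 1; rw [hc]; ring
    have a4 := poch_triple ((L : ℚ) + 4 / 3) L
    have a5 : 3 * ((L : ℚ) + 4 / 3) = ((3 * L + 3 : ℕ) : ℚ) + 1 := by push_cast; ring
    have a6 : (L : ℚ) + 4 / 3 + 2 / 3 = ((L + 1 : ℕ) : ℚ) + 1 := by push_cast; ring
    have a7 : (1 + 1 * (N : ℚ)) = ((3 * L + 2 : ℕ) : ℚ) + 1 := by rw [hc]; push_cast; ring
    rw [a5, a6, poch_nat, poch_nat, h27] at a4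
    rw [a1, a2, a3, a7, poch_nat, poch_nat, hn]
    have f3 : 2 * L + 1 + L = 3 * L + 1 := by ring
    have f4 : L + 1 + L = 2 * L + 1 := by ring
    have f5 : 3 * L + 2 + (3 * L + 1) = 6 * L + 3 := by ring
    have f6 : 3 * L + 3 + 3 * L = 6 * L + 3 := by ring
    rw [f3, f5]
    rw [f4, f6] at a4
    have e3 : ((3 * L + 3).factorial : ℚ) = (3 * L + 3) * ((3 * L + 2).factorial : ℚ) := by
      rw [show 3 * L + 3 = 3 * L + 2 + 1 by ring, Nat.factorial_succ]; push_cast; ring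
    have e4 : ((L + 1).factorial : ℚ) = (L + 1) * ((L).factorial : ℚ) := by
      rw [Nat.factorial_succ]; push_cast; ring
    rw [e3, e4] at a4
    have f1 : ((2 * L + 1).factorial : ℚ) ≠ 0 := by exact_mod_cast Nat.factorial_ne_zero _
    have f2 : ((3 * L + 2).factorial : ℚ) ≠ 0 := by exact_mod_cast Nat.factorial_ne_zero _
    generalize poch ((L : ℚ) + 4 / 3) L = P1 at *
    generalize poch ((L : ℚ) + 4 / 3 + 1 / 3) L = P2 at *
    have hL1 : ((L : ℚ) + 1) ≠ 0 := by positivity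
    have a8 : P1 * P2 * ((2 * L + 1).factorial : ℚ) * 3 ^ (3 * L) * 3 * ((3 * L + 2).factorial : ℚ)
        = ((6 * L + 3).factorial : ℚ) * (L.factorial : ℚ) := by
      field_simp at a4
      linear_combination a4
    rw [pow_succ]
    field_simp
    linear_combination a8

/-- the product in front. -/
theorem prod_front :
    ((4 * N).factorial : ℚ) / ((N.factorial : ℚ) ^ 2 * ((2 * N).factorial : ℚ)) =
      12 * ((∏ i ∈ range (N - 1), (1 + 2 * zq N i)) * ∏ i ∈ range (N - 1), (1 + 3 * zq N i)) := by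
  obtain ⟨m, hm⟩ : ∃ m, N = m + 1 := ⟨N - 1, by rcases hN with h | h <;> omega⟩
  have g1 := prod_zq N 2 (N - 1)
  have g2 := prod_zq N 3 (N - 1)
  have hN1 : ((N - 1).factorial : ℚ) ≠ 0 := by exact_mod_cast Nat.factorial_ne_zero _
  have a1 : (1 + 2 * (N : ℚ)) = ((2 * N : ℕ) : ℚ) + 1 := by push_cast; ring
  have a2 : (1 + 3 * (N : ℚ)) = ((3 * N : ℕ) : ℚ) + 1 := by push_cast; ring
  rw [a1, poch_nat] at g1
  rw [a2, poch_nat] at g2
  apply mul_right_cancel₀ (mul_ne_zero hN1 hN1)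
  have e1 : 12 * ((∏ i ∈ range (N - 1), (1 + 2 * zq N i)) *
      ∏ i ∈ range (N - 1), (1 + 3 * zq N i)) * (((N - 1).factorial : ℚ) * ((N - 1).factorial : ℚ)) =
      12 * (((∏ i ∈ range (N - 1), (1 + 2 * zq N i)) * ((N - 1).factorial : ℚ)) *
        ((∏ i ∈ range (N - 1), (1 + 3 * zq N i)) * ((N - 1).factorial : ℚ))) := by ring
  rw [e1, g1, g2]
  clear g1 g2 e1 a1 a2 hN1 hN
  subst hm
  have b1 : m + 1 - 1 = m := by omega
  have b2 : 2 * (m + 1) + m = 3 * m + 2 := by ring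
  have b3 : 3 * (m + 1) + m = 4 * m + 3 := by ring
  have b4 : 4 * (m + 1) = 4 * m + 3 + 1 := by ring
  have b5 : 3 * (m + 1) = 3 * m + 2 + 1 := by ring
  rw [b1, b2, b3, b4, b5, Nat.factorial_succ (4 * m + 3), Nat.factorial_succ (3 * m + 2),
    Nat.factorial_succ m]
  have f1 : ((3 * m + 2).factorial : ℚ) ≠ 0 := by exact_mod_cast Nat.factorial_ne_zero _
  have f2 : ((2 * (m + 1)).factorial : ℚ) ≠ 0 := by exact_mod_cast Nat.factorial_ne_zero _
  have f3 : (m.factorial : ℚ) ≠ 0 := by exact_mod_cast Nat.factorial_ne_zero _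
  push_cast
  generalize ((3 * m + 2).factorial : ℚ) = A at *
  generalize ((2 * (m + 1)).factorial : ℚ) = B at *
  generalize (m.factorial : ℚ) = D at *
  generalize ((4 * m + 3).factorial : ℚ) = E at *
  field_simp
  ring

/-- The product formula for `SS N`. -/
theorem SS_prod (h1 : ∀ i < L, zq N i ≠ 1) :
    SS N = 8 * N * ((∏ i ∈ range (N - 1), ((1 + 2 * zq N i) * (1 + 3 * zq N i) /
      (1 + zq N i) ^ 3)) * (∏ i ∈ range L, ((1 - 2 * zq N i) * (1 + zq N i / 3) ^ 3 *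
        (1 - 2 * zq N i / 3) ^ 3 / (1 - zq N i) ^ 3)) * YY N L) := by
  have hN1 : 1 ≤ N := by rcases hN with h | h <;> omega
  have e1 := SS_exact N hN1
  have e2 := prod_front hN
  have e3 := prod_three hN
  have e4 : ∏ i ∈ range L, (1 + (-1) * zq N i) ≠ 0 := by
    rw [prod_ne_zero_iff]
    intro i hi h
    apply h1 i (mem_range.mp hi)
    linear_combination -h
  have e5 : ∏ i ∈ range (N - 1), (1 + 1 * zq N i) ≠ 0 := by
    rw [prod_ne_zero_iff]
    intro i hi
    unfold zq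
    positivity
  rw [e1, RR_eq hN]
  have e6 : ∏ i ∈ range (N - 1), ((1 + 2 * zq N i) * (1 + 3 * zq N i) / (1 + zq N i) ^ 3) =
      (∏ i ∈ range (N - 1), (1 + 2 * zq N i)) * (∏ i ∈ range (N - 1), (1 + 3 * zq N i)) /
        (∏ i ∈ range (N - 1), (1 + 1 * zq N i)) ^ 3 := by
    rw [← prod_mul_distrib, ← prod_pow, ← prod_div_distrib]
    apply prod_congr rfl
    intro i _
    rw [one_mul]
  have e7 : ∏ i ∈ range L, ((1 - 2 * zq N i) * (1 + zq N i / 3) ^ 3 *
        (1 - 2 * zq N i / 3) ^ 3 / (1 - zq N i) ^ 3) = (∏ i ∈ range L, (1 - 2 * zq N i)) *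
        ((∏ i ∈ range L, (1 + 1 / 3 * zq N i)) * ∏ i ∈ range L, (1 + (-2 / 3) * zq N i)) ^ 3 /
        (∏ i ∈ range L, (1 + (-1) * zq N i)) ^ 3 := by
    rw [← prod_mul_distrib, ← prod_pow, ← prod_pow, ← prod_mul_distrib, ← prod_div_distrib]
    apply prod_congr rfl
    intro i _
    rw [show (1 + zq N i / 3) = 1 + 1 / 3 * zq N i by ring,
      show (1 - 2 * zq N i / 3) = 1 + (-2 / 3) * zq N i by ring,
      show (1 - zq N i) = 1 + (-1) * zq N i by ring]
    ring
  rw [e6, e7]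
  have e8 : ((4 * N).factorial : ℚ) / ((N.factorial : ℚ) ^ 2 * ((2 * N).factorial : ℚ) *
      27 ^ N) = ((4 * N).factorial : ℚ) / ((N.factorial : ℚ) ^ 2 * ((2 * N).factorial : ℚ)) /
      27 ^ N := by rw [div_div]
  have e9 : 18 * (N : ℚ) * ((4 * N).factorial : ℚ) / ((N.factorial : ℚ) ^ 2 *
      ((2 * N).factorial : ℚ) * 27 ^ N) = 18 * N * (((4 * N).factorial : ℚ) /
        ((N.factorial : ℚ) ^ 2 * ((2 * N).factorial : ℚ) * 27 ^ N)) := by ring
  rw [e9, e8, e2]
  have e10 : (27 : ℚ) ^ N = 27 * (3 ^ (N - 1)) ^ 3 := by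
    rw [← pow_mul, show (27 : ℚ) = 3 ^ 3 by norm_num, ← pow_mul, ← pow_add]
    congr 1
    omega
  rw [e10]
  generalize ∏ i ∈ range L, (1 + (-1) * zq N i) = A1 at *
  generalize ∏ i ∈ range (N - 1), (1 + 1 * zq N i) = A2 at *
  generalize (∏ i ∈ range L, (1 + 1 / 3 * zq N i)) * ∏ i ∈ range L, (1 + (-2 / 3) * zq N i)
    = A3 at *
  have e11 : A3 = A2 * A1 / 3 ^ (N - 1) := by
    rw [eq_div_iff (by positivity)]
    linear_combination e3
  rw [e11]
  have e12 : (3 : ℚ) ^ (N - 1) ≠ 0 := by positivity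
  field_simp
  ring

end

end Pool.Agent.Helper91.SC
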