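import Mathlib
import Pool.Agent.Helper91.SC.Whip
import Pool.Agent.Helper91.Expand
import Pool.Agent.Helper91.Main2

/-!
Evaluation of the product formula modulo `p^4`.
-/

set_option autoImplicit false

namespace Pool.Agent.Helper91.SC

open Finset

section
variable {p : ℕ} (hp : p.Prime)
include hp

theorem one_add_unit {x : ℚ} (hx : Dv p 1 x) : (1 + x) ≠ 0 ∧ Dv p 0 (1 + x)⁻¹ := by
  apply Dv_inv_of_sub_one hp
  have : 1 + x - 1 = x := by ring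
  rw [this]
  exact hx

theorem one_sub_unit' {x : ℚ} (hx : Dv p 1 x) : (1 - x) ≠ 0 ∧ Dv p 0 (1 - x)⁻¹ := by
  rw [sub_eq_add_neg]
  exact one_add_unit hp (Dv_neg hx)

theorem Dv_p4 {u z : ℚ} (hu : Dv p 1 u) (hz : Dv p 0 z) : Dv p 4 (u ^ 4 * z) :=
  Dv_mul_int hp (Dv_pow' hp hu 4) hz

theorem Dv_p2 {u z : ℚ} (hu : Dv p 1 u) (hz : Dv p 0 z) : Dv p 2 (u ^ 2 * z) :=
  Dv_mul_int hp (Dv_pow' hp hu 2) hz

/-- multiplication of first order expansions -/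
theorem mul_first {X Y x y : ℚ} (hX : Dv p 2 (X - (1 + x))) (hY : Dv p 2 (Y - (1 + y)))
    (hx : Dv p 1 x) (hy : Dv p 1 y) : Dv p 2 (X * Y - (1 + (x + y))) := by
  have hY0 : Dv p 0 Y := by
    have e : Y = (Y - (1 + y)) + (1 + y) := by ring
    rw [e]
    exact Dv_add hp (Dv_mono (by norm_num) hY)
      (Dv_add hp (Dv_one hp) (Dv_mono (by norm_num) hy))
  have e : X * Y - (1 + (x + y)) = (X - (1 + x)) * Y + (1 + x) * (Y - (1 + y)) + x * y := by ring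
  rw [e]
  exact Dv_add hp (Dv_add hp (Dv_mul_int hp hX hY0)
    (Dv_int_mul hp (Dv_add hp (Dv_one hp) (Dv_mono (by norm_num) hx)) hY)) (Dv_mul hp hx hy)

end

section
variable {p : ℕ} (hp : p.Prime) (h5 : 5 ≤ p) {m : ℕ}
  (Hz : ∀ l, l < 2 * m → Dv p 1 (zq (2 * m + 1) l))
include hp h5 Hz

omit h5 in
theorem zq_refl3 (l : ℕ) (h : l < 2 * m) :
    Dv p 4 (zq (2 * m + 1) (2 * m - 1 - l) ^ 3 + zq (2 * m + 1) l ^ 3) := by
  have h1 := zq_refl1 hp Hz l h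
  have h2 := Hz l h
  have h3 := Hz (2 * m - 1 - l) (by omega)
  generalize zq (2 * m + 1) (2 * m - 1 - l) = a at *
  generalize zq (2 * m + 1) l = b at *
  have e : a ^ 3 + b ^ 3 = (a + b) * (a ^ 2 - a * b + b ^ 2) := by ring
  rw [e]
  exact Dv_mul hp h1 (Dv_add hp (Dv_sub hp (Dv_pow' hp h3 2) (Dv_mul hp h3 h2)) (Dv_pow' hp h2 2))

omit h5 in
theorem S3_full : Dv p 4 (S3 (2 * m + 1) (2 * m)) := by
  rw [S3, sum_pair]
  apply sum_Dv hp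
  intro i hi
  have := zq_refl3 hp Hz i (by omega)
  rw [add_comm]
  exact this

theorem S2_full : Dv p 4 (S2 (2 * m + 1) (2 * m) - (-(1 / 3) * S3 (2 * m + 1) m)) := by
  have e1 : Dv p 4 (S2 (2 * m + 1) (2 * m) - (2 * S2 (2 * m + 1) m + 2 * S3 (2 * m + 1) m)) := by
    have : S2 (2 * m + 1) (2 * m) - (2 * S2 (2 * m + 1) m + 2 * S3 (2 * m + 1) m) =
        ∑ i ∈ range m, (zq (2 * m + 1) (2 * m - 1 - i) ^ 2 -
          (zq (2 * m + 1) i ^ 2 + 2 * zq (2 * m + 1) i ^ 3)) := by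
      rw [S2, sum_pair, sum_sub_distrib, sum_add_distrib, sum_add_distrib, ← mul_sum, S2, S3]
      ring
    rw [this]
    exact sum_Dv hp _ m 4 (fun i hi => zq_refl2 hp Hz i (by omega))
  have e2 := S2_eq hp h5 Hz
  have e : S2 (2 * m + 1) (2 * m) - (-(1 / 3) * S3 (2 * m + 1) m) =
    (S2 (2 * m + 1) (2 * m) - (2 * S2 (2 * m + 1) m + 2 * S3 (2 * m + 1) m)) +
      2 * (S2 (2 * m + 1) m + 7 / 6 * S3 (2 * m + 1) m) := by ring
  rw [e]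
  exact Dv_add hp e1 (Dv_int_mul hp (Dv_ofNat hp 2) e2)

theorem S1_full3 : Dv p 4 (S1 (2 * m + 1) (2 * m) - 1 / 6 * S3 (2 * m + 1) m) := by
  have e1 := S1_full hp Hz
  have e2 := S2_eq hp h5 Hz
  have e : S1 (2 * m + 1) (2 * m) - 1 / 6 * S3 (2 * m + 1) m =
    (S1 (2 * m + 1) (2 * m) + S2 (2 * m + 1) m + S3 (2 * m + 1) m) -
      (S2 (2 * m + 1) m + 7 / 6 * S3 (2 * m + 1) m) := by ring
  rw [e]
  exact Dv_sub hp e1 e2

theorem E1_cong : Dv p 4 (∏ i ∈ range (2 * m), ((1 + 2 * zq (2 * m + 1) i) *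
    (1 + 3 * zq (2 * m + 1) i) / (1 + zq (2 * m + 1) i) ^ 3) - (1 + 2 * S3 (2 * m + 1) m)) := by
  have h := Dv_half hp h5
  have ht := Dv_third hp h5
  -- pointwise expansions
  have key : ∀ u : ℚ, Dv p 1 u →
      Dv p 4 ((1 + 2 * u) * (1 + 3 * u) / (1 + u) ^ 3 - 1 - (2 * u - 3 * u ^ 2 + 2 * u ^ 3)) := by
    intro u hu
    obtain ⟨h1, h2⟩ := one_add_unit hp hu
    have e : (1 + 2 * u) * (1 + 3 * u) / (1 + u) ^ 3 - 1 - (2 * u - 3 * u ^ 2 + 2 * u ^ 3) =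
      u ^ 4 * ((1 - 3 * u - 2 * u ^ 2) * (1 + u)⁻¹ ^ 3) := by
      field_simp
      ring
    rw [e]
    have hu0 : Dv p 0 u := Dv_mono (by norm_num) hu
    exact Dv_p4 hp hu (Dv_mul_int hp (Dv_sub hp (Dv_sub hp (Dv_one hp)
      (Dv_int_mul hp (Dv_ofNat hp 3) hu0)) (Dv_int_mul hp (Dv_ofNat hp 2) (Dv_pow hp hu0 2)))
      (Dv_pow hp h2 3))
  have hX0 : ∀ u : ℚ, Dv p 1 u → Dv p 1 (2 * u - 3 * u ^ 2 + 2 * u ^ 3) := by
    intro u hu
    have hu0 : Dv p 0 u := Dv_mono (by norm_num) hu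
    have e : 2 * u - 3 * u ^ 2 + 2 * u ^ 3 = u * (2 - 3 * u + 2 * u ^ 2) := by ring
    rw [e]
    exact Dv_mul_int hp hu (Dv_add hp (Dv_sub hp (Dv_ofNat hp 2)
      (Dv_int_mul hp (Dv_ofNat hp 3) hu0)) (Dv_int_mul hp (Dv_ofNat hp 2) (Dv_pow hp hu0 2)))
  have key1 : ∀ u : ℚ, Dv p 1 u → Dv p 1 ((1 + 2 * u) * (1 + 3 * u) / (1 + u) ^ 3 - 1) := by
    intro u hu
    have h1 := Dv_add hp (Dv_mono (by norm_num : 1 ≤ 4) (key u hu)) (hX0 u hu)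
    have e : (1 + 2 * u) * (1 + 3 * u) / (1 + u) ^ 3 - 1 = ((1 + 2 * u) * (1 + 3 * u) / (1 + u) ^ 3
      - 1 - (2 * u - 3 * u ^ 2 + 2 * u ^ 3)) + (2 * u - 3 * u ^ 2 + 2 * u ^ 3) := by ring
    rw [e]; exact h1
  have key2 : ∀ u : ℚ, Dv p 1 u →
      Dv p 4 (((1 + 2 * u) * (1 + 3 * u) / (1 + u) ^ 3 - 1) ^ 2 - (4 * u ^ 2 - 12 * u ^ 3)) := by
    intro u hu
    have k0 := key u hu
    have k1 := key1 u hu
    have k2 := hX0 u hu
    have hu0 : Dv p 0 u := Dv_mono (by norm_num) hu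
    generalize (1 + 2 * u) * (1 + 3 * u) / (1 + u) ^ 3 - 1 = x at *
    have e : x ^ 2 - (4 * u ^ 2 - 12 * u ^ 3) = (x - (2 * u - 3 * u ^ 2 + 2 * u ^ 3)) *
      (x + (2 * u - 3 * u ^ 2 + 2 * u ^ 3)) + u ^ 4 * (17 - 12 * u + 4 * u ^ 2) := by ring
    rw [e]
    refine Dv_add hp (Dv_mul_int hp k0 (Dv_mono (by norm_num) (Dv_add hp k1 k2)))
      (Dv_p4 hp hu (Dv_add hp (Dv_sub hp (Dv_ofNat hp 17) (Dv_int_mul hp (Dv_ofNat hp 12) hu0))
        (Dv_int_mul hp (Dv_ofNat hp 4) (Dv_pow hp hu0 2))))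
  have key3 : ∀ u : ℚ, Dv p 1 u →
      Dv p 4 (((1 + 2 * u) * (1 + 3 * u) / (1 + u) ^ 3 - 1) ^ 3 - 8 * u ^ 3) := by
    intro u hu
    have k0 := key u hu
    have k1 := key1 u hu
    have k2 := hX0 u hu
    have hu0 : Dv p 0 u := Dv_mono (by norm_num) hu
    have k3 : Dv p 2 ((1 + 2 * u) * (1 + 3 * u) / (1 + u) ^ 3 - 1 - 2 * u) := by
      have e : (1 + 2 * u) * (1 + 3 * u) / (1 + u) ^ 3 - 1 - 2 * u =
        ((1 + 2 * u) * (1 + 3 * u) / (1 + u) ^ 3 - 1 - (2 * u - 3 * u ^ 2 + 2 * u ^ 3)) +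
          u ^ 2 * (-3 + 2 * u) := by ring
      rw [e]
      exact Dv_add hp (Dv_mono (by norm_num) k0) (Dv_p2 hp hu
        (Dv_add hp (Dv_neg (Dv_ofNat hp 3)) (Dv_int_mul hp (Dv_ofNat hp 2) hu0)))
    generalize (1 + 2 * u) * (1 + 3 * u) / (1 + u) ^ 3 - 1 = x at *
    have e : x ^ 3 - 8 * u ^ 3 = (x - 2 * u) * (x ^ 2 + 2 * (x * u) + 4 * u ^ 2) := by ring
    rw [e]
    exact Dv_mul hp k3 (Dv_add hp (Dv_add hp (Dv_pow' hp k1 2)
      (Dv_int_mul hp (Dv_ofNat hp 2) (Dv_mul hp k1 hu)))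
      (Dv_int_mul hp (Dv_ofNat hp 4) (Dv_pow' hp hu 2)))
  obtain ⟨x, hx⟩ : ∃ x : ℕ → ℚ, ∀ i, x i = (1 + 2 * zq (2 * m + 1) i) *
    (1 + 3 * zq (2 * m + 1) i) / (1 + zq (2 * m + 1) i) ^ 3 - 1 := ⟨_, fun _ => rfl⟩
  have P := prod_exp3 hp h5 x (2 * m) (fun i hi => by rw [hx]; exact key1 _ (Hz i hi))
  have P1 := sum_Dv hp (fun i => x i - (2 * zq (2 * m + 1) i -
      3 * zq (2 * m + 1) i ^ 2 + 2 * zq (2 * m + 1) i ^ 3)) (2 * m) 4
      (fun i hi => by simp only [hx]; exact key _ (Hz i hi))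
  have P2 := sum_Dv hp (fun i => x i ^ 2 -
      (4 * zq (2 * m + 1) i ^ 2 - 12 * zq (2 * m + 1) i ^ 3)) (2 * m) 4
      (fun i hi => by simp only [hx]; exact key2 _ (Hz i hi))
  have P3 := sum_Dv hp (fun i => x i ^ 3 - 8 * zq (2 * m + 1) i ^ 3) (2 * m) 4
      (fun i hi => by simp only [hx]; exact key3 _ (Hz i hi))
  rw [sum_sub_distrib, sum_add_distrib, sum_sub_distrib, ← mul_sum, ← mul_sum, ← mul_sum,
    ← S1, ← S2, ← S3] at P1
  rw [sum_sub_distrib, sum_sub_distrib, ← mul_sum, ← mul_sum, ← S2, ← S3] at P2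
  rw [sum_sub_distrib, ← mul_sum, ← S3] at P3
  have s1 := S1_full3 hp h5 Hz
  have s2 := S2_full hp h5 Hz
  have s3 := S3_full hp Hz
  have t3 := S3_Dv hp Hz m (by omega)
  have eP : ∏ i ∈ range (2 * m), ((1 + 2 * zq (2 * m + 1) i) *
    (1 + 3 * zq (2 * m + 1) i) / (1 + zq (2 * m + 1) i) ^ 3) = ∏ i ∈ range (2 * m), (1 + x i) :=
    prod_congr rfl (fun i _ => by rw [hx]; ring)
  rw [eP]
  generalize ∏ i ∈ range (2 * m), (1 + x i) = PP at *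
  generalize ∑ i ∈ range (2 * m), x i = X1 at *
  generalize ∑ i ∈ range (2 * m), x i ^ 2 = X2 at *
  generalize ∑ i ∈ range (2 * m), x i ^ 3 = X3 at *
  generalize S1 (2 * m + 1) (2 * m) = a1 at *
  generalize S2 (2 * m + 1) (2 * m) = a2 at *
  generalize S3 (2 * m + 1) (2 * m) = a3 at *
  generalize S3 (2 * m + 1) m = b at *
  -- X1 ≡ 4/3 b, X2 ≡ -4/3 b, X3 ≡ 0
  have x1 : Dv p 4 (X1 - 4 / 3 * b) := by
    have e : X1 - 4 / 3 * b = (X1 - (2 * a1 - 3 * a2 + 2 * a3)) + 2 * (a1 - 1 / 6 * b) -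
      3 * (a2 - (-(1 / 3) * b)) + 2 * a3 := by ring
    rw [e]
    exact Dv_add hp (Dv_sub hp (Dv_add hp P1 (Dv_int_mul hp (Dv_ofNat hp 2) s1))
      (Dv_int_mul hp (Dv_ofNat hp 3) s2)) (Dv_int_mul hp (Dv_ofNat hp 2) s3)
  have x2 : Dv p 4 (X2 - (-4 / 3) * b) := by
    have e : X2 - (-4 / 3) * b = (X2 - (4 * a2 - 12 * a3)) + 4 * (a2 - (-(1 / 3) * b)) -
      12 * a3 := by ring
    rw [e]
    exact Dv_sub hp (Dv_add hp P2 (Dv_int_mul hp (Dv_ofNat hp 4) s2))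
      (Dv_int_mul hp (Dv_ofNat hp 12) s3)
  have x3 : Dv p 4 X3 := by
    have e : X3 = (X3 - 8 * a3) + 8 * a3 := by ring
    rw [e]
    exact Dv_add hp P3 (Dv_int_mul hp (Dv_ofNat hp 8) s3)
  have x1' : Dv p 3 X1 := by
    have e : X1 = (X1 - 4 / 3 * b) + (4 * (1 / 3)) * b := by ring
    rw [e]
    exact Dv_add hp (Dv_mono (by norm_num) x1)
      (Dv_int_mul hp (Dv_mul_int hp (Dv_ofNat hp 4) ht) t3)
  have x2' : Dv p 3 X2 := by
    have e : X2 = (X2 - (-4 / 3) * b) + (-(4 * (1 / 3))) * b := by ring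
    rw [e]
    exact Dv_add hp (Dv_mono (by norm_num) x2)
      (Dv_int_mul hp (Dv_neg (Dv_mul_int hp (Dv_ofNat hp 4) ht)) t3)
  have x1'' : Dv p 4 (X1 * X1) := Dv_mono (by norm_num) (Dv_mul hp x1' x1')
  have x12 : Dv p 4 (X1 * X2) := Dv_mono (by norm_num) (Dv_mul hp x1' x2')
  have x1i : Dv p 0 X1 := Dv_mono (by norm_num) x1'
  have e : PP - (1 + 2 * b) = (PP - (1 + X1 + (X1 ^ 2 - X2) / 2 +
    (X1 ^ 3 - 3 * X1 * X2 + 2 * X3) / 6)) + (X1 - 4 / 3 * b) - (1 / 2) * (X2 - (-4 / 3) * b) +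
    (X1 * X1) * (1 / 2) + (X1 * X1) * (X1 * (1 / 2 * (1 / 3))) - (X1 * X2) * (1 / 2) +
      X3 * (1 / 3) := by
    ring
  rw [e]
  refine Dv_add hp (Dv_sub hp (Dv_add hp (Dv_add hp (Dv_sub hp (Dv_add hp P x1)
    (Dv_int_mul hp h x2)) (Dv_mul_int hp x1'' h)) (Dv_mul_int hp x1'' (Dv_mul_int hp x1i
      (Dv_mul_int hp h ht)))) (Dv_mul_int hp x12 h)) (Dv_mul_int hp x3 ht)

variable {L : ℕ} (hL : L ≤ 2 * m)
include hL

theorem E2_cong : Dv p 4 (∏ i ∈ range L, ((1 - 2 * zq (2 * m + 1) i) *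
    (1 + zq (2 * m + 1) i / 3) ^ 3 * (1 - 2 * zq (2 * m + 1) i / 3) ^ 3 /
      (1 - zq (2 * m + 1) i) ^ 3) - (1 - 4 / 3 * S2 (2 * m + 1) L - 52 / 27 *
        S3 (2 * m + 1) L)) := by
  have h := Dv_half hp h5
  have ht := Dv_third hp h5
  have key : ∀ u : ℚ, Dv p 1 u → Dv p 4 ((1 - 2 * u) *
    (1 + u / 3) ^ 3 * (1 - 2 * u / 3) ^ 3 / (1 - u) ^ 3 - 1 - (-(4 / 3) * u ^ 2 -
      52 / 27 * u ^ 3)) := by
    intro u hu
    obtain ⟨h1, h2⟩ := one_sub_unit' hp hu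
    have hv : Dv p 1 (u * (1 / 3)) := Dv_mul_int hp hu ht
    have hv0 : Dv p 0 (u * (1 / 3)) := Dv_mono (by norm_num) hv
    have e : (1 - 2 * u) * (1 + u / 3) ^ 3 * (1 - 2 * u / 3) ^ 3 / (1 - u) ^ 3 - 1 -
      (-(4 / 3) * u ^ 2 - 52 / 27 * u ^ 3) = (u * (1 / 3)) ^ 4 * ((-204 + 1032 * (u * (1 / 3)) -
        1340 * (u * (1 / 3)) ^ 2 + 48 * (u * (1 / 3)) ^ 3) * (1 - u)⁻¹ ^ 3) := by
      field_simp
      ring
    rw [e]
    refine Dv_p4 hp hv (Dv_mul_int hp (Dv_add hp (Dv_sub hp (Dv_add hp (Dv_neg (Dv_ofNat hp 204))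
      (Dv_int_mul hp (Dv_ofNat hp 1032) hv0)) (Dv_int_mul hp (Dv_ofNat hp 1340)
      (Dv_pow hp hv0 2))) (Dv_int_mul hp (Dv_ofNat hp 48) (Dv_pow hp hv0 3))) (Dv_pow hp h2 3))
  have key2 : ∀ u : ℚ, Dv p 1 u → Dv p 2 ((1 - 2 * u) *
    (1 + u / 3) ^ 3 * (1 - 2 * u / 3) ^ 3 / (1 - u) ^ 3 - 1) := by
    intro u hu
    have k := key u hu
    have hu0 : Dv p 0 u := Dv_mono (by norm_num) hu
    have e : (1 - 2 * u) * (1 + u / 3) ^ 3 * (1 - 2 * u / 3) ^ 3 / (1 - u) ^ 3 - 1 =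
      ((1 - 2 * u) * (1 + u / 3) ^ 3 * (1 - 2 * u / 3) ^ 3 / (1 - u) ^ 3 - 1 -
        (-(4 / 3) * u ^ 2 - 52 / 27 * u ^ 3)) + u ^ 2 * (-(4 * (1 / 3)) -
          (52 * (1 / 3) ^ 3) * u) := by ring
    rw [e]
    exact Dv_add hp (Dv_mono (by norm_num) k) (Dv_p2 hp hu (Dv_sub hp
      (Dv_neg (Dv_mul_int hp (Dv_ofNat hp 4) ht))
      (Dv_mul_int hp (Dv_mul_int hp (Dv_ofNat hp 52) (Dv_pow hp ht 3)) hu0)))
  have gen : ∀ (x : ℕ → ℚ) (n : ℕ), (∀ i < n, Dv p 2 (x i)) →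
      Dv p 4 (∏ i ∈ range n, (1 + x i) - (1 + ∑ i ∈ range n, x i)) := by
    intro x n
    induction n with
    | zero => intro _; simpa using Dv_zero_mem hp 4
    | succ n ih =>
      intro hx
      have ih := ih (fun i hi => hx i (by omega))
      have hs := sum_Dv hp x n 2 (fun i hi => hx i (by omega))
      have hxn := hx n (by omega)
      rw [prod_range_succ, sum_range_succ]
      have e : (∏ i ∈ range n, (1 + x i)) * (1 + x n) - (1 + (∑ i ∈ range n, x i + x n)) =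
        (∏ i ∈ range n, (1 + x i) - (1 + ∑ i ∈ range n, x i)) * (1 + x n) +
          (∑ i ∈ range n, x i) * x n := by ring
      rw [e]
      exact Dv_add hp (Dv_mul_int hp ih (Dv_add hp (Dv_one hp) (Dv_mono (by norm_num) hxn)))
        (Dv_mul hp hs hxn)
  obtain ⟨x, hx⟩ : ∃ x : ℕ → ℚ, ∀ i, x i = (1 - 2 * zq (2 * m + 1) i) *
    (1 + zq (2 * m + 1) i / 3) ^ 3 * (1 - 2 * zq (2 * m + 1) i / 3) ^ 3 /
      (1 - zq (2 * m + 1) i) ^ 3 - 1 := ⟨_, fun _ => rfl⟩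
  have P := gen x L (fun i hi => by rw [hx]; exact key2 _ (Hz i (by omega)))
  have P1 := sum_Dv hp (fun i => x i - (-(4 / 3) * zq (2 * m + 1) i ^ 2 -
      52 / 27 * zq (2 * m + 1) i ^ 3)) L 4 (fun i hi => by
        simp only [hx]; exact key _ (Hz i (by omega)))
  rw [sum_sub_distrib, sum_sub_distrib, ← mul_sum, ← mul_sum, ← S2, ← S3] at P1
  have eP : ∏ i ∈ range L, ((1 - 2 * zq (2 * m + 1) i) *
    (1 + zq (2 * m + 1) i / 3) ^ 3 * (1 - 2 * zq (2 * m + 1) i / 3) ^ 3 /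
      (1 - zq (2 * m + 1) i) ^ 3) = ∏ i ∈ range L, (1 + x i) :=
    prod_congr rfl (fun i _ => by rw [hx]; ring)
  rw [eP]
  have := Dv_add hp P P1
  generalize ∏ i ∈ range L, (1 + x i) = PP at *
  generalize ∑ i ∈ range L, x i = X1 at *
  have e : PP - (1 - 4 / 3 * S2 (2 * m + 1) L - 52 / 27 * S3 (2 * m + 1) L) =
    PP - (1 + X1) + (X1 - (-(4 / 3) * S2 (2 * m + 1) L - 52 / 27 * S3 (2 * m + 1) L)) := by ring
  rw [e]
  exact this

omit h5 Hz hL hp in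
theorem S1_tail (q L j : ℕ) (hj : j < L) :
    ∑ i ∈ range (j + 1), zq q (L - 1 - i) = S1 q L - S1 q (L - 1 - j) := by
  induction j with
  | zero =>
    have : L = (L - 1) + 1 := by omega
    rw [zero_add, range_one, sum_singleton, Nat.sub_zero]
    have e : S1 q L = S1 q (L - 1) + zq q (L - 1) := by
      conv_lhs => rw [this]
      rw [S1_succ]
    rw [e]
    ring
  | succ j ih =>
    rw [sum_range_succ, ih (by omega)]
    have : L - 1 - j = (L - 1 - (j + 1)) + 1 := by omega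
    rw [this, S1_succ]
    ring

theorem YY_cong : Dv p 4 (YY (2 * m + 1) L - (1 + 4 / 3 * (S2 (2 * m + 1) L +
    S3 (2 * m + 1) L / 3))) := by
  have ht := Dv_third hp h5
  have h43 : Dv p 0 (4 * (1 / 3) : ℚ) := Dv_mul_int hp (Dv_ofNat hp 4) ht
  have hterm : ∀ j < L, Dv p 4 (zq (2 * m + 1) j ^ 2 / (1 + zq (2 * m + 1) j) *
      (∏ i ∈ range j, (1 + 4 / 3 * zq (2 * m + 1) i)) *
      (∏ i ∈ range (j + 1), hq (zq (2 * m + 1) (L - 1 - i))) -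
      zq (2 * m + 1) j ^ 2 * (1 + (-zq (2 * m + 1) j + (4 * (1 / 3)) * S1 (2 * m + 1) j +
        (4 * (1 / 3)) * (S1 (2 * m + 1) L - S1 (2 * m + 1) (L - 1 - j))))) := by
    intro j hj
    have hu := Hz j (by omega)
    obtain ⟨h1, h2⟩ := one_add_unit hp hu
    have a1 : Dv p 2 ((1 + zq (2 * m + 1) j)⁻¹ - (1 + -zq (2 * m + 1) j)) := by
      have e : (1 + zq (2 * m + 1) j)⁻¹ - (1 + -zq (2 * m + 1) j) =
        zq (2 * m + 1) j ^ 2 * (1 + zq (2 * m + 1) j)⁻¹ := by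
        field_simp; ring
      rw [e]
      exact Dv_p2 hp hu h2
    have a2 : Dv p 2 (∏ i ∈ range j, (1 + 4 / 3 * zq (2 * m + 1) i) -
        (1 + (4 * (1 / 3)) * S1 (2 * m + 1) j)) := by
      have := prod_exp1 hp (fun i => 4 / 3 * zq (2 * m + 1) i) j (fun i hi => by
        have := Dv_int_mul hp h43 (Hz i (by omega))
        have e : 4 / 3 * zq (2 * m + 1) i = 4 * (1 / 3) * zq (2 * m + 1) i := by ring
        rw [e]; exact this)
      rw [← mul_sum, ← S1] at this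
      have e : (4 * (1 / 3) : ℚ) = 4 / 3 := by norm_num
      rw [e]
      exact this
    have hqk : ∀ u : ℚ, Dv p 1 u → Dv p 2 (hq u - 1 - 4 * (1 / 3) * u) := by
      intro u hu
      obtain ⟨k1, k2⟩ := one_sub_unit' hp hu
      obtain ⟨k3, k4⟩ := one_sub_unit' hp (x := 2 * u) (Dv_int_mul hp (Dv_ofNat hp 2) hu)
      have e : hq u - 1 - 4 * (1 / 3) * u = u ^ 2 * ((2 - (8 * (1 / 3)) * u) * ((1 - u)⁻¹ *
        (1 - 2 * u)⁻¹)) := by
        have k6 : (1 - u) * (1 - 2 * u) ≠ 0 := mul_ne_zero k1 k3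
        unfold hq
        rw [← mul_inv]
        generalize hD : (1 - u) * (1 - 2 * u) = D at *
        field_simp
        rw [← hD]
        ring
      rw [e]
      exact Dv_p2 hp hu (Dv_mul_int hp (Dv_sub hp (Dv_ofNat hp 2) (Dv_int_mul hp
        (Dv_mul_int hp (Dv_ofNat hp 8) ht) (Dv_mono (by norm_num) hu))) (Dv_mul_int hp k2 k4))
    have hqk1 : ∀ u : ℚ, Dv p 1 u → Dv p 1 (hq u - 1) := by
      intro u hu
      have e : hq u - 1 = (hq u - 1 - 4 * (1 / 3) * u) + 4 * (1 / 3) * u := by ring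
      rw [e]
      exact Dv_add hp (Dv_mono (by norm_num) (hqk u hu)) (Dv_int_mul hp h43 hu)
    have a3 : Dv p 2 (∏ i ∈ range (j + 1), hq (zq (2 * m + 1) (L - 1 - i)) -
        (1 + (4 * (1 / 3)) * (S1 (2 * m + 1) L - S1 (2 * m + 1) (L - 1 - j)))) := by
      have b1 := prod_exp1 hp (fun i => hq (zq (2 * m + 1) (L - 1 - i)) - 1) (j + 1)
        (fun i hi => hqk1 _ (Hz _ (by omega)))
      have b2 := sum_Dv hp (fun i => hq (zq (2 * m + 1) (L - 1 - i)) - 1 -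
        4 * (1 / 3) * zq (2 * m + 1) (L - 1 - i)) (j + 1) 2 (fun i hi => hqk _ (Hz _ (by omega)))
      rw [sum_sub_distrib, ← mul_sum, S1_tail _ _ _ hj] at b2
      have eP : ∏ i ∈ range (j + 1), (1 + (hq (zq (2 * m + 1) (L - 1 - i)) - 1)) =
        ∏ i ∈ range (j + 1), hq (zq (2 * m + 1) (L - 1 - i)) :=
        prod_congr rfl (fun i _ => by ring)
      simp only [eP] at b1
      have := Dv_add hp b1 b2
      generalize ∏ i ∈ range (j + 1), hq (zq (2 * m + 1) (L - 1 - i)) = P at *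
      generalize ∑ i ∈ range (j + 1), (hq (zq (2 * m + 1) (L - 1 - i)) - 1) = S at *
      have e : P - (1 + (4 * (1 / 3)) * (S1 (2 * m + 1) L - S1 (2 * m + 1) (L - 1 - j))) =
        P - (1 + S) + (S - 4 * (1 / 3) * (S1 (2 * m + 1) L - S1 (2 * m + 1) (L - 1 - j))) := by
        ring
      rw [e]
      exact this
    have c1 := S1_Dv hp Hz j (by omega)
    have c2 := S1_Dv hp Hz L hL
    have c3 := S1_Dv hp Hz (L - 1 - j) (by omega)
    have c4 := Dv_int_mul hp h43 c1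
    have c5 := Dv_int_mul hp h43 (Dv_sub hp c2 c3)
    have a4 := mul_first hp (mul_first hp a1 a2 (Dv_neg hu) c4) a3 (Dv_add hp (Dv_neg hu) c4) c5
    have a5 := Dv_mul hp (Dv_pow' hp hu 2) a4
    have e : zq (2 * m + 1) j ^ 2 / (1 + zq (2 * m + 1) j) *
      (∏ i ∈ range j, (1 + 4 / 3 * zq (2 * m + 1) i)) *
      (∏ i ∈ range (j + 1), hq (zq (2 * m + 1) (L - 1 - i))) -
      zq (2 * m + 1) j ^ 2 * (1 + (-zq (2 * m + 1) j + (4 * (1 / 3)) * S1 (2 * m + 1) j +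
        (4 * (1 / 3)) * (S1 (2 * m + 1) L - S1 (2 * m + 1) (L - 1 - j)))) =
      zq (2 * m + 1) j ^ 2 * ((1 + zq (2 * m + 1) j)⁻¹ *
      (∏ i ∈ range j, (1 + 4 / 3 * zq (2 * m + 1) i)) *
      (∏ i ∈ range (j + 1), hq (zq (2 * m + 1) (L - 1 - i))) -
      (1 + (-zq (2 * m + 1) j + (4 * (1 / 3)) * S1 (2 * m + 1) j +
        (4 * (1 / 3)) * (S1 (2 * m + 1) L - S1 (2 * m + 1) (L - 1 - j))))) := by ring
    rw [e]
    exact a5
  have hs := sum_Dv hp _ L 4 hterm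
  rw [sum_sub_distrib] at hs
  have hsum : ∑ j ∈ range L, zq (2 * m + 1) j ^ 2 * (1 + (-zq (2 * m + 1) j +
      (4 * (1 / 3)) * S1 (2 * m + 1) j +
        (4 * (1 / 3)) * (S1 (2 * m + 1) L - S1 (2 * m + 1) (L - 1 - j)))) =
      S2 (2 * m + 1) L + S3 (2 * m + 1) L / 3 := by
    have e1 : ∀ j ∈ range L, zq (2 * m + 1) j ^ 2 * (1 + (-zq (2 * m + 1) j +
      (4 * (1 / 3)) * S1 (2 * m + 1) j +
        (4 * (1 / 3)) * (S1 (2 * m + 1) L - S1 (2 * m + 1) (L - 1 - j)))) =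
        (1 + 4 / 3 * S1 (2 * m + 1) L) * zq (2 * m + 1) j ^ 2 - zq (2 * m + 1) j ^ 3 +
        4 / 3 * (S1 (2 * m + 1) j * zq (2 * m + 1) j ^ 2) - 4 / 3 * (zq (2 * m + 1) j ^ 2 *
          S1 (2 * m + 1) (L - 1 - j)) := by
      intro j _; ring
    rw [sum_congr rfl e1, sum_sub_distrib, sum_add_distrib, sum_sub_distrib, ← mul_sum,
      ← mul_sum, ← mul_sum, K21, ← S2, ← S3, ← S12]
    ring
  rw [hsum] at hs
  have e : YY (2 * m + 1) L - (1 + 4 / 3 * (S2 (2 * m + 1) L + S3 (2 * m + 1) L / 3)) =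
    (4 * (1 / 3)) * (∑ j ∈ range L, zq (2 * m + 1) j ^ 2 / (1 + zq (2 * m + 1) j) *
      (∏ i ∈ range j, (1 + 4 / 3 * zq (2 * m + 1) i)) *
      (∏ i ∈ range (j + 1), hq (zq (2 * m + 1) (L - 1 - i))) -
      (S2 (2 * m + 1) L + S3 (2 * m + 1) L / 3)) := by
    unfold YY
    ring
  rw [e]
  exact Dv_int_mul hp h43 hs

end

end Pool.Agent.Helper91.SC
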