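import Mathlib
import Pool.Agent.Helper91.PAdic

/-!
A small interface for divisibility-by-`p^k` predicates on commutative rings.
-/

set_option autoImplicit false

namespace Pool.Agent.Helper91.SC

open Finset PowerSeries

/-- decreasing family of additive subgroups compatible with multiplication -/
structure Flt {R : Type} [CommRing R] (D : ℕ → R → Prop) : Prop where
  zero : ∀ k, D k 0
  one : D 0 1
  add : ∀ {k x y}, D k x → D k y → D k (x + y)
  neg : ∀ {k x}, D k x → D k (-x)
  mul : ∀ {k l x y}, D k x → D l y → D (k + l) (x * y)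
  mono : ∀ {k l x}, k ≤ l → D l x → D k x

namespace Flt

variable {R : Type} [CommRing R] {D : ℕ → R → Prop} (F : Flt D)
include F

theorem sub {k : ℕ} {x y : R} (hx : D k x) (hy : D k y) : D k (x - y) := by
  rw [sub_eq_add_neg]; exact F.add hx (F.neg hy)

theorem mulL {k : ℕ} {x y : R} (hx : D 0 x) (hy : D k y) : D k (x * y) := by
  simpa using F.mul hx hy

theorem mulR {k : ℕ} {x y : R} (hx : D k x) (hy : D 0 y) : D k (x * y) := by
  simpa using F.mul hx hy

theorem int {k : ℕ} {x : R} (hx : D k x) : D 0 x := F.mono (Nat.zero_le k) hx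

theorem nat (n : ℕ) : D 0 (n : R) := by
  induction n with
  | zero => simpa using F.zero 0
  | succ n ih => push_cast; exact F.add ih F.one

theorem ofNat (n : ℕ) [n.AtLeastTwo] : D 0 (ofNat(n) : R) := by
  have := F.nat (OfNat.ofNat n)
  rwa [Nat.cast_ofNat] at this

theorem sum {ι : Type} {k : ℕ} (s : Finset ι) (f : ι → R) (h : ∀ i ∈ s, D k (f i)) :
    D k (∑ i ∈ s, f i) := by
  classical
  induction s using Finset.induction_on with
  | empty => simpa using F.zero k
  | insert a s ha ih =>
    rw [Finset.sum_insert ha]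
    exact F.add (h a (Finset.mem_insert_self a s))
      (ih (fun i hi => h i (Finset.mem_insert_of_mem hi)))

theorem prod {ι : Type} (s : Finset ι) (f : ι → R) (h : ∀ i ∈ s, D 0 (f i)) :
    D 0 (∏ i ∈ s, f i) := by
  classical
  induction s using Finset.induction_on with
  | empty => simpa using F.one
  | insert a s ha ih =>
    rw [Finset.prod_insert ha]
    exact F.mulL (h a (Finset.mem_insert_self a s))
      (ih (fun i hi => h i (Finset.mem_insert_of_mem hi)))

theorem pow {x : R} (hx : D 0 x) (n : ℕ) : D 0 (x ^ n) := by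
  induction n with
  | zero => simpa using F.one
  | succ n ih => rw [pow_succ]; exact F.mulL ih hx

theorem pow' {k : ℕ} {x : R} (hx : D k x) (n : ℕ) : D (k * n) (x ^ n) := by
  induction n with
  | zero => simpa using F.one
  | succ n ih => rw [pow_succ, Nat.mul_succ]; exact F.mul ih hx

theorem sq {x : R} {k : ℕ} (hx : D k x) : D (k + k) (x ^ 2) := by
  rw [_root_.sq]; exact F.mul hx hx

theorem cube {x : R} {k : ℕ} (hx : D k x) : D (k + k + k) (x ^ 3) := by
  rw [_root_.pow_succ, _root_.sq]; exact F.mul (F.mul hx hx) hx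

theorem congr_mul {k : ℕ} {x y x' y' : R} (h1 : D k (x - x')) (h2 : D k (y - y')) (hx : D 0 x')
    (hy : D 0 y) : D k (x * y - x' * y') := by
  have e : x * y - x' * y' = (x - x') * y + x' * (y - y') := by ring
  rw [e]
  exact F.add (F.mulR h1 hy) (F.mulL hx h2)

theorem trans {k : ℕ} {x y z : R} (h1 : D k (x - y)) (h2 : D k (y - z)) : D k (x - z) := by
  have e : x - z = (x - y) + (y - z) := by ring
  rw [e]; exact F.add h1 h2

theorem symm {k : ℕ} {x y : R} (h1 : D k (x - y)) : D k (y - x) := by
  have e : y - x = -(x - y) := by ring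
  rw [e]; exact F.neg h1

end Flt

theorem flt_rat {p : ℕ} (hp : p.Prime) : Flt (Dv p) where
  zero := fun k => Dv_zero_mem hp k
  one := Dv_one hp
  add := fun hx hy => Dv_add hp hx hy
  neg := fun hx => Dv_neg hx
  mul := fun hx hy => Dv_mul hp hx hy
  mono := fun h hx => Dv_mono h hx

/-- coefficientwise predicate below `N` -/
def PS {R : Type} [CommRing R] (D : ℕ → R → Prop) (N : ℕ) (k : ℕ) (f : R⟦X⟧) : Prop :=
  ∀ n < N, D k (coeff n f)

theorem flt_ps {R : Type} [CommRing R] {D : ℕ → R → Prop} (F : Flt D) (N : ℕ) :
    Flt (PS D N) where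
  zero := fun k n _ => by rw [map_zero]; exact F.zero k
  one := fun n _ => by
    rw [coeff_one]
    split_ifs
    · exact F.one
    · exact F.zero 0
  add := fun hx hy n hn => by rw [map_add]; exact F.add (hx n hn) (hy n hn)
  neg := fun hx n hn => by rw [map_neg]; exact F.neg (hx n hn)
  mul := fun {k l x y} hx hy n hn => by
    rw [coeff_mul]
    apply F.sum
    intro i hi
    have hi := mem_antidiagonal.mp hi
    exact F.mul (hx _ (by omega)) (hy _ (by omega))
  mono := fun h hx n hn => F.mono h (hx n hn)

section
variable {R : Type} [CommRing R] {D : ℕ → R → Prop} (F : Flt D) (N : ℕ)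
include F

theorem ps_C {k : ℕ} {x : R} (h : D k x) : PS D N k (C x) := by
  intro n _
  rw [coeff_C]
  split_ifs
  · exact h
  · exact F.zero k

theorem ps_X : PS D N 0 (X : R⟦X⟧) := by
  intro n _
  rw [coeff_X]
  split_ifs
  · exact F.one
  · exact F.zero 0

theorem ps_of_dvd {k : ℕ} {f : R⟦X⟧} (h : X ^ N ∣ f) : PS D N k f := by
  intro n hn
  rw [X_pow_dvd_iff.mp h n hn]
  exact F.zero k

/-- inverses of series with invertible constant term -/
theorem ps_inv {f g : R⟦X⟧} (h : f * g = 1) (hf : PS D N 0 f) (h0 : D 0 (coeff 0 g)) :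
    PS D N 0 g := by
  intro n
  induction n using Nat.strong_induction_on with
  | _ n ih =>
    intro hn
    rcases Nat.eq_zero_or_pos n with h1 | h1
    · subst h1; exact h0
    · have h2 := congrArg (coeff (R := R) n) h
      rw [coeff_mul, coeff_one, if_neg (by omega), Finset.Nat.sum_antidiagonal_eq_sum_range_succ
        (fun i j => coeff i f * coeff j g), sum_range_succ'] at h2
      simp only [Nat.sub_zero] at h2
      have h3 : coeff 0 g * coeff 0 f = 1 := by
        have := congrArg (coeff (R := R) 0) h
        rw [coeff_mul] at this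
        simp at this
        simpa [mul_comm] using this
      have e : coeff n g = -(coeff 0 g * ∑ k ∈ range n, coeff (k + 1) f * coeff (n - (k + 1)) g) := by
        have : coeff n g = (coeff 0 g * coeff 0 f) * coeff n g := by rw [h3, one_mul]
        rw [this]
        linear_combination (coeff 0 g) * h2
      rw [e]
      apply F.neg
      apply F.mulL h0
      apply F.sum
      intro k hk
      have hk := mem_range.mp hk
      exact F.mulL (hf _ (by omega)) (ih _ (by omega) (by omega))

end

end Pool.Agent.Helper91.SC
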