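import Mathlib
import Pool.Agent.Helper91.SC.Flt

/-!
The ring `ℚ[η]/(η^3)`.
-/

set_option autoImplicit false

namespace Pool.Agent.Helper91.SC

open Finset

/-- truncated polynomials `c0 + c1 η + c2 η^2`. -/
@[ext] structure T3 where
  c0 : ℚ
  c1 : ℚ
  c2 : ℚ

namespace T3

instance : Zero T3 := ⟨⟨0, 0, 0⟩⟩
instance : One T3 := ⟨⟨1, 0, 0⟩⟩
instance : Add T3 := ⟨fun a b => ⟨a.c0 + b.c0, a.c1 + b.c1, a.c2 + b.c2⟩⟩
instance : Neg T3 := ⟨fun a => ⟨-a.c0, -a.c1, -a.c2⟩⟩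
instance : Mul T3 := ⟨fun a b => ⟨a.c0 * b.c0, a.c0 * b.c1 + a.c1 * b.c0,
  a.c0 * b.c2 + a.c1 * b.c1 + a.c2 * b.c0⟩⟩

@[simp] theorem zero_c0 : (0 : T3).c0 = 0 := rfl
@[simp] theorem zero_c1 : (0 : T3).c1 = 0 := rfl
@[simp] theorem zero_c2 : (0 : T3).c2 = 0 := rfl
@[simp] theorem one_c0 : (1 : T3).c0 = 1 := rfl
@[simp] theorem one_c1 : (1 : T3).c1 = 0 := rfl
@[simp] theorem one_c2 : (1 : T3).c2 = 0 := rfl
@[simp] theorem add_c0 (a b : T3) : (a + b).c0 = a.c0 + b.c0 := rfl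
@[simp] theorem add_c1 (a b : T3) : (a + b).c1 = a.c1 + b.c1 := rfl
@[simp] theorem add_c2 (a b : T3) : (a + b).c2 = a.c2 + b.c2 := rfl
@[simp] theorem neg_c0 (a : T3) : (-a).c0 = -a.c0 := rfl
@[simp] theorem neg_c1 (a : T3) : (-a).c1 = -a.c1 := rfl
@[simp] theorem neg_c2 (a : T3) : (-a).c2 = -a.c2 := rfl
@[simp] theorem mul_c0 (a b : T3) : (a * b).c0 = a.c0 * b.c0 := rfl
@[simp] theorem mul_c1 (a b : T3) : (a * b).c1 = a.c0 * b.c1 + a.c1 * b.c0 := rfl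
@[simp] theorem mul_c2 (a b : T3) :
  (a * b).c2 = a.c0 * b.c2 + a.c1 * b.c1 + a.c2 * b.c0 := rfl

instance : CommRing T3 where
  add_assoc a b c := by ext <;> simp <;> ring
  zero_add a := by ext <;> simp
  add_zero a := by ext <;> simp
  add_comm a b := by ext <;> simp <;> ring
  neg_add_cancel a := by ext <;> simp
  mul_assoc a b c := by ext <;> simp <;> ring
  mul_comm a b := by ext <;> simp <;> ring
  one_mul a := by ext <;> simp
  mul_one a := by ext <;> simp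
  left_distrib a b c := by ext <;> simp <;> ring
  right_distrib a b c := by ext <;> simp <;> ring
  zero_mul a := by ext <;> simp
  mul_zero a := by ext <;> simp
  nsmul := nsmulRec
  zsmul := zsmulRec

@[simp] theorem sub_c0 (a b : T3) : (a - b).c0 = a.c0 - b.c0 := by
  rw [sub_eq_add_neg, sub_eq_add_neg]; rfl
@[simp] theorem sub_c1 (a b : T3) : (a - b).c1 = a.c1 - b.c1 := by
  rw [sub_eq_add_neg, sub_eq_add_neg]; rfl
@[simp] theorem sub_c2 (a b : T3) : (a - b).c2 = a.c2 - b.c2 := by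
  rw [sub_eq_add_neg, sub_eq_add_neg]; rfl

/-- embedding of the rationals -/
def emb : ℚ →+* T3 where
  toFun x := ⟨x, 0, 0⟩
  map_one' := rfl
  map_zero' := rfl
  map_mul' x y := by ext <;> simp
  map_add' x y := by ext <;> simp

@[simp] theorem emb_c0 (x : ℚ) : (emb x).c0 = x := rfl
@[simp] theorem emb_c1 (x : ℚ) : (emb x).c1 = 0 := rfl
@[simp] theorem emb_c2 (x : ℚ) : (emb x).c2 = 0 := rfl

/-- the nilpotent generator -/
def et : T3 := ⟨0, 1, 0⟩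

@[simp] theorem et_c0 : et.c0 = 0 := rfl
@[simp] theorem et_c1 : et.c1 = 1 := rfl
@[simp] theorem et_c2 : et.c2 = 0 := rfl

theorem et_cube : et ^ 3 = 0 := by
  rw [pow_succ, sq]
  ext <;> simp

theorem natCast_eq (n : ℕ) : (n : T3) = emb n := by
  rw [map_natCast]

theorem expand (a : T3) : a = emb a.c0 + emb a.c1 * et + emb a.c2 * et ^ 2 := by
  rw [sq]
  ext <;> simp

end T3

open T3

/-- componentwise predicate -/
def DK (D : ℕ → ℚ → Prop) (k : ℕ) (x : T3) : Prop := D k x.c0 ∧ D k x.c1 ∧ D k x.c2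

theorem flt_t3 {D : ℕ → ℚ → Prop} (F : Flt D) : Flt (DK D) where
  zero := fun k => ⟨F.zero k, F.zero k, F.zero k⟩
  one := ⟨F.one, F.zero 0, F.zero 0⟩
  add := fun hx hy => ⟨F.add hx.1 hy.1, F.add hx.2.1 hy.2.1, F.add hx.2.2 hy.2.2⟩
  neg := fun hx => ⟨F.neg hx.1, F.neg hx.2.1, F.neg hx.2.2⟩
  mul := fun hx hy => ⟨F.mul hx.1 hy.1, F.add (F.mul hx.1 hy.2.1) (F.mul hx.2.1 hy.1),
    F.add (F.add (F.mul hx.1 hy.2.2) (F.mul hx.2.1 hy.2.1)) (F.mul hx.2.2 hy.1)⟩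
  mono := fun h hx => ⟨F.mono h hx.1, F.mono h hx.2.1, F.mono h hx.2.2⟩

theorem dk_emb {D : ℕ → ℚ → Prop} (F : Flt D) {k : ℕ} {x : ℚ} (h : D k x) : DK D k (emb x) :=
  ⟨h, F.zero k, F.zero k⟩

theorem dk_et {D : ℕ → ℚ → Prop} (F : Flt D) : DK D 0 et := ⟨F.zero 0, F.one, F.zero 0⟩

/-- inverse of `n + c e` for `e` a multiple of `η`: here `x + y η` with `x ≠ 0`. -/
def inv3 (x : ℚ) (y : ℚ) : T3 := ⟨x⁻¹, -(y * x⁻¹ ^ 2), y ^ 2 * x⁻¹ ^ 3⟩

theorem inv3_mul (x y : ℚ) (hx : x ≠ 0) : (emb x + emb y * et) * inv3 x y = 1 := by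
  unfold inv3
  ext
  · simp [hx]
  · simp only [mul_c1, add_c0, emb_c0, mul_c0, et_c0, add_c1, emb_c1, mul_c1, et_c1, one_c1]
    field_simp
    ring
  · simp only [mul_c2, add_c0, emb_c0, mul_c0, et_c0, add_c1, emb_c1, mul_c1, et_c1, one_c2,
      add_c2, emb_c2, mul_c2, et_c2]
    field_simp
    ring

theorem inv3_int {p : ℕ} (hp : p.Prime) {x y : ℚ} (hx : Dv p 0 x⁻¹) (hy : Dv p 0 y) :
    DK (Dv p) 0 (inv3 x y) :=
  ⟨hx, Dv_neg (Dv_mul_int hp hy (Dv_pow hp hx 2)),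
    Dv_mul_int hp (Dv_pow hp hy 2) (Dv_pow hp hx 3)⟩

end Pool.Agent.Helper91.SC
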