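import Mathlib
import Pool.Agent.Helper91.SC.T3
import Pool.Agent.Helper91.SC.PartA1

/-!
The deformed coefficient sequences and their behaviour under `n ↦ p n`.
-/

set_option autoImplicit false

namespace Pool.Agent.Helper91.SC

open Finset T3

/-- deformed hypergeometric coefficients, parameter `c η`. -/
def hseq (P : T3 → T3) (c : ℚ) : ℕ → T3
  | 0 => 1
  | n + 1 => hseq P c n * P ((n : T3) + emb c * et) * inv3 ((n : ℚ) + 1) c ^ 3

/-- numerator for the first family -/
def Pa (y : T3) : T3 := (4 * y + 2) ^ 3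
/-- numerator for the second family -/
def Pb (y : T3) : T3 := 8 * (4 * y + 1) * (2 * y + 1) * (4 * y + 3)

theorem inv3_mul' (n : ℕ) (c : ℚ) : ((n : T3) + 1 + emb c * et) * inv3 ((n : ℚ) + 1) c = 1 := by
  have h := inv3_mul ((n : ℚ) + 1) c (by positivity)
  rw [map_add, map_one, map_natCast] at h
  exact h

theorem hseq_rec (P : T3 → T3) (c : ℚ) (n : ℕ) :
    ((n : T3) + 1 + emb c * et) ^ 3 * hseq P c (n + 1) =
      P ((n : T3) + emb c * et) * hseq P c n := by
  have h := inv3_mul' n c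
  have h3 : ((n : T3) + 1 + emb c * et) ^ 3 * inv3 ((n : ℚ) + 1) c ^ 3 = 1 := by
    rw [← mul_pow, h, one_pow]
  rw [hseq]
  linear_combination (hseq P c n * P ((n : T3) + emb c * et)) * h3

/-- products of consecutive terms -/
def rf (z : T3) (n : ℕ) : T3 := ∏ i ∈ range n, (z + ((i : T3) + 1))

theorem rf_succ (z : T3) (n : ℕ) : rf z (n + 1) = rf z n * (z + ((n : T3) + 1)) := by
  rw [rf, prod_range_succ, ← rf]

theorem rf_add (z : T3) (m n : ℕ) : rf z (m + n) = rf z m * rf (z + m) n := by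
  induction n with
  | zero => simp [rf]
  | succ n ih =>
    rw [← add_assoc, rf_succ, ih, rf_succ]
    push_cast
    ring

theorem prod_Pa (z : T3) (n : ℕ) :
    (∏ j ∈ range n, (4 * (z + j) + 2)) * rf z n = rf (2 * z) (2 * n) := by
  induction n with
  | zero => simp [rf]
  | succ n ih =>
    rw [prod_range_succ, rf_succ, show 2 * (n + 1) = 2 * n + 1 + 1 by ring, rf_succ, rf_succ, ← ih]
    push_cast
    ring

theorem prod_Pb (z : T3) (n : ℕ) :
    (∏ j ∈ range n, Pb (z + j)) * rf z n = rf (4 * z) (4 * n) := by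
  induction n with
  | zero => simp [rf]
  | succ n ih =>
    rw [prod_range_succ, rf_succ, show 4 * (n + 1) = 4 * n + 1 + 1 + 1 + 1 by ring, rf_succ,
      rf_succ, rf_succ, rf_succ, ← ih]
    unfold Pb
    push_cast
    ring

theorem hseq_block (P : T3 → T3) (c : ℚ) (n k : ℕ) :
    hseq P c (n + k) = hseq P c n * (∏ j ∈ range k, P (((n : T3) + emb c * et) + j)) *
      (∏ j ∈ range k, inv3 (((n + j : ℕ) : ℚ) + 1) c) ^ 3 := by
  induction k with
  | zero => simp
  | succ k ih =>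
    rw [← add_assoc, hseq, ih, prod_range_succ, prod_range_succ]
    have e : (((n + k : ℕ) : T3) + emb c * et) = ((n : T3) + emb c * et) + k := by
      push_cast; ring
    rw [e]
    ring

theorem prod_inv (c : ℚ) (n k : ℕ) :
    rf ((n : T3) + emb c * et) k * (∏ j ∈ range k, inv3 (((n + j : ℕ) : ℚ) + 1) c) = 1 := by
  induction k with
  | zero => simp [rf]
  | succ k ih =>
    rw [rf_succ, prod_range_succ]
    have h := inv3_mul' (n + k) c
    have e : ((n : T3) + emb c * et) + ((k : T3) + 1) =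
        (((n + k : ℕ) : T3) + 1 + emb c * et) := by
      push_cast; ring
    have e2 : rf ((n : T3) + emb c * et) k * (((n : T3) + emb c * et) + ((k : T3) + 1)) *
      ((∏ j ∈ range k, inv3 (((n + j : ℕ) : ℚ) + 1) c) * inv3 (((n + k : ℕ) : ℚ) + 1) c) =
      (rf ((n : T3) + emb c * et) k * (∏ j ∈ range k, inv3 (((n + j : ℕ) : ℚ) + 1) c)) *
      ((((n + k : ℕ) : T3) + 1 + emb c * et) * inv3 (((n + k : ℕ) : ℚ) + 1) c) := by
      rw [← e]; ring
    rw [e2, ih, h, one_mul]

section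
variable {p : ℕ} (hp : p.Prime) (h5 : 5 ≤ p)
include hp h5

/-- Wolstenholme type statement. -/
theorem rf_cong {Y : T3} (hY : DK (Dv p) 0 Y) :
    DK (Dv p) 3 (rf ((p : T3) * Y) (p - 1) - ((p - 1).factorial : T3)) := by
  have F := flt_t3 (flt_rat hp)
  have hh := Dv_half hp h5
  obtain ⟨m, hm⟩ := hp.odd_of_ne_two (by omega)
  have Hz := Hz_of_pow hp (a := 1) (m := m) (by rw [pow_one, hm])
  have hp1 : p - 1 = 2 * m := by omega
  -- expansion of the product
  have key : ∀ n ≤ 2 * m, DK (Dv p) 3 ((∏ i ∈ range n, (1 + emb (zq (2 * m + 1) i) * Y)) -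
      (1 + emb (S1 (2 * m + 1) n) * Y + emb ((S1 (2 * m + 1) n ^ 2 - S2 (2 * m + 1) n) / 2) *
        Y ^ 2)) := by
    intro n
    induction n with
    | zero =>
      intro _
      have : (∏ i ∈ range 0, (1 + emb (zq (2 * m + 1) i) * Y)) -
        (1 + emb (S1 (2 * m + 1) 0) * Y + emb ((S1 (2 * m + 1) 0 ^ 2 - S2 (2 * m + 1) 0) / 2) *
          Y ^ 2) = 0 := by
        simp [S1, S2]
      rw [this]
      exact F.zero 3
    | succ n ih =>
      intro hn
      have ih := ih (by omega)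
      have hz := dk_emb (flt_rat hp) (Hz n (by omega))
      have hs := S1_Dv hp Hz n (by omega)
      have hs2 := S2_Dv hp Hz n (by omega)
      have e : (∏ i ∈ range (n + 1), (1 + emb (zq (2 * m + 1) i) * Y)) -
        (1 + emb (S1 (2 * m + 1) (n + 1)) * Y +
          emb ((S1 (2 * m + 1) (n + 1) ^ 2 - S2 (2 * m + 1) (n + 1)) / 2) * Y ^ 2) =
        ((∏ i ∈ range n, (1 + emb (zq (2 * m + 1) i) * Y)) -
      (1 + emb (S1 (2 * m + 1) n) * Y + emb ((S1 (2 * m + 1) n ^ 2 - S2 (2 * m + 1) n) / 2) *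
        Y ^ 2)) * (1 + emb (zq (2 * m + 1) n) * Y) +
        (emb ((S1 (2 * m + 1) n ^ 2 - S2 (2 * m + 1) n) * (1 / 2)) * emb (zq (2 * m + 1) n)) *
          Y ^ 3 := by
        rw [prod_range_succ, S1_succ, S2_succ]
        have e1 : ((S1 (2 * m + 1) n + zq (2 * m + 1) n) ^ 2 - (S2 (2 * m + 1) n +
          zq (2 * m + 1) n ^ 2)) / 2 = (S1 (2 * m + 1) n ^ 2 - S2 (2 * m + 1) n) / 2 +
          S1 (2 * m + 1) n * zq (2 * m + 1) n := by ring
        have e2 : (S1 (2 * m + 1) n ^ 2 - S2 (2 * m + 1) n) * (1 / 2) =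
          (S1 (2 * m + 1) n ^ 2 - S2 (2 * m + 1) n) / 2 := by ring
        rw [e1, e2]
        simp only [map_add, map_mul]
        ring
      rw [e]
      refine F.add (F.mulR ih (F.add F.one (F.mulR (F.int hz) hY))) (F.mulR (F.mul ?_ hz)
        (F.pow hY 3))
      exact dk_emb (flt_rat hp) (Dv_mul_int hp (Dv_sub hp (Dv_pow' hp hs 2) hs2) hh)
  have k := key (2 * m) le_rfl
  have s1 : Dv p 3 (S1 (2 * m + 1) (2 * m)) := by
    have h1 := S1_full3 hp h5 Hz
    have h2 := S3_Dv hp Hz m (by omega)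
    have ht := Dv_third hp h5
    have e : S1 (2 * m + 1) (2 * m) = (S1 (2 * m + 1) (2 * m) - 1 / 6 * S3 (2 * m + 1) m) +
      (1 / 2 * (1 / 3)) * S3 (2 * m + 1) m := by ring
    rw [e]
    exact Dv_add hp (Dv_mono (by norm_num) h1) (Dv_int_mul hp (Dv_mul_int hp hh ht) h2)
  have s2 : Dv p 3 (S2 (2 * m + 1) (2 * m)) := by
    have h1 := S2_full hp h5 Hz
    have h2 := S3_Dv hp Hz m (by omega)
    have ht := Dv_third hp h5
    have e : S2 (2 * m + 1) (2 * m) = (S2 (2 * m + 1) (2 * m) - (-(1 / 3) * S3 (2 * m + 1) m)) -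
      (1 / 3) * S3 (2 * m + 1) m := by ring
    rw [e]
    exact Dv_sub hp (Dv_mono (by norm_num) h1) (Dv_int_mul hp ht h2)
  have e : rf ((p : T3) * Y) (p - 1) = ((p - 1).factorial : T3) *
      ∏ i ∈ range (2 * m), (1 + emb (zq (2 * m + 1) i) * Y) := by
    have : ∀ n, rf ((p : T3) * Y) n = ((n).factorial : T3) *
        ∏ i ∈ range n, (1 + emb (zq (2 * m + 1) i) * Y) := by
      intro n
      induction n with
      | zero => simp [rf]
      | succ n ih =>
        rw [rf_succ, ih, prod_range_succ, Nat.factorial_succ]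
        have e1 : ((n : T3) + 1) * emb (zq (2 * m + 1) n) = (p : T3) := by
          have : (p : T3) = emb (p : ℚ) := by rw [map_natCast]
          rw [this, hm]
          have e2 : ((n : T3) + 1) = emb ((n : ℚ) + 1) := by
            rw [map_add, map_one, map_natCast]
          rw [e2, ← map_mul]
          congr 1
          unfold zq
          have : ((n : ℚ) + 1) ≠ 0 := by positivity
          field_simp
        push_cast
        linear_combination (-(n.factorial : T3) *
          (∏ i ∈ range n, (1 + emb (zq (2 * m + 1) i) * Y)) * Y) * e1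
    rw [this, hp1]
  have e2 : rf ((p : T3) * Y) (p - 1) - ((p - 1).factorial : T3) = ((p - 1).factorial : T3) *
      (((∏ i ∈ range (2 * m), (1 + emb (zq (2 * m + 1) i) * Y)) -
      (1 + emb (S1 (2 * m + 1) (2 * m)) * Y +
        emb ((S1 (2 * m + 1) (2 * m) ^ 2 - S2 (2 * m + 1) (2 * m)) / 2) * Y ^ 2)) +
      emb (S1 (2 * m + 1) (2 * m)) * Y +
        emb ((S1 (2 * m + 1) (2 * m) ^ 2 - S2 (2 * m + 1) (2 * m)) * (1 / 2)) * Y ^ 2) := by
    rw [e, show (S1 (2 * m + 1) (2 * m) ^ 2 - S2 (2 * m + 1) (2 * m)) * (1 / 2) =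
      (S1 (2 * m + 1) (2 * m) ^ 2 - S2 (2 * m + 1) (2 * m)) / 2 by ring]
    ring
  rw [e2]
  refine F.mulL (F.nat _) (F.add (F.add k (F.mulR (dk_emb (flt_rat hp) s1) hY)) (F.mulR ?_
    (F.pow hY 2)))
  exact dk_emb (flt_rat hp) (Dv_mul_int hp (Dv_sub hp (Dv_mono (by norm_num) (Dv_pow' hp s1 2)) s2)
    hh)

end

end Pool.Agent.Helper91.SC
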