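import Mathlib
import Pool.Agent.Helper91.SC.Seq

/-!
Block structure of the deformed sequences modulo `p^3`.
-/

set_option autoImplicit false

namespace Pool.Agent.Helper91.SC

open Finset T3

/-- substitution `η ↦ Z` -/
def sbZ (Z x : T3) : T3 := emb x.c0 + emb x.c1 * Z + emb x.c2 * Z ^ 2

theorem sbZ_add (Z x y : T3) : sbZ Z (x + y) = sbZ Z x + sbZ Z y := by
  unfold sbZ
  simp only [add_c0, add_c1, add_c2, map_add]
  ring

theorem sbZ_mul (Z x y : T3) : sbZ Z x * sbZ Z y - sbZ Z (x * y) =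
    Z ^ 3 * (emb (x.c1 * y.c2 + x.c2 * y.c1) + emb (x.c2 * y.c2) * Z) := by
  unfold sbZ
  simp only [mul_c0, mul_c1, mul_c2, map_add, map_mul]
  ring

theorem sbZ_one (Z : T3) : sbZ Z 1 = 1 := by
  unfold sbZ
  simp

theorem sbZ_emb (Z : T3) (x : ℚ) : sbZ Z (emb x) = emb x := by
  unfold sbZ
  rw [emb_c0, emb_c1, emb_c2]
  simp

theorem sbZ_nat (Z : T3) (n : ℕ) : sbZ Z (n : T3) = n := by
  rw [natCast_eq, sbZ_emb]

theorem sbZ_et (Z : T3) : sbZ Z et = Z := by
  unfold sbZ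
  simp

section
variable {p : ℕ} (hp : p.Prime)
include hp

theorem sbZ_int {Z x : T3} (hZ : DK (Dv p) 0 Z) (hx : DK (Dv p) 0 x) : DK (Dv p) 0 (sbZ Z x) := by
  have F := flt_t3 (flt_rat hp)
  unfold sbZ
  exact F.add (F.add (dk_emb (flt_rat hp) hx.1) (F.mulL (dk_emb (flt_rat hp) hx.2.1) hZ))
    (F.mulL (dk_emb (flt_rat hp) hx.2.2) (F.pow hZ 2))

theorem sbZ_mul_cong {Z x y : T3} (hZ : DK (Dv p) 1 Z) (hx : DK (Dv p) 0 x)
    (hy : DK (Dv p) 0 y) : DK (Dv p) 3 (sbZ Z x * sbZ Z y - sbZ Z (x * y)) := by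
  have F := flt_t3 (flt_rat hp)
  rw [sbZ_mul]
  refine F.mulR (F.cube hZ) (F.add ?_ (F.mulL ?_ (F.int hZ)))
  · exact dk_emb (flt_rat hp) (Dv_add hp (Dv_mul_int hp hx.2.1 hy.2.2)
      (Dv_mul_int hp hx.2.2 hy.2.1))
  · exact dk_emb (flt_rat hp) (Dv_mul_int hp hx.2.2 hy.2.2)

end

/-- the two admissible numerators -/
structure PGood (P : T3 → T3) : Prop where
  int : ∀ {p : ℕ}, p.Prime → ∀ {y : T3}, DK (Dv p) 0 y → DK (Dv p) 0 (P y)
  sb : ∀ {p : ℕ}, p.Prime → ∀ {Z : T3}, DK (Dv p) 1 Z → ∀ k : ℕ,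
    DK (Dv p) 3 (P (Z + k) - sbZ Z (P (et + k)))
  blk : ∀ {p : ℕ}, p.Prime → 5 ≤ p → ∀ m : ℕ, ∃ W : T3, DK (Dv p) 3 (W - 1) ∧
    (∏ j ∈ range p, P ((((p * m : ℕ) : T3) + emb p * et) + j)) *
      (∏ j ∈ range (p - 1), inv3 (((p * m + j : ℕ) : ℚ) + 1) p) ^ 3 =
      (p : T3) ^ 3 * W * P ((m : T3) + et)

theorem Pa_sb (Z : T3) (k : ℕ) : Pa (Z + k) - sbZ Z (Pa (et + k)) = 64 * Z ^ 3 := by
  have e : Pa (et + k) = emb (((4 * k + 2 : ℕ) : ℚ) ^ 3) +
      emb (12 * ((4 * k + 2 : ℕ) : ℚ) ^ 2) * et + emb (48 * ((4 * k + 2 : ℕ) : ℚ)) * et ^ 2 := by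
    unfold Pa
    have := et_cube
    simp only [map_mul, map_pow, map_natCast, map_ofNat]
    push_cast
    linear_combination 64 * this
  rw [e]
  unfold sbZ Pa
  have e2 : et ^ 2 = ⟨0, 0, 1⟩ := by
    rw [sq]; ext <;> simp
  rw [e2]
  simp only [add_c0, add_c1, add_c2, mul_c0, mul_c1, mul_c2, emb_c0, emb_c1, emb_c2, et_c0,
    et_c1, et_c2, mul_zero, mul_one, add_zero, zero_add]
  simp only [map_mul, map_pow, map_natCast, map_ofNat]
  push_cast
  ring

theorem Pb_sb (Z : T3) (k : ℕ) : Pb (Z + k) - sbZ Z (Pb (et + k)) = 256 * Z ^ 3 := by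
  have e : Pb (et + k) = emb (8 * ((4 * k + 1 : ℕ) : ℚ) * ((2 * k + 1 : ℕ) : ℚ) *
      ((4 * k + 3 : ℕ) : ℚ)) +
      emb (8 * (4 * ((2 * k + 1 : ℕ) : ℚ) * ((4 * k + 3 : ℕ) : ℚ) +
        2 * ((4 * k + 1 : ℕ) : ℚ) * ((4 * k + 3 : ℕ) : ℚ) +
        4 * ((4 * k + 1 : ℕ) : ℚ) * ((2 * k + 1 : ℕ) : ℚ))) * et +
      emb (8 * (8 * ((4 * k + 3 : ℕ) : ℚ) + 16 * ((2 * k + 1 : ℕ) : ℚ) +
        8 * ((4 * k + 1 : ℕ) : ℚ))) * et ^ 2 := by
    unfold Pb
    have := et_cube
    simp only [map_mul, map_add, map_pow, map_natCast, map_ofNat]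
    push_cast
    linear_combination 256 * this
  rw [e]
  unfold sbZ Pb
  have e2 : et ^ 2 = ⟨0, 0, 1⟩ := by
    rw [sq]; ext <;> simp
  rw [e2]
  simp only [add_c0, add_c1, add_c2, mul_c0, mul_c1, mul_c2, emb_c0, emb_c1, emb_c2, et_c0,
    et_c1, et_c2, mul_zero, mul_one, add_zero, zero_add]
  simp only [map_mul, map_add, map_natCast, map_ofNat]
  push_cast
  ring

section
variable {p : ℕ} (hp : p.Prime)
include hp

theorem DK_inv3 {n : ℕ} (c : ℚ) (hc : Dv p 0 c) (hn : ¬ p ∣ n + 1) :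
    DK (Dv p) 0 (inv3 ((n : ℚ) + 1) c) := by
  refine inv3_int hp ?_ hc
  have := Dv_inv_nat hp hn
  push_cast at this
  exact this

theorem DK_p : DK (Dv p) 1 (p : T3) := by
  rw [natCast_eq]
  exact dk_emb (flt_rat hp) (Dv_p hp)

theorem DK_Z (m : ℕ) : DK (Dv p) 1 (((p * m : ℕ) : T3) + emb p * et) := by
  have F := flt_t3 (flt_rat hp)
  have e : (((p * m : ℕ) : T3) + emb p * et) = (p : T3) * ((m : T3) + et) := by
    rw [map_natCast]; push_cast; ring
  rw [e]
  exact F.mulR (DK_p hp) (F.add (F.nat m) (dk_et (flt_rat hp)))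

theorem not_dvd_block {m j : ℕ} (hj : j < p - 1) : ¬ p ∣ (p * m + j) + 1 := by
  intro h
  have h2 : p ∣ j + 1 := by
    have : p * m + j + 1 = p * m + (j + 1) := by ring
    rw [this] at h
    exact (Nat.dvd_add_right (Dvd.intro m rfl)).mp h
  have := Nat.le_of_dvd (by omega) h2
  omega

theorem G_inv (m : ℕ) : rf ((p : T3) * ((m : T3) + et)) (p - 1) *
    (∏ j ∈ range (p - 1), inv3 (((p * m + j : ℕ) : ℚ) + 1) p) = 1 := by
  have h := prod_inv (p : ℚ) (p * m) (p - 1)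
  have e : (((p * m : ℕ) : T3) + emb p * et) = (p : T3) * ((m : T3) + et) := by
    rw [map_natCast]; push_cast; ring
  rw [e] at h
  exact h

theorem G_inv_int (m : ℕ) :
    DK (Dv p) 0 (∏ j ∈ range (p - 1), inv3 (((p * m + j : ℕ) : ℚ) + 1) p) := by
  have F := flt_t3 (flt_rat hp)
  apply F.prod
  intro j hj
  exact DK_inv3 hp _ (Dv_nat hp p) (not_dvd_block hp (mem_range.mp hj))

/-- a product of consecutive blocks -/
theorem rf_block (Y : T3) : rf ((p : T3) * Y) p =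
    rf ((p : T3) * Y) (p - 1) * ((p : T3) * (Y + 1)) := by
  have h1 := hp.one_lt
  obtain ⟨q, rfl⟩ : ∃ q, p = q + 1 := ⟨p - 1, by omega⟩
  rw [Nat.add_sub_cancel, rf_succ]
  push_cast
  ring

theorem rf_blocks2 (Y : T3) : rf ((p : T3) * Y) (2 * p) =
    rf ((p : T3) * Y) (p - 1) * rf ((p : T3) * (Y + 1)) (p - 1) *
      ((p : T3) ^ 2 * ((Y + 1) * (Y + 2))) := by
  rw [two_mul, rf_add, rf_block hp, show (p : T3) * Y + p = (p : T3) * (Y + 1) by ring,
    rf_block hp]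
  ring

theorem rf_blocks4 (Y : T3) : rf ((p : T3) * Y) (4 * p) =
    rf ((p : T3) * Y) (p - 1) * rf ((p : T3) * (Y + 1)) (p - 1) *
    rf ((p : T3) * (Y + 2)) (p - 1) * rf ((p : T3) * (Y + 3)) (p - 1) *
      ((p : T3) ^ 4 * ((Y + 1) * (Y + 2) * (Y + 3) * (Y + 4))) := by
  rw [show 4 * p = 2 * p + 2 * p by ring, rf_add, rf_blocks2 hp,
    show (p : T3) * Y + ((2 * p : ℕ) : T3) = (p : T3) * (Y + 2) by push_cast; ring,
    rf_blocks2 hp]
  have e1 : (Y + 2 + 1 : T3) = Y + 3 := by ring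
  have e2 : (Y + 2 + 2 : T3) = Y + 4 := by ring
  rw [e1, e2]
  ring

end

theorem unit_m (m : ℕ) {p : ℕ} (hp : p.Prime) :
    ((p : T3) * ((m : T3) + et + 1)) * (emb (p : ℚ)⁻¹ * inv3 ((m : ℚ) + 1) 1) = 1 := by
  have h := inv3_mul' m 1
  rw [map_one, one_mul] at h
  have hp0 : (p : ℚ) ≠ 0 := p_ne hp
  have e : (p : T3) * emb (p : ℚ)⁻¹ = 1 := by
    rw [natCast_eq, ← map_mul, mul_inv_cancel₀ hp0, map_one]
  linear_combination h + (((m : T3) + 1 + et) * inv3 ((m : ℚ) + 1) 1) * e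

theorem Pa_good : PGood Pa where
  int := by
    intro p hp y hy
    have F := flt_t3 (flt_rat hp)
    unfold Pa
    exact F.pow (F.add (F.mulL (F.ofNat 4) hy) (F.ofNat 2)) 3
  sb := by
    intro p hp Z hZ k
    have F := flt_t3 (flt_rat hp)
    rw [Pa_sb]
    exact F.mulL (F.ofNat 64) (F.cube hZ)
  blk := by
    intro p hp h5 m
    have F := flt_t3 (flt_rat hp)
    set Y : T3 := (m : T3) + et with hY
    have hYi : DK (Dv p) 0 Y := F.add (F.nat m) (dk_et (flt_rat hp))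
    have hZ : (((p * m : ℕ) : T3) + emb p * et) = (p : T3) * Y := by
      rw [map_natCast, hY]; push_cast; ring
    have hG := G_inv hp m
    have hGi := G_inv_int hp m
    rw [← hY] at hG
    set G' := ∏ j ∈ range (p - 1), inv3 (((p * m + j : ℕ) : ℚ) + 1) p with hG'
    have k1 := prod_Pa ((p : T3) * Y) p
    rw [rf_block hp, show 2 * ((p : T3) * Y) = (p : T3) * (2 * Y) by ring, rf_blocks2 hp] at k1
    have hu := unit_m m hp
    rw [← hY] at hu
    set g0 := rf ((p : T3) * Y) (p - 1) with hg0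
    set g1 := rf ((p : T3) * (2 * Y)) (p - 1) with hg1
    set g2 := rf ((p : T3) * (2 * Y + 1)) (p - 1) with hg2
    set u := emb (p : ℚ)⁻¹ * inv3 ((m : ℚ) + 1) 1
    set Q := ∏ j ∈ range p, (4 * ((p : T3) * Y + j) + 2) with hQ
    have k2 : Q * g0 = g1 * g2 * ((p : T3) * (4 * Y + 2)) := by
      linear_combination u * k1 - (Q * g0) * hu + g1 * g2 * ((p : T3) * (4 * Y + 2)) * hu
    have k3 : Q = G' * (g1 * g2) * ((p : T3) * (4 * Y + 2)) := by
      linear_combination G' * k2 - Q * hG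
    refine ⟨(G' * (g1 * g2) * G') ^ 3, ?_, ?_⟩
    · have c0 := rf_cong hp h5 hYi
      have c1 := rf_cong hp h5 (F.mulL (F.ofNat 2) hYi)
      have c2 := rf_cong hp h5 (F.add (F.mulL (F.ofNat 2) hYi) F.one)
      have hf := F.nat (p - 1).factorial
      have i0 : DK (Dv p) 0 g0 := by
        have : g0 = (g0 - ((p - 1).factorial : T3)) + ((p - 1).factorial : T3) := by ring
        rw [this]; exact F.add (F.int c0) hf
      have i2 : DK (Dv p) 0 g2 := by
        have : g2 = (g2 - ((p - 1).factorial : T3)) + ((p - 1).factorial : T3) := by ring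
        rw [this]; exact F.add (F.int c2) hf
      have c3 : DK (Dv p) 3 (g1 * g2 - g0 * g0) :=
        F.congr_mul (F.trans c1 (F.symm c0)) (F.trans c2 (F.symm c0)) i0 i2
      have e : (G' * (g1 * g2) * G') ^ 3 - 1 = (G' ^ 2 * (g1 * g2 - g0 * g0)) *
          ((G' * (g1 * g2) * G') ^ 2 + (G' * (g1 * g2) * G') + 1) := by
        have : G' * (g1 * g2) * G' - 1 = G' ^ 2 * (g1 * g2 - g0 * g0) := by
          linear_combination (g0 * G' + 1) * hG
        linear_combination ((G' * (g1 * g2) * G') ^ 2 + (G' * (g1 * g2) * G') + 1) * this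
      rw [e]
      have i1 : DK (Dv p) 0 g1 := by
        have : g1 = (g1 - ((p - 1).factorial : T3)) + ((p - 1).factorial : T3) := by ring
        rw [this]; exact F.add (F.int c1) hf
      have i3 : DK (Dv p) 0 (G' * (g1 * g2) * G') := F.mulL (F.mulL hGi (F.mulL i1 i2)) hGi
      exact F.mulR (F.mulL (F.pow hGi 2) c3) (F.add (F.add (F.pow i3 2) i3) F.one)
    · have e : (∏ j ∈ range p, Pa ((((p * m : ℕ) : T3) + emb p * et) + j)) = Q ^ 3 := by
        rw [hQ, ← prod_pow, hZ]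
        rfl
      rw [e, k3]
      unfold Pa
      ring

theorem Pb_good : PGood Pb where
  int := by
    intro p hp y hy
    have F := flt_t3 (flt_rat hp)
    unfold Pb
    exact F.mulL (F.mulL (F.mulL (F.ofNat 8) (F.add (F.mulL (F.ofNat 4) hy) F.one))
      (F.add (F.mulL (F.ofNat 2) hy) F.one)) (F.add (F.mulL (F.ofNat 4) hy) (F.ofNat 3))
  sb := by
    intro p hp Z hZ k
    have F := flt_t3 (flt_rat hp)
    rw [Pb_sb]
    exact F.mulL (F.ofNat 256) (F.cube hZ)
  blk := by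
    intro p hp h5 m
    have F := flt_t3 (flt_rat hp)
    set Y : T3 := (m : T3) + et with hY
    have hYi : DK (Dv p) 0 Y := F.add (F.nat m) (dk_et (flt_rat hp))
    have hZ : (((p * m : ℕ) : T3) + emb p * et) = (p : T3) * Y := by
      rw [map_natCast, hY]; push_cast; ring
    have hG := G_inv hp m
    have hGi := G_inv_int hp m
    rw [← hY] at hG
    set G' := ∏ j ∈ range (p - 1), inv3 (((p * m + j : ℕ) : ℚ) + 1) p with hG'
    have k1 := prod_Pb ((p : T3) * Y) p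
    rw [rf_block hp, show 4 * ((p : T3) * Y) = (p : T3) * (4 * Y) by ring, rf_blocks4 hp] at k1
    have hu := unit_m m hp
    rw [← hY] at hu
    set g0 := rf ((p : T3) * Y) (p - 1) with hg0
    set g1 := rf ((p : T3) * (4 * Y)) (p - 1) with hg1
    set g2 := rf ((p : T3) * (4 * Y + 1)) (p - 1) with hg2
    set g3 := rf ((p : T3) * (4 * Y + 2)) (p - 1) with hg3
    set g4 := rf ((p : T3) * (4 * Y + 3)) (p - 1) with hg4
    set u := emb (p : ℚ)⁻¹ * inv3 ((m : ℚ) + 1) 1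
    set Q := ∏ j ∈ range p, Pb ((p : T3) * Y + j) with hQ
    have k2 : Q * g0 = (g1 * g2 * g3 * g4) * ((p : T3) ^ 3 * Pb Y) := by
      unfold Pb
      linear_combination u * k1 - (Q * g0) * hu + (g1 * g2 * g3 * g4) * ((p : T3) ^ 3 *
        (8 * (4 * Y + 1) * (2 * Y + 1) * (4 * Y + 3))) * hu
    have k3 : Q = G' * (g1 * g2 * g3 * g4) * ((p : T3) ^ 3 * Pb Y) := by
      linear_combination G' * k2 - Q * hG
    refine ⟨G' ^ 4 * (g1 * g2 * g3 * g4), ?_, ?_⟩
    · have c0 := rf_cong hp h5 hYi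
      have c1 := rf_cong hp h5 (F.mulL (F.ofNat 4) hYi)
      have c2 := rf_cong hp h5 (F.add (F.mulL (F.ofNat 4) hYi) F.one)
      have c3 := rf_cong hp h5 (F.add (F.mulL (F.ofNat 4) hYi) (F.ofNat 2))
      have c4 := rf_cong hp h5 (F.add (F.mulL (F.ofNat 4) hYi) (F.ofNat 3))
      have hf := F.nat (p - 1).factorial
      have i0 : DK (Dv p) 0 g0 := by
        have : g0 = (g0 - ((p - 1).factorial : T3)) + ((p - 1).factorial : T3) := by ring
        rw [this]; exact F.add (F.int c0) hf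
      have i2 : DK (Dv p) 0 g2 := by
        have : g2 = (g2 - ((p - 1).factorial : T3)) + ((p - 1).factorial : T3) := by ring
        rw [this]; exact F.add (F.int c2) hf
      have i3 : DK (Dv p) 0 g3 := by
        have : g3 = (g3 - ((p - 1).factorial : T3)) + ((p - 1).factorial : T3) := by ring
        rw [this]; exact F.add (F.int c3) hf
      have i4 : DK (Dv p) 0 g4 := by
        have : g4 = (g4 - ((p - 1).factorial : T3)) + ((p - 1).factorial : T3) := by ring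
        rw [this]; exact F.add (F.int c4) hf
      have d1 : DK (Dv p) 3 (g1 * g2 - g0 * g0) :=
        F.congr_mul (F.trans c1 (F.symm c0)) (F.trans c2 (F.symm c0)) i0 i2
      have d2 : DK (Dv p) 3 (g1 * g2 * g3 - g0 * g0 * g0) :=
        F.congr_mul d1 (F.trans c3 (F.symm c0)) (F.mulL i0 i0) i3
      have d3 : DK (Dv p) 3 (g1 * g2 * g3 * g4 - g0 * g0 * g0 * g0) :=
        F.congr_mul d2 (F.trans c4 (F.symm c0)) (F.mulL (F.mulL i0 i0) i0) i4
      have e : G' ^ 4 * (g1 * g2 * g3 * g4) - 1 =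
          G' ^ 4 * (g1 * g2 * g3 * g4 - g0 * g0 * g0 * g0) := by
        linear_combination (1 + g0 * G' + (g0 * G') ^ 2 + (g0 * G') ^ 3) * hG
      rw [e]
      exact F.mulL (F.pow hGi 4) d3
    · have e : (∏ j ∈ range p, Pb ((((p * m : ℕ) : T3) + emb p * et) + j)) = Q := by
        rw [hQ, hZ]
      rw [e, k3]
      ring

section
variable {P : T3 → T3} (G : PGood P) {p : ℕ} (hp : p.Prime) (h5 : 5 ≤ p)
include G hp

theorem hseq_int {m : ℕ} (hm : m < p) : DK (Dv p) 0 (hseq P 1 m) := by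
  have F := flt_t3 (flt_rat hp)
  induction m with
  | zero => exact F.one
  | succ m ih =>
    rw [hseq]
    have h1 : ¬ p ∣ m + 1 := by
      intro h
      have := Nat.le_of_dvd (by omega) h
      omega
    refine F.mulL (F.mulL (ih (by omega)) ?_) (F.pow (DK_inv3 hp 1 (Dv_one hp) h1) 3)
    apply G.int hp
    rw [map_one, one_mul]
    exact F.add (F.nat m) (dk_et (flt_rat hp))

theorem hseq_inner {m k : ℕ} (hk : k < p) :
    DK (Dv p) 3 ((∏ j ∈ range k, P ((((p * m : ℕ) : T3) + emb p * et) + j)) *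
      (∏ j ∈ range k, inv3 (((p * m + j : ℕ) : ℚ) + 1) p) ^ 3 -
      sbZ (((p * m : ℕ) : T3) + emb p * et) (hseq P 1 k)) := by
  have F := flt_t3 (flt_rat hp)
  have hZ := DK_Z hp m
  induction k with
  | zero =>
    have : (∏ j ∈ range 0, P ((((p * m : ℕ) : T3) + emb p * et) + j)) *
      (∏ j ∈ range 0, inv3 (((p * m + j : ℕ) : ℚ) + 1) p) ^ 3 -
      sbZ (((p * m : ℕ) : T3) + emb p * et) (hseq P 1 0) = 0 := by
      rw [hseq, sbZ_one]; simp
    rw [this]; exact F.zero 3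
  | succ k ih =>
    have ih := ih (by omega)
    have h1 : ¬ p ∣ k + 1 := by
      intro h
      have := Nat.le_of_dvd (by omega) h
      omega
    have h2 : ¬ p ∣ (p * m + k) + 1 := not_dvd_block hp (by omega)
    rw [hseq, prod_range_succ, prod_range_succ]
    set Z := (((p * m : ℕ) : T3) + emb p * et) with hZd
    set A := ∏ j ∈ range k, P (Z + j) with hA
    set B := ∏ j ∈ range k, inv3 (((p * m + j : ℕ) : ℚ) + 1) p with hB
    set i1 := inv3 ((k : ℚ) + 1) 1 with hi1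
    set i2 := inv3 (((p * m + k : ℕ) : ℚ) + 1) p with hi2
    have d1 := DK_inv3 hp 1 (Dv_one hp) h1
    have d2 := DK_inv3 hp (p : ℚ) (Dv_nat hp p) h2
    rw [← hi1] at d1
    rw [← hi2] at d2
    have m1 : ((k : T3) + 1 + et) * i1 = 1 := by
      have := inv3_mul' k 1
      rw [map_one, one_mul] at this
      exact this
    have m2 : (Z + ((k : T3) + 1)) * i2 = 1 := by
      have h := inv3_mul' (p * m + k) (p : ℚ)
      have e : Z + ((k : T3) + 1) = ((p * m + k : ℕ) : T3) + 1 + emb p * et := by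
        rw [hZd]; push_cast; ring
      rw [e]; exact h
    -- inverse transfer
    have hk1 : DK (Dv p) 0 ((k : T3) + 1 + et) := F.add (F.add (F.nat k) F.one)
      (dk_et (flt_rat hp))
    have e1 : sbZ Z ((k : T3) + 1 + et) = Z + ((k : T3) + 1) := by
      rw [sbZ_add, sbZ_add, sbZ_nat, sbZ_one, sbZ_et]; ring
    have c1 := sbZ_mul_cong hp hZ hk1 d1
    rw [m1, sbZ_one, e1] at c1
    have c2 : DK (Dv p) 3 (sbZ Z i1 - i2) := by
      have : sbZ Z i1 - i2 = i2 * ((Z + ((k : T3) + 1)) * sbZ Z i1 - 1) := by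
        linear_combination (-(sbZ Z i1)) * m2
      rw [this]; exact F.mulL d2 c1
    have hPk : DK (Dv p) 0 (P (et + k)) := G.int hp (F.add (dk_et (flt_rat hp)) (F.nat k))
    have hPZ : DK (Dv p) 0 (P (Z + k)) := G.int hp (F.add (F.int hZ) (F.nat k))
    have c3 := G.sb hp hZ k
    have hh := hseq_int G hp (show k < p by omega)
    have hs1 : DK (Dv p) 0 (sbZ Z i1) := sbZ_int hp (F.int hZ) d1
    have hs0 : DK (Dv p) 0 (sbZ Z (hseq P 1 k)) := sbZ_int hp (F.int hZ) hh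
    -- sb of the product
    have c4 : DK (Dv p) 3 (sbZ Z (i1 ^ 3) - i2 ^ 3) := by
      have q1 := sbZ_mul_cong hp hZ d1 d1
      have q2 := sbZ_mul_cong hp hZ (F.mulL d1 d1) d1
      have q3 := F.congr_mul (F.symm c2) (F.symm c2) hs1 d2
      have q4 := F.congr_mul q3 (F.symm c2) (F.mulL hs1 hs1) d2
      have q5 : DK (Dv p) 3 (sbZ Z i1 * sbZ Z i1 * sbZ Z i1 - sbZ Z (i1 * i1) * sbZ Z i1) := by
        have : sbZ Z i1 * sbZ Z i1 * sbZ Z i1 - sbZ Z (i1 * i1) * sbZ Z i1 =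
          (sbZ Z i1 * sbZ Z i1 - sbZ Z (i1 * i1)) * sbZ Z i1 := by ring
        rw [this]; exact F.mulR q1 hs1
      have q6 := F.trans q4 (F.trans q5 q2)
      have := F.symm q6
      rwa [show i1 * i1 * i1 = i1 ^ 3 by ring, show i2 * i2 * i2 = i2 ^ 3 by ring] at this
    have eP : P ((k : T3) + emb 1 * et) = P (et + k) := by
      rw [map_one, one_mul, add_comm]
    rw [eP]
    have r1 := sbZ_mul_cong hp hZ hh hPk
    have r2 := sbZ_mul_cong hp hZ (F.mulL hh hPk) (F.pow d1 3)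
    have s3 : DK (Dv p) 0 (sbZ Z (i1 ^ 3)) := sbZ_int hp (F.int hZ) (F.pow d1 3)
    have t1 : DK (Dv p) 3 ((A * B ^ 3) * P (Z + k) - sbZ Z (hseq P 1 k) * sbZ Z (P (et + k))) :=
      F.congr_mul ih c3 hs0 hPZ
    have t2 := F.trans t1 r1
    have t3 : DK (Dv p) 3 ((A * B ^ 3) * P (Z + k) * i2 ^ 3 -
        sbZ Z (hseq P 1 k * P (et + k)) * sbZ Z (i1 ^ 3)) :=
      F.congr_mul t2 (F.symm c4) (sbZ_int hp (F.int hZ) (F.mulL hh hPk)) (F.pow d2 3)
    have t4 := F.trans t3 r2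
    have e2 : (A * B ^ 3) * P (Z + k) * i2 ^ 3 = A * P (Z + k) * (B * i2) ^ 3 := by ring
    rw [e2] at t4
    exact t4

include h5

theorem hseq_outer {m : ℕ} (hm : m < p) : DK (Dv p) 3 (hseq P p (p * m) - hseq P 1 m) := by
  have F := flt_t3 (flt_rat hp)
  induction m with
  | zero =>
    rw [mul_zero, hseq, hseq, sub_self]; exact F.zero 3
  | succ m ih =>
    have ih := ih (by omega)
    have h1 : ¬ p ∣ m + 1 := by
      intro h
      have := Nat.le_of_dvd (by omega) h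
      omega
    obtain ⟨W, hW, hB⟩ := G.blk hp h5 m
    rw [show p * (m + 1) = p * m + p by ring, hseq_block, hseq]
    have hp1 : p = (p - 1) + 1 := by have := hp.one_lt; omega
    have e1 : (∏ j ∈ range p, inv3 (((p * m + j : ℕ) : ℚ) + 1) p) =
        (∏ j ∈ range (p - 1), inv3 (((p * m + j : ℕ) : ℚ) + 1) p) *
          inv3 (((p * m + (p - 1) : ℕ) : ℚ) + 1) p := by
      conv_lhs => rw [hp1, prod_range_succ]
      simp only [← hp1]
    rw [e1]
    set Q := (∏ j ∈ range p, P ((((p * m : ℕ) : T3) + emb p * et) + j))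
    set G' := ∏ j ∈ range (p - 1), inv3 (((p * m + j : ℕ) : ℚ) + 1) p
    set i2 := inv3 (((p * m + (p - 1) : ℕ) : ℚ) + 1) p with hi2
    set i1 := inv3 ((m : ℚ) + 1) 1 with hi1
    have d1 := DK_inv3 hp 1 (Dv_one hp) h1
    rw [← hi1] at d1
    have m1 : ((m : T3) + 1 + et) * i1 = 1 := by
      have := inv3_mul' m 1
      rw [map_one, one_mul] at this
      exact this
    have m2 : ((p : T3) * ((m : T3) + 1 + et)) * i2 = 1 := by
      have h := inv3_mul' (p * m + (p - 1)) (p : ℚ)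
      rw [← hi2, map_natCast] at h
      have e3 : ((p * m + (p - 1) : ℕ) : T3) + 1 = (p : T3) * ((m : T3) + 1) := by
        have : p * m + (p - 1) + 1 = p * (m + 1) := by rw [mul_add]; omega
        have := congrArg (Nat.cast (R := T3)) this
        push_cast at this ⊢
        exact this
      rw [e3] at h
      have e4 : (p : T3) * ((m : T3) + 1 + et) = (p : T3) * ((m : T3) + 1) + (p : T3) * et := by
        ring
      rw [e4]; exact h
    have m3 : (p : T3) * i2 = i1 := by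
      linear_combination i1 * m2 - (p : T3) * i2 * m1
    have hPm : DK (Dv p) 0 (P ((m : T3) + et)) := G.int hp (F.add (F.nat m) (dk_et (flt_rat hp)))
    have e2 : hseq P p (p * m) * Q * (G' * i2) ^ 3 =
        (hseq P p (p * m)) * (W * (P ((m : T3) + et) * i1 ^ 3)) := by
      rw [← m3]
      linear_combination (hseq P p (p * m) * i2 ^ 3) * hB
    rw [e2, map_one, one_mul]
    have hh := hseq_int G hp (show m < p by omega)
    have hc : DK (Dv p) 0 (P ((m : T3) + et) * i1 ^ 3) := F.mulL hPm (F.pow d1 3)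
    have hW0 : DK (Dv p) 0 W := by
      have : W = (W - 1) + 1 := by ring
      rw [this]; exact F.add (F.int hW) F.one
    have t1 : DK (Dv p) 3 (W * (P ((m : T3) + et) * i1 ^ 3) - P ((m : T3) + et) * i1 ^ 3) := by
      have : W * (P ((m : T3) + et) * i1 ^ 3) - P ((m : T3) + et) * i1 ^ 3 =
        (W - 1) * (P ((m : T3) + et) * i1 ^ 3) := by ring
      rw [this]; exact F.mulR hW hc
    have t2 := F.congr_mul ih t1 hh (F.mulL hW0 hc)
    rwa [← mul_assoc (hseq P 1 m)] at t2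

theorem hseq_full {m k : ℕ} (hm : m < p) (hk : k < p) :
    DK (Dv p) 3 (hseq P p (p * m + k) - hseq P 1 m *
      sbZ ((p : T3) * ((m : T3) + et)) (hseq P 1 k)) := by
  have F := flt_t3 (flt_rat hp)
  have e : (((p * m : ℕ) : T3) + emb p * et) = (p : T3) * ((m : T3) + et) := by
    rw [map_natCast]; push_cast; ring
  have c1 := hseq_inner G hp (m := m) hk
  have c2 := hseq_outer G hp h5 hm
  have hh := hseq_int G hp hm
  have hZ := DK_Z hp m
  have hs : DK (Dv p) 0 (sbZ (((p * m : ℕ) : T3) + emb p * et) (hseq P 1 k)) :=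
    sbZ_int hp (F.int hZ) (hseq_int G hp hk)
  rw [hseq_block, ← e, mul_assoc]
  refine F.congr_mul c2 c1 hh ?_
  have : (∏ j ∈ range k, P ((((p * m : ℕ) : T3) + emb p * et) + j)) *
      (∏ j ∈ range k, inv3 (((p * m + j : ℕ) : ℚ) + 1) p) ^ 3 =
      ((∏ j ∈ range k, P ((((p * m : ℕ) : T3) + emb p * et) + j)) *
      (∏ j ∈ range k, inv3 (((p * m + j : ℕ) : ℚ) + 1) p) ^ 3 -
      sbZ (((p * m : ℕ) : T3) + emb p * et) (hseq P 1 k)) +
      sbZ (((p * m : ℕ) : T3) + emb p * et) (hseq P 1 k) := by ring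
  rw [this]
  exact F.add (F.int c1) hs

theorem hseq_int_p {n : ℕ} (hn : n < p ^ 2) : DK (Dv p) 0 (hseq P p n) := by
  have F := flt_t3 (flt_rat hp)
  have hp0 := hp.pos
  have h1 := Nat.div_add_mod n p
  have hm : n / p < p := Nat.div_lt_of_lt_mul (by rw [← sq]; exact hn)
  have hk : n % p < p := Nat.mod_lt _ hp0
  have c := hseq_full G hp h5 hm hk
  rw [h1] at c
  have : hseq P p n = (hseq P p n - hseq P 1 (n / p) *
      sbZ ((p : T3) * (((n / p : ℕ) : T3) + et)) (hseq P 1 (n % p))) + hseq P 1 (n / p) *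
      sbZ ((p : T3) * (((n / p : ℕ) : T3) + et)) (hseq P 1 (n % p)) := by ring
  rw [this]
  refine F.add (F.int c) (F.mulL (hseq_int G hp hm) (sbZ_int hp ?_ (hseq_int G hp hk)))
  exact F.mulL (F.nat p) (F.add (F.nat _) (dk_et (flt_rat hp)))

end

end Pool.Agent.Helper91.SC
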