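import Mathlib

/-!
A quadratic type transformation between two deformed hypergeometric series,
over a commutative ring with a parameter `e`, `e^3 = 0`.
-/

set_option autoImplicit false

namespace Pool.Agent.Helper91.SC

open Finset PowerSeries

section
variable {K : Type} [CommRing K]

/-- the operator `X d/dX` -/
noncomputable def th (f : K⟦X⟧) : K⟦X⟧ := X * derivative K f

theorem th_add (f g : K⟦X⟧) : th (f + g) = th f + th g := by
  unfold th; rw [map_add]; ring

theorem th_sub (f g : K⟦X⟧) : th (f - g) = th f - th g := by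
  unfold th; rw [map_sub]; ring

theorem th_mul (f g : K⟦X⟧) : th (f * g) = th f * g + f * th g := by
  unfold th; rw [Derivation.leibniz]; simp only [smul_eq_mul]; ring

theorem th_C (r : K) : th (C r) = 0 := by
  unfold th; rw [derivative_C, mul_zero]

theorem th_X : th (X : K⟦X⟧) = X := by
  unfold th; rw [derivative_X, mul_one]

theorem th_one : th (1 : K⟦X⟧) = 0 := by
  have := th_C (K := K) 1
  rwa [map_one] at this

theorem th_zero : th (0 : K⟦X⟧) = 0 := by
  have := th_C (K := K) 0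
  rwa [map_zero] at this

theorem th_nat (n : ℕ) : th (n : K⟦X⟧) = 0 := by
  have := th_C (K := K) (n : K)
  rwa [map_natCast] at this

@[simp]
theorem th_ofNat (n : ℕ) [n.AtLeastTwo] : th (ofNat(n) : K⟦X⟧) = 0 := by
  have := th_nat (K := K) (OfNat.ofNat n)
  rwa [Nat.cast_ofNat] at this

theorem th_pow (f : K⟦X⟧) (n : ℕ) : th (f ^ (n + 1)) = (n + 1) * f ^ n * th f := by
  induction n with
  | zero => simp
  | succ n ih =>
    rw [pow_succ, th_mul, ih]
    push_cast
    ring

theorem th_sq (f : K⟦X⟧) : th (f ^ 2) = 2 * f * th f := by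
  have := th_pow f 1
  norm_num at this
  rw [this]

theorem th_Xpow (n : ℕ) : th ((X : K⟦X⟧) ^ n) = (n : K⟦X⟧) * (X : K⟦X⟧) ^ n := by
  cases n with
  | zero => simp [th_one]
  | succ m =>
    rw [th_pow, th_X]
    push_cast
    ring

theorem coeff_th (f : K⟦X⟧) (n : ℕ) : coeff n (th f) = n * coeff n f := by
  unfold th
  cases n with
  | zero => simp
  | succ n =>
    rw [coeff_succ_X_mul, coeff_derivative]
    push_cast
    ring

/-- substitution as an algebra map -/
noncomputable def sb (u : K⟦X⟧) (hu : constantCoeff u = 0) : K⟦X⟧ →ₐ[K] K⟦X⟧ :=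
  substAlgHom (HasSubst.of_constantCoeff_zero' hu)

theorem sb_X (u : K⟦X⟧) (hu : constantCoeff u = 0) : sb u hu X = u :=
  substAlgHom_X (HasSubst.of_constantCoeff_zero' hu)

theorem sb_C (u : K⟦X⟧) (hu : constantCoeff u = 0) (r : K) : sb u hu (C r) = C r := by
  have := (sb u hu).commutes r
  exact this

theorem sb_der (u : K⟦X⟧) (hu : constantCoeff u = 0) (f : K⟦X⟧) :
    derivative K (sb u hu f) = sb u hu (derivative K f) * derivative K u := by
  have := derivative_subst (f := f) (HasSubst.of_constantCoeff_zero' hu)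
  unfold sb
  rw [coe_substAlgHom]
  exact this

theorem th_sb (u σ : K⟦X⟧) (hu : constantCoeff u = 0) (h : th u = u * σ) (f : K⟦X⟧) :
    th (sb u hu f) = σ * sb u hu (th f) := by
  have h1 : sb u hu (th f) = u * sb u hu (derivative K f) := by
    unfold th
    rw [map_mul, sb_X]
  rw [h1]
  unfold th at h ⊢
  rw [sb_der]
  linear_combination (sb u hu (derivative K f)) * h

theorem X_pow_dvd_sb (u : K⟦X⟧) (hu : constantCoeff u = 0) (f : K⟦X⟧) (n : ℕ)
    (h : X ^ n ∣ f) : u ^ n ∣ sb u hu f := by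
  obtain ⟨g, rfl⟩ := h
  rw [map_mul, map_pow, sb_X]
  exact Dvd.intro _ rfl

/-- generating functions -/
noncomputable def gen (a : ℕ → K) (e : K) (i : ℕ) : K⟦X⟧ :=
  PowerSeries.mk (fun n => a n * ((n : K) + e) ^ i)

theorem th_gen (a : ℕ → K) (e : K) (i : ℕ) :
    th (gen a e i) = gen a e (i + 1) - C e * gen a e i := by
  ext n
  rw [coeff_th, map_sub, coeff_C_mul]
  unfold gen
  rw [coeff_mk, coeff_mk]
  ring

theorem const_gen (a : ℕ → K) (e : K) (i : ℕ) (a0 : a 0 = 1) :
    constantCoeff (gen a e i) = e ^ i := by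
  unfold gen
  rw [← coeff_zero_eq_constantCoeff_apply, coeff_mk, a0]
  simp

theorem ode_a (a : ℕ → K) (e : K) (he : e ^ 3 = 0)
    (ha : ∀ n : ℕ, ((n : K) + 1 + e) ^ 3 * a (n + 1) = (4 * (n + e) + 2) ^ 3 * a n) :
    gen a e 3 = X * (64 * gen a e 3 + 96 * gen a e 2 + 48 * gen a e 1 + 8 * gen a e 0) := by
  ext n
  cases n with
  | zero =>
    unfold gen
    rw [coeff_mk, coeff_zero_X_mul]
    simp [he]
  | succ n =>
    rw [coeff_succ_X_mul]
    have h64 : (64 : K⟦X⟧) = C (64 : K) := (map_ofNat (C (R := K)) 64).symm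
    have h96 : (96 : K⟦X⟧) = C (96 : K) := (map_ofNat (C (R := K)) 96).symm
    have h48 : (48 : K⟦X⟧) = C (48 : K) := (map_ofNat (C (R := K)) 48).symm
    have h8 : (8 : K⟦X⟧) = C (8 : K) := (map_ofNat (C (R := K)) 8).symm
    rw [h64, h96, h48, h8]
    simp only [map_add, coeff_C_mul]
    unfold gen
    simp only [coeff_mk]
    have := ha n
    push_cast
    linear_combination this

theorem ode_b (b : ℕ → K) (e : K) (he : e ^ 3 = 0)
    (hb : ∀ n : ℕ, ((n : K) + 1 + e) ^ 3 * b (n + 1) =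
      8 * (4 * (n + e) + 1) * (2 * (n + e) + 1) * (4 * (n + e) + 3) * b n) :
    gen b e 3 = X * (256 * gen b e 3 + 384 * gen b e 2 + 176 * gen b e 1 + 24 * gen b e 0) := by
  ext n
  cases n with
  | zero =>
    unfold gen
    rw [coeff_mk, coeff_zero_X_mul]
    simp [he]
  | succ n =>
    rw [coeff_succ_X_mul]
    have h64 : (256 : K⟦X⟧) = C (256 : K) := (map_ofNat (C (R := K)) 256).symm
    have h96 : (384 : K⟦X⟧) = C (384 : K) := (map_ofNat (C (R := K)) 384).symm
    have h48 : (176 : K⟦X⟧) = C (176 : K) := (map_ofNat (C (R := K)) 176).symm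
    have h8 : (24 : K⟦X⟧) = C (24 : K) := (map_ofNat (C (R := K)) 24).symm
    rw [h64, h96, h48, h8]
    simp only [map_add, coeff_C_mul]
    unfold gen
    simp only [coeff_mk]
    have := hb n
    push_cast
    linear_combination this

/-- polynomial `1 - 6X + X^2` -/
noncomputable def Sg : K⟦X⟧ := 1 - 6 * X + X ^ 2

theorem isUnit_Sg : IsUnit (Sg : K⟦X⟧) := by
  rw [isUnit_iff_constantCoeff]
  simp [Sg]

/-- uniqueness for the system -/
theorem uniq (e q : K) (hu : ∀ n : ℕ, IsUnit ((n : K) + 1 + e))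
    (d0 d1 d2 d3 : K⟦X⟧)
    (h0 : (1 - X ^ 2) * th d0 = Sg * (d1 - C e * d0))
    (h1 : (1 - X ^ 2) * th d1 = Sg * (d2 - C e * d1))
    (h2 : (1 - X ^ 2) * th d2 = Sg * (d3 - C e * d2))
    (h3 : Sg ^ 2 * d3 = X * (1 - X) ^ 2 * (24 * d2 + 11 * d1 + 24 * C q * d0))
    (c0 : constantCoeff d0 = 0) (c1 : constantCoeff d1 = 0) (c2 : constantCoeff d2 = 0) :
    ∀ n : ℕ, X ^ n ∣ d0 ∧ X ^ n ∣ d1 ∧ X ^ n ∣ d2 := by
  intro n
  induction n with
  | zero => simp
  | succ n ih =>
    rcases Nat.eq_zero_or_pos n with hn | hn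
    · subst hn
      simp only [zero_add, pow_one]
      exact ⟨X_dvd_iff.mpr c0, X_dvd_iff.mpr c1, X_dvd_iff.mpr c2⟩
    obtain ⟨⟨g0, rfl⟩, ⟨g1, rfl⟩, ⟨g2, rfl⟩⟩ := ih
    -- d3 divisible by X^(n+1)
    obtain ⟨S, hS⟩ := isUnit_Sg (K := K)
    have hS1 : (↑S⁻¹ : K⟦X⟧) * (Sg : K⟦X⟧) = 1 := by rw [← hS]; exact S.inv_mul
    have h3' : d3 = X ^ (n + 1) * ((↑S⁻¹ : K⟦X⟧) ^ 2 * ((1 - X) ^ 2 *
        (24 * g2 + 11 * g1 + 24 * C q * g0))) := by
      have : d3 = (↑S⁻¹ : K⟦X⟧) ^ 2 * (Sg ^ 2 * d3) := by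
        rw [← mul_assoc, ← mul_pow, hS1]; ring
      rw [this, h3]
      ring
    rw [h3'] at h2
    have hthX : th (X ^ n : K⟦X⟧) = (n : K⟦X⟧) * (X : K⟦X⟧) ^ n := by
      obtain ⟨m, rfl⟩ : ∃ m, n = m + 1 := ⟨n - 1, by omega⟩
      rw [th_pow, th_X]
      push_cast
      ring
    have hreg : ∀ x y : K⟦X⟧, X ^ n * x = X ^ n * y → x = y := by
      intro x y h
      ext k
      have := congrArg (coeff (R := K) (k + n)) h
      rwa [coeff_X_pow_mul, coeff_X_pow_mul] at this
    obtain ⟨m, rfl⟩ : ∃ m, n = m + 1 := ⟨n - 1, by omega⟩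
    have k2 := hreg ((1 - X ^ 2) * (((m + 1 : ℕ) : K⟦X⟧) * g2 + th g2))
      (Sg * (X * ((↑S⁻¹ : K⟦X⟧) ^ 2 * ((1 - X) ^ 2 *
        (24 * g2 + 11 * g1 + 24 * C q * g0))) - C e * g2)) (by
        rw [th_mul, hthX] at h2
        linear_combination h2)
    have k1 := hreg ((1 - X ^ 2) * (((m + 1 : ℕ) : K⟦X⟧) * g1 + th g1))
      (Sg * (g2 - C e * g1)) (by
        rw [th_mul, hthX] at h1
        linear_combination h1)
    have k0 := hreg ((1 - X ^ 2) * (((m + 1 : ℕ) : K⟦X⟧) * g0 + th g0))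
      (Sg * (g1 - C e * g0)) (by
        rw [th_mul, hthX] at h0
        linear_combination h0)
    have cth : ∀ f : K⟦X⟧, constantCoeff (th f) = 0 := by
      intro f
      unfold th
      simp
    have e2 := congrArg (constantCoeff (R := K)) k2
    have e1 := congrArg (constantCoeff (R := K)) k1
    have e0 := congrArg (constantCoeff (R := K)) k0
    simp only [map_mul, map_sub, map_add, map_pow, map_one, constantCoeff_X, cth, map_natCast,
      constantCoeff_C, Sg, map_ofNat] at e0 e1 e2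
    have z2 : constantCoeff g2 = 0 := by
      have : ((m : K) + 1 + e) * constantCoeff g2 = 0 := by
        push_cast at e2
        linear_combination e2
      exact (hu m).mul_right_eq_zero.mp this
    have z1 : constantCoeff g1 = 0 := by
      have : ((m : K) + 1 + e) * constantCoeff g1 = 0 := by
        push_cast at e1
        linear_combination e1 + z2
      exact (hu m).mul_right_eq_zero.mp this
    have z0 : constantCoeff g0 = 0 := by
      have : ((m : K) + 1 + e) * constantCoeff g0 = 0 := by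
        push_cast at e0
        linear_combination e0 + z1
      exact (hu m).mul_right_eq_zero.mp this
    obtain ⟨f0, hf0⟩ := X_dvd_iff.mpr z0
    obtain ⟨f1, hf1⟩ := X_dvd_iff.mpr z1
    obtain ⟨f2, hf2⟩ := X_dvd_iff.mpr z2
    refine ⟨⟨f0, ?_⟩, ⟨f1, ?_⟩, ⟨f2, ?_⟩⟩
    · rw [hf0]; ring
    · rw [hf1]; ring
    · rw [hf2]; ring

theorem eq_zero_of_dvd (f : K⟦X⟧) (h : ∀ n : ℕ, X ^ n ∣ f) : f = 0 := by
  ext n
  have := X_pow_dvd_iff.mp (h (n + 1)) n (by omega)
  rw [this, map_zero]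

end

end Pool.Agent.Helper91.SC
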