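import Mathlib
import Pool.Agent.Helper91.SC.T1
import Pool.Agent.Helper91.SC.Block

/-!
Generating functions of the deformed sequences modulo `p^3`.
-/

set_option autoImplicit false

namespace Pool.Agent.Helper91.SC

open Finset T3 PowerSeries

theorem sb_trunc {K : Type} [CommRing K] (u : K⟦X⟧) (hu : constantCoeff u = 0) (f : K⟦X⟧) (N : ℕ) :
    u ^ N ∣ sb u hu f - ∑ n ∈ range N, C (coeff n f) * u ^ n := by
  have h1 : X ^ N ∣ f - ∑ n ∈ range N, C (coeff n f) * X ^ n := by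
    rw [X_pow_dvd_iff]
    intro m hm
    rw [map_sub, map_sum, sum_eq_single m]
    · rw [coeff_C_mul_X_pow, if_pos rfl, sub_self]
    · intro b _ hb
      rw [coeff_C_mul_X_pow, if_neg (fun h => hb h.symm)]
    · intro h
      exact absurd (mem_range.mpr hm) h
  have h2 := X_pow_dvd_sb u hu _ N h1
  have e : sb u hu (f - ∑ n ∈ range N, C (coeff n f) * X ^ n) =
      sb u hu f - ∑ n ∈ range N, C (coeff n f) * u ^ n := by
    rw [map_sub, map_sum]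
    congr 1
    apply sum_congr rfl
    intro n _
    rw [map_mul, map_pow, sb_X, sb_C]
  rw [e] at h2
  exact h2

theorem sum_block' {M : Type} [AddCommMonoid M] (f : ℕ → M) (n r : ℕ) :
    ∑ l ∈ range (r * n), f l = ∑ i ∈ range n, ∑ j ∈ range r, f (r * i + j) := by
  induction n with
  | zero => simp
  | succ n ih =>
    rw [sum_range_succ, ← ih, mul_add, mul_one, sum_range_add]

/-- the filtration on power series -/
abbrev DP (p : ℕ) : ℕ → T3⟦X⟧ → Prop := PS (DK (Dv p)) (p ^ 2)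

/-- truncated exponential -/
noncomputable def exf (f : T3⟦X⟧) : T3⟦X⟧ :=
  1 + C et * f + C (emb (1 / 2)) * C et ^ 2 * f ^ 2

theorem C_half : (C (emb (1 / 2)) : T3⟦X⟧) * 2 = 1 := by
  have : (2 : T3⟦X⟧) = C (emb 2) := by rw [map_ofNat, map_ofNat]
  rw [this, ← map_mul, ← map_mul]
  norm_num

theorem Cet_cube : (C et : T3⟦X⟧) ^ 3 = 0 := by
  rw [← map_pow, et_cube, map_zero]

theorem exf_add (f g : T3⟦X⟧) : exf (f + g) = exf f * exf g := by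
  unfold exf
  have h := C_half
  have h2 := Cet_cube
  set c := (C (emb (1 / 2)) : T3⟦X⟧)
  set ε := (C et : T3⟦X⟧)
  linear_combination (f * g * ε ^ 2) * h - (f * g * c * (f + g) + c ^ 2 * ε * f ^ 2 * g ^ 2) * h2

theorem exf_zero : exf 0 = 1 := by
  unfold exf; ring

/-- components -/
def cmp (i : Fin 3) (x : T3) : ℚ :=
  match i with
    | 0 => x.c0
    | 1 => x.c1
    | 2 => x.c2

/-- truncated sums -/
noncomputable def Ph (P : T3 → T3) (p : ℕ) (i : Fin 3) (τ : T3⟦X⟧) : T3⟦X⟧ :=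
  ∑ k ∈ range p, C (emb (cmp i (hseq P 1 k))) * τ ^ k

section
variable {P : T3 → T3} (G : PGood P) {p : ℕ} (hp : p.Prime) (h5 : 5 ≤ p)

include hp in
theorem flt_dp : Flt (DP p) := flt_ps (flt_t3 (flt_rat hp)) (p ^ 2)

include hp in
theorem dp_C {k : ℕ} {x : T3} (h : DK (Dv p) k x) : DP p k (C x) :=
  ps_C (flt_t3 (flt_rat hp)) _ h

include hp h5 in
theorem dp_half : DP p 0 (C (emb (1 / 2))) :=
  dp_C hp (dk_emb (flt_rat hp) (Dv_half hp h5))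

include hp in
theorem dp_et : DP p 0 (C et) := dp_C hp (dk_et (flt_rat hp))

include hp in
theorem dp_p : DP p 1 (p : T3⟦X⟧) := by
  have := dp_C hp (DK_p hp)
  rwa [map_natCast] at this

include G hp in
theorem Ph_int (i : Fin 3) {τ : T3⟦X⟧} (hτ : DP p 0 τ) : DP p 0 (Ph P p i τ) := by
  have F := flt_dp hp
  unfold Ph
  apply F.sum
  intro k hk
  refine F.mulL ?_ (F.pow hτ k)
  apply dp_C hp
  apply dk_emb (flt_rat hp)
  have h := hseq_int G hp (mem_range.mp hk)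
  fin_cases i
  · exact h.1
  · exact h.2.1
  · exact h.2.2

include hp h5 in
theorem one_add_pow {x : T3⟦X⟧} (hx : DP p 1 x) (m : ℕ) :
    DP p 3 ((1 + x) ^ m - (1 + (m : T3⟦X⟧) * (x - C (emb (1 / 2)) * x ^ 2) +
      C (emb (1 / 2)) * (m : T3⟦X⟧) ^ 2 * x ^ 2)) := by
  have F := flt_dp hp
  have hc := dp_half hp h5
  have hh := C_half
  set c := (C (emb (1 / 2)) : T3⟦X⟧)
  induction m with
  | zero =>
    have e : (1 + x) ^ 0 - (1 + ((0 : ℕ) : T3⟦X⟧) * (x - c * x ^ 2) +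
      c * ((0 : ℕ) : T3⟦X⟧) ^ 2 * x ^ 2) = 0 := by
      push_cast; ring
    rw [e]; exact F.zero 3
  | succ m ih =>
    have e : (1 + x) ^ (m + 1) - (1 + ((m + 1 : ℕ) : T3⟦X⟧) * (x - c * x ^ 2) +
      c * ((m + 1 : ℕ) : T3⟦X⟧) ^ 2 * x ^ 2) =
      ((1 + x) ^ m - (1 + (m : T3⟦X⟧) * (x - c * x ^ 2) + c * (m : T3⟦X⟧) ^ 2 * x ^ 2)) *
        (1 + x) + x ^ 3 * (c * ((m : T3⟦X⟧) ^ 2 - m)) := by
      push_cast
      linear_combination (-((m : T3⟦X⟧) * x ^ 2)) * hh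
    rw [e]
    exact F.add (F.mulR ih (F.add F.one (F.int hx))) (F.mulR (F.cube hx) (F.mulL hc
      (F.sub (F.pow (F.nat m) 2) (F.nat m))))

include G hp h5 in
theorem lemG (τ υ x : T3⟦X⟧) (cτ : constantCoeff τ = 0) (cυ : constantCoeff υ = 0)
    (dτ : X ∣ τ) (dυ : X ^ p ∣ υ) (hτ : DP p 0 τ) (hυ : DP p 0 υ) (hx : DP p 1 x)
    (hrel : τ ^ p = υ * (1 + x)) (L : T3⟦X⟧) (hL : L = x - C (emb (1 / 2)) * x ^ 2) :
    DP p 3 (exf L * sb τ cτ (PowerSeries.mk (hseq P p)) -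
      (Ph P p 0 τ * sb υ cυ (gen (hseq P 1) et 0) +
      ((p : T3⟦X⟧) * Ph P p 1 τ + L * Ph P p 0 τ) * sb υ cυ (gen (hseq P 1) et 1) +
      ((p : T3⟦X⟧) ^ 2 * Ph P p 2 τ + (p : T3⟦X⟧) * L * Ph P p 1 τ +
        C (emb (1 / 2)) * x ^ 2 * Ph P p 0 τ) * sb υ cυ (gen (hseq P 1) et 2))) := by
  have F := flt_dp hp
  have FK := flt_t3 (flt_rat hp)
  have hc := dp_half hp h5
  have hh := C_half
  have he := dp_et hp
  have he3 := Cet_cube
  have hL1 : DP p 1 L := by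
    rw [hL]; exact F.sub hx (F.mono (by norm_num) (F.mulL hc (F.sq hx)))
  have hex : DP p 0 (exf L) := by
    unfold exf
    exact F.add (F.add F.one (F.mulL he (F.int hL1))) (F.mulL (F.mulL hc (F.pow he 2))
      (F.pow (F.int hL1) 2))
  have hP0 := Ph_int G hp 0 hτ
  have hP1 := Ph_int G hp 1 hτ
  have hP2 := Ph_int G hp 2 hτ
  have hpp := dp_p hp
  -- left-hand side
  have s1 : DP p 3 (sb τ cτ (PowerSeries.mk (hseq P p)) -
      ∑ n ∈ range (p ^ 2), C (hseq P p n) * τ ^ n) := by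
    have h := sb_trunc τ cτ (PowerSeries.mk (hseq P p)) (p ^ 2)
    simp only [coeff_mk] at h
    exact ps_of_dvd (flt_t3 (flt_rat hp)) _ (dvd_trans (pow_dvd_pow_of_dvd dτ _) h)
  have s2 : ∀ i, DP p 3 (sb υ cυ (gen (hseq P 1) et i) -
      ∑ m ∈ range p, C (hseq P 1 m) * ((m : T3⟦X⟧) + C et) ^ i * υ ^ m) := by
    intro i
    have h := sb_trunc υ cυ (gen (hseq P 1) et i) p
    have e : ∀ n, C (coeff n (gen (hseq P 1) et i)) =
        C (hseq P 1 n) * ((n : T3⟦X⟧) + C et) ^ i := by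
      intro n
      unfold gen
      rw [coeff_mk, map_mul, map_pow, map_add, map_natCast]
    simp only [e] at h
    refine ps_of_dvd (flt_t3 (flt_rat hp)) _ (dvd_trans ?_ h)
    rw [sq, pow_mul]
    exact pow_dvd_pow_of_dvd dυ _
  -- block terms
  have s3 : ∀ m ∈ range p, DP p 3 (exf L * ∑ k ∈ range p, C (hseq P p (p * m + k)) *
      τ ^ (p * m + k) - C (hseq P 1 m) * υ ^ m * (Ph P p 0 τ + ((m : T3⟦X⟧) + C et) *
      ((p : T3⟦X⟧) * Ph P p 1 τ + L * Ph P p 0 τ) + ((m : T3⟦X⟧) + C et) ^ 2 *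
      ((p : T3⟦X⟧) ^ 2 * Ph P p 2 τ + (p : T3⟦X⟧) * L * Ph P p 1 τ +
        C (emb (1 / 2)) * x ^ 2 * Ph P p 0 τ))) := by
    intro m hm
    have hm := mem_range.mp hm
    set y : T3⟦X⟧ := (m : T3⟦X⟧) + C et with hy
    have hy0 : DP p 0 y := F.add (F.nat m) he
    have ham : DP p 0 (C (hseq P 1 m)) := dp_C hp (hseq_int G hp hm)
    -- first replace coefficients
    have t1 : DP p 3 (∑ k ∈ range p, C (hseq P p (p * m + k)) * τ ^ (p * m + k) -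
        C (hseq P 1 m) * (υ * (1 + x)) ^ m * (Ph P p 0 τ + (p : T3⟦X⟧) * y * Ph P p 1 τ +
          ((p : T3⟦X⟧) * y) ^ 2 * Ph P p 2 τ)) := by
      have e : C (hseq P 1 m) * (υ * (1 + x)) ^ m * (Ph P p 0 τ + (p : T3⟦X⟧) * y * Ph P p 1 τ +
          ((p : T3⟦X⟧) * y) ^ 2 * Ph P p 2 τ) = ∑ k ∈ range p, (C (hseq P 1 m) *
            C (sbZ ((p : T3) * ((m : T3) + et)) (hseq P 1 k))) * τ ^ (p * m + k) := by
        unfold Ph
        rw [mul_sum, mul_sum, ← sum_add_distrib, ← sum_add_distrib, mul_sum]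
        apply sum_congr rfl
        intro k _
        rw [pow_add, pow_mul, hrel, hy]
        unfold sbZ
        simp only [map_add, map_mul, map_pow, map_natCast, cmp]
        ring
      rw [e, ← sum_sub_distrib]
      apply F.sum
      intro k hk
      have hk := mem_range.mp hk
      rw [← sub_mul, ← map_mul, ← map_sub]
      exact F.mulR (dp_C hp (hseq_full G hp h5 hm hk)) (F.pow hτ _)
    -- expand
    have t2 := one_add_pow hp h5 hx m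
    set c := (C (emb (1 / 2)) : T3⟦X⟧)
    have hpy : DP p 1 ((p : T3⟦X⟧) * y) := F.mulR hpp hy0
    have hS : DP p 0 (Ph P p 0 τ + (p : T3⟦X⟧) * y * Ph P p 1 τ +
          ((p : T3⟦X⟧) * y) ^ 2 * Ph P p 2 τ) :=
      F.add (F.add hP0 (F.mulL (F.int hpy) hP1)) (F.mulL (F.pow (F.int hpy) 2) hP2)
    have t3 : DP p 3 (exf L * (1 + x) ^ m - (1 + y * L + c * y ^ 2 * L ^ 2)) := by
      have e : exf L * (1 + x) ^ m - (1 + y * L + c * y ^ 2 * L ^ 2) =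
        exf L * ((1 + x) ^ m - (1 + (m : T3⟦X⟧) * (x - c * x ^ 2) +
          c * (m : T3⟦X⟧) ^ 2 * x ^ 2)) +
        exf L * (c * (m : T3⟦X⟧) ^ 2 * (c * x ^ 3 * (2 - c * x))) +
        L ^ 3 * (c * (m : T3⟦X⟧) ^ 2 * C et + c * (C et) ^ 2 * m + c ^ 2 * (C et) ^ 2 *
          (m : T3⟦X⟧) ^ 2 * L) := by
        rw [← hL]
        have e1 : c * x ^ 3 * (2 - c * x) = x ^ 2 - L ^ 2 := by
          rw [hL]; ring
        rw [e1]
        unfold exf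
        rw [hy]
        linear_combination (-((m : T3⟦X⟧) * C et * L ^ 2)) * hh
      rw [e]
      refine F.add (F.add (F.mulL hex t2) (F.mulL hex (F.mulL (F.mulL hc (F.pow (F.nat m) 2))
        (F.mulR (F.mulL hc (F.cube hx)) (F.sub (F.ofNat 2) (F.mulL hc (F.int hx)))))))
        (F.mulR (F.cube hL1) ?_)
      exact F.add (F.add (F.mulL (F.mulL hc (F.pow (F.nat m) 2)) he)
        (F.mulL (F.mulL hc (F.pow he 2)) (F.nat m)))
        (F.mulL (F.mulL (F.mulL (F.pow hc 2) (F.pow he 2)) (F.pow (F.nat m) 2)) (F.int hL1))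
    have t4 : DP p 3 ((1 + y * L + c * y ^ 2 * L ^ 2) * (Ph P p 0 τ + (p : T3⟦X⟧) * y * Ph P p 1 τ +
          ((p : T3⟦X⟧) * y) ^ 2 * Ph P p 2 τ) - (Ph P p 0 τ + y *
      ((p : T3⟦X⟧) * Ph P p 1 τ + L * Ph P p 0 τ) + y ^ 2 *
      ((p : T3⟦X⟧) ^ 2 * Ph P p 2 τ + (p : T3⟦X⟧) * L * Ph P p 1 τ +
        c * x ^ 2 * Ph P p 0 τ))) := by
      have e1 : L ^ 2 - x ^ 2 = -(c * x ^ 3 * (2 - c * x)) := by
        rw [hL]; ring
      have e : (1 + y * L + c * y ^ 2 * L ^ 2) * (Ph P p 0 τ + (p : T3⟦X⟧) * y * Ph P p 1 τ +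
          ((p : T3⟦X⟧) * y) ^ 2 * Ph P p 2 τ) - (Ph P p 0 τ + y *
      ((p : T3⟦X⟧) * Ph P p 1 τ + L * Ph P p 0 τ) + y ^ 2 *
      ((p : T3⟦X⟧) ^ 2 * Ph P p 2 τ + (p : T3⟦X⟧) * L * Ph P p 1 τ +
        c * x ^ 2 * Ph P p 0 τ)) =
        L * (((p : T3⟦X⟧) * y) * ((p : T3⟦X⟧) * y)) * (y * Ph P p 2 τ) +
        (L * L) * ((p : T3⟦X⟧) * y) * (c * y ^ 2 * Ph P p 1 τ) +
        (L * L) * ((p : T3⟦X⟧) * y) * (((p : T3⟦X⟧) * y) * (c * y ^ 2 * Ph P p 2 τ)) -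
        (x ^ 3) * (c * (2 - c * x) * (c * y ^ 2 * Ph P p 0 τ)) := by
        linear_combination (c * y ^ 2 * Ph P p 0 τ) * e1
      rw [e]
      have hLL : DP p 2 (L * L) := F.mul hL1 hL1
      have hpp2 : DP p 2 (((p : T3⟦X⟧) * y) * ((p : T3⟦X⟧) * y)) := F.mul hpy hpy
      refine F.sub (F.add (F.add (F.mulR (F.mul hL1 hpp2) (F.mulL hy0 hP2))
        (F.mulR (F.mul hLL hpy) (F.mulL (F.mulL hc (F.pow hy0 2)) hP1)))
        (F.mulR (F.mul hLL hpy) (F.mulL (F.int hpy) (F.mulL (F.mulL hc (F.pow hy0 2)) hP2))))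
        (F.mulR (F.cube hx) (F.mulL (F.mulL hc (F.sub (F.ofNat 2) (F.mulL hc (F.int hx))))
          (F.mulL (F.mulL hc (F.pow hy0 2)) hP0)))
    have t5 := F.mulL hex t1
    have e : exf L * ∑ k ∈ range p, C (hseq P p (p * m + k)) *
      τ ^ (p * m + k) - C (hseq P 1 m) * υ ^ m * (Ph P p 0 τ + y *
      ((p : T3⟦X⟧) * Ph P p 1 τ + L * Ph P p 0 τ) + y ^ 2 *
      ((p : T3⟦X⟧) ^ 2 * Ph P p 2 τ + (p : T3⟦X⟧) * L * Ph P p 1 τ +
        c * x ^ 2 * Ph P p 0 τ)) =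
      exf L * (∑ k ∈ range p, C (hseq P p (p * m + k)) * τ ^ (p * m + k) -
        C (hseq P 1 m) * (υ * (1 + x)) ^ m * (Ph P p 0 τ + (p : T3⟦X⟧) * y * Ph P p 1 τ +
          ((p : T3⟦X⟧) * y) ^ 2 * Ph P p 2 τ)) +
      (C (hseq P 1 m) * υ ^ m) * ((exf L * (1 + x) ^ m - (1 + y * L + c * y ^ 2 * L ^ 2)) *
        (Ph P p 0 τ + (p : T3⟦X⟧) * y * Ph P p 1 τ +
          ((p : T3⟦X⟧) * y) ^ 2 * Ph P p 2 τ)) +
      (C (hseq P 1 m) * υ ^ m) * ((1 + y * L + c * y ^ 2 * L ^ 2) * (Ph P p 0 τ +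
          (p : T3⟦X⟧) * y * Ph P p 1 τ +
          ((p : T3⟦X⟧) * y) ^ 2 * Ph P p 2 τ) - (Ph P p 0 τ + y *
      ((p : T3⟦X⟧) * Ph P p 1 τ + L * Ph P p 0 τ) + y ^ 2 *
      ((p : T3⟦X⟧) ^ 2 * Ph P p 2 τ + (p : T3⟦X⟧) * L * Ph P p 1 τ +
        c * x ^ 2 * Ph P p 0 τ))) := by
      rw [mul_pow]; ring
    rw [e]
    have hau : DP p 0 (C (hseq P 1 m) * υ ^ m) := F.mulL ham (F.pow hυ m)
    exact F.add (F.add t5 (F.mulL hau (F.mulR t3 hS))) (F.mulL hau t4)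
  -- assemble
  have s4 := F.sum (range p) _ s3
  rw [sum_sub_distrib, ← mul_sum, ← sum_block' (fun n => C (hseq P p n) * τ ^ n), ← sq] at s4
  have s5 := F.mulL hex s1
  rw [mul_sub] at s5
  have s6 := F.trans s5 s4
  refine F.trans s6 ?_
  have q0 : DP p 0 ((p : T3⟦X⟧) * Ph P p 1 τ + L * Ph P p 0 τ) :=
    F.add (F.mulL (F.nat p) hP1) (F.mulL (F.int hL1) hP0)
  have q1 : DP p 0 ((p : T3⟦X⟧) ^ 2 * Ph P p 2 τ + (p : T3⟦X⟧) * L * Ph P p 1 τ +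
        C (emb (1 / 2)) * x ^ 2 * Ph P p 0 τ) :=
    F.add (F.add (F.mulL (F.pow (F.nat p) 2) hP2) (F.mulL (F.mulL (F.nat p) (F.int hL1)) hP1))
      (F.mulL (F.mulL hc (F.pow (F.int hx) 2)) hP0)
  have s7 := F.add (F.add (F.mulL hP0 (s2 0)) (F.mulL q0 (s2 1))) (F.mulL q1 (s2 2))
  have s8 := F.neg s7
  have e : ∑ m ∈ range p, C (hseq P 1 m) * υ ^ m * (Ph P p 0 τ + ((m : T3⟦X⟧) + C et) *
      ((p : T3⟦X⟧) * Ph P p 1 τ + L * Ph P p 0 τ) + ((m : T3⟦X⟧) + C et) ^ 2 *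
      ((p : T3⟦X⟧) ^ 2 * Ph P p 2 τ + (p : T3⟦X⟧) * L * Ph P p 1 τ +
        C (emb (1 / 2)) * x ^ 2 * Ph P p 0 τ)) =
      Ph P p 0 τ * (∑ m ∈ range p, C (hseq P 1 m) * ((m : T3⟦X⟧) + C et) ^ 0 * υ ^ m) +
      ((p : T3⟦X⟧) * Ph P p 1 τ + L * Ph P p 0 τ) *
        (∑ m ∈ range p, C (hseq P 1 m) * ((m : T3⟦X⟧) + C et) ^ 1 * υ ^ m) +
      ((p : T3⟦X⟧) ^ 2 * Ph P p 2 τ + (p : T3⟦X⟧) * L * Ph P p 1 τ +
        C (emb (1 / 2)) * x ^ 2 * Ph P p 0 τ) *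
        (∑ m ∈ range p, C (hseq P 1 m) * ((m : T3⟦X⟧) + C et) ^ 2 * υ ^ m) := by
    rw [mul_sum, mul_sum, mul_sum, ← sum_add_distrib, ← sum_add_distrib]
    apply sum_congr rfl
    intro m _
    ring
  rw [e]
  refine (congrArg (DP p 3) ?_).mp s8
  ring

end

end Pool.Agent.Helper91.SC
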