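import Mathlib
import Pool.Agent.Helper91.SC.PartA1

/-!
Splitting a full period into residue classes mod 3; the value of `SS N / N` mod `p^4`.
-/

set_option autoImplicit false

namespace Pool.Agent.Helper91.SC

open Finset

theorem sum_three (f : ℕ → ℚ) (L : ℕ) :
    ∑ i ∈ range (3 * L), f i = ∑ k ∈ range L, (f (3 * k) + f (3 * k + 1) + f (3 * k + 2)) := by
  induction L with
  | zero => simp
  | succ L ih =>
    rw [sum_range_succ, ← ih]
    have : 3 * (L + 1) = 3 * L + 1 + 1 + 1 := by ring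
    rw [this, sum_range_succ, sum_range_succ, sum_range_succ]
    ring

theorem split3 (f : ℕ → ℚ) {N L : ℕ} (hN : N = 3 * L + 1 ∨ N = 3 * L + 2) :
    ∑ i ∈ range (N - 1), f i = ∑ k ∈ range L, (f (3 * k + 2) + f (N - 4 - 3 * k)) +
      ∑ i ∈ Ico L (N - 1 - L), f (2 * N - 4 - 3 * i) := by
  rcases hN with h | h
  · have e1 : N - 1 = 3 * L := by omega
    have e2 : N - 1 - L = 2 * L := by omega
    rw [e2, e1, sum_three, sum_Ico_eq_sum_range]
    have e3 : 2 * L - L = L := by omega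
    rw [e3, sum_add_distrib, sum_add_distrib, sum_add_distrib]
    have r1 : ∑ k ∈ range L, f (3 * k) = ∑ k ∈ range L, f (N - 4 - 3 * k) := by
      rw [← sum_range_reflect]
      apply sum_congr rfl
      intro k hk
      have hk := mem_range.mp hk
      congr 1
      omega
    have r2 : ∑ k ∈ range L, f (3 * k + 1) = ∑ k ∈ range L, f (2 * N - 4 - 3 * (L + k)) := by
      rw [← sum_range_reflect]
      apply sum_congr rfl
      intro k hk
      have hk := mem_range.mp hk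
      congr 1
      omega
    rw [r1, r2]
    ring
  · have e1 : N - 1 = 3 * L + 1 := by omega
    have e2 : N - 1 - L = 2 * L + 1 := by omega
    rw [e2, e1, sum_range_succ, sum_three, sum_Ico_eq_sum_range]
    have e3 : 2 * L + 1 - L = L + 1 := by omega
    rw [e3, sum_add_distrib, sum_add_distrib, sum_add_distrib]
    have r1 : ∑ k ∈ range L, f (3 * k + 1) = ∑ k ∈ range L, f (N - 4 - 3 * k) := by
      rw [← sum_range_reflect]
      apply sum_congr rfl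
      intro k hk
      have hk := mem_range.mp hk
      congr 1
      omega
    have r2 : ∑ k ∈ range L, f (3 * k) + f (3 * L) =
        ∑ k ∈ range (L + 1), f (2 * N - 4 - 3 * (L + k)) := by
      rw [← sum_range_succ (fun k => f (3 * k)), ← sum_range_reflect]
      apply sum_congr rfl
      intro k hk
      have hk := mem_range.mp hk
      congr 1
      omega
    rw [r1, ← r2]
    ring

section
variable {p : ℕ} (hp : p.Prime) (h5 : 5 ≤ p) {m L : ℕ}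
  (Hz : ∀ l, l < 2 * m → Dv p 1 (zq (2 * m + 1) l))
  (hL : 2 * m + 1 = 3 * L + 1 ∨ 2 * m + 1 = 3 * L + 2)
include hp h5 Hz hL

omit hp h5 Hz hL in
theorem zq_c0 (q k : ℕ) : zq q (3 * k + 2) = zq q k / 3 := by
  unfold zq
  have h1 : ((k : ℚ) + 1) ≠ 0 := by positivity
  push_cast
  field_simp
  ring

omit hp h5 Hz in
theorem zq_c1 (k : ℕ) (hk : k < L) :
    zq (2 * m + 1) (2 * m + 1 - 4 - 3 * k) * (1 - zq (2 * m + 1) k / 3) =
      -(zq (2 * m + 1) k / 3) := by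
  obtain ⟨r, hr⟩ : ∃ r, 2 * m + 1 = 4 + 3 * k + r := ⟨2 * m + 1 - (4 + 3 * k), by omega⟩
  have e : 2 * m + 1 - 4 - 3 * k = r := by omega
  rw [e, hr]
  unfold zq
  have h1 : ((k : ℚ) + 1) ≠ 0 := by positivity
  have h2 : ((r : ℚ) + 1) ≠ 0 := by positivity
  push_cast
  field_simp
  ring

omit hp h5 Hz hL in
theorem zq_c2 (i : ℕ) (hi : 3 * i + 4 ≤ 2 * (2 * m + 1)) :
    zq (2 * m + 1) (2 * (2 * m + 1) - 4 - 3 * i) * (1 - 2 * (zq (2 * m + 1) i / 3)) =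
      -(zq (2 * m + 1) i / 3) := by
  obtain ⟨r, hr⟩ : ∃ r, 2 * (2 * m + 1) = 4 + 3 * i + r := ⟨2 * (2 * m + 1) - (4 + 3 * i), by omega⟩
  have e : 2 * (2 * m + 1) - 4 - 3 * i = r := by omega
  have e2 : (((2 * m + 1 : ℕ) : ℚ)) = (4 + 3 * i + r) / 2 := by
    have : (((2 * (2 * m + 1) : ℕ)) : ℚ) = 4 + 3 * i + r := by rw [hr]; push_cast; ring
    rw [eq_div_iff (by norm_num)]
    rw [← this]; push_cast; ring
  rw [e]
  unfold zq
  rw [e2]
  have h1 : ((i : ℚ) + 1) ≠ 0 := by positivity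
  have h2 : ((r : ℚ) + 1) ≠ 0 := by positivity
  field_simp
  ring

/-- `S3 q L ≡ 2 S3 q m`. -/
theorem S3_third : Dv p 4 (S3 (2 * m + 1) L - 2 * S3 (2 * m + 1) m) := by
  have ht := Dv_third hp h5
  have hL2 : L ≤ 2 * m := by omega
  set K := 2 * m - L with hK
  -- tails
  have refl2 : Dv p 4 (S2 (2 * m + 1) (2 * m) - S2 (2 * m + 1) K -
      (S2 (2 * m + 1) L + 2 * S3 (2 * m + 1) L)) := by
    have e : S2 (2 * m + 1) (2 * m) - S2 (2 * m + 1) K -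
      (S2 (2 * m + 1) L + 2 * S3 (2 * m + 1) L) = ∑ i ∈ range L,
        (zq (2 * m + 1) (2 * m - 1 - i) ^ 2 - (zq (2 * m + 1) i ^ 2 + 2 * zq (2 * m + 1) i ^ 3)) := by
      have e1 : S2 (2 * m + 1) (2 * m) = S2 (2 * m + 1) K +
          ∑ i ∈ range L, zq (2 * m + 1) (2 * m - 1 - i) ^ 2 := by
        have hKL : 2 * m = K + L := by omega
        generalize 2 * m + 1 = q
        rw [hKL, S2, sum_range_add, ← sum_range_reflect (fun i => zq q (K + i) ^ 2) L, ← S2]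
        congr 1
        apply sum_congr rfl
        intro i hi
        have hi := mem_range.mp hi
        congr 2
        omega
      rw [e1, sum_sub_distrib, sum_add_distrib, ← mul_sum, ← S2, ← S3]
      ring
    rw [e]
    exact sum_Dv hp _ L 4 (fun i hi => zq_refl2 hp Hz i (by omega))
  have refl3 : Dv p 4 (S3 (2 * m + 1) (2 * m) - S3 (2 * m + 1) K + S3 (2 * m + 1) L) := by
    have e : S3 (2 * m + 1) (2 * m) - S3 (2 * m + 1) K + S3 (2 * m + 1) L = ∑ i ∈ range L,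
        (zq (2 * m + 1) (2 * m - 1 - i) ^ 3 + zq (2 * m + 1) i ^ 3) := by
      have e1 : S3 (2 * m + 1) (2 * m) = S3 (2 * m + 1) K +
          ∑ i ∈ range L, zq (2 * m + 1) (2 * m - 1 - i) ^ 3 := by
        have hKL : 2 * m = K + L := by omega
        generalize 2 * m + 1 = q
        rw [hKL, S3, sum_range_add, ← sum_range_reflect (fun i => zq q (K + i) ^ 3) L, ← S3]
        congr 1
        apply sum_congr rfl
        intro i hi
        have hi := mem_range.mp hi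
        congr 2
        omega
      rw [e1, sum_add_distrib, ← S3]
      ring
    rw [e]
    exact sum_Dv hp _ L 4 (fun i hi => zq_refl3 hp Hz i (by omega))
  have full3 := S3_full hp Hz
  have full2 := S2_full hp h5 Hz
  -- the splitting
  have split := split3 (fun i => zq (2 * m + 1) i ^ 2) hL
  have hN1 : 2 * m + 1 - 1 = 2 * m := by omega
  rw [hN1, ← hK, ← S2] at split
  have c1 : ∀ k < L, Dv p 4 (zq (2 * m + 1) (3 * k + 2) ^ 2 +
      zq (2 * m + 1) (2 * m + 1 - 4 - 3 * k) ^ 2 -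
      (2 / 9 * zq (2 * m + 1) k ^ 2 + 2 / 27 * zq (2 * m + 1) k ^ 3)) := by
    intro k hk
    have h1 := zq_c1 hL k hk
    have hv : Dv p 1 (zq (2 * m + 1) k * (1 / 3)) := Dv_mul_int hp (Hz k (by omega)) ht
    have hv0 : Dv p 0 (zq (2 * m + 1) k * (1 / 3)) := Dv_mono (by norm_num) hv
    rw [zq_c0]
    obtain ⟨h3, h4⟩ := one_sub_unit' hp hv
    generalize zq (2 * m + 1) (2 * m + 1 - 4 - 3 * k) = w at *
    generalize zq (2 * m + 1) k = z at *
    have h1' : w = -(z * (1 / 3)) * (1 - z * (1 / 3))⁻¹ := by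
      rw [eq_mul_inv_iff_mul_eq₀ h3]
      linear_combination h1
    have e : (z / 3) ^ 2 + w ^ 2 - (2 / 9 * z ^ 2 + 2 / 27 * z ^ 3) = (z * (1 / 3)) ^ 4 *
      ((3 - 2 * (z * (1 / 3))) * (1 - z * (1 / 3))⁻¹ ^ 2) := by
      rw [h1']
      generalize hD : 1 - z * (1 / 3) = D at *
      have hz : z = 3 * (1 - D) := by rw [← hD]; ring
      rw [hz]
      field_simp
      ring
    rw [e]
    exact Dv_p4 hp hv (Dv_mul_int hp (Dv_sub hp (Dv_ofNat hp 3) (Dv_int_mul hp (Dv_ofNat hp 2) hv0))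
      (Dv_pow hp h4 2))
  have c2 : ∀ i, 3 * i + 4 ≤ 2 * (2 * m + 1) → i < 2 * m →
      Dv p 4 (zq (2 * m + 1) (2 * (2 * m + 1) - 4 - 3 * i) ^ 2 -
      (1 / 9 * zq (2 * m + 1) i ^ 2 + 4 / 27 * zq (2 * m + 1) i ^ 3)) := by
    intro i hi hi2
    have h1 := zq_c2 (m := m) i hi
    have hv : Dv p 1 (zq (2 * m + 1) i * (1 / 3)) := Dv_mul_int hp (Hz i (by omega)) ht
    have hv0 : Dv p 0 (zq (2 * m + 1) i * (1 / 3)) := Dv_mono (by norm_num) hv
    obtain ⟨h3, h4⟩ := one_sub_unit' hp (x := 2 * (zq (2 * m + 1) i * (1 / 3)))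
      (Dv_int_mul hp (Dv_ofNat hp 2) hv)
    generalize zq (2 * m + 1) (2 * (2 * m + 1) - 4 - 3 * i) = w at *
    generalize zq (2 * m + 1) i = z at *
    have h1' : w = -(z * (1 / 3)) * (1 - 2 * (z * (1 / 3)))⁻¹ := by
      rw [eq_mul_inv_iff_mul_eq₀ h3]
      linear_combination h1
    have e : w ^ 2 - (1 / 9 * z ^ 2 + 4 / 27 * z ^ 3) = (z * (1 / 3)) ^ 4 *
      ((12 - 16 * (z * (1 / 3))) * (1 - 2 * (z * (1 / 3)))⁻¹ ^ 2) := by
      rw [h1']
      generalize hD : 1 - 2 * (z * (1 / 3)) = D at *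
      have hz : z = 3 / 2 * (1 - D) := by rw [← hD]; ring
      rw [hz]
      field_simp
      ring
    rw [e]
    exact Dv_p4 hp hv (Dv_mul_int hp (Dv_sub hp (Dv_ofNat hp 12)
      (Dv_int_mul hp (Dv_ofNat hp 16) hv0)) (Dv_pow hp h4 2))
  have s1 := sum_Dv hp _ L 4 c1
  have s2 : Dv p 4 (∑ i ∈ Ico L K, (zq (2 * m + 1) (2 * (2 * m + 1) - 4 - 3 * i) ^ 2 -
      (1 / 9 * zq (2 * m + 1) i ^ 2 + 4 / 27 * zq (2 * m + 1) i ^ 3))) := by
    apply Dv_sum hp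
    intro i hi
    have hi := mem_Ico.mp hi
    exact c2 i (by omega) (by omega)
  rw [sum_sub_distrib, sum_add_distrib (f := fun i => 2 / 9 * zq (2 * m + 1) i ^ 2), ← mul_sum,
    ← mul_sum, ← S2, ← S3] at s1
  rw [sum_sub_distrib, sum_add_distrib, ← mul_sum, ← mul_sum] at s2
  have m2 : ∑ i ∈ Ico L K, zq (2 * m + 1) i ^ 2 = S2 (2 * m + 1) K - S2 (2 * m + 1) L := by
    rw [sum_Ico_eq_sub _ (by omega), S2, S2]
  have m3 : ∑ i ∈ Ico L K, zq (2 * m + 1) i ^ 3 = S3 (2 * m + 1) K - S3 (2 * m + 1) L := by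
    rw [sum_Ico_eq_sub _ (by omega), S3, S3]
  rw [m2, m3] at s2
  have tot := Dv_add hp s1 s2
  generalize ∑ k ∈ range L, (zq (2 * m + 1) (3 * k + 2) ^ 2 +
      zq (2 * m + 1) (2 * m + 1 - 4 - 3 * k) ^ 2) = A at *
  generalize ∑ i ∈ Ico L K, zq (2 * m + 1) (2 * (2 * m + 1) - 4 - 3 * i) ^ 2 = B at *
  have hAB : A = S2 (2 * m + 1) (2 * m) - B := by rw [split]; ring
  rw [hAB] at tot
  generalize S2 (2 * m + 1) (2 * m) = a2 at *
  generalize S3 (2 * m + 1) (2 * m) = a3 at *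
  generalize S2 (2 * m + 1) K = k2 at *
  generalize S3 (2 * m + 1) K = k3 at *
  generalize S2 (2 * m + 1) L = l2 at *
  generalize S3 (2 * m + 1) L = l3 at *
  generalize S3 (2 * m + 1) m = b at *
  have hh := Dv_half hp h5
  -- tot: a2 - 2/9 l2 - 2/27 l3 - (1/9 (k2-l2) + 4/27 (k3 - l3)) ≡ 0
  -- refl2 : a2 - k2 - l2 - 2 l3 ≡ 0;  refl3 : a3 - k3 + l3; full3: a3; full2 : a2 + b/3
  have e : l3 - 2 * b = (27 * (1 / 2 * (1 / 2))) * (a2 - B - (2 / 9 * l2 + 2 / 27 * l3) +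
      (B - (1 / 9 * (k2 - l2) + 4 / 27 * (k3 - l3)))) -
      (3 * (1 / 2 * (1 / 2))) * (a2 - k2 - (l2 + 2 * l3)) - (a3 - k3 + l3) + a3 -
      6 * (a2 - (-(1 / 3) * b)) := by ring
  rw [e]
  exact Dv_sub hp (Dv_add hp (Dv_sub hp (Dv_sub hp (Dv_int_mul hp (Dv_mul_int hp (Dv_ofNat hp 27)
    (Dv_mul_int hp hh hh)) tot) (Dv_int_mul hp (Dv_mul_int hp (Dv_ofNat hp 3)
    (Dv_mul_int hp hh hh)) refl2)) refl3) full3) (Dv_int_mul hp (Dv_ofNat hp 6) full2)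

/-- `SS N / N` modulo `p^4`. -/
theorem SS_cong : Dv p 4 (SS (2 * m + 1) / ((2 * m + 1 : ℕ) : ℚ) -
    (8 - 208 / 27 * S3 (2 * m + 1) m)) := by
  have ht := Dv_third hp h5
  have hh := Dv_half hp h5
  have hL2 : L ≤ 2 * m := by omega
  have hne : ∀ i < L, zq (2 * m + 1) i ≠ 1 := by
    intro i hi h
    have := (one_sub_unit' hp (Hz i (by omega))).1
    apply this
    rw [h]; ring
  have h1 := SS_prod hL hne
  have hq0 : ((2 * m + 1 : ℕ) : ℚ) ≠ 0 := by positivity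
  have e1 := E1_cong hp h5 Hz
  have e2 := E2_cong hp h5 Hz hL2
  have e3 := YY_cong hp h5 Hz hL2
  have e4 := S3_third hp h5 Hz hL
  have t2 := S2_Dv hp Hz L hL2
  have t3 := S3_Dv hp Hz L hL2
  have b3 := S3_Dv hp Hz m (by omega)
  rw [h1]
  have hN1 : 2 * m + 1 - 1 = 2 * m := by omega
  rw [hN1]
  generalize ∏ i ∈ range (2 * m), ((1 + 2 * zq (2 * m + 1) i) * (1 + 3 * zq (2 * m + 1) i) /
      (1 + zq (2 * m + 1) i) ^ 3) = X at *
  generalize ∏ i ∈ range L, ((1 - 2 * zq (2 * m + 1) i) * (1 + zq (2 * m + 1) i / 3) ^ 3 *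
        (1 - 2 * zq (2 * m + 1) i / 3) ^ 3 / (1 - zq (2 * m + 1) i) ^ 3) = Y at *
  generalize YY (2 * m + 1) L = Z at *
  generalize S2 (2 * m + 1) L = s2 at *
  generalize S3 (2 * m + 1) L = s3 at *
  generalize S3 (2 * m + 1) m = b at *
  have e0 : 8 * ((2 * m + 1 : ℕ) : ℚ) * (X * Y * Z) / ((2 * m + 1 : ℕ) : ℚ) = 8 * (X * Y * Z) := by
    field_simp
  rw [e0]
  have z0 : Dv p 0 Z := by
    have e : Z = (Z - (1 + 4 / 3 * (s2 + s3 / 3))) + (1 + (4 * (1 / 3)) * s2 +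
      (4 * (1 / 3) ^ 2) * s3) := by ring
    rw [e]
    exact Dv_add hp (Dv_mono (by norm_num) e3) (Dv_add hp (Dv_add hp (Dv_one hp)
      (Dv_int_mul hp (Dv_mul_int hp (Dv_ofNat hp 4) ht) (Dv_mono (by norm_num) t2)))
      (Dv_int_mul hp (Dv_mul_int hp (Dv_ofNat hp 4) (Dv_pow hp ht 2)) (Dv_mono (by norm_num) t3)))
  have y0 : Dv p 0 Y := by
    have e : Y = (Y - (1 - 4 / 3 * s2 - 52 / 27 * s3)) + (1 - (4 * (1 / 3)) * s2 -
      (52 * (1 / 3) ^ 3) * s3) := by ring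
    rw [e]
    exact Dv_add hp (Dv_mono (by norm_num) e2) (Dv_sub hp (Dv_sub hp (Dv_one hp)
      (Dv_int_mul hp (Dv_mul_int hp (Dv_ofNat hp 4) ht) (Dv_mono (by norm_num) t2)))
      (Dv_int_mul hp (Dv_mul_int hp (Dv_ofNat hp 52) (Dv_pow hp ht 3)) (Dv_mono (by norm_num) t3)))
  have bi : Dv p 0 b := Dv_mono (by norm_num) b3
  have si : Dv p 0 s2 := Dv_mono (by norm_num) t2
  have s3i : Dv p 0 s3 := Dv_mono (by norm_num) t3
  have q1 : Dv p 4 (s2 * s2) := Dv_mul hp t2 t2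
  have q2 : Dv p 4 (s2 * s3) := Dv_mono (by norm_num) (Dv_mul hp t2 t3)
  have q3 : Dv p 4 (s3 * s3) := Dv_mono (by norm_num) (Dv_mul hp t3 t3)
  have q4 : Dv p 4 (b * s2) := Dv_mono (by norm_num) (Dv_mul hp b3 t2)
  have q5 : Dv p 4 (b * s3) := Dv_mono (by norm_num) (Dv_mul hp b3 t3)
  -- second factor times third
  have yz : Dv p 4 (Y * Z - (1 - 40 / 27 * s3)) := by
    have e : Y * Z - (1 - 40 / 27 * s3) = (Y - (1 - 4 / 3 * s2 - 52 / 27 * s3)) * Z +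
      (1 - 4 * (1 / 3) * s2 - 52 * (1 / 3) ^ 3 * s3) * (Z - (1 + 4 / 3 * (s2 + s3 / 3))) -
      (16 * (1 / 3) ^ 2) * (s2 * s2) - (256 * (1 / 3) ^ 4) * (s2 * s3) -
        (208 * (1 / 3) ^ 5) * (s3 * s3) := by ring
    rw [e]
    refine Dv_sub hp (Dv_sub hp (Dv_sub hp (Dv_add hp (Dv_mul_int hp e2 z0)
      (Dv_int_mul hp (Dv_sub hp (Dv_sub hp (Dv_one hp) (Dv_mul_int hp (Dv_mul_int hp
      (Dv_ofNat hp 4) ht) si)) (Dv_mul_int hp (Dv_mul_int hp (Dv_ofNat hp 52) (Dv_pow hp ht 3))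
      s3i)) e3)) ?_) ?_) ?_
    · exact Dv_int_mul hp (Dv_mul_int hp (Dv_ofNat hp 16) (Dv_pow hp ht 2)) q1
    · exact Dv_int_mul hp (Dv_mul_int hp (Dv_ofNat hp 256) (Dv_pow hp ht 4)) q2
    · exact Dv_int_mul hp (Dv_mul_int hp (Dv_ofNat hp 208) (Dv_pow hp ht 5)) q3
  have e : 8 * (X * Y * Z) - (8 - 208 / 27 * b) = 8 * ((X - (1 + 2 * b)) * (Y * Z) +
    (1 + 2 * b) * (Y * Z - (1 - 40 / 27 * s3)) - (40 * (1 / 3) ^ 3) * (s3 - 2 * b) -
      (80 * (1 / 3) ^ 3) * (b * s3)) := by ring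
  rw [e]
  refine Dv_int_mul hp (Dv_ofNat hp 8) (Dv_sub hp (Dv_sub hp (Dv_add hp (Dv_mul_int hp e1
    (Dv_mul_int hp y0 z0)) (Dv_int_mul hp (Dv_add hp (Dv_one hp) (Dv_int_mul hp (Dv_ofNat hp 2) bi))
    yz)) ?_) ?_)
  · exact Dv_int_mul hp (Dv_mul_int hp (Dv_ofNat hp 40) (Dv_pow hp ht 3)) e4
  · exact Dv_int_mul hp (Dv_mul_int hp (Dv_ofNat hp 80) (Dv_pow hp ht 3)) q5

end

end Pool.Agent.Helper91.SC
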