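import Mathlib
import Pool.Agent.Helper91.SC.PartA2
import Pool.Agent.Helper91.Q1

/-!
The Bernoulli number `B_{p-3}` and part (a).
-/

set_option autoImplicit false

namespace Pool.Agent.Helper91.SC

open Finset

theorem powexp (x y : ℤ) (n : ℕ) :
    ∃ c : ℤ, (x + y) ^ (n + 1) = x ^ (n + 1) + (n + 1) * x ^ n * y + c * y ^ 2 := by
  induction n with
  | zero => exact ⟨0, by ring⟩
  | succ n ih =>
    obtain ⟨c, hc⟩ := ih
    refine ⟨c * (x + y) + (n + 1) * x ^ n, ?_⟩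
    rw [pow_succ, hc]
    push_cast
    ring

section
variable {p : ℕ} (hp : p.Prime) (h5 : 5 ≤ p)
include hp h5

theorem bern_int (k : ℕ) (hk : k ≤ p - 2) : Dv p 0 (bernoulli k) := by
  induction k using Nat.strong_induction_on with
  | _ k ih =>
    rcases Nat.eq_zero_or_pos k with h0 | h0
    · rw [h0, bernoulli_zero]; exact Dv_one hp
    · have h1 := sum_bernoulli (k + 1)
      rw [if_neg (by omega), sum_range_succ, Nat.choose_succ_self_right] at h1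
      have hnd : ¬ (p ∣ (k + 1)) := fun h => by
        have := Nat.le_of_dvd (by omega) h
        omega
      have hk1 : (((k + 1 : ℕ) : ℚ)) ≠ 0 := by positivity
      have e : bernoulli k = -((((k + 1 : ℕ) : ℚ))⁻¹ *
          ∑ j ∈ range k, ((k + 1).choose j : ℚ) * bernoulli j) := by
        field_simp
        linear_combination h1
      rw [e]
      refine Dv_neg (Dv_int_mul hp (Dv_inv_nat hp hnd) (Dv_sum hp _ _ (fun j hj => ?_)))
      have hj := mem_range.mp hj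
      exact Dv_int_mul hp (Dv_nat hp _) (ih j hj (by omega))

theorem sum_pow_cong : Dv p 2 (∑ k ∈ range p, (k : ℚ) ^ (p - 3) - p * bernoulli (p - 3)) := by
  rw [sum_range_pow]
  have e1 : p - 3 + 1 = p - 2 := by omega
  rw [e1]
  have e2 : p - 2 = (p - 3) + 1 := by omega
  have hp2 : ¬ (p ∣ (p - 2)) := fun h => by
    have := Nat.le_of_dvd (by omega) h
    omega
  have hp20 : (((p - 3 : ℕ) : ℚ) + 1) ≠ 0 := by positivity
  have hcast : (((p - 3 : ℕ) : ℚ) + 1) = ((p - 2 : ℕ) : ℚ) := by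
    rw [e2]; push_cast; ring
  have hint : Dv p 0 ((((p - 3 : ℕ) : ℚ) + 1)⁻¹) := by
    rw [hcast]; exact Dv_inv_nat hp hp2
  have key : ∑ i ∈ range (p - 2), bernoulli i * ((p - 2).choose i : ℚ) * (p : ℚ) ^ (p - 2 - i) /
      (((p - 3 : ℕ) : ℚ) + 1) = ∑ i ∈ range (p - 3), bernoulli i * ((p - 2).choose i : ℚ) *
      (p : ℚ) ^ (p - 2 - i) / (((p - 3 : ℕ) : ℚ) + 1) + p * bernoulli (p - 3) := by
    conv_lhs => rw [show range (p - 2) = range (p - 3 + 1) by rw [← e2], sum_range_succ]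
    congr 1
    have e3 : p - 2 - (p - 3) = 1 := by omega
    have e4 : ((p - 2).choose (p - 3) : ℚ) = ((p - 3 : ℕ) : ℚ) + 1 := by
      rw [e2, Nat.choose_succ_self_right]; push_cast; ring
    rw [e3, e4]
    field_simp
  rw [key, add_sub_cancel_right]
  apply Dv_sum hp
  intro i hi
  have hi := mem_range.mp hi
  rw [div_eq_mul_inv]
  have h1 : Dv p 2 ((p : ℚ) ^ (p - 2 - i)) := Dv_mono (by omega) (Dv_ppow hp _)
  exact Dv_mul_int hp (Dv_int_mul hp (Dv_mul_int hp (bern_int hp h5 i (by omega)) (Dv_nat hp _)) h1)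
    hint

omit h5 in
/-- Fermat -/
theorem fermat_Dv (x : ℕ) (hx : ¬ p ∣ x) : Dv p 1 ((x : ℚ) ^ (p - 1) - 1) := by
  have hx' : ¬ ((p : ℤ) ∣ (x : ℤ)) := by exact_mod_cast hx
  have h1 : (x : ℤ) ^ (p - 1) ≡ 1 [ZMOD p] :=
    Int.ModEq.pow_card_sub_one_eq_one hp ((prime_int hp).coprime_iff_not_dvd.mpr hx').symm
  obtain ⟨c, hc⟩ := h1.dvd
  have hc' : (1 : ℚ) - (x : ℚ) ^ (p - 1) = p * c := by exact_mod_cast hc
  have e : (x : ℚ) ^ (p - 1) - 1 = p * (-c) := by linear_combination -hc'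
  rw [e]
  exact Dv_mul_int hp (Dv_p hp) (Dv_neg (Dv_int hp c))

theorem half_pow_cong {m : ℕ} (hm : p = 2 * m + 1) :
    Dv p 1 (∑ i ∈ range m, ((i : ℚ) + 1) ^ (p - 4) + 2 * bernoulli (p - 3)) := by
  have ht := Dv_third hp h5
  have e3 : p - 3 = p - 4 + 1 := by omega
  have hev : Even (p - 3) := ⟨m - 1, by omega⟩
  set n := p - 4 with hn
  -- X
  have hX : ∑ k ∈ range p, (k : ℚ) ^ (p - 3) = ∑ l ∈ range (2 * m), ((l : ℚ) + 1) ^ (n + 1) := by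
    rw [e3, hm, sum_range_succ']
    push_cast
    rw [zero_pow (by omega), add_zero]
  have h1 : Dv p 2 (∑ l ∈ range (2 * m), ((l : ℚ) + 1) ^ (n + 1) -
      (2 * ∑ i ∈ range m, ((i : ℚ) + 1) ^ (n + 1) -
        (n + 1) * p * ∑ i ∈ range m, ((i : ℚ) + 1) ^ n)) := by
    have e : ∑ l ∈ range (2 * m), ((l : ℚ) + 1) ^ (n + 1) -
      (2 * ∑ i ∈ range m, ((i : ℚ) + 1) ^ (n + 1) -
        (n + 1) * p * ∑ i ∈ range m, ((i : ℚ) + 1) ^ n) = ∑ i ∈ range m,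
        ((((2 * m - 1 - i : ℕ) : ℚ) + 1) ^ (n + 1) - (((i : ℚ) + 1) ^ (n + 1) -
          (n + 1) * p * ((i : ℚ) + 1) ^ n)) := by
      rw [sum_pair (fun l => ((l : ℚ) + 1) ^ (n + 1)), sum_add_distrib, sum_sub_distrib,
        sum_sub_distrib, ← mul_sum]
      ring
    rw [e]
    apply sum_Dv hp
    intro i hi
    obtain ⟨c, hc⟩ := powexp ((i : ℤ) + 1) (-(p : ℤ)) n
    have e1 : (((2 * m - 1 - i : ℕ) : ℚ) + 1) = -(((i : ℚ) + 1) + (-(p : ℚ))) := by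
      have : ((2 * m - 1 - i : ℕ) : ℚ) = 2 * m - 1 - i := by
        rw [Nat.cast_sub (by omega), Nat.cast_sub (by omega)]; push_cast; ring
      rw [this, hm]; push_cast; ring
    have hc' : ((i : ℚ) + 1 + (-(p : ℚ))) ^ (n + 1) = ((i : ℚ) + 1) ^ (n + 1) +
        (n + 1) * ((i : ℚ) + 1) ^ n * (-(p : ℚ)) + c * (-(p : ℚ)) ^ 2 := by
      exact_mod_cast hc
    rw [e1, ← e3, hev.neg_pow, e3, hc']
    have e2 : ((i : ℚ) + 1) ^ (n + 1) + (n + 1) * ((i : ℚ) + 1) ^ n * (-(p : ℚ)) +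
      c * (-(p : ℚ)) ^ 2 - (((i : ℚ) + 1) ^ (n + 1) - (n + 1) * p * ((i : ℚ) + 1) ^ n) =
      (p : ℚ) ^ 2 * c := by ring
    rw [e2]
    exact Dv_mul_int hp (Dv_ppow hp 2) (Dv_int hp c)
  have h2 : Dv p 2 (∑ l ∈ range (2 * m), ((l : ℚ) + 1) ^ (n + 1) -
      (2 * 2 ^ (n + 1) * ∑ i ∈ range m, ((i : ℚ) + 1) ^ (n + 1) -
        (n + 1) * p * 2 ^ n * ∑ i ∈ range m, ((i : ℚ) + 1) ^ n)) := by
    have e : ∑ l ∈ range (2 * m), ((l : ℚ) + 1) ^ (n + 1) -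
      (2 * 2 ^ (n + 1) * ∑ i ∈ range m, ((i : ℚ) + 1) ^ (n + 1) -
        (n + 1) * p * 2 ^ n * ∑ i ∈ range m, ((i : ℚ) + 1) ^ n) = ∑ i ∈ range m,
        (((2 * (m - 1 - i) : ℕ) : ℚ) + 1) ^ (n + 1) + ∑ i ∈ range m,
        (((2 * i + 1 : ℕ) : ℚ) + 1) ^ (n + 1) - (2 * 2 ^ (n + 1) *
        ∑ i ∈ range m, ((i : ℚ) + 1) ^ (n + 1) -
        (n + 1) * p * 2 ^ n * ∑ i ∈ range m, ((i : ℚ) + 1) ^ n) := by
      rw [sum_even_odd (fun l => ((l : ℚ) + 1) ^ (n + 1)), sum_add_distrib,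
        sum_even_refl (fun l => ((l : ℚ) + 1) ^ (n + 1))]
    rw [e]
    have e1 : ∑ i ∈ range m, (((2 * i + 1 : ℕ) : ℚ) + 1) ^ (n + 1) =
        2 ^ (n + 1) * ∑ i ∈ range m, ((i : ℚ) + 1) ^ (n + 1) := by
      rw [mul_sum]
      apply sum_congr rfl
      intro i _
      rw [← mul_pow]
      congr 1
      push_cast
      ring
    rw [e1]
    have e2 : ∑ i ∈ range m, (((2 * (m - 1 - i) : ℕ) : ℚ) + 1) ^ (n + 1) +
        2 ^ (n + 1) * ∑ i ∈ range m, ((i : ℚ) + 1) ^ (n + 1) - (2 * 2 ^ (n + 1) *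
        ∑ i ∈ range m, ((i : ℚ) + 1) ^ (n + 1) -
        (n + 1) * p * 2 ^ n * ∑ i ∈ range m, ((i : ℚ) + 1) ^ n) =
        ∑ i ∈ range m, ((((2 * (m - 1 - i) : ℕ) : ℚ) + 1) ^ (n + 1) -
          ((2 * ((i : ℚ) + 1)) ^ (n + 1) - (n + 1) * p * (2 * ((i : ℚ) + 1)) ^ n)) := by
      simp only [mul_pow]
      rw [sum_sub_distrib, sum_sub_distrib, ← mul_sum, ← mul_sum, ← mul_sum]
      ring
    rw [e2]
    apply sum_Dv hp
    intro i hi
    obtain ⟨c, hc⟩ := powexp (2 * ((i : ℤ) + 1)) (-(p : ℤ)) n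
    have e1 : (((2 * (m - 1 - i) : ℕ) : ℚ) + 1) = -((2 * ((i : ℚ) + 1)) + (-(p : ℚ))) := by
      have : ((m - 1 - i : ℕ) : ℚ) = m - 1 - i := by
        rw [Nat.cast_sub (by omega), Nat.cast_sub (by omega)]; push_cast; ring
      rw [Nat.cast_mul, this, hm]; push_cast; ring
    have hc' : (2 * ((i : ℚ) + 1) + (-(p : ℚ))) ^ (n + 1) = (2 * ((i : ℚ) + 1)) ^ (n + 1) +
        (n + 1) * (2 * ((i : ℚ) + 1)) ^ n * (-(p : ℚ)) + c * (-(p : ℚ)) ^ 2 := by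
      exact_mod_cast hc
    rw [e1, ← e3, hev.neg_pow, e3, hc']
    have e2 : (2 * ((i : ℚ) + 1)) ^ (n + 1) + (n + 1) * (2 * ((i : ℚ) + 1)) ^ n * (-(p : ℚ)) +
      c * (-(p : ℚ)) ^ 2 - ((2 * ((i : ℚ) + 1)) ^ (n + 1) -
        (n + 1) * p * (2 * ((i : ℚ) + 1)) ^ n) = (p : ℚ) ^ 2 * c := by ring
    rw [e2]
    exact Dv_mul_int hp (Dv_ppow hp 2) (Dv_int hp c)
  have h3 := sum_pow_cong hp h5
  rw [hX] at h3
  have hB := bern_int hp h5 (p - 3) (by omega)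
  have hf : Dv p 1 ((2 : ℚ) ^ (p - 1) - 1) := by
    have := fermat_Dv hp 2 (fun h => by
      have := Nat.le_of_dvd (by norm_num) h
      omega)
    exact_mod_cast this
  have hC : Dv p 0 (∑ i ∈ range m, ((i : ℚ) + 1) ^ n) := by
    apply Dv_sum hp
    intro i _
    have := Dv_nat hp ((i + 1) ^ n)
    push_cast at this
    exact this
  have e2n : (8 : ℚ) * 2 ^ n = 2 ^ (p - 1) := by
    rw [show (8 : ℚ) = 2 ^ 3 by norm_num, ← pow_add]; congr 1; omega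
  have hnc : ((n : ℚ) + 1) = p - 3 := by
    rw [hn, Nat.cast_sub (by omega)]; push_cast; ring
  generalize ∑ l ∈ range (2 * m), ((l : ℚ) + 1) ^ (n + 1) = X at *
  generalize ∑ i ∈ range m, ((i : ℚ) + 1) ^ (n + 1) = A at *
  generalize ∑ i ∈ range m, ((i : ℚ) + 1) ^ n = C at *
  generalize bernoulli (p - 3) = B at *
  rw [hnc] at h1 h2
  rw [pow_succ] at h2
  generalize (2 : ℚ) ^ (p - 1) = F at *
  have e2n' : (2 : ℚ) ^ n = F / 8 := by rw [← e2n]; ring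
  rw [e2n'] at h2
  -- 3 p (C + 2 B) ≡ 0
  apply Dv_of_p_mul hp
  have e : (p : ℚ) * (C + 2 * B) = (1 / 3) * (8 * (X - (2 * (F / 8 * 2) * A - (p - 3) * p *
      (F / 8) * C)) - (2 * F) * (X - (2 * A - (p - 3) * p * C)) -
      ((8 - 2 * F) * (X - p * B)) + (2 * (F - 1)) * ((p : ℚ) * B) + (p : ℚ) ^ 2 * (C * F) -
        3 * ((F - 1) * (p * C))) := by ring
  rw [e]
  have hFi : Dv p 0 F := by
    have : F = (F - 1) + 1 := by ring
    rw [this]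
    exact Dv_add hp (Dv_mono (by norm_num) hf) (Dv_one hp)
  have hp1 := Dv_p hp
  refine Dv_int_mul hp ht (Dv_sub hp (Dv_add hp (Dv_add hp (Dv_sub hp (Dv_sub hp ?_ ?_) ?_) ?_) ?_)
    ?_)
  · exact Dv_int_mul hp (Dv_ofNat hp 8) h2
  · exact Dv_int_mul hp (Dv_int_mul hp (Dv_ofNat hp 2) hFi) h1
  · exact Dv_int_mul hp (Dv_sub hp (Dv_ofNat hp 8) (Dv_int_mul hp (Dv_ofNat hp 2) hFi)) h3
  · exact Dv_mul hp (Dv_int_mul hp (Dv_ofNat hp 2) hf) (Dv_mul_int hp hp1 hB)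
  · exact Dv_mul_int hp (Dv_ppow hp 2) (Dv_int_mul hp hC hFi)
  · exact Dv_int_mul hp (Dv_ofNat hp 3) (Dv_mul hp hf (Dv_mul_int hp hp1 hC))

theorem S3_bern {m : ℕ} (hm : p = 2 * m + 1) :
    Dv p 4 (S3 p m + 2 * (p : ℚ) ^ 3 * bernoulli (p - 3)) := by
  have h1 := half_pow_cong hp h5 hm
  have h2 : Dv p 1 (∑ i ∈ range m, (1 / ((i : ℚ) + 1)) ^ 3 -
      ∑ i ∈ range m, ((i : ℚ) + 1) ^ (p - 4)) := by
    rw [← sum_sub_distrib]
    apply sum_Dv hp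
    intro i hi
    have hnd : ¬ (p ∣ (i + 1)) := fun h => by
      have := Nat.le_of_dvd (by omega) h
      omega
    have h3 := fermat_Dv hp (i + 1) hnd
    have h4 := Dv_inv_nat hp hnd
    push_cast at h3 h4
    have hi1 : ((i : ℚ) + 1) ≠ 0 := by positivity
    have e0 : ((i : ℚ) + 1) ^ (p - 1) = ((i : ℚ) + 1) ^ (p - 4) * ((i : ℚ) + 1) ^ 3 := by
      rw [← pow_add]; congr 1; omega
    have e : (1 / ((i : ℚ) + 1)) ^ 3 - ((i : ℚ) + 1) ^ (p - 4) =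
      -(((i : ℚ) + 1) ^ (p - 1) - 1) * ((i : ℚ) + 1)⁻¹ ^ 3 := by
      rw [e0]; field_simp; ring
    rw [e]
    exact Dv_mul_int hp (Dv_neg h3) (Dv_pow hp h4 3)
  have h3 := Dv_add hp h1 h2
  have e : S3 p m + 2 * (p : ℚ) ^ 3 * bernoulli (p - 3) = (p : ℚ) ^ 3 *
      (∑ i ∈ range m, ((i : ℚ) + 1) ^ (p - 4) + 2 * bernoulli (p - 3) +
      (∑ i ∈ range m, (1 / ((i : ℚ) + 1)) ^ 3 - ∑ i ∈ range m, ((i : ℚ) + 1) ^ (p - 4))) := by
    have e1 : S3 p m = (p : ℚ) ^ 3 * ∑ i ∈ range m, (1 / ((i : ℚ) + 1)) ^ 3 := by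
      rw [S3, mul_sum]
      apply sum_congr rfl
      intro i _
      unfold zq
      rw [← mul_pow]
      congr 1
      ring
    rw [e1]
    ring
  rw [e]
  exact Dv_mul hp (Dv_ppow hp 3) h3

/-- Part (a). -/
theorem partA {a : ℕ} (ha : 1 ≤ a) :
    Dv p 4 (SS (p ^ a) / (p : ℚ) ^ a - (8 + (416 / 27 : ℚ) * (p : ℚ) ^ 3 * bernoulli (p - 3))) := by
  have ht := Dv_third hp h5
  have hodd : Odd (p ^ a) := (hp.odd_of_ne_two (by omega)).pow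
  obtain ⟨m, hm⟩ := hodd
  obtain ⟨m', hm'⟩ := hp.odd_of_ne_two (by omega)
  have Hz := Hz_of_pow hp hm
  have Hz' := Hz_of_pow hp (a := 1) (m := m') (by rw [pow_one, hm'])
  have h3 : ¬ (3 ∣ p ^ a) := by
    intro h
    have := (Nat.prime_three.dvd_of_dvd_pow h)
    have := (Nat.prime_dvd_prime_iff_eq Nat.prime_three hp).mp this
    omega
  obtain ⟨L, hL⟩ : ∃ L, 2 * m + 1 = 3 * L + 1 ∨ 2 * m + 1 = 3 * L + 2 :=
    ⟨(2 * m + 1) / 3, by rw [hm] at h3; omega⟩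
  have h1 := SS_cong hp h5 Hz hL
  have h2 := S1_full3 hp h5 Hz
  have h4 := S1_full3 hp h5 Hz'
  have h5' := S1_pow' hp h5 ha
  have h6 := S3_bern hp h5 hm'
  have e1 : p ^ a - 1 = 2 * m := by omega
  have e2 : p - 1 = 2 * m' := by omega
  rw [e1, e2, hm] at h5'
  rw [← hm'] at h4
  have e3 : (p : ℚ) ^ a = ((2 * m + 1 : ℕ) : ℚ) := by rw [← hm]; push_cast; ring
  rw [e3, hm]
  generalize SS (2 * m + 1) / ((2 * m + 1 : ℕ) : ℚ) = X at *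
  generalize S3 (2 * m + 1) m = b at *
  generalize S3 p m' = b' at *
  generalize S1 (2 * m + 1) (2 * m) = s at *
  generalize S1 p (2 * m') = s' at *
  generalize bernoulli (p - 3) = B at *
  have e : X - (8 + (416 / 27 : ℚ) * (p : ℚ) ^ 3 * B) = (X - (8 - 208 / 27 * b)) +
    (1248 * (1 / 3) ^ 3) * (s - 1 / 6 * b) - (1248 * (1 / 3) ^ 3) * (s - s') -
      (1248 * (1 / 3) ^ 3) * (s' - 1 / 6 * b') - (208 * (1 / 3) ^ 3) * (b' + 2 * (p : ℚ) ^ 3 * B)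
      := by ring
  rw [e]
  have hc : Dv p 0 (1248 * (1 / 3) ^ 3 : ℚ) := Dv_mul_int hp (Dv_ofNat hp 1248) (Dv_pow hp ht 3)
  have hc2 : Dv p 0 (208 * (1 / 3) ^ 3 : ℚ) := Dv_mul_int hp (Dv_ofNat hp 208) (Dv_pow hp ht 3)
  exact Dv_sub hp (Dv_sub hp (Dv_sub hp (Dv_add hp h1 (Dv_int_mul hp hc h2))
    (Dv_int_mul hp hc h5')) (Dv_int_mul hp hc h4)) (Dv_int_mul hp hc2 h6)

end

end Pool.Agent.Helper91.SC
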