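import Mathlib
import Pool.Agent.Helper91.SC.LemG
import Pool.Agent.Helper91.SC.PartA3

/-!
The logarithmic relation modulo `p^3`.
-/

set_option autoImplicit false

namespace Pool.Agent.Helper91.SC

open Finset T3 PowerSeries

section
variable {p : ℕ} (hp : p.Prime) (h5 : 5 ≤ p)

include hp in
theorem Dv_div_small {n : ℕ} (hn0 : 0 < n) (hn : n < p ^ 2) {k : ℕ} {c : ℚ}
    (h : Dv p (k + 1) ((n : ℚ) * c)) : Dv p k c := by
  by_cases hd : p ∣ n
  · obtain ⟨m, rfl⟩ := hd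
    have hm : ¬ p ∣ m := by
      intro h2
      obtain ⟨r, rfl⟩ := h2
      rcases Nat.eq_zero_or_pos r with h3 | h3
      · subst h3; simp at hn0
      · have : p ^ 2 * 1 ≤ p ^ 2 * r := Nat.mul_le_mul_left _ h3
        have e : p * (p * r) = p ^ 2 * r := by ring
        rw [e] at hn
        omega
    have h1 : Dv p (k + 1) ((p : ℚ) * (((m : ℚ)) * c)) := by
      have e : (p : ℚ) * (((m : ℚ)) * c) = ((p * m : ℕ) : ℚ) * c := by push_cast; ring
      rw [e]; exact h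
    have h2 := Dv_of_p_mul hp h1
    have hm0 : (m : ℚ) ≠ 0 := by
      intro h3
      have : m = 0 := by exact_mod_cast h3
      exact hm (this ▸ dvd_zero p)
    have e : c = ((m : ℚ))⁻¹ * ((m : ℚ) * c) := by field_simp
    rw [e]
    exact Dv_int_mul hp (Dv_inv_nat hp hm) h2
  · have hn0' : (n : ℚ) ≠ 0 := by positivity
    have e : c = ((n : ℚ))⁻¹ * ((n : ℚ) * c) := by field_simp
    rw [e]
    exact Dv_int_mul hp (Dv_inv_nat hp hd) (Dv_mono (by omega) h)

include hp in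
theorem dp_of_th {k : ℕ} {f : T3⟦X⟧} (h : DP p (k + 1) (th f)) (h0 : DK (Dv p) k (coeff 0 f)) :
    DP p k f := by
  intro n hn
  rcases Nat.eq_zero_or_pos n with h1 | h1
  · subst h1; exact h0
  · have h2 := h n hn
    rw [coeff_th, natCast_eq] at h2
    have e0 : (emb (n : ℚ) * coeff n f).c0 = n * (coeff n f).c0 := by
      rw [mul_c0, emb_c0]
    have e1 : (emb (n : ℚ) * coeff n f).c1 = n * (coeff n f).c1 := by
      rw [mul_c1, emb_c0, emb_c1, zero_mul, add_zero]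
    have e2 : (emb (n : ℚ) * coeff n f).c2 = n * (coeff n f).c2 := by
      rw [mul_c2, emb_c0, emb_c1, emb_c2, zero_mul, zero_mul, add_zero, add_zero]
    refine ⟨Dv_div_small hp h1 hn ?_, Dv_div_small hp h1 hn ?_, Dv_div_small hp h1 hn ?_⟩
    · rw [← e0]; exact h2.1
    · rw [← e1]; exact h2.2.1
    · rw [← e2]; exact h2.2.2

include hp in
theorem dp_int_map (r : ℤ⟦X⟧) : DP p 0 (PowerSeries.map (Int.castRingHom T3) r) := by
  intro n _
  rw [coeff_map]
  have F := flt_t3 (flt_rat hp)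
  have : ∀ z : ℤ, DK (Dv p) 0 ((z : ℤ) : T3) := by
    intro z
    rcases Int.eq_nat_or_neg z with ⟨m, hm | hm⟩
    · rw [hm]; simpa using F.nat m
    · rw [hm]; simpa using F.neg (F.nat m)
  exact this _

include hp in
/-- `(1+X)^p` modulo `p` -/
theorem pow_cong_add : DP p 1 ((1 + X : T3⟦X⟧) ^ p - (1 + X ^ p)) := by
  have F := flt_dp hp
  obtain ⟨r, hr⟩ := exists_add_pow_prime_eq hp (1 : ℤ⟦X⟧) X
  have h := congrArg (PowerSeries.map (Int.castRingHom T3)) hr
  simp only [map_pow, map_add, map_mul, map_one, PowerSeries.map_X, map_natCast, one_pow,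
    mul_one] at h
  have e : (1 + X : T3⟦X⟧) ^ p - (1 + X ^ p) =
      (p : T3⟦X⟧) * (X * (PowerSeries.map (Int.castRingHom T3) r)) := by
    rw [h]; ring
  rw [e]
  exact F.mulR (dp_p hp) (F.mulL (ps_X (flt_t3 (flt_rat hp)) _) (dp_int_map hp r))

include hp h5 in
theorem pow_cong_sub : DP p 1 ((1 - X : T3⟦X⟧) ^ p - (1 - X ^ p)) := by
  have F := flt_dp hp
  obtain ⟨r, hr⟩ := exists_add_pow_prime_eq hp (1 : ℤ⟦X⟧) (-X)
  have h := congrArg (PowerSeries.map (Int.castRingHom T3)) hr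
  simp only [map_pow, map_add, map_mul, map_one, map_neg, PowerSeries.map_X, map_natCast, one_pow,
    mul_one, (hp.odd_of_ne_two (by omega)).neg_pow] at h
  have e : (1 - X : T3⟦X⟧) ^ p - (1 - X ^ p) =
      (p : T3⟦X⟧) * (-(X * (PowerSeries.map (Int.castRingHom T3) r))) := by
    rw [sub_eq_add_neg (1 : T3⟦X⟧) X, h]; ring
  rw [e]
  exact F.mulR (dp_p hp) (F.neg (F.mulL (ps_X (flt_t3 (flt_rat hp)) _) (dp_int_map hp r)))

include hp in
theorem exf_congr (h5 : 5 ≤ p) {f g : T3⟦X⟧} {k : ℕ} (h : DP p k (f - g)) (hf : DP p 0 f)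
    (hg : DP p 0 g) : DP p k (exf f - exf g) := by
  have F := flt_dp hp
  have hc := dp_half hp h5
  have he := dp_et hp
  have e : exf f - exf g = (f - g) * (C et + C (emb (1 / 2)) * C et ^ 2 * (f + g)) := by
    unfold exf; ring
  rw [e]
  exact F.mulR h (F.add he (F.mulL (F.mulL hc (F.pow he 2)) (F.add hf hg)))

include hp in
theorem exf_int (h5 : 5 ≤ p) {f : T3⟦X⟧} (hf : DP p 0 f) : DP p 0 (exf f) := by
  have F := flt_dp hp
  unfold exf
  exact F.add (F.add F.one (F.mulL (dp_et hp) hf))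
    (F.mulL (F.mulL (dp_half hp h5) (F.pow (dp_et hp) 2)) (F.pow hf 2))

include hp h5 in
theorem logrel (c0 c1 : ℚ) (hc0 : Dv p 0 c0) (hc1 : Dv p 0 c1)
    (CV V i1 i2 iC j1 j2 l g x x1 : T3⟦X⟧)
    (hCV : CV = 1 + C (emb p) * (C (emb c0) + C (emb c1) * X)) (hV : V = X ^ p * CV)
    (cV : constantCoeff V = 0)
    (h1 : (1 - X) * i1 = 1) (h2 : (1 + X) * i2 = 1) (hC : CV * iC = 1)
    (k1 : (1 - V) * j1 = 1) (k2 : (1 + V) * j2 = 1)
    (d1 : DP p 0 i1) (d2 : DP p 0 i2) (dC : DP p 0 iC) (e1 : DP p 0 j1) (e2 : DP p 0 j2)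
    (hl : (1 - X ^ 2) * th l = X * (5 - 3 * X)) (hl0 : constantCoeff l = 0)
    (hg : g = C (emb ((1 / 16) ^ (p - 1))))
    (hx : x = g * ((1 - X) ^ p * j1) * iC - 1)
    (hx1 : x1 = g * ((1 - X) ^ p * j1) ^ 2 * ((1 + V) * i2 ^ p) ^ 4 * iC - 1) :
    DP p 1 x ∧ DP p 1 x1 ∧ DP p 3 (((p : T3⟦X⟧) * l + (x1 - C (emb (1 / 2)) * x1 ^ 2)) -
      (sb V cV l + (x - C (emb (1 / 2)) * x ^ 2))) := by
  have F := flt_dp hp
  have hX : DP p 0 (X : T3⟦X⟧) := ps_X (flt_t3 (flt_rat hp)) _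
  have hpp := dp_p hp
  have hc := dp_half hp h5
  have hpe : (C (emb (p : ℚ)) : T3⟦X⟧) = (p : T3⟦X⟧) := by
    rw [map_natCast, map_natCast]
  rw [hpe] at hCV
  have hC0 : DP p 0 (C (emb c0)) := dp_C hp (dk_emb (flt_rat hp) hc0)
  have hC1 : DP p 0 (C (emb c1)) := dp_C hp (dk_emb (flt_rat hp) hc1)
  have hCV1 : DP p 1 (CV - 1) := by
    have e : CV - 1 = (p : T3⟦X⟧) * (C (emb c0) + C (emb c1) * X) := by rw [hCV]; ring
    rw [e]
    exact F.mulR hpp (F.add hC0 (F.mulL hC1 hX))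
  have hCVi : DP p 0 CV := by
    have e : CV = (CV - 1) + 1 := by ring
    rw [e]; exact F.add (F.int hCV1) F.one
  have hVi : DP p 0 V := by rw [hV]; exact F.mulL (F.pow hX p) hCVi
  have hVX : DP p 1 (V - X ^ p) := by
    have e : V - X ^ p = X ^ p * (CV - 1) := by rw [hV]; ring
    rw [e]; exact F.mulL (F.pow hX p) hCV1
  -- the four factors
  set α := (1 - X) ^ p * j1 with hα
  set β := (1 + V) * i2 ^ p with hβ
  have hα1 : DP p 1 (α - 1) := by
    have e : α - 1 = (((1 - X) ^ p - (1 - X ^ p)) + (V - X ^ p)) * j1 := by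
      rw [hα]
      linear_combination k1
    rw [e]
    exact F.mulR (F.add (pow_cong_sub hp h5) hVX) e1
  have hβ1 : DP p 1 (β - 1) := by
    have h2p : (1 + X) ^ p * i2 ^ p = 1 := by rw [← mul_pow, h2, one_pow]
    have e : β - 1 = (V - X ^ p - ((1 + X) ^ p - (1 + X ^ p))) * i2 ^ p := by
      rw [hβ]
      linear_combination h2p
    rw [e]
    exact F.mulR (F.sub hVX (pow_cong_add hp)) (F.pow d2 p)
  have hγ1 : DP p 1 (iC - 1) := by
    have e : iC - 1 = -(CV - 1) * iC := by linear_combination hC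
    rw [e]; exact F.mulR (F.neg hCV1) dC
  have hg1 : DP p 1 (g - 1) := by
    have h16 : ¬ p ∣ 16 := by
      intro h
      have : p ∣ 2 ^ 4 := h
      have := hp.dvd_of_dvd_pow this
      have := Nat.le_of_dvd (by norm_num) this
      omega
    have hf := fermat_Dv hp 16 h16
    have hi : Dv p 0 ((1 / 16 : ℚ) ^ (p - 1)) := by
      apply Dv_pow hp
      have := Dv_inv_nat hp h16
      rw [one_div]; exact_mod_cast this
    have e : (1 / 16 : ℚ) ^ (p - 1) - 1 =
        -((1 / 16 : ℚ) ^ (p - 1) * (((16 : ℕ) : ℚ) ^ (p - 1) - 1)) := by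
      have : (1 / 16 : ℚ) ^ (p - 1) * ((16 : ℕ) : ℚ) ^ (p - 1) = 1 := by
        rw [← mul_pow]; norm_num
      linear_combination this
    have e2 : g - 1 = C (emb ((1 / 16 : ℚ) ^ (p - 1) - 1)) := by
      rw [hg, map_sub, map_sub, map_one, map_one]
    rw [e2, e]
    exact dp_C hp (dk_emb (flt_rat hp) (Dv_neg (Dv_int_mul hp hi hf)))
  have unit1 : ∀ {a : T3⟦X⟧}, DP p 1 (a - 1) → DP p 0 a := by
    intro a ha
    have e : a = (a - 1) + 1 := by ring
    rw [e]; exact F.add (F.int ha) F.one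
  have mul1 : ∀ {a b : T3⟦X⟧}, DP p 1 (a - 1) → DP p 1 (b - 1) → DP p 1 (a * b - 1) := by
    intro a b ha hb
    have e : a * b - 1 = (a - 1) * b + (b - 1) := by ring
    rw [e]
    exact F.add (F.mulR ha (unit1 hb)) hb
  have hxx : DP p 1 x := by
    rw [hx]; exact mul1 (mul1 hg1 hα1) hγ1
  have hxx1 : DP p 1 x1 := by
    have e : x1 = g * (α * α) * (β * β * (β * β)) * iC - 1 := by rw [hx1]; ring
    rw [e]
    exact mul1 (mul1 (mul1 hg1 (mul1 hα1 hα1)) (mul1 (mul1 hβ1 hβ1) (mul1 hβ1 hβ1))) hγ1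
  refine ⟨hxx, hxx1, ?_⟩
  -- logarithmic derivatives
  obtain ⟨σ, hσ⟩ : ∃ σ, σ = (p : T3⟦X⟧) + (p : T3⟦X⟧) * C (emb c1) * X * iC := ⟨_, rfl⟩
  have thCV : th CV = (p : T3⟦X⟧) * C (emb c1) * X := by
    rw [hCV, th_add, th_one, th_mul, th_nat, th_add, th_C, th_mul, th_C, th_X]; ring
  have thV : th V = V * σ := by
    rw [hV, th_mul, th_Xpow, thCV, hσ]
    linear_combination (-(X ^ p * ((p : T3⟦X⟧) * C (emb c1) * X))) * hC
  have sbl := th_sb V σ cV thV l
  have thi1 : th i1 = X * i1 ^ 2 := by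
    have := congrArg th h1
    rw [th_mul, th_sub, th_one, th_X] at this
    linear_combination i1 * this - (th i1) * h1
  have thi2 : th i2 = -(X * i2 ^ 2) := by
    have := congrArg th h2
    rw [th_mul, th_add, th_one, th_X] at this
    linear_combination i2 * this - (th i2) * h2
  have thj1 : th j1 = V * σ * j1 ^ 2 := by
    have := congrArg th k1
    rw [th_mul, th_sub, th_one, thV] at this
    linear_combination j1 * this - (th j1) * k1
  have thiC : th iC = -((p : T3⟦X⟧) * C (emb c1) * X * iC ^ 2) := by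
    have := congrArg th hC
    rw [th_mul, th_one, thCV] at this
    linear_combination iC * this - (th iC) * hC
  have thl : th l = X * i1 + 4 * X * i2 := by
    have e : (1 - X) * i1 * ((1 + X) * i2) = 1 := by rw [h1, h2, one_mul]
    linear_combination (i1 * i2) * hl - (th l) * e + (4 * X * i2) * h1 + (X * i1) * h2
  have thlV : sb V cV (th l) = V * j1 + 4 * V * j2 := by
    have sj1 : sb V cV i1 = j1 := by
      have := congrArg (sb V cV) h1
      rw [map_mul, map_sub, map_one, sb_X] at this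
      linear_combination j1 * this - (sb V cV i1) * k1
    have sj2 : sb V cV i2 = j2 := by
      have := congrArg (sb V cV) h2
      rw [map_mul, map_add, map_one, sb_X] at this
      linear_combination j2 * this - (sb V cV i2) * k2
    rw [thl, map_add, map_mul, map_mul, map_mul, map_ofNat, sb_X, sj1, sj2]
  have hp1 : p = (p - 1) + 1 := by have := hp.one_lt; omega
  have thα : th α = α * (σ * V * j1 - (p : T3⟦X⟧) * X * i1) := by
    have e : th ((1 - X : T3⟦X⟧) ^ p) = -((p : T3⟦X⟧) * X * i1 * (1 - X) ^ p) := by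
      conv_lhs => rw [hp1, th_pow, th_sub, th_one, th_X]
      conv_rhs => rw [hp1, pow_succ]
      have : ((p - 1 + 1 : ℕ) : T3⟦X⟧) = ((p - 1 : ℕ) : T3⟦X⟧) + 1 := by push_cast; ring
      rw [this]
      linear_combination ((((p - 1 : ℕ) : T3⟦X⟧) + 1) * (1 - X) ^ (p - 1) * X) * h1
    rw [hα, th_mul, e, thj1]
    ring
  have thβ : th β = β * (σ * V * j2 - (p : T3⟦X⟧) * X * i2) := by
    have e : th (i2 ^ p) = -((p : T3⟦X⟧) * X * i2 * i2 ^ p) := by
      conv_lhs => rw [hp1, th_pow, thi2]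
      conv_rhs => rw [hp1, pow_succ]
      have : ((p - 1 + 1 : ℕ) : T3⟦X⟧) = ((p - 1 : ℕ) : T3⟦X⟧) + 1 := by push_cast; ring
      rw [this]
      ring
    rw [hβ, th_mul, e, th_add, th_one, thV]
    linear_combination (-(V * σ * i2 ^ p)) * k2
  obtain ⟨ω, hω⟩ : ∃ ω, ω = (σ * V * j1 - (p : T3⟦X⟧) * X * i1) -
      (p : T3⟦X⟧) * C (emb c1) * X * iC := ⟨_, rfl⟩
  obtain ⟨ρ, hρ⟩ : ∃ ρ, ρ = (σ * V * j1 - (p : T3⟦X⟧) * X * i1) +
      4 * (σ * V * j2 - (p : T3⟦X⟧) * X * i2) := ⟨_, rfl⟩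
  have thg : th g = 0 := by rw [hg, th_C]
  have thx : th x = (1 + x) * ω := by
    rw [hx, th_sub, th_one, th_mul, th_mul, thg, thα, thiC, hω]
    ring
  have thx1 : th x1 = (1 + x1) * (ω + ρ) := by
    rw [hx1, th_sub, th_one, th_mul, th_mul, th_mul, thg, th_sq, thα,
      show (4 : ℕ) = 3 + 1 from rfl, th_pow, thβ, thiC, hω, hρ]
    push_cast
    ring
  have hσ1 : DP p 1 σ := by
    rw [hσ]
    exact F.add hpp (F.mulR (F.mulR (F.mulR hpp hC1) hX) dC)
  have hω1 : DP p 1 ω := by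
    rw [hω]
    exact F.sub (F.sub (F.mulR (F.mulR hσ1 hVi) e1) (F.mulR (F.mulR hpp hX) d1))
      (F.mulR (F.mulR (F.mulR hpp hC1) hX) dC)
  have hρ1 : DP p 1 ρ := by
    rw [hρ]
    exact F.add (F.sub (F.mulR (F.mulR hσ1 hVi) e1) (F.mulR (F.mulR hpp hX) d1))
      (F.mulL (F.ofNat 4) (F.sub (F.mulR (F.mulR hσ1 hVi) e2) (F.mulR (F.mulR hpp hX) d2)))
  -- third order logarithms
  have hth : DP p 0 (C (emb (1 / 3))) := by
    refine dp_C hp (dk_emb (flt_rat hp) ?_)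
    exact Dv_third hp h5
  have h3c : (C (emb (1 / 3)) : T3⟦X⟧) * 3 = 1 := by
    have : (3 : T3⟦X⟧) = C (emb 3) := by rw [map_ofNat, map_ofNat]
    rw [this, ← map_mul, ← map_mul]
    norm_num
  have h2c := C_half
  have thlog : ∀ {y ξ : T3⟦X⟧}, th y = (1 + y) * ξ →
      th (y - C (emb (1 / 2)) * y ^ 2 + C (emb (1 / 3)) * y ^ 3) = ξ + y ^ 3 * ξ := by
    intro y ξ hy
    rw [th_add, th_sub, th_mul, th_mul, th_C, th_C, th_sq, show (3 : ℕ) = 2 + 1 from rfl, th_pow,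
      hy]
    push_cast
    linear_combination (-(y * ((1 + y) * ξ))) * h2c + (y ^ 2 * ((1 + y) * ξ)) * h3c
  obtain ⟨Y, hY⟩ : ∃ Y, Y = x - C (emb (1 / 2)) * x ^ 2 + C (emb (1 / 3)) * x ^ 3 := ⟨_, rfl⟩
  obtain ⟨Y1, hY1⟩ : ∃ Y1, Y1 = x1 - C (emb (1 / 2)) * x1 ^ 2 + C (emb (1 / 3)) * x1 ^ 3 :=
    ⟨_, rfl⟩
  have tY : th Y = ω + x ^ 3 * ω := by rw [hY]; exact thlog thx
  have tY1 : th Y1 = (ω + ρ) + x1 ^ 3 * (ω + ρ) := by rw [hY1]; exact thlog thx1
  have tz : th (((p : T3⟦X⟧) * l + Y1) - (sb V cV l + Y)) = x1 ^ 3 * (ω + ρ) - x ^ 3 * ω := by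
    rw [th_sub, th_add, th_add, th_mul, th_nat, sbl, thlV, tY, tY1, thl, hρ]
    ring
  have hz4 : DP p 4 (th (((p : T3⟦X⟧) * l + Y1) - (sb V cV l + Y))) := by
    rw [tz]
    exact F.sub (F.mul (F.cube hxx1) (F.add hω1 hρ1)) (F.mul (F.cube hxx) hω1)
  have hz0 : coeff 0 (((p : T3⟦X⟧) * l + Y1) - (sb V cV l + Y)) = 0 := by
    rw [coeff_zero_eq_constantCoeff_apply]
    have cX : constantCoeff (X : T3⟦X⟧) = 0 := constantCoeff_X
    have cj1 : constantCoeff j1 = 1 := by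
      have := congrArg (constantCoeff (R := T3)) k1
      rw [map_mul, map_sub, cV, map_one, sub_zero, one_mul] at this
      exact this
    have ci2 : constantCoeff i2 = 1 := by
      have := congrArg (constantCoeff (R := T3)) h2
      rw [map_mul, map_add, cX, map_one, add_zero, one_mul] at this
      exact this
    have cα : constantCoeff α = 1 := by
      rw [hα, map_mul, map_pow, map_sub, cX, map_one, cj1]; simp
    have cβ : constantCoeff β = 1 := by
      rw [hβ, map_mul, map_pow, map_add, cV, ci2, map_one]; simp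
    have cx : constantCoeff x = constantCoeff x1 := by
      rw [hx, hx1]
      simp only [map_sub, map_mul, map_pow, cα, cβ, one_pow, mul_one]
    have cYY : constantCoeff Y = constantCoeff Y1 := by
      rw [hY, hY1]
      simp only [map_add, map_sub, map_mul, map_pow, cx]
    have csb : constantCoeff (sb V cV l) = 0 := by
      obtain ⟨l', rfl⟩ : X ∣ l := X_dvd_iff.mpr hl0
      rw [map_mul, sb_X, map_mul, cV, zero_mul]
    rw [map_sub, map_add, map_add, map_mul, hl0, mul_zero, csb, cYY]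
    ring
  have hz3 := dp_of_th hp hz4 (by rw [hz0]; exact (flt_t3 (flt_rat hp)).zero 3)
  have e : ((p : T3⟦X⟧) * l + (x1 - C (emb (1 / 2)) * x1 ^ 2)) -
      (sb V cV l + (x - C (emb (1 / 2)) * x ^ 2)) =
      (((p : T3⟦X⟧) * l + Y1) - (sb V cV l + Y)) - C (emb (1 / 3)) * x1 ^ 3 +
        C (emb (1 / 3)) * x ^ 3 := by
    rw [hY, hY1]; ring
  rw [e]
  exact F.add (F.sub hz3 (F.mulL hth (F.cube hxx1))) (F.mulL hth (F.cube hxx))

end

end Pool.Agent.Helper91.SC
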