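import Mathlib
import Pool.Agent.Helper91.SC.LogRel

/-!
The same rational expressions evaluated in several rings.
-/

set_option autoImplicit false

namespace Pool.Agent.Helper91.SC

open Finset T3

/-- a point with the needed inverses -/
structure Pt (A : Type) [CommRing A] (p : ℕ) (c0 c1 : ℚ) where
  φ : ℚ →+* A
  w : A
  i2 : A
  iC : A
  j1 : A
  j2 : A
  j3 : A

namespace Pt

variable {A : Type} [CommRing A] {p : ℕ} {c0 c1 : ℚ} (D : Pt A p c0 c1)

def CV : A := 1 + (p : A) * (D.φ c0 + D.φ c1 * D.w)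
def V : A := D.w ^ p * D.CV
def t : A := D.φ (1 / 16) * D.w * (1 - D.w)
def t1 : A := D.φ (1 / 16) * D.w * (1 - D.w) ^ 2 * D.i2 ^ 4
def u : A := D.φ (1 / 16) * D.V * (1 - D.V)
def u1 : A := D.φ (1 / 16) * D.V * (1 - D.V) ^ 2 * D.j2 ^ 4
def g : A := D.φ ((1 / 16) ^ (p - 1))
def x : A := D.g * ((1 - D.w) ^ p * D.j1) * D.iC - 1
def x1 : A := D.g * ((1 - D.w) ^ p * D.j1) ^ 2 * ((1 + D.V) * D.i2 ^ p) ^ 4 * D.iC - 1
def L : A := D.x - D.φ (1 / 2) * D.x ^ 2
def L1 : A := D.x1 - D.φ (1 / 2) * D.x1 ^ 2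
def Sa (i : Fin 3) : A := ∑ k ∈ range p, D.φ (cmp i (hseq Pa 1 k)) * D.t ^ k
def Sb (i : Fin 3) : A := ∑ k ∈ range p, D.φ (cmp i (hseq Pb 1 k)) * D.t1 ^ k
def Ha1 : A := (p : A) * D.Sa 1 + D.L * D.Sa 0
def Ha2 : A := (p : A) ^ 2 * D.Sa 2 + (p : A) * D.L * D.Sa 1 + D.φ (1 / 2) * D.x ^ 2 * D.Sa 0
def Hb1 : A := (p : A) * D.Sb 1 + D.L1 * D.Sb 0
def Hb2 : A := (p : A) ^ 2 * D.Sb 2 + (p : A) * D.L1 * D.Sb 1 + D.φ (1 / 2) * D.x1 ^ 2 * D.Sb 0
def P10 : A := (D.V - D.V ^ 3) * D.j3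
def P11 : A := (1 - 2 * D.V) * (1 + D.V) ^ 2 * D.j3
def P20 : A := (1 - D.V ^ 2) * (D.V - 4 * D.V ^ 3 + 12 * D.V ^ 4 - D.V ^ 5) * D.j3 ^ 3
def P21 : A := (1 - D.V ^ 2) * (7 * D.V - 15 * D.V ^ 2 + 17 * D.V ^ 3 + 35 * D.V ^ 4 -
  4 * D.V ^ 5) * D.j3 ^ 3
def P22 : A := (1 - 2 * D.V) ^ 2 * (1 + D.V) ^ 3 * D.j3 ^ 2
def R0 : A := D.Sb 0 * (1 + D.V) + D.Hb1 * D.P10 + D.Hb2 * D.P20 - (1 + D.w) * D.Sa 0
def R1 : A := D.Hb1 * D.P11 + D.Hb2 * D.P21 - (1 + D.w) * D.Ha1
def R2 : A := D.Hb2 * D.P22 - (1 + D.w) * D.Ha2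

/-- the defining relations -/
structure Good : Prop where
  h2 : (1 + D.w) * D.i2 = 1
  hC : D.CV * D.iC = 1
  k1 : (1 - D.V) * D.j1 = 1
  k2 : (1 + D.V) * D.j2 = 1
  k3 : (1 - 6 * D.V + D.V ^ 2) * D.j3 = 1

/-- transport along a ring map -/
def map {B : Type} [CommRing B] (f : A →+* B) : Pt B p c0 c1 where
  φ := f.comp D.φ
  w := f D.w
  i2 := f D.i2
  iC := f D.iC
  j1 := f D.j1
  j2 := f D.j2
  j3 := f D.j3

section
variable {B : Type} [CommRing B] (f : A →+* B)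

theorem map_CV : f D.CV = (D.map f).CV := by
  unfold CV map; simp
theorem map_V : f D.V = (D.map f).V := by
  unfold V; rw [map_mul, map_pow, map_CV]; rfl
theorem map_x : f D.x = (D.map f).x := by
  unfold x g; simp only [map_sub, map_mul, map_pow, map_one]; rfl
theorem map_x1 : f D.x1 = (D.map f).x1 := by
  unfold x1 g
  simp only [map_sub, map_mul, map_pow, map_add, map_one, map_V]
  rfl
theorem map_L : f D.L = (D.map f).L := by
  unfold L; rw [map_sub, map_mul, map_pow, map_x]; rfl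
theorem map_L1 : f D.L1 = (D.map f).L1 := by
  unfold L1; rw [map_sub, map_mul, map_pow, map_x1]; rfl
theorem map_Sa (i : Fin 3) : f (D.Sa i) = (D.map f).Sa i := by
  unfold Sa t
  rw [map_sum]
  apply sum_congr rfl
  intro k _
  rw [map_mul, map_pow, map_mul, map_mul, map_sub, map_one]
  rfl
theorem map_Sb (i : Fin 3) : f (D.Sb i) = (D.map f).Sb i := by
  unfold Sb t1
  rw [map_sum]
  apply sum_congr rfl
  intro k _
  rw [map_mul, map_pow, map_mul, map_mul, map_mul, map_pow, map_pow, map_sub, map_one]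
  rfl
theorem map_Ha1 : f D.Ha1 = (D.map f).Ha1 := by
  unfold Ha1; rw [map_add, map_mul, map_mul, map_Sa, map_Sa, map_L, map_natCast]
theorem map_Ha2 : f D.Ha2 = (D.map f).Ha2 := by
  unfold Ha2
  rw [map_add, map_add, map_mul, map_mul, map_mul, map_mul, map_mul, map_pow, map_pow, map_Sa,
    map_Sa, map_Sa, map_L, map_x, map_natCast]
  rfl
theorem map_Hb1 : f D.Hb1 = (D.map f).Hb1 := by
  unfold Hb1; rw [map_add, map_mul, map_mul, map_Sb, map_Sb, map_L1, map_natCast]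
theorem map_Hb2 : f D.Hb2 = (D.map f).Hb2 := by
  unfold Hb2
  rw [map_add, map_add, map_mul, map_mul, map_mul, map_mul, map_mul, map_pow, map_pow, map_Sb,
    map_Sb, map_Sb, map_L1, map_x1, map_natCast]
  rfl
theorem map_R0 : f D.R0 = (D.map f).R0 := by
  unfold R0 P10 P20
  simp only [map_sub, map_add, map_mul, map_pow, map_one, map_ofNat, map_V, map_Sb, map_Sa,
    map_Hb1, map_Hb2]
  rfl
theorem map_R1 : f D.R1 = (D.map f).R1 := by
  unfold R1 P11 P21
  simp only [map_sub, map_add, map_mul, map_pow, map_one, map_ofNat, map_V, map_Ha1,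
    map_Hb1, map_Hb2]
  rfl
theorem map_R2 : f D.R2 = (D.map f).R2 := by
  unfold R2 P22
  simp only [map_sub, map_add, map_mul, map_pow, map_one, map_ofNat, map_V, map_Ha2, map_Hb2]
  rfl

end

theorem Good.map {D : Pt A p c0 c1} (G : D.Good) {B : Type} [CommRing B] (f : A →+* B) :
    (D.map f).Good where
  h2 := by have := congrArg f G.h2; rw [map_mul, map_add, map_one] at this; exact this
  hC := by have := congrArg f G.hC; rw [map_mul, map_one, map_CV] at this; exact this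
  k1 := by have := congrArg f G.k1; rw [map_mul, map_sub, map_one, map_V] at this; exact this
  k2 := by have := congrArg f G.k2; rw [map_mul, map_add, map_one, map_V] at this; exact this
  k3 := by
    have := congrArg f G.k3
    rw [map_mul, map_add, map_sub, map_mul, map_pow, map_one, map_ofNat, map_V] at this
    exact this

end Pt

end Pool.Agent.Helper91.SC
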