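import Mathlib
import Pool.Agent.Helper91.SC.T1

/-!
The transformation, main statement.
-/

set_option autoImplicit false

namespace Pool.Agent.Helper91.SC

open Finset PowerSeries

section
variable {K : Type} [CommRing K]

theorem T1_main (q e : K) (hq : 16 * q = 1) (he : e ^ 3 = 0)
    (hu : ∀ n : ℕ, IsUnit ((n : K) + 1 + e)) (a b : ℕ → K) (a0 : a 0 = 1) (b0 : b 0 = 1)
    (ha : ∀ n : ℕ, ((n : K) + 1 + e) ^ 3 * a (n + 1) = (4 * (n + e) + 2) ^ 3 * a n)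
    (hb : ∀ n : ℕ, ((n : K) + 1 + e) ^ 3 * b (n + 1) =
      8 * (4 * (n + e) + 1) * (2 * (n + e) + 1) * (4 * (n + e) + 3) * b n)
    (i1 i2 i3 l t t1 : K⟦X⟧) (h1 : (1 - X) * i1 = 1) (h2 : (1 + X) * i2 = 1) (h3 : Sg * i3 = 1)
    (hl : (1 - X ^ 2) * th l = X * (5 - 3 * X)) (hl0 : constantCoeff l = 0)
    (ht : t = C q * X * (1 - X)) (ht1 : t1 = C q * X * (1 - X) ^ 2 * i2 ^ 4)
    (ct : constantCoeff t = 0) (ct1 : constantCoeff t1 = 0) (E A0 A1 A2 : K⟦X⟧)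
    (hE : E = 1 + C e * l + 8 * C q * C e ^ 2 * l ^ 2)
    (hA0 : A0 = sb t ct (gen a e 0)) (hA1 : A1 = sb t ct (gen a e 1))
    (hA2 : A2 = sb t ct (gen a e 2)) :
    sb t1 ct1 (gen b e 0) = E * ((1 + X) * A0) ∧
    sb t1 ct1 (gen b e 1) = E * i3 * ((X - X ^ 3) * A0 + (1 - 2 * X) * (1 + X) ^ 2 * A1) ∧
    sb t1 ct1 (gen b e 2) = E * i3 ^ 3 * ((1 - X ^ 2) * (X - 4 * X ^ 3 + 12 * X ^ 4 - X ^ 5) * A0 +
      (1 - X ^ 2) * (7 * X - 15 * X ^ 2 + 17 * X ^ 3 + 35 * X ^ 4 - 4 * X ^ 5) * A1 +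
      (1 - 2 * X) ^ 2 * (1 + X) ^ 3 * Sg * A2) := by
  have hQ : (16 : K⟦X⟧) * C q = 1 := by
    have : (16 : K⟦X⟧) = C (16 : K) := (map_ofNat (C (R := K)) 16).symm
    rw [this, ← map_mul, hq, map_one]
  have hCe : (C e : K⟦X⟧) ^ 3 = 0 := by rw [← map_pow, he, map_zero]
  -- logarithmic derivatives
  have tht : th t = t * ((1 - 2 * X) * i1) := by
    rw [ht, th_mul, th_mul, th_C, th_sub, th_one, th_X]
    linear_combination (-(C q * X * (1 - 2 * X))) * h1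
  have thi2 : th i2 = -(i2 ^ 2 * X) := by
    have := congrArg th h2
    rw [th_mul, th_add, th_one, th_X] at this
    linear_combination i2 * this - (th i2) * h2
  have tht1 : th t1 = t1 * (Sg * i1 * i2) := by
    rw [ht1, th_mul, th_mul, th_mul, th_C, th_sq, th_sub, th_one, th_X,
      show (4 : ℕ) = 3 + 1 from rfl, th_pow, thi2]
    unfold Sg
    push_cast
    linear_combination (-(C q * X * (1 - X) * i2 ^ 5 * (1 - 6 * X + X ^ 2))) * h1 -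
      (C q * X * (1 - X) * i2 ^ 4 * (1 - 3 * X)) * h2
  obtain ⟨A3, hA3⟩ : ∃ A3, A3 = sb t ct (gen a e 3) := ⟨_, rfl⟩
  obtain ⟨B0, hB0⟩ : ∃ B0, B0 = sb t1 ct1 (gen b e 0) := ⟨_, rfl⟩
  obtain ⟨B1, hB1⟩ : ∃ B1, B1 = sb t1 ct1 (gen b e 1) := ⟨_, rfl⟩
  obtain ⟨B2, hB2⟩ : ∃ B2, B2 = sb t1 ct1 (gen b e 2) := ⟨_, rfl⟩
  obtain ⟨B3, hB3⟩ : ∃ B3, B3 = sb t1 ct1 (gen b e 3) := ⟨_, rfl⟩
  have dA0 : (1 - X) * th A0 = (1 - 2 * X) * (A1 - C e * A0) := by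
    rw [hA0, hA1, th_sb t _ ct tht, th_gen, map_sub, map_mul, sb_C]
    linear_combination ((1 - 2 * X) * (sb t ct (gen a e (0 + 1)) - C e * sb t ct (gen a e 0))) * h1
  have dA1 : (1 - X) * th A1 = (1 - 2 * X) * (A2 - C e * A1) := by
    rw [hA1, hA2, th_sb t _ ct tht, th_gen, map_sub, map_mul, sb_C]
    linear_combination ((1 - 2 * X) * (sb t ct (gen a e (1 + 1)) - C e * sb t ct (gen a e 1))) * h1
  have dA2 : (1 - X) * th A2 = (1 - 2 * X) * (A3 - C e * A2) := by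
    rw [hA2, hA3, th_sb t _ ct tht, th_gen, map_sub, map_mul, sb_C]
    linear_combination ((1 - 2 * X) * (sb t ct (gen a e (2 + 1)) - C e * sb t ct (gen a e 2))) * h1
  have rA : (1 - 2 * X) ^ 2 * A3 = X * (1 - X) * (6 * A2 + 3 * A1 + 8 * C q * A0) := by
    have := congrArg (sb t ct) (ode_a a e he ha)
    simp only [map_mul, map_add, sb_X, map_ofNat] at this
    rw [← hA0, ← hA1, ← hA2, ← hA3, ht] at this
    linear_combination this + (X * (1 - X) * (4 * A3 + 6 * A2 + 3 * A1)) * hQ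
  have dB : ∀ j, (1 - X ^ 2) * th (sb t1 ct1 (gen b e j)) =
      Sg * (sb t1 ct1 (gen b e (j + 1)) - C e * sb t1 ct1 (gen b e j)) := by
    intro j
    rw [th_sb t1 _ ct1 tht1, th_gen, map_sub, map_mul, sb_C]
    linear_combination ((1 + X) * i2 * Sg * (sb t1 ct1 (gen b e (j + 1)) -
      C e * sb t1 ct1 (gen b e j))) * h1 + (Sg * (sb t1 ct1 (gen b e (j + 1)) -
      C e * sb t1 ct1 (gen b e j))) * h2
  have rB : Sg ^ 2 * B3 = X * (1 - X) ^ 2 * (24 * B2 + 11 * B1 + 24 * C q * B0) := by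
    have := congrArg (sb t1 ct1) (ode_b b e he hb)
    simp only [map_mul, map_add, sb_X, map_ofNat] at this
    rw [← hB0, ← hB1, ← hB2, ← hB3, ht1] at this
    have hi : (1 + X) ^ 4 * i2 ^ 4 = 1 := by rw [← mul_pow, h2, one_pow]
    unfold Sg
    linear_combination (1 + X) ^ 4 * this + (C q * X * (1 - X) ^ 2 * (256 * B3 + 384 * B2 +
      176 * B1 + 24 * B0)) * hi + (X * (1 - X) ^ 2 * (16 * B3 + 24 * B2 + 11 * B1)) * hQ
  have d0 := dB 0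
  have d1 := dB 1
  have d2 := dB 2
  norm_num only at d0 d1 d2
  rw [← hB0, ← hB1] at d0
  rw [← hB1, ← hB2] at d1
  rw [← hB2, ← hB3] at d2
  -- E
  have dE : (1 - X ^ 2) * th E = C e * (5 * X - 3 * X ^ 2) * E := by
    have hth : th E = (C e + 16 * C q * C e ^ 2 * l) * th l := by
      rw [hE]
      simp only [th_add, th_mul, th_sq, th_C, th_one, th_ofNat]
      ring
    rw [hth, hE]
    linear_combination (C e + 16 * C q * C e ^ 2 * l) * hl +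
      (C e ^ 2 * l * (5 * X - 3 * X ^ 2)) * hQ - (8 * C q * l ^ 2 * (5 * X - 3 * X ^ 2)) * hCe
  -- candidates
  obtain ⟨n1, hn1⟩ : ∃ n1, n1 = (X - X ^ 3) * A0 + (1 - 2 * X) * (1 + X) ^ 2 * A1 := ⟨_, rfl⟩
  obtain ⟨n2, hn2⟩ : ∃ n2, n2 = (1 - X ^ 2) * (X - 4 * X ^ 3 + 12 * X ^ 4 - X ^ 5) * A0 +
      (1 - X ^ 2) * (7 * X - 15 * X ^ 2 + 17 * X ^ 3 + 35 * X ^ 4 - 4 * X ^ 5) * A1 +
      (1 - 2 * X) ^ 2 * (1 + X) ^ 3 * Sg * A2 := ⟨_, rfl⟩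
  obtain ⟨c0, hc0⟩ : ∃ c0, c0 = E * ((1 + X) * A0) := ⟨_, rfl⟩
  obtain ⟨c1, hc1⟩ : ∃ c1, c1 = E * i3 * n1 := ⟨_, rfl⟩
  obtain ⟨c2, hc2⟩ : ∃ c2, c2 = E * i3 ^ 3 * n2 := ⟨_, rfl⟩
  obtain ⟨c3, hc3⟩ : ∃ c3, c3 = i3 ^ 2 * (X * (1 - X) ^ 2 * (24 * c2 + 11 * c1 +
    24 * C q * c0)) := ⟨_, rfl⟩
  have m1 : Sg * c1 = E * n1 := by rw [hc1]; linear_combination (E * n1) * h3
  have m2 : Sg ^ 3 * c2 = E * n2 := by
    have : (Sg : K⟦X⟧) ^ 3 * i3 ^ 3 = 1 := by rw [← mul_pow, h3, one_pow]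
    rw [hc2]; linear_combination (E * n2) * this
  have m3 : Sg ^ 2 * c3 = X * (1 - X) ^ 2 * (24 * c2 + 11 * c1 + 24 * C q * c0) := by
    have : (Sg : K⟦X⟧) ^ 2 * i3 ^ 2 = 1 := by rw [← mul_pow, h3, one_pow]
    rw [hc3]; linear_combination (X * (1 - X) ^ 2 * (24 * c2 + 11 * c1 + 24 * C q * c0)) * this
  have uS : ∀ x y : K⟦X⟧, Sg * x = Sg * y → x = y := by
    intro x y h
    exact (isUnit_Sg (K := K)).mul_left_cancel h
  have thS : th (Sg : K⟦X⟧) = -6 * X + 2 * X ^ 2 := by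
    unfold Sg
    simp only [th_add, th_sub, th_mul, th_one, th_ofNat, th_X, th_Xpow]
    push_cast
    ring
  have e0 : (1 - X ^ 2) * th c0 = Sg * (c1 - C e * c0) := by
    rw [mul_sub, m1, hc0, hn1, th_mul, th_mul, th_add, th_one, th_X]
    unfold Sg
    linear_combination ((1 + X) * A0) * dE + (E * (1 + X) ^ 2) * dA0
  have thn1 : th n1 = (X - 3 * X ^ 3) * A0 + (X - X ^ 3) * th A0 + (-6 * X ^ 2 - 6 * X ^ 3) * A1 +
      (1 - 2 * X) * (1 + X) ^ 2 * th A1 := by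
    rw [hn1]
    simp only [th_add, th_sub, th_mul, th_one, th_ofNat, th_X, th_Xpow, th_sq]
    push_cast
    ring
  have e1 : (1 - X ^ 2) * th c1 = Sg * (c2 - C e * c1) := by
    apply uS
    apply uS
    have g := congrArg th m1
    rw [th_mul, thS, th_mul, thn1] at g
    clear hc0 hc1 hc2 hc3 m3 e0 thn1 uS thS d0 d1 d2 dB rA rB hE hA0 hA1 hA2 hA3 hB0 hB1 hB2 hB3
    clear tht thi2 tht1 ht ht1 hl
    rw [hn1] at g m1
    rw [hn2] at m2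
    unfold Sg at g m1 m2 ⊢
    linear_combination ((1 - 6 * X + X ^ 2) * (1 - X ^ 2)) * g -
      ((1 - X ^ 2) * (-6 * X + 2 * X ^ 2)) * m1 - m2 + (C e * (1 - 6 * X + X ^ 2) ^ 2) * m1 +
      ((1 - 6 * X + X ^ 2) * ((X - X ^ 3) * A0 + (1 - 2 * X) * (1 + X) ^ 2 * A1)) * dE +
      ((1 - 6 * X + X ^ 2) * E * (1 + X) ^ 3 * (1 - 2 * X)) * dA1 +
      ((1 - 6 * X + X ^ 2) * E * (1 + X) * (X - X ^ 3)) * dA0
  have thn2 : th n2 = (X - 15 * X ^ 3 + 48 * X ^ 4 + 15 * X ^ 5 - 72 * X ^ 6 + 7 * X ^ 7) * A0 +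
      (1 - X ^ 2) * (X - 4 * X ^ 3 + 12 * X ^ 4 - X ^ 5) * th A0 +
      (7 * X - 30 * X ^ 2 + 30 * X ^ 3 + 200 * X ^ 4 - 105 * X ^ 5 - 210 * X ^ 6 +
        28 * X ^ 7) * A1 +
      (1 - X ^ 2) * (7 * X - 15 * X ^ 2 + 17 * X ^ 3 + 35 * X ^ 4 - 4 * X ^ 5) * th A1 +
      (-7 * X + 4 * X ^ 2 + 90 * X ^ 3 - 12 * X ^ 4 - 215 * X ^ 5 - 96 * X ^ 6 + 28 * X ^ 7) * A2 +
      (1 - 2 * X) ^ 2 * (1 + X) ^ 3 * Sg * th A2 := by
    rw [hn2]
    unfold Sg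
    simp only [th_add, th_sub, th_mul, th_one, th_ofNat, th_X, th_Xpow, th_sq,
      show (3 : ℕ) = 2 + 1 from rfl, th_pow]
    push_cast
    ring
  have e2 : (1 - X ^ 2) * th c2 = Sg * (c3 - C e * c2) := by
    apply uS
    apply uS
    apply uS
    apply uS
    have g := congrArg th m2
    rw [th_mul, show (3 : ℕ) = 2 + 1 from rfl, th_pow, thS, th_mul, thn2] at g
    clear hc1 hc2 hc3 e0 e1 thn1 thn2 uS thS d0 d1 d2 dB rB hE hA0 hA1 hA2 hA3 hB0 hB1 hB2 hB3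
    clear tht thi2 tht1 ht ht1 hl
    rw [hn1] at m1
    rw [hn2] at m2 g
    rw [hc0] at m3
    push_cast at g
    unfold Sg at g m1 m2 m3 ⊢
    generalize th c2 = tc2 at *
    generalize th E = tE at *
    generalize th A0 = tA0 at *
    generalize th A1 = tA1 at *
    generalize th A2 = tA2 at *
    linear_combination ((1 - X ^ 2) * (1 - 6 * X + X ^ 2)) * g +
      (-3 * (1 - X ^ 2) * (-6 * X + 2 * X ^ 2) - 24 * X * (1 - X) ^ 2 +
        C e * (1 - 6 * X + X ^ 2) ^ 2) * m2 - (1 - 6 * X + X ^ 2) ^ 3 * m3 -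
      (11 * X * (1 - X) ^ 2 * (1 - 6 * X + X ^ 2) ^ 2) * m1 +
      ((1 - 6 * X + X ^ 2) * ((1 - X ^ 2) * (X - 4 * X ^ 3 + 12 * X ^ 4 - X ^ 5) * A0 +
      (1 - X ^ 2) * (7 * X - 15 * X ^ 2 + 17 * X ^ 3 + 35 * X ^ 4 - 4 * X ^ 5) * A1 +
      (1 - 2 * X) ^ 2 * (1 + X) ^ 3 * (1 - 6 * X + X ^ 2) * A2)) * dE +
      ((1 - 6 * X + X ^ 2) * E * (1 + X) * ((1 - X ^ 2) *
        (X - 4 * X ^ 3 + 12 * X ^ 4 - X ^ 5))) * dA0 +
      ((1 - 6 * X + X ^ 2) * E * (1 + X) * ((1 - X ^ 2) *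
        (7 * X - 15 * X ^ 2 + 17 * X ^ 3 + 35 * X ^ 4 - 4 * X ^ 5))) * dA1 +
      ((1 - 6 * X + X ^ 2) ^ 2 * E * (1 + X) ^ 4 * (1 - 2 * X) ^ 2) * dA2 +
      ((1 - 6 * X + X ^ 2) ^ 2 * E * (1 + X) ^ 4 * (1 - 2 * X)) * rA +
      (X * (1 - X) * (1 + X) * (1 - 6 * X + X ^ 2) ^ 2 * E * A0 *
        (-1 + 11 * X - 12 * X ^ 2 - X ^ 3 - X ^ 4)) * hQ
  -- constant terms
  have cE : constantCoeff E = 1 := by
    rw [hE]; simp [hl0]
  have ci3 : constantCoeff i3 = 1 := by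
    have := congrArg (constantCoeff (R := K)) h3
    simpa [Sg] using this
  have csb : ∀ (u f : K⟦X⟧) (hu : constantCoeff u = 0),
      constantCoeff (sb u hu f) = constantCoeff f := by
    intro u f hu
    have h : X ^ 1 ∣ f - C (constantCoeff f) := by
      rw [pow_one, PowerSeries.X_dvd_iff]
      simp
    have h' := X_pow_dvd_sb u hu _ 1 h
    rw [pow_one, map_sub, sb_C] at h'
    obtain ⟨g, hg⟩ := h'
    have := congrArg (constantCoeff (R := K)) hg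
    simp only [map_sub, map_mul, hu, zero_mul, constantCoeff_C] at this
    exact sub_eq_zero.mp this
  have cA0 : constantCoeff A0 = 1 := by
    rw [hA0, csb, const_gen _ _ _ a0, pow_zero]
  have cA1 : constantCoeff A1 = e := by
    rw [hA1, csb, const_gen _ _ _ a0, pow_one]
  have cA2 : constantCoeff A2 = e ^ 2 := by
    rw [hA2, csb, const_gen _ _ _ a0]
  have cB0 : constantCoeff B0 = 1 := by
    rw [hB0, csb, const_gen _ _ _ b0, pow_zero]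
  have cB1 : constantCoeff B1 = e := by
    rw [hB1, csb, const_gen _ _ _ b0, pow_one]
  have cB2 : constantCoeff B2 = e ^ 2 := by
    rw [hB2, csb, const_gen _ _ _ b0]
  have U := uniq e q hu (B0 - c0) (B1 - c1) (B2 - c2) (B3 - c3)
    (by rw [th_sub]; linear_combination d0 - e0)
    (by rw [th_sub]; linear_combination d1 - e1)
    (by rw [th_sub]; linear_combination d2 - e2)
    (by linear_combination rB - m3)
    (by rw [map_sub, cB0, hc0]; simp [cE, cA0])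
    (by rw [map_sub, cB1, hc1, hn1]; simp [cE, cA1, ci3])
    (by rw [map_sub, cB2, hc2, hn2]; simp [cE, cA2, ci3, Sg])
  refine ⟨?_, ?_, ?_⟩
  · rw [← hB0, ← hc0]
    exact sub_eq_zero.mp (eq_zero_of_dvd _ (fun n => (U n).1))
  · rw [← hB1, ← hn1, ← hc1]
    exact sub_eq_zero.mp (eq_zero_of_dvd _ (fun n => (U n).2.1))
  · rw [← hB2, ← hn2, ← hc2]
    exact sub_eq_zero.mp (eq_zero_of_dvd _ (fun n => (U n).2.2))

end

end Pool.Agent.Helper91.SC
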