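import Mathlib
import Pool.Agent.Helper91.SC.Pt
import Pool.Agent.Helper91.SC.T1b

/-!
The main congruence between the two families of truncated series.
-/

set_option autoImplicit false

namespace Pool.Agent.Helper91.SC

open Finset T3 PowerSeries

/-- the logarithm `4 log(1+X) - log(1-X)` -/
noncomputable def lser : T3⟦X⟧ :=
  PowerSeries.mk (fun n => emb ((4 * (-1) ^ (n + 1) + 1) / (n : ℚ)))

theorem lser_const : constantCoeff lser = 0 := by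
  rw [← coeff_zero_eq_constantCoeff_apply, lser, coeff_mk]
  simp

theorem coeff_th_lser (n : ℕ) : coeff (n + 1) (th lser) = emb (4 * (-1) ^ (n + 2) + 1) := by
  rw [coeff_th, lser, coeff_mk, natCast_eq, ← map_mul]
  congr 1
  have : ((n + 1 : ℕ) : ℚ) ≠ 0 := by positivity
  field_simp

theorem lser_th : (1 - X ^ 2) * th lser = X * (5 - 3 * X) := by
  have h5 : (5 : T3⟦X⟧) = C (5 : T3) := (map_ofNat (C (R := T3)) 5).symm
  have h3 : (3 : T3⟦X⟧) = C (3 : T3) := (map_ofNat (C (R := T3)) 3).symm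
  have e : (1 - X ^ 2) * th lser = th lser - X * (X * th lser) := by ring
  rw [e, h5, h3]
  ext1 n
  cases n with
  | zero =>
    rw [map_sub, coeff_zero_X_mul, coeff_zero_X_mul, coeff_th]
    simp
  | succ n =>
    rw [map_sub, coeff_succ_X_mul, coeff_succ_X_mul, coeff_th_lser]
    cases n with
    | zero =>
      rw [coeff_zero_X_mul]
      simp [map_ofNat]
      norm_num
    | succ n =>
      rw [coeff_succ_X_mul]
      rw [map_sub, coeff_C, coeff_C_mul, coeff_X, if_neg (Nat.succ_ne_zero n)]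
      cases n with
      | zero =>
        rw [coeff_th]
        simp [map_ofNat]
        norm_num
      | succ n =>
        rw [coeff_th_lser, if_neg (by omega)]
        have : (4 * (-1) ^ (n + 1 + 1 + 2) + 1 : ℚ) = 4 * (-1) ^ (n + 2) + 1 := by
          rw [show n + 1 + 1 + 2 = (n + 2) + 2 by ring, pow_add (-1 : ℚ) (n + 2) 2]
          norm_num
        rw [this]
        ring

theorem sb_eq {K : Type} [CommRing K] (u f : K⟦X⟧) (hu : constantCoeff u = 0) :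
    sb u hu f = subst u f := by
  unfold sb
  rw [coe_substAlgHom]

theorem sb_comp {K : Type} [CommRing K] (u v s : K⟦X⟧) (hu : constantCoeff u = 0)
    (hv : constantCoeff v = 0) (hs : constantCoeff s = 0) (e : s = sb v hv u) (f : K⟦X⟧) :
    sb v hv (sb u hu f) = sb s hs f := by
  rw [sb_eq] at e
  rw [sb_eq, sb_eq, sb_eq, e]
  exact subst_comp_subst_apply (HasSubst.of_constantCoeff_zero' hu)
    (HasSubst.of_constantCoeff_zero' hv) f

section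
variable {p : ℕ} (hp : p.Prime) (h5 : 5 ≤ p)

include hp in
theorem sb_int {τ f : T3⟦X⟧} (cτ : constantCoeff τ = 0) (dτ : X ∣ τ) (hτ : DP p 0 τ)
    (hf : DP p 0 f) : DP p 0 (sb τ cτ f) := by
  have F := flt_dp hp
  have h := sb_trunc τ cτ f (p ^ 2)
  have h2 : DP p 0 (sb τ cτ f - ∑ n ∈ range (p ^ 2), C (coeff n f) * τ ^ n) :=
    ps_of_dvd (flt_t3 (flt_rat hp)) _ (dvd_trans (pow_dvd_pow_of_dvd dτ _) h)
  have h3 : DP p 0 (∑ n ∈ range (p ^ 2), C (coeff n f) * τ ^ n) := by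
    apply F.sum
    intro n hn
    exact F.mulL (dp_C hp (hf n (mem_range.mp hn))) (F.pow hτ n)
  have e : sb τ cτ f = (sb τ cτ f - ∑ n ∈ range (p ^ 2), C (coeff n f) * τ ^ n) +
    ∑ n ∈ range (p ^ 2), C (coeff n f) * τ ^ n := by ring
  rw [e]
  exact F.add h2 h3

include hp in
/-- substitution of something divisible by `X^p` only needs the first `p` coefficients -/
theorem sb_int' {τ f : T3⟦X⟧} (cτ : constantCoeff τ = 0) (dτ : X ^ p ∣ τ) (hτ : DP p 0 τ)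
    (hf : ∀ n < p, DK (Dv p) 0 (coeff n f)) : DP p 0 (sb τ cτ f) := by
  have F := flt_dp hp
  have h := sb_trunc τ cτ f p
  have h2 : DP p 0 (sb τ cτ f - ∑ n ∈ range p, C (coeff n f) * τ ^ n) := by
    refine ps_of_dvd (flt_t3 (flt_rat hp)) _ (dvd_trans ?_ h)
    rw [sq, pow_mul]
    exact pow_dvd_pow_of_dvd dτ _
  have h3 : DP p 0 (∑ n ∈ range p, C (coeff n f) * τ ^ n) := by
    apply F.sum
    intro n hn
    exact F.mulL (dp_C hp (hf n (mem_range.mp hn))) (F.pow hτ n)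
  have e : sb τ cτ f = (sb τ cτ f - ∑ n ∈ range p, C (coeff n f) * τ ^ n) +
    ∑ n ∈ range p, C (coeff n f) * τ ^ n := by ring
  rw [e]
  exact F.add h2 h3

include hp in
theorem lserV_int {V : T3⟦X⟧} (cV : constantCoeff V = 0) (dV : X ^ p ∣ V) (hV : DP p 0 V) :
    DP p 0 (sb V cV lser) := by
  apply sb_int' hp cV dV hV
  intro n hn
  rw [lser, coeff_mk]
  apply dk_emb (flt_rat hp)
  rcases Nat.eq_zero_or_pos n with h | h
  · subst h
    simp only [Nat.cast_zero, div_zero]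
    exact Dv_zero_mem hp 0
  · have h1 : ¬ p ∣ n := fun h2 => absurd (Nat.le_of_dvd h h2) (by omega)
    rw [div_eq_mul_inv]
    refine Dv_mul_int hp ?_ (Dv_inv_nat hp h1)
    have := Dv_int hp (4 * (-1) ^ (n + 1) + 1)
    push_cast at this
    exact this

theorem T3_unit (n : ℕ) (c : ℚ) : IsUnit ((n : T3) + 1 + emb c * et) :=
  IsUnit.of_mul_eq_one _ (inv3_mul' n c)

theorem C16 : (16 : T3) * emb (1 / 16) = 1 := by
  have : (16 : T3) = emb 16 := by rw [map_ofNat]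
  rw [this, ← map_mul]
  norm_num

theorem CC16 : (16 : T3⟦X⟧) * C (emb (1 / 16)) = 1 := by
  have : (16 : T3⟦X⟧) = C (16 : T3) := (map_ofNat (C (R := T3)) 16).symm
  rw [this, ← map_mul, C16, map_one]

theorem CC8 : (8 : T3⟦X⟧) * C (emb (1 / 16)) = C (emb (1 / 2)) := by
  have h1 := CC16
  have h2 := C_half
  linear_combination (8 * C (emb (1 / 16))) * h2 * (-1) + C (emb (1 / 2)) * h1

theorem T1_inst (c : ℚ) (i1 i2 i3 t t1 : T3⟦X⟧) (h1 : (1 - X) * i1 = 1)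
    (h2 : (1 + X) * i2 = 1) (h3 : Sg * i3 = 1)
    (ht : t = C (emb (1 / 16)) * X * (1 - X))
    (ht1 : t1 = C (emb (1 / 16)) * X * (1 - X) ^ 2 * i2 ^ 4)
    (ct : constantCoeff t = 0) (ct1 : constantCoeff t1 = 0) :
    sb t1 ct1 (gen (hseq Pb c) (emb c * et) 0) = exf (C (emb c) * lser) *
      ((1 + X) * sb t ct (gen (hseq Pa c) (emb c * et) 0)) ∧
    sb t1 ct1 (gen (hseq Pb c) (emb c * et) 1) = exf (C (emb c) * lser) * i3 *
      ((X - X ^ 3) * sb t ct (gen (hseq Pa c) (emb c * et) 0) +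
        (1 - 2 * X) * (1 + X) ^ 2 * sb t ct (gen (hseq Pa c) (emb c * et) 1)) ∧
    sb t1 ct1 (gen (hseq Pb c) (emb c * et) 2) = exf (C (emb c) * lser) * i3 ^ 3 *
      ((1 - X ^ 2) * (X - 4 * X ^ 3 + 12 * X ^ 4 - X ^ 5) *
        sb t ct (gen (hseq Pa c) (emb c * et) 0) +
      (1 - X ^ 2) * (7 * X - 15 * X ^ 2 + 17 * X ^ 3 + 35 * X ^ 4 - 4 * X ^ 5) *
        sb t ct (gen (hseq Pa c) (emb c * et) 1) +
      (1 - 2 * X) ^ 2 * (1 + X) ^ 3 * Sg * sb t ct (gen (hseq Pa c) (emb c * et) 2)) := by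
  have he : (emb c * et) ^ 3 = 0 := by rw [mul_pow, et_cube, mul_zero]
  refine T1_main (emb (1 / 16)) (emb c * et) C16 he (fun n => T3_unit n c) (hseq Pa c) (hseq Pb c)
    rfl rfl (fun n => hseq_rec Pa c n) (fun n => hseq_rec Pb c n) i1 i2 i3 lser t t1 h1 h2 h3
    lser_th lser_const ht ht1 ct ct1 (exf (C (emb c) * lser)) _ _ _ ?_ rfl rfl rfl
  unfold exf
  rw [CC8, map_mul]
  ring

include hp h5 in
theorem main_id {c0 c1 : ℚ} (hc0 : Dv p 0 c0) (hc1 : Dv p 0 c1) (D : Pt T3⟦X⟧ p c0 c1)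
    (hφ : ∀ r, D.φ r = C (emb r)) (hw : D.w = X) (G : D.Good) (d2 : DP p 0 D.i2)
    (dC : DP p 0 D.iC) (e1 : DP p 0 D.j1) (e2 : DP p 0 D.j2) :
    ∃ Y0 Y1 Y2 : T3⟦X⟧, X ^ p ∣ Y0 - 1 ∧ X ^ p ∣ Y1 - C et ∧ X ^ p ∣ Y2 - C et ^ 2 ∧
      DP p 0 Y0 ∧ DP p 0 Y1 ∧ DP p 0 Y2 ∧
      DP p 3 (D.R0 * Y0 + D.R1 * Y1 + D.R2 * Y2) := by
  have F := flt_dp hp
  have FT := flt_t3 (flt_rat hp)
  have hX : DP p 0 (X : T3⟦X⟧) := ps_X FT _
  have hpe : (C (emb (p : ℚ)) : T3⟦X⟧) = (p : T3⟦X⟧) := by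
    rw [map_natCast, map_natCast]
  have hCV : D.CV = 1 + C (emb p) * (C (emb c0) + C (emb c1) * X) := by
    unfold Pt.CV
    rw [hφ, hφ, hw, hpe]
  have hV : D.V = X ^ p * D.CV := by unfold Pt.V; rw [hw]
  have hp1 : p = (p - 1) + 1 := by have := hp.one_lt; omega
  have cX : constantCoeff (X : T3⟦X⟧) = 0 := constantCoeff_X
  have dV : X ^ p ∣ D.V := by rw [hV]; exact Dvd.intro _ rfl
  have cV : constantCoeff D.V = 0 := by
    rw [hV, map_mul, map_pow, cX, zero_pow hp.ne_zero, zero_mul]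
  have h2 := G.h2
  rw [hw] at h2
  obtain ⟨i1, hi1, di1⟩ : ∃ i1 : T3⟦X⟧, (1 - X) * i1 = 1 ∧ DP p 0 i1 := by
    refine ⟨PowerSeries.mk (fun _ => 1), ?_, ?_⟩
    · rw [mul_comm]
      exact mk_one_mul_one_sub_eq_one T3
    · intro n _
      rw [coeff_mk]
      exact FT.one
  obtain ⟨i3, hi3⟩ : ∃ i3 : T3⟦X⟧, Sg * i3 = 1 := by
    refine ⟨invOfUnit Sg 1, mul_invOfUnit Sg 1 ?_⟩
    unfold Sg
    rw [map_add, map_sub, map_mul, map_pow, cX]
    simp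
  obtain ⟨x, hx⟩ : ∃ x, x = D.x := ⟨_, rfl⟩
  obtain ⟨x1, hx1⟩ : ∃ x1, x1 = D.x1 := ⟨_, rfl⟩
  obtain ⟨V, hVd⟩ : ∃ V, V = D.V := ⟨_, rfl⟩
  have hg : D.g = C (emb ((1 / 16) ^ (p - 1))) := by unfold Pt.g; rw [hφ]
  have hLR := logrel hp h5 c0 c1 hc0 hc1 D.CV D.V i1 D.i2 D.iC D.j1 D.j2 lser D.g D.x D.x1 hCV hV cV
    hi1 h2 G.hC G.k1 G.k2 di1 d2 dC e1 e2 lser_th lser_const hg (by unfold Pt.x; rw [hw])
    (by unfold Pt.x1; rw [hw])
  have hCVi : DP p 0 D.CV := by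
    rw [hCV, hpe]
    exact F.add F.one (F.mulL (F.nat p) (F.add (dp_C hp (dk_emb (flt_rat hp) hc0))
      (F.mulL (dp_C hp (dk_emb (flt_rat hp) hc1)) hX)))
  have hVi : DP p 0 D.V := by rw [hV]; exact F.mulL (F.pow hX p) hCVi
  have hq : DP p 0 (C (emb (1 / 16))) := by
    apply dp_C hp
    apply dk_emb (flt_rat hp)
    have h16 : ¬ p ∣ 16 := by
      intro h
      have : p ∣ 2 ^ 4 := h
      have := hp.dvd_of_dvd_pow this
      have := Nat.le_of_dvd (by norm_num) this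
      omega
    have := Dv_inv_nat hp h16
    rw [one_div]; exact_mod_cast this
  have hi2V : sb D.V cV D.i2 = D.j2 := by
    have := congrArg (sb D.V cV) h2
    rw [map_mul, map_add, map_one, sb_X] at this
    linear_combination D.j2 * this - (sb D.V cV D.i2) * G.k2
  have hi3V : sb D.V cV i3 = D.j3 := by
    have := congrArg (sb D.V cV) hi3
    unfold Sg at this
    rw [map_mul, map_add, map_sub, map_mul, map_pow, map_one, map_ofNat, sb_X] at this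
    linear_combination D.j3 * this - (sb D.V cV i3) * G.k3
  have ht : D.t = C (emb (1 / 16)) * X * (1 - X) := by unfold Pt.t; rw [hφ, hw]
  have ht1 : D.t1 = C (emb (1 / 16)) * X * (1 - X) ^ 2 * D.i2 ^ 4 := by
    unfold Pt.t1; rw [hφ, hw]
  have hu : D.u = C (emb (1 / 16)) * D.V * (1 - D.V) := by unfold Pt.u; rw [hφ]
  have hu1 : D.u1 = C (emb (1 / 16)) * D.V * (1 - D.V) ^ 2 * D.j2 ^ 4 := by
    unfold Pt.u1; rw [hφ]
  have ct : constantCoeff D.t = 0 := by rw [ht]; simp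
  have ct1 : constantCoeff D.t1 = 0 := by rw [ht1]; simp
  have cu : constantCoeff D.u = 0 := by rw [hu, map_mul, map_mul, cV]; simp
  have cu1 : constantCoeff D.u1 = 0 := by rw [hu1, map_mul, map_mul, map_mul, cV]; simp
  have eu : D.u = sb D.V cV D.t := by
    rw [hu, ht, map_mul, map_mul, map_sub, map_one, sb_X, sb_C]
  have eu1 : D.u1 = sb D.V cV D.t1 := by
    rw [hu1, ht1, map_mul, map_mul, map_mul, map_pow, map_pow, map_sub, map_one, sb_X, sb_C, hi2V]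
  have dt : X ∣ D.t := by
    rw [ht]; exact ⟨C (emb (1 / 16)) * (1 - X), by ring⟩
  have dt1 : X ∣ D.t1 := by
    rw [ht1]; exact ⟨C (emb (1 / 16)) * (1 - X) ^ 2 * D.i2 ^ 4, by ring⟩
  have du : X ^ p ∣ D.u := by
    rw [hu]; exact Dvd.dvd.mul_right (Dvd.dvd.mul_left dV _) _
  have du1 : X ^ p ∣ D.u1 := by
    rw [hu1]; exact Dvd.dvd.mul_right (Dvd.dvd.mul_right (Dvd.dvd.mul_left dV _) _) _
  have it : DP p 0 D.t := by
    rw [ht]; exact F.mulL (F.mulL hq hX) (F.sub F.one hX)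
  have it1 : DP p 0 D.t1 := by
    rw [ht1]
    exact F.mulL (F.mulL (F.mulL hq hX) (F.pow (F.sub F.one hX) 2)) (F.pow d2 4)
  have iu : DP p 0 D.u := by
    rw [hu]; exact F.mulL (F.mulL hq hVi) (F.sub F.one hVi)
  have iu1 : DP p 0 D.u1 := by
    rw [hu1]
    exact F.mulL (F.mulL (F.mulL hq hVi) (F.pow (F.sub F.one hVi) 2)) (F.pow e2 4)
  have hqg : C (emb (1 / 16)) * D.g = (C (emb (1 / 16)) : T3⟦X⟧) ^ p := by
    rw [hg, ← map_mul, ← map_mul, ← map_pow, ← map_pow]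
    congr 2
    conv_rhs => rw [hp1, pow_succ]
    ring
  have hrel : D.t ^ p = D.u * (1 + D.x) := by
    have e : 1 + D.x = D.g * ((1 - X) ^ p * D.j1) * D.iC := by unfold Pt.x; rw [hw]; ring
    rw [e, hu, ht, mul_pow, mul_pow, ← hqg]
    have q1 := G.hC
    have q2 := G.k1
    linear_combination (C (emb (1 / 16)) * D.g * (1 - D.V) * (1 - X) ^ p * D.j1 * D.iC) *
      (-1 : T3⟦X⟧) * hV - (C (emb (1 / 16)) * D.g * X ^ p * (1 - X) ^ p) * q1 -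
      (C (emb (1 / 16)) * D.g * X ^ p * (1 - X) ^ p * D.CV * D.iC) * q2
  have hrel1 : D.t1 ^ p = D.u1 * (1 + D.x1) := by
    have e : 1 + D.x1 = D.g * ((1 - X) ^ p * D.j1) ^ 2 * ((1 + D.V) * D.i2 ^ p) ^ 4 * D.iC := by
      unfold Pt.x1; rw [hw]; ring
    have q1 := G.hC
    have q2 := G.k1
    have q3 := G.k2
    have q2' : (1 - D.V) ^ 2 * D.j1 ^ 2 = 1 := by rw [← mul_pow, q2, one_pow]
    have q3' : (1 + D.V) ^ 4 * D.j2 ^ 4 = 1 := by rw [← mul_pow, q3, one_pow]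
    have e2 : D.u1 * (1 + D.x1) = (C (emb (1 / 16)) * D.g) * D.V * D.iC *
        (((1 - D.V) ^ 2 * D.j1 ^ 2)) * ((1 + D.V) ^ 4 * D.j2 ^ 4) * ((1 - X) ^ p) ^ 2 *
        (D.i2 ^ p) ^ 4 := by
      rw [e, hu1]; ring
    rw [e2, q2', q3', hqg, hV, ht1, mul_pow, mul_pow, mul_pow, ← pow_mul, ← pow_mul, ← pow_mul,
      ← pow_mul, mul_comm 2 p, mul_comm 4 p]
    linear_combination (-(C (emb (1 / 16)) ^ p * X ^ p * (1 - X) ^ (p * 2) * D.i2 ^ (p * 4))) * q1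
  obtain ⟨hxd, hxd1, hrl⟩ := hLR
  have LA := lemG Pa_good hp h5 D.t D.u D.x ct cu dt du it iu hxd hrel D.L
    (by unfold Pt.L; rw [hφ])
  have LB := lemG Pb_good hp h5 D.t1 D.u1 D.x1 ct1 cu1 dt1 du1 it1 iu1 hxd1 hrel1 D.L1
    (by unfold Pt.L1; rw [hφ])
  obtain ⟨T0, -, -⟩ := T1_inst (p : ℚ) i1 D.i2 i3 D.t D.t1 hi1 h2 hi3 ht ht1 ct ct1
  obtain ⟨U0, U1, U2⟩ := T1_inst 1 i1 D.i2 i3 D.t D.t1 hi1 h2 hi3 ht ht1 ct ct1
  have gen0 : ∀ (a : ℕ → T3) (e : T3), gen a e 0 = PowerSeries.mk a := by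
    intro a e
    unfold gen
    simp
  rw [gen0, gen0, hpe] at T0
  rw [map_one, one_mul, map_one, one_mul] at U0 U1 U2
  obtain ⟨lV, hlV⟩ : ∃ lV, lV = sb D.V cV lser := ⟨_, rfl⟩
  have hex : sb D.V cV (exf lser) = exf lV := by
    unfold exf
    rw [map_add, map_add, map_mul, map_mul, map_mul, map_pow, map_pow, map_one, sb_C, sb_C, hlV]
  have sV : sb D.V cV Sg = 1 - 6 * D.V + D.V ^ 2 := by
    unfold Sg
    rw [map_add, map_sub, map_mul, map_pow, map_one, map_ofNat, sb_X]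
  have W0 := congrArg (sb D.V cV) U0
  have W1 := congrArg (sb D.V cV) U1
  have W2 := congrArg (sb D.V cV) U2
  simp only [map_mul, map_add, map_sub, map_pow, map_one, map_ofNat, sb_X, hex, hi3V, sV,
    sb_comp D.t D.V D.u ct cV cu eu, sb_comp D.t1 D.V D.u1 ct1 cV cu1 eu1] at W0 W1 W2
  obtain ⟨Y0, hY0⟩ : ∃ Y, Y = sb D.u cu (gen (hseq Pa 1) et 0) := ⟨_, rfl⟩
  obtain ⟨Y1, hY1⟩ : ∃ Y, Y = sb D.u cu (gen (hseq Pa 1) et 1) := ⟨_, rfl⟩
  obtain ⟨Y2, hY2⟩ : ∃ Y, Y = sb D.u cu (gen (hseq Pa 1) et 2) := ⟨_, rfl⟩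
  rw [← hY0] at W0 W1 W2 LA
  rw [← hY1] at W1 W2 LA
  rw [← hY2] at W2 LA
  rw [W0, W1, W2] at LB
  rw [← hlV] at hrl
  have hph : ∀ (P : T3 → T3) (i : Fin 3) (τ : T3⟦X⟧), Ph P p i τ =
      ∑ k ∈ range p, D.φ (cmp i (hseq P 1 k)) * τ ^ k := by
    intro P i τ
    unfold Ph
    apply sum_congr rfl
    intro k _
    rw [hφ]
  have ea : ∀ i, Ph Pa p i D.t = D.Sa i := fun i => by rw [hph]; rfl
  have eb : ∀ i, Ph Pb p i D.t1 = D.Sb i := fun i => by rw [hph]; rfl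
  rw [ea, ea, ea] at LA
  rw [eb, eb, eb] at LB
  have hYi : ∀ i : ℕ, DP p 0 (sb D.u cu (gen (hseq Pa 1) et i)) ∧
      X ^ p ∣ sb D.u cu (gen (hseq Pa 1) et i) - C et ^ i := by
    intro i
    refine ⟨sb_int' hp cu du iu ?_, ?_⟩
    · intro n hn
      unfold gen
      rw [coeff_mk]
      exact FT.mulL (hseq_int Pa_good hp hn)
        (FT.pow (FT.add (FT.nat n) (dk_et (flt_rat hp))) i)
    · have h := sb_trunc D.u cu (gen (hseq Pa 1) et i) 1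
      rw [pow_one] at h
      have e : ∑ n ∈ range 1, C (coeff n (gen (hseq Pa 1) et i)) * D.u ^ n = C et ^ i := by
        rw [sum_range_one, pow_zero, mul_one, gen, coeff_mk, ← map_pow]
        simp [hseq]
      rw [e] at h
      exact dvd_trans du h
  obtain ⟨B, hB⟩ : ∃ B, B = sb D.t1 ct1 (PowerSeries.mk (hseq Pb p)) := ⟨_, rfl⟩
  obtain ⟨A, hA⟩ : ∃ A, A = sb D.t ct (PowerSeries.mk (hseq Pa p)) := ⟨_, rfl⟩
  rw [← hB] at LB T0
  rw [← hA] at LA T0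
  have hc := dp_half hp h5
  have iA : DP p 0 A := by
    rw [hA]
    apply sb_int hp ct dt it
    intro n hn
    rw [coeff_mk]
    exact hseq_int_p Pa_good hp h5 hn
  have ilV : DP p 0 lV := by rw [hlV]; exact lserV_int hp cV dV hVi
  have eL : D.L = D.x - C (emb (1 / 2)) * D.x ^ 2 := by unfold Pt.L; rw [hφ]
  have eL1 : D.L1 = D.x1 - C (emb (1 / 2)) * D.x1 ^ 2 := by unfold Pt.L1; rw [hφ]
  rw [← eL, ← eL1] at hrl
  have iL : DP p 0 D.L := by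
    rw [eL]; exact F.sub (F.int hxd) (F.mulL hc (F.pow (F.int hxd) 2))
  have e4 : (p : T3⟦X⟧) * lser + D.L1 - lV - D.L = (p : T3⟦X⟧) * lser + D.L1 - (lV + D.L) := by
    ring
  have hrl' : DP p 3 ((p : T3⟦X⟧) * lser + D.L1 - lV - D.L) := by rw [e4]; exact hrl
  have ipl : DP p 0 ((p : T3⟦X⟧) * lser + D.L1 - lV) := by
    have : (p : T3⟦X⟧) * lser + D.L1 - lV = ((p : T3⟦X⟧) * lser + D.L1 - lV - D.L) + D.L := by
      ring
    rw [this]; exact F.add (F.int hrl') iL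
  have X1 := exf_congr hp h5 hrl' ipl iL
  have X2 := F.mulL (exf_int hp h5 (F.neg ilV)) LB
  have q1 : exf (-lV) * exf lV = 1 := by rw [← exf_add, neg_add_cancel, exf_zero]
  have q2 : exf (-lV) * exf D.L1 * exf ((p : T3⟦X⟧) * lser) =
      exf ((p : T3⟦X⟧) * lser + D.L1 - lV) := by
    rw [← exf_add, ← exf_add]; congr 1; ring
  have y0 := hYi 0
  have y1 := hYi 1
  have y2 := hYi 2
  rw [← hY0, pow_zero] at y0
  rw [← hY1, pow_one] at y1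
  rw [← hY2] at y2
  refine ⟨Y0, Y1, Y2, y0.2, y1.2, y2.2, y0.1, y1.1, y2.1, ?_⟩
  have k3 := G.k3
  obtain ⟨T', hT'⟩ : ∃ T', T' = D.Sb 0 * (exf lV * ((1 + D.V) * Y0)) +
          ((p : T3⟦X⟧) * D.Sb 1 + D.L1 * D.Sb 0) *
            (exf lV * D.j3 * ((D.V - D.V ^ 3) * Y0 + (1 - 2 * D.V) * (1 + D.V) ^ 2 * Y1)) +
        ((p : T3⟦X⟧) ^ 2 * D.Sb 2 + (p : T3⟦X⟧) * D.L1 * D.Sb 1 +
          C (emb (1 / 2)) * D.x1 ^ 2 * D.Sb 0) *
          (exf lV * D.j3 ^ 3 *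
            ((1 - D.V ^ 2) * (D.V - 4 * D.V ^ 3 + 12 * D.V ^ 4 - D.V ^ 5) * Y0 +
                (1 - D.V ^ 2) * (7 * D.V - 15 * D.V ^ 2 + 17 * D.V ^ 3 + 35 * D.V ^ 4 -
                  4 * D.V ^ 5) * Y1 +
              (1 - 2 * D.V) ^ 2 * (1 + D.V) ^ 3 * (1 - 6 * D.V + D.V ^ 2) * Y2)) := ⟨_, rfl⟩
  rw [← hT'] at X2
  obtain ⟨T, hT⟩ : ∃ T, T = D.Sb 0 * (1 + D.V) * Y0 + D.Hb1 * (D.P10 * Y0 + D.P11 * Y1) +
      D.Hb2 * (D.P20 * Y0 + D.P21 * Y1 + D.P22 * Y2) := ⟨_, rfl⟩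
  have hTT : T' = exf lV * T := by
    rw [hT', hT]
    unfold Pt.Hb1 Pt.Hb2 Pt.P10 Pt.P11 Pt.P20 Pt.P21 Pt.P22
    rw [hφ]
    linear_combination (((p : T3⟦X⟧) ^ 2 * D.Sb 2 + (p : T3⟦X⟧) * D.L1 * D.Sb 1 +
          C (emb (1 / 2)) * D.x1 ^ 2 * D.Sb 0) * exf lV * D.j3 ^ 2 *
          ((1 - 2 * D.V) ^ 2 * (1 + D.V) ^ 3 * Y2)) * k3
  have e : D.R0 * Y0 + D.R1 * Y1 + D.R2 * Y2 = -(exf (-lV) * (exf D.L1 * B - T')) +
      (exf ((p : T3⟦X⟧) * lser + D.L1 - lV) - exf D.L) * ((1 + X) * A) +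
      (1 + X) * (exf D.L * A - (D.Sa 0 * Y0 + ((p : T3⟦X⟧) * D.Sa 1 + D.L * D.Sa 0) * Y1 +
        ((p : T3⟦X⟧) ^ 2 * D.Sa 2 + (p : T3⟦X⟧) * D.L * D.Sa 1 +
          C (emb (1 / 2)) * D.x ^ 2 * D.Sa 0) * Y2)) := by
    have e5 : D.R0 * Y0 + D.R1 * Y1 + D.R2 * Y2 = T - (1 + X) * (D.Sa 0 * Y0 + D.Ha1 * Y1 +
        D.Ha2 * Y2) := by
      rw [hT]
      unfold Pt.R0 Pt.R1 Pt.R2
      rw [hw]
      ring
    rw [e5, hTT]
    unfold Pt.Ha1 Pt.Ha2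
    rw [hφ]
    linear_combination (exf (-lV) * exf D.L1) * T0 + ((1 + X) * A) * q2 - T * q1
  rw [e]
  exact F.add (F.add (F.neg X2) (F.mulR X1 (F.mulL (F.add F.one hX) iA)))
    (F.mulL (F.add F.one hX) LA)

end

end Pool.Agent.Helper91.SC
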