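import Mathlib
import Pool.Agent.Helper91.SC.MainId

/-!
From power series over the deformation ring back to rational power series.
-/

set_option autoImplicit false

namespace Pool.Agent.Helper91.SC

open Finset T3 PowerSeries

section
variable {p : ℕ} (hp : p.Prime) (h5 : 5 ≤ p)

include hp in
theorem dp_map {k : ℕ} {f : ℚ⟦X⟧} (h : PS (Dv p) (p ^ 2) k f) :
    DP p k (PowerSeries.map emb f) := by
  intro n hn
  rw [coeff_map]
  exact dk_emb (flt_rat hp) (h n hn)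

include hp in
theorem lowest (r0 r1 r2 : ℚ⟦X⟧) (Y0 Y1 Y2 : T3⟦X⟧) (h0 : X ^ p ∣ Y0 - 1)
    (h1 : X ^ p ∣ Y1 - C et) (h2 : X ^ p ∣ Y2 - C et ^ 2) (d0 : DP p 0 Y0) (d1 : DP p 0 Y1)
    (d2 : DP p 0 Y2)
    (h : DP p 3 (PowerSeries.map emb r0 * Y0 + PowerSeries.map emb r1 * Y1 +
      PowerSeries.map emb r2 * Y2)) :
    PS (Dv p) (p ^ 2) 3 r0 ∧ PS (Dv p) (p ^ 2) 3 r1 ∧ PS (Dv p) (p ^ 2) 3 r2 := by
  have FT := flt_t3 (flt_rat hp)
  have F := flt_dp hp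
  have he := dp_et hp
  -- tail part of a product
  have tail : ∀ (r : ℚ⟦X⟧) (Z : T3⟦X⟧), X ^ p ∣ Z → DP p 0 Z → ∀ n < p ^ 2,
      (∀ m < n, Dv p 3 (coeff m r)) → DK (Dv p) 3 (coeff n (PowerSeries.map emb r * Z)) := by
    intro r Z hZ dZ n hn ih
    rw [coeff_mul]
    apply FT.sum
    intro i hi
    have hi := mem_antidiagonal.mp hi
    by_cases hb : i.2 < p
    · rw [X_pow_dvd_iff.mp hZ i.2 hb, mul_zero]
      exact FT.zero 3
    · have h1 := hp.pos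
      rw [coeff_map]
      exact FT.mulR (dk_emb (flt_rat hp) (ih i.1 (by omega))) (dZ i.2 (by omega))
  have key : ∀ n, n < p ^ 2 → Dv p 3 (coeff n r0) ∧ Dv p 3 (coeff n r1) ∧
      Dv p 3 (coeff n r2) := by
    intro n
    induction n using Nat.strong_induction_on with
    | _ n ih =>
      intro hn
      have t0 := tail r0 (Y0 - 1) h0 (F.sub d0 F.one) n hn (fun m hm => (ih m hm (by omega)).1)
      have t1 := tail r1 (Y1 - C et) h1 (F.sub d1 he) n hn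
        (fun m hm => (ih m hm (by omega)).2.1)
      have t2 := tail r2 (Y2 - C et ^ 2) h2 (F.sub d2 (F.pow he 2)) n hn
        (fun m hm => (ih m hm (by omega)).2.2)
      have t3 := h n hn
      have t4 := FT.sub t3 (FT.add (FT.add t0 t1) t2)
      rw [← map_add, ← map_add, ← map_sub] at t4
      have e : PowerSeries.map emb r0 * Y0 + PowerSeries.map emb r1 * Y1 +
          PowerSeries.map emb r2 * Y2 - (PowerSeries.map emb r0 * (Y0 - 1) +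
          PowerSeries.map emb r1 * (Y1 - C et) + PowerSeries.map emb r2 * (Y2 - C et ^ 2)) =
          PowerSeries.map emb r0 + PowerSeries.map emb r1 * C et +
          PowerSeries.map emb r2 * C (et ^ 2) := by
        rw [map_pow]; ring
      rw [e, map_add, map_add, coeff_mul_C, coeff_mul_C, coeff_map, coeff_map, coeff_map] at t4
      obtain ⟨a0, a1, a2⟩ := t4
      have e2 : et ^ 2 = ⟨0, 0, 1⟩ := by
        rw [sq]; ext <;> simp
      rw [e2] at a0 a1 a2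
      simp only [add_c0, add_c1, add_c2, mul_c0, mul_c1, mul_c2, emb_c0, emb_c1, emb_c2, et_c0,
        et_c1, et_c2, mul_zero, mul_one, add_zero, zero_add] at a0 a1 a2
      exact ⟨a0, a1, a2⟩
  exact ⟨fun n hn => (key n hn).1, fun n hn => (key n hn).2.1, fun n hn => (key n hn).2.2⟩

/-- the point over rational power series -/
noncomputable def ptQ (p : ℕ) (c0 c1 : ℚ) : Pt ℚ⟦X⟧ p c0 c1 :=
  let CV : ℚ⟦X⟧ := 1 + (p : ℚ⟦X⟧) * (C c0 + C c1 * X)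
  let V : ℚ⟦X⟧ := X ^ p * CV
  { φ := C
    w := X
    i2 := (1 + X)⁻¹
    iC := CV⁻¹
    j1 := (1 - V)⁻¹
    j2 := (1 + V)⁻¹
    j3 := (1 - 6 * V + V ^ 2)⁻¹ }

theorem ptQ_CV (c0 c1 : ℚ) : (ptQ p c0 c1).CV = 1 + (p : ℚ⟦X⟧) * (C c0 + C c1 * X) := rfl

theorem ptQ_V (c0 c1 : ℚ) : (ptQ p c0 c1).V = X ^ p * (ptQ p c0 c1).CV := rfl

include hp in
theorem ptQ_cV (c0 c1 : ℚ) : constantCoeff (ptQ p c0 c1).V = 0 := by
  rw [ptQ_V, map_mul, map_pow, constantCoeff_X, zero_pow hp.ne_zero, zero_mul]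

theorem ptQ_cCV (c0 c1 : ℚ) : constantCoeff (ptQ p c0 c1).CV = 1 + p * c0 := by
  rw [ptQ_CV]
  simp

include hp in
theorem ptQ_good {c0 c1 : ℚ} (hc0 : Dv p 0 c0) : (ptQ p c0 c1).Good where
  h2 := PowerSeries.mul_inv_cancel _ (by
    rw [map_add]
    show constantCoeff 1 + constantCoeff (X : ℚ⟦X⟧) ≠ 0
    simp)
  hC := PowerSeries.mul_inv_cancel _ (by
    rw [ptQ_cCV]
    exact (one_add_unit hp (Dv_mul_int hp (Dv_p hp) hc0)).1)
  k1 := PowerSeries.mul_inv_cancel _ (by rw [map_sub, ptQ_cV hp]; simp)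
  k2 := PowerSeries.mul_inv_cancel _ (by rw [map_add, ptQ_cV hp]; simp)
  k3 := PowerSeries.mul_inv_cancel _ (by
    rw [map_add, map_sub, map_mul, map_pow, ptQ_cV hp]; simp)

include hp in
theorem ptQ_int {c0 c1 : ℚ} (hc0 : Dv p 0 c0) (hc1 : Dv p 0 c1) :
    PS (Dv p) (p ^ 2) 0 (ptQ p c0 c1).CV ∧ PS (Dv p) (p ^ 2) 0 (ptQ p c0 c1).V ∧
    PS (Dv p) (p ^ 2) 0 (ptQ p c0 c1).i2 ∧ PS (Dv p) (p ^ 2) 0 (ptQ p c0 c1).iC ∧
    PS (Dv p) (p ^ 2) 0 (ptQ p c0 c1).j1 ∧ PS (Dv p) (p ^ 2) 0 (ptQ p c0 c1).j2 := by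
  have FQ := flt_rat hp
  have F := flt_ps FQ (p ^ 2)
  have G := ptQ_good hp hc0 (c1 := c1)
  have hX : PS (Dv p) (p ^ 2) 0 (X : ℚ⟦X⟧) := ps_X FQ _
  have i1 : PS (Dv p) (p ^ 2) 0 (ptQ p c0 c1).CV := by
    rw [ptQ_CV]
    exact F.add F.one (F.mulL (F.nat p) (F.add (ps_C FQ _ hc0) (F.mulL (ps_C FQ _ hc1) hX)))
  have i2 : PS (Dv p) (p ^ 2) 0 (ptQ p c0 c1).V := by
    rw [ptQ_V]; exact F.mulL (F.pow hX p) i1
  have cc : ∀ {f g : ℚ⟦X⟧}, f * g = 1 → constantCoeff f = 1 → Dv p 0 (coeff 0 g) := by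
    intro f g h h1
    have h2 := congrArg (constantCoeff (R := ℚ)) h
    rw [map_mul, h1, one_mul, map_one] at h2
    rw [coeff_zero_eq_constantCoeff_apply, h2]
    exact Dv_one hp
  refine ⟨i1, i2, ?_, ?_, ?_, ?_⟩
  · exact ps_inv FQ _ G.h2 (F.add F.one hX) (cc G.h2 (by
      rw [map_add]
      show constantCoeff 1 + constantCoeff (X : ℚ⟦X⟧) = 1
      simp))
  · refine ps_inv FQ _ G.hC i1 ?_
    have h2 := congrArg (constantCoeff (R := ℚ)) G.hC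
    rw [map_mul, ptQ_cCV, map_one] at h2
    have h3 := one_add_unit hp (Dv_mul_int hp (Dv_p hp) hc0)
    rw [coeff_zero_eq_constantCoeff_apply, eq_inv_of_mul_eq_one_right h2]
    exact h3.2
  · exact ps_inv FQ _ G.k1 (F.sub F.one i2) (cc G.k1 (by
      rw [map_sub, ptQ_cV hp, map_one, sub_zero]))
  · exact ps_inv FQ _ G.k2 (F.add F.one i2) (cc G.k2 (by
      rw [map_add, ptQ_cV hp, map_one, add_zero]))

include hp h5 in
/-- the main congruence for rational power series -/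
theorem ptQ_R {c0 c1 : ℚ} (hc0 : Dv p 0 c0) (hc1 : Dv p 0 c1) :
    PS (Dv p) (p ^ 2) 3 (ptQ p c0 c1).R0 ∧ PS (Dv p) (p ^ 2) 3 (ptQ p c0 c1).R1 ∧
    PS (Dv p) (p ^ 2) 3 (ptQ p c0 c1).R2 := by
  have G := ptQ_good hp hc0 (c1 := c1)
  obtain ⟨-, -, a2, aC, b1, b2⟩ := ptQ_int hp hc0 hc1
  obtain ⟨Y0, Y1, Y2, h0, h1, h2, d0, d1, d2, h⟩ := main_id hp h5 hc0 hc1
    ((ptQ p c0 c1).map (PowerSeries.map emb)) (fun r => map_C emb r) (map_X emb)
    (G.map (PowerSeries.map emb)) (dp_map hp a2) (dp_map hp aC) (dp_map hp b1) (dp_map hp b2)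
  rw [← Pt.map_R0, ← Pt.map_R1, ← Pt.map_R2] at h
  exact lowest hp _ _ _ Y0 Y1 Y2 h0 h1 h2 d0 d1 d2 h

end

end Pool.Agent.Helper91.SC
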