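import Mathlib
import Pool.Agent.Helper91.SC.Trans

/-!
Clearing denominators.
-/

set_option autoImplicit false

namespace Pool.Agent.Helper91.SC

open Finset T3

namespace Pl

section
variable {A : Type} [CommRing A] (φ : ℚ →+* A) (w : A) (p : ℕ) (c0 c1 : ℚ)

def cv : A := 1 + (p : A) * (φ c0 + φ c1 * w)
def v : A := w ^ p * cv φ w p c0 c1
def sa (i : Fin 3) : A :=
  ∑ k ∈ range p, φ (cmp i (hseq Pa 1 k)) * (φ (1 / 16) * w * (1 - w)) ^ k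
def sbn (i : Fin 3) : A :=
  ∑ k ∈ range p, φ (cmp i (hseq Pb 1 k)) * (φ (1 / 16) * w * (1 - w) ^ 2) ^ k *
    (1 + w) ^ (4 * (p - 1 - k))
def mn : A := φ ((1 / 16) ^ (p - 1)) * (1 - w) ^ p
def md : A := cv φ w p c0 c1 * (1 - v φ w p c0 c1)
def m1n : A := φ ((1 / 16) ^ (p - 1)) * (1 - w) ^ (2 * p) * (1 + v φ w p c0 c1) ^ 4
def m1d : A := (1 + w) ^ (4 * p) * cv φ w p c0 c1 * (1 - v φ w p c0 c1) ^ 2
def xn : A := mn φ w p - md φ w p c0 c1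
def x1n : A := m1n φ w p c0 c1 - m1d φ w p c0 c1
def w4 : A := (1 + w) ^ (4 * (p - 1))
def s : A := 1 - 6 * v φ w p c0 c1 + v φ w p c0 c1 ^ 2
def ln : A := xn φ w p c0 c1 * md φ w p c0 c1 - φ (1 / 2) * xn φ w p c0 c1 ^ 2
def l1n : A := x1n φ w p c0 c1 * m1d φ w p c0 c1 - φ (1 / 2) * x1n φ w p c0 c1 ^ 2
def hb0 : A := sbn φ w p 0 * m1d φ w p c0 c1 ^ 2
def hb1 : A := (p : A) * sbn φ w p 1 * m1d φ w p c0 c1 ^ 2 + l1n φ w p c0 c1 * sbn φ w p 0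
def hb2 : A := (p : A) ^ 2 * sbn φ w p 2 * m1d φ w p c0 c1 ^ 2 +
  (p : A) * l1n φ w p c0 c1 * sbn φ w p 1 + φ (1 / 2) * x1n φ w p c0 c1 ^ 2 * sbn φ w p 0
def ha0 : A := sa φ w p 0 * md φ w p c0 c1 ^ 2
def ha1 : A := (p : A) * sa φ w p 1 * md φ w p c0 c1 ^ 2 + ln φ w p c0 c1 * sa φ w p 0
def ha2 : A := (p : A) ^ 2 * sa φ w p 2 * md φ w p c0 c1 ^ 2 +
  (p : A) * ln φ w p c0 c1 * sa φ w p 1 + φ (1 / 2) * xn φ w p c0 c1 ^ 2 * sa φ w p 0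
def dd : A := m1d φ w p c0 c1 ^ 2 * w4 w p * s φ w p c0 c1 ^ 3
def N0 : A := hb0 φ w p c0 c1 * md φ w p c0 c1 ^ 2 * (1 + v φ w p c0 c1) * s φ w p c0 c1 ^ 3 +
  hb1 φ w p c0 c1 * md φ w p c0 c1 ^ 2 * (v φ w p c0 c1 - v φ w p c0 c1 ^ 3) *
    s φ w p c0 c1 ^ 2 +
  hb2 φ w p c0 c1 * md φ w p c0 c1 ^ 2 * ((1 - v φ w p c0 c1 ^ 2) *
    (v φ w p c0 c1 - 4 * v φ w p c0 c1 ^ 3 + 12 * v φ w p c0 c1 ^ 4 - v φ w p c0 c1 ^ 5)) -
  (1 + w) * ha0 φ w p c0 c1 * dd φ w p c0 c1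
def N1 : A := hb1 φ w p c0 c1 * md φ w p c0 c1 ^ 2 * ((1 - 2 * v φ w p c0 c1) *
    (1 + v φ w p c0 c1) ^ 2) * s φ w p c0 c1 ^ 2 +
  hb2 φ w p c0 c1 * md φ w p c0 c1 ^ 2 * ((1 - v φ w p c0 c1 ^ 2) *
    (7 * v φ w p c0 c1 - 15 * v φ w p c0 c1 ^ 2 + 17 * v φ w p c0 c1 ^ 3 +
      35 * v φ w p c0 c1 ^ 4 - 4 * v φ w p c0 c1 ^ 5)) -
  (1 + w) * ha1 φ w p c0 c1 * dd φ w p c0 c1
def N2 : A := hb2 φ w p c0 c1 * md φ w p c0 c1 ^ 2 * ((1 - 2 * v φ w p c0 c1) ^ 2 *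
    (1 + v φ w p c0 c1) ^ 3) * s φ w p c0 c1 -
  (1 + w) * ha2 φ w p c0 c1 * dd φ w p c0 c1
def den : A := dd φ w p c0 c1 * md φ w p c0 c1 ^ 2

section
variable {B : Type} [CommRing B] (f : A →+* B)

theorem map_cv : f (cv φ w p c0 c1) = cv (f.comp φ) (f w) p c0 c1 := by
  unfold cv; simp
theorem map_v : f (v φ w p c0 c1) = v (f.comp φ) (f w) p c0 c1 := by
  unfold v; rw [map_mul, map_pow, map_cv]
theorem map_sa (i : Fin 3) : f (sa φ w p i) = sa (f.comp φ) (f w) p i := by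
  unfold sa
  rw [map_sum]
  apply sum_congr rfl
  intro k _
  rw [map_mul, map_pow, map_mul, map_mul, map_sub, map_one]
  rfl
theorem map_sbn (i : Fin 3) : f (sbn φ w p i) = sbn (f.comp φ) (f w) p i := by
  unfold sbn
  rw [map_sum]
  apply sum_congr rfl
  intro k _
  rw [map_mul, map_mul, map_pow, map_pow, map_mul, map_mul, map_pow, map_add, map_sub, map_one]
  rfl
theorem map_mn : f (mn φ w p) = mn (f.comp φ) (f w) p := by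
  unfold mn
  rw [map_mul, map_pow f, map_sub, map_one]
  rfl
theorem map_md : f (md φ w p c0 c1) = md (f.comp φ) (f w) p c0 c1 := by
  unfold md; rw [map_mul, map_sub, map_one, map_cv, map_v]
theorem map_m1n : f (m1n φ w p c0 c1) = m1n (f.comp φ) (f w) p c0 c1 := by
  unfold m1n
  rw [map_mul, map_mul, map_pow f, map_pow f, map_sub, map_add, map_one, map_v]
  rfl
theorem map_m1d : f (m1d φ w p c0 c1) = m1d (f.comp φ) (f w) p c0 c1 := by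
  unfold m1d
  rw [map_mul, map_mul, map_pow, map_pow, map_sub, map_add, map_one, map_cv, map_v]
theorem map_w4 : f (w4 w p) = w4 (f w) p := by
  unfold w4
  rw [map_pow, map_add, map_one]
theorem map_s : f (s φ w p c0 c1) = s (f.comp φ) (f w) p c0 c1 := by
  unfold s
  rw [map_add, map_sub, map_mul, map_pow, map_one, map_ofNat, map_v]
theorem map_xn : f (xn φ w p c0 c1) = xn (f.comp φ) (f w) p c0 c1 := by
  unfold xn
  rw [map_sub, map_mn, map_md]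
theorem map_x1n : f (x1n φ w p c0 c1) = x1n (f.comp φ) (f w) p c0 c1 := by
  unfold x1n
  rw [map_sub, map_m1n, map_m1d]
theorem map_ln : f (ln φ w p c0 c1) = ln (f.comp φ) (f w) p c0 c1 := by
  unfold ln
  rw [map_sub, map_mul, map_mul, map_pow, map_xn, map_md]
  rfl
theorem map_l1n : f (l1n φ w p c0 c1) = l1n (f.comp φ) (f w) p c0 c1 := by
  unfold l1n
  rw [map_sub, map_mul, map_mul, map_pow, map_x1n, map_m1d]
  rfl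
theorem map_hb0 : f (hb0 φ w p c0 c1) = hb0 (f.comp φ) (f w) p c0 c1 := by
  unfold hb0
  rw [map_mul, map_pow, map_sbn, map_m1d]
theorem map_hb1 : f (hb1 φ w p c0 c1) = hb1 (f.comp φ) (f w) p c0 c1 := by
  unfold hb1
  rw [map_add, map_mul, map_mul, map_mul, map_pow, map_sbn, map_sbn, map_m1d, map_l1n,
    map_natCast]
theorem map_hb2 : f (hb2 φ w p c0 c1) = hb2 (f.comp φ) (f w) p c0 c1 := by
  unfold hb2
  rw [map_add, map_add, map_mul, map_mul, map_mul, map_mul, map_mul, map_mul, map_pow, map_pow,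
    map_pow, map_sbn, map_sbn, map_sbn, map_m1d, map_l1n, map_x1n, map_natCast]
  rfl
theorem map_ha0 : f (ha0 φ w p c0 c1) = ha0 (f.comp φ) (f w) p c0 c1 := by
  unfold ha0
  rw [map_mul, map_pow, map_sa, map_md]
theorem map_ha1 : f (ha1 φ w p c0 c1) = ha1 (f.comp φ) (f w) p c0 c1 := by
  unfold ha1
  rw [map_add, map_mul, map_mul, map_mul, map_pow, map_sa, map_sa, map_md, map_ln,
    map_natCast]
theorem map_ha2 : f (ha2 φ w p c0 c1) = ha2 (f.comp φ) (f w) p c0 c1 := by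
  unfold ha2
  rw [map_add, map_add, map_mul, map_mul, map_mul, map_mul, map_mul, map_mul, map_pow, map_pow,
    map_pow, map_sa, map_sa, map_sa, map_md, map_ln, map_xn, map_natCast]
  rfl
theorem map_dd : f (dd φ w p c0 c1) = dd (f.comp φ) (f w) p c0 c1 := by
  unfold dd
  rw [map_mul, map_mul, map_pow, map_pow, map_m1d, map_w4, map_s]
theorem map_N0 : f (N0 φ w p c0 c1) = N0 (f.comp φ) (f w) p c0 c1 := by
  unfold N0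
  simp only [map_add, map_sub, map_mul, map_pow, map_one, map_ofNat, map_hb0, map_hb1, map_hb2,
    map_ha0, map_md, map_v, map_s, map_dd]
theorem map_N1 : f (N1 φ w p c0 c1) = N1 (f.comp φ) (f w) p c0 c1 := by
  unfold N1
  simp only [map_add, map_sub, map_mul, map_pow, map_one, map_ofNat, map_hb1, map_hb2,
    map_ha1, map_md, map_v, map_s, map_dd]
theorem map_N2 : f (N2 φ w p c0 c1) = N2 (f.comp φ) (f w) p c0 c1 := by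
  unfold N2
  simp only [map_add, map_sub, map_mul, map_pow, map_one, map_ofNat, map_hb2,
    map_ha2, map_md, map_v, map_s, map_dd]

end

end

end Pl

namespace Pt

variable {A : Type} [CommRing A] {p : ℕ} {c0 c1 : ℚ} (D : Pt A p c0 c1)

theorem e_v : Pl.v D.φ D.w p c0 c1 = D.V := rfl
theorem e_cv : Pl.cv D.φ D.w p c0 c1 = D.CV := rfl
theorem e_sa (i : Fin 3) : Pl.sa D.φ D.w p i = D.Sa i := rfl

theorem e_md (G : D.Good) : Pl.md D.φ D.w p c0 c1 * (D.iC * D.j1) = 1 := by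
  unfold Pl.md
  rw [e_v, e_cv]
  linear_combination ((1 - D.V) * D.j1) * G.hC + G.k1

theorem i2_pow (G : D.Good) (n : ℕ) : (1 + D.w) ^ n * D.i2 ^ n = 1 := by
  rw [← mul_pow, G.h2, one_pow]

theorem e_m1d (G : D.Good) :
    Pl.m1d D.φ D.w p c0 c1 * (D.i2 ^ (4 * p) * D.iC * D.j1 ^ 2) = 1 := by
  unfold Pl.m1d
  rw [e_v, e_cv]
  have h1 := D.i2_pow G (4 * p)
  linear_combination (D.CV * (1 - D.V) ^ 2 * D.iC * D.j1 ^ 2) * h1 +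
    ((1 - D.V) ^ 2 * D.j1 ^ 2) * G.hC + ((1 - D.V) * D.j1 + 1) * G.k1

theorem e_s (G : D.Good) : Pl.s D.φ D.w p c0 c1 * D.j3 = 1 := by
  unfold Pl.s
  rw [e_v]
  exact G.k3

theorem e_w4 (G : D.Good) : Pl.w4 D.w p * D.i2 ^ (4 * (p - 1)) = 1 := D.i2_pow G _

theorem e_xn (G : D.Good) : Pl.xn D.φ D.w p c0 c1 = D.x * Pl.md D.φ D.w p c0 c1 := by
  have h := D.e_md G
  unfold Pl.xn Pl.mn x g
  linear_combination (-(D.φ ((1 / 16) ^ (p - 1)) * (1 - D.w) ^ p)) * h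

theorem e_x1n (G : D.Good) : Pl.x1n D.φ D.w p c0 c1 = D.x1 * Pl.m1d D.φ D.w p c0 c1 := by
  have h := D.e_m1d G
  have e : D.x1 * Pl.m1d D.φ D.w p c0 c1 =
      D.φ ((1 / 16) ^ (p - 1)) * (1 - D.w) ^ (2 * p) * (1 + D.V) ^ 4 *
      (Pl.m1d D.φ D.w p c0 c1 * (D.i2 ^ (4 * p) * D.iC * D.j1 ^ 2)) -
        Pl.m1d D.φ D.w p c0 c1 := by
    unfold x1 g
    rw [mul_comm 4 p, mul_comm 2 p, pow_mul, pow_mul]
    ring
  rw [e, h]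
  unfold Pl.x1n Pl.m1n
  rw [e_v]
  ring

theorem e_sbn (G : D.Good) (i : Fin 3) : Pl.sbn D.φ D.w p i = D.Sb i * Pl.w4 D.w p := by
  unfold Pl.sbn Sb
  rw [sum_mul]
  apply sum_congr rfl
  intro k hk
  have hk := mem_range.mp hk
  unfold t1 Pl.w4
  have e1 : 4 * (p - 1) = 4 * k + 4 * (p - 1 - k) := by omega
  have h := D.i2_pow G (4 * k)
  rw [e1, pow_add, mul_pow _ (D.i2 ^ 4), ← pow_mul]
  linear_combination (-(D.φ (cmp i (hseq Pb 1 k)) * (D.φ (1 / 16) * D.w * (1 - D.w) ^ 2) ^ k *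
    (1 + D.w) ^ (4 * (p - 1 - k)))) * h

/-- the inverse denominator -/
def iden : A := (D.i2 ^ (4 * p) * D.iC * D.j1 ^ 2) ^ 2 * D.i2 ^ (4 * (p - 1)) * D.j3 ^ 3 *
  (D.iC * D.j1) ^ 2

theorem e_den (G : D.Good) : Pl.den D.φ D.w p c0 c1 * D.iden = 1 := by
  have h1 := D.e_m1d G
  have h2 := D.e_w4 G
  have h3 := D.e_s G
  have h4 := D.e_md G
  have e : Pl.den D.φ D.w p c0 c1 * D.iden =
      (Pl.m1d D.φ D.w p c0 c1 * (D.i2 ^ (4 * p) * D.iC * D.j1 ^ 2)) ^ 2 *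
      (Pl.w4 D.w p * D.i2 ^ (4 * (p - 1))) * (Pl.s D.φ D.w p c0 c1 * D.j3) ^ 3 *
      (Pl.md D.φ D.w p c0 c1 * (D.iC * D.j1)) ^ 2 := by
    unfold Pl.den Pl.dd iden
    ring
  rw [e, h1, h2, h3, h4]
  ring

theorem e_N0 (G : D.Good) : Pl.N0 D.φ D.w p c0 c1 = D.R0 * Pl.den D.φ D.w p c0 c1 := by
  have h3 := D.e_s G
  unfold Pl.N0 Pl.hb0 Pl.hb1 Pl.hb2 Pl.ha0 Pl.l1n Pl.den Pl.dd
  rw [e_v, e_sa, D.e_x1n G, D.e_sbn G, D.e_sbn G, D.e_sbn G]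
  unfold R0 Hb1 Hb2 L1 P10 P20
  set md := Pl.md D.φ D.w p c0 c1
  set m1d := Pl.m1d D.φ D.w p c0 c1
  set W := Pl.w4 D.w p
  set S := Pl.s D.φ D.w p c0 c1
  obtain ⟨h, hh⟩ : ∃ h, h = D.φ (1 / 2) := ⟨_, rfl⟩
  rw [← hh]
  linear_combination (-(((p : A) * D.Sb 1 + (D.x1 - h * D.x1 ^ 2) * D.Sb 0) * m1d ^ 2 * W *
    md ^ 2 * (D.V - D.V ^ 3) * S ^ 2)) * h3 -
    (((p : A) ^ 2 * D.Sb 2 + (p : A) * (D.x1 - h * D.x1 ^ 2) * D.Sb 1 +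
      h * D.x1 ^ 2 * D.Sb 0) * m1d ^ 2 * W * md ^ 2 * ((1 - D.V ^ 2) *
      (D.V - 4 * D.V ^ 3 + 12 * D.V ^ 4 - D.V ^ 5)) * (S ^ 2 * D.j3 ^ 2 + S * D.j3 + 1)) * h3

theorem e_N1 (G : D.Good) : Pl.N1 D.φ D.w p c0 c1 = D.R1 * Pl.den D.φ D.w p c0 c1 := by
  have h3 := D.e_s G
  unfold Pl.N1 Pl.hb1 Pl.hb2 Pl.ha1 Pl.l1n Pl.ln Pl.den Pl.dd
  rw [e_v, e_sa, e_sa, D.e_x1n G, D.e_xn G, D.e_sbn G, D.e_sbn G, D.e_sbn G]
  unfold R1 Hb1 Hb2 Ha1 L L1 P11 P21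
  set md := Pl.md D.φ D.w p c0 c1
  set m1d := Pl.m1d D.φ D.w p c0 c1
  set W := Pl.w4 D.w p
  set S := Pl.s D.φ D.w p c0 c1
  obtain ⟨h, hh⟩ : ∃ h, h = D.φ (1 / 2) := ⟨_, rfl⟩
  rw [← hh]
  linear_combination (-(((p : A) * D.Sb 1 + (D.x1 - h * D.x1 ^ 2) * D.Sb 0) * m1d ^ 2 * W *
    md ^ 2 * ((1 - 2 * D.V) * (1 + D.V) ^ 2) * S ^ 2)) * h3 -
    (((p : A) ^ 2 * D.Sb 2 + (p : A) * (D.x1 - h * D.x1 ^ 2) * D.Sb 1 +
      h * D.x1 ^ 2 * D.Sb 0) * m1d ^ 2 * W * md ^ 2 * ((1 - D.V ^ 2) *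
      (7 * D.V - 15 * D.V ^ 2 + 17 * D.V ^ 3 + 35 * D.V ^ 4 - 4 * D.V ^ 5)) *
      (S ^ 2 * D.j3 ^ 2 + S * D.j3 + 1)) * h3

theorem e_N2 (G : D.Good) : Pl.N2 D.φ D.w p c0 c1 = D.R2 * Pl.den D.φ D.w p c0 c1 := by
  have h3 := D.e_s G
  unfold Pl.N2 Pl.hb2 Pl.ha2 Pl.l1n Pl.ln Pl.den Pl.dd
  rw [e_v, e_sa, e_sa, e_sa, D.e_x1n G, D.e_xn G, D.e_sbn G, D.e_sbn G, D.e_sbn G]
  unfold R2 Hb2 Ha2 L L1 P22
  set md := Pl.md D.φ D.w p c0 c1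
  set m1d := Pl.m1d D.φ D.w p c0 c1
  set W := Pl.w4 D.w p
  set S := Pl.s D.φ D.w p c0 c1
  obtain ⟨h, hh⟩ : ∃ h, h = D.φ (1 / 2) := ⟨_, rfl⟩
  rw [← hh]
  linear_combination (-(((p : A) ^ 2 * D.Sb 2 + (p : A) * (D.x1 - h * D.x1 ^ 2) * D.Sb 1 +
      h * D.x1 ^ 2 * D.Sb 0) * m1d ^ 2 * W * md ^ 2 * ((1 - 2 * D.V) ^ 2 * (1 + D.V) ^ 3) *
      S * (S * D.j3 + 1))) * h3

end Pt

end Pool.Agent.Helper91.SC
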