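import Mathlib
import Pool.Agent.Helper91.SC.Poly

/-!
Degree bounds and evaluation in the quadratic ring `ℚ[s]/(s^2+7)`.
-/

set_option autoImplicit false

namespace Pool.Agent.Helper91.SC

open Finset

/-- elements `c0 + c1 s`, `s^2 = -7`. -/
@[ext] structure Q7 where
  c0 : ℚ
  c1 : ℚ

namespace Q7

instance : Zero Q7 := ⟨⟨0, 0⟩⟩
instance : One Q7 := ⟨⟨1, 0⟩⟩
instance : Add Q7 := ⟨fun a b => ⟨a.c0 + b.c0, a.c1 + b.c1⟩⟩
instance : Neg Q7 := ⟨fun a => ⟨-a.c0, -a.c1⟩⟩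
instance : Mul Q7 := ⟨fun a b => ⟨a.c0 * b.c0 - 7 * a.c1 * b.c1, a.c0 * b.c1 + a.c1 * b.c0⟩⟩

@[simp] theorem zero_c0 : (0 : Q7).c0 = 0 := rfl
@[simp] theorem zero_c1 : (0 : Q7).c1 = 0 := rfl
@[simp] theorem one_c0 : (1 : Q7).c0 = 1 := rfl
@[simp] theorem one_c1 : (1 : Q7).c1 = 0 := rfl
@[simp] theorem add_c0 (a b : Q7) : (a + b).c0 = a.c0 + b.c0 := rfl
@[simp] theorem add_c1 (a b : Q7) : (a + b).c1 = a.c1 + b.c1 := rfl
@[simp] theorem neg_c0 (a : Q7) : (-a).c0 = -a.c0 := rfl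
@[simp] theorem neg_c1 (a : Q7) : (-a).c1 = -a.c1 := rfl
@[simp] theorem mul_c0 (a b : Q7) : (a * b).c0 = a.c0 * b.c0 - 7 * a.c1 * b.c1 := rfl
@[simp] theorem mul_c1 (a b : Q7) : (a * b).c1 = a.c0 * b.c1 + a.c1 * b.c0 := rfl

instance : CommRing Q7 where
  add_assoc a b c := by ext <;> simp <;> ring
  zero_add a := by ext <;> simp
  add_zero a := by ext <;> simp
  add_comm a b := by ext <;> simp <;> ring
  neg_add_cancel a := by ext <;> simp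
  mul_assoc a b c := by ext <;> simp <;> ring
  mul_comm a b := by ext <;> simp <;> ring
  one_mul a := by ext <;> simp
  mul_one a := by ext <;> simp
  left_distrib a b c := by ext <;> simp <;> ring
  right_distrib a b c := by ext <;> simp <;> ring
  zero_mul a := by ext <;> simp
  mul_zero a := by ext <;> simp
  nsmul := nsmulRec
  zsmul := zsmulRec

@[simp] theorem sub_c0 (a b : Q7) : (a - b).c0 = a.c0 - b.c0 := by
  rw [sub_eq_add_neg, sub_eq_add_neg]; rfl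
@[simp] theorem sub_c1 (a b : Q7) : (a - b).c1 = a.c1 - b.c1 := by
  rw [sub_eq_add_neg, sub_eq_add_neg]; rfl

/-- embedding of the rationals -/
def em : ℚ →+* Q7 where
  toFun x := ⟨x, 0⟩
  map_one' := rfl
  map_zero' := rfl
  map_mul' x y := by ext <;> simp
  map_add' x y := by ext <;> simp

@[simp] theorem em_c0 (x : ℚ) : (em x).c0 = x := rfl
@[simp] theorem em_c1 (x : ℚ) : (em x).c1 = 0 := rfl

/-- the square root of `-7` -/
def sq7 : Q7 := ⟨0, 1⟩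

theorem sq7_sq : sq7 ^ 2 = -7 := by
  have : (7 : Q7) = em 7 := by rw [map_ofNat]
  rw [this, sq]
  ext <;> simp [sq7]

end Q7

open Q7

/-- componentwise predicate -/
def DQ (D : ℕ → ℚ → Prop) (k : ℕ) (x : Q7) : Prop := D k x.c0 ∧ D k x.c1

theorem flt_q7 {D : ℕ → ℚ → Prop} (F : Flt D) : Flt (DQ D) where
  zero := fun k => ⟨F.zero k, F.zero k⟩
  one := ⟨F.one, F.zero 0⟩
  add := fun hx hy => ⟨F.add hx.1 hy.1, F.add hx.2 hy.2⟩
  neg := fun hx => ⟨F.neg hx.1, F.neg hx.2⟩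
  mul := fun {k l x y} hx hy => by
    refine ⟨?_, F.add (F.mul hx.1 hy.2) (F.mul hx.2 hy.1)⟩
    rw [mul_c0, mul_assoc]
    exact F.sub (F.mul hx.1 hy.1) (F.mulL (F.ofNat 7) (F.mul hx.2 hy.2))
  mono := fun h hx => ⟨F.mono h hx.1, F.mono h hx.2⟩

theorem dq_em {D : ℕ → ℚ → Prop} (F : Flt D) {k : ℕ} {x : ℚ} (h : D k x) : DQ D k (em x) :=
  ⟨h, F.zero k⟩

open Polynomial

section degree

theorem dga {f g : ℚ[X]} {N : ℕ} (hf : f.natDegree ≤ N) (hg : g.natDegree ≤ N) :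
    (f + g).natDegree ≤ N := natDegree_add_le_of_degree_le hf hg

theorem dgs {f g : ℚ[X]} {N : ℕ} (hf : f.natDegree ≤ N) (hg : g.natDegree ≤ N) :
    (f - g).natDegree ≤ N := by
  rw [sub_eq_add_neg]
  exact dga hf (by rw [natDegree_neg]; exact hg)

theorem dgm {f g : ℚ[X]} {m n N : ℕ} (hf : f.natDegree ≤ m) (hg : g.natDegree ≤ n)
    (h : m + n ≤ N) : (f * g).natDegree ≤ N := (natDegree_mul_le_of_le hf hg).trans h

theorem dgp {f : ℚ[X]} {m N : ℕ} (k : ℕ) (hf : f.natDegree ≤ m) (h : k * m ≤ N) :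
    (f ^ k).natDegree ≤ N := (natDegree_pow_le_of_le k hf).trans h

theorem dgC (r : ℚ) {N : ℕ} : (C r).natDegree ≤ N := by rw [natDegree_C]; exact Nat.zero_le _

theorem dgX {N : ℕ} (h : 1 ≤ N) : (X : ℚ[X]).natDegree ≤ N := natDegree_X_le.trans h

theorem dg1 {N : ℕ} : (1 : ℚ[X]).natDegree ≤ N := by rw [natDegree_one]; exact Nat.zero_le _

theorem dgn (n : ℕ) {N : ℕ} : (n : ℚ[X]).natDegree ≤ N := by
  rw [natDegree_natCast]; exact Nat.zero_le _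

theorem dgo (n : ℕ) [n.AtLeastTwo] {N : ℕ} : (ofNat(n) : ℚ[X]).natDegree ≤ N := by
  rw [natDegree_ofNat]; exact Nat.zero_le _

variable (p : ℕ) (c0 c1 : ℚ)

theorem dg_cv : (Pl.cv C X p c0 c1).natDegree ≤ 1 := by
  unfold Pl.cv
  exact dga dg1 (dgm (dgn p (N := 0)) (dga (dgC c0) (dgm (dgC c1 (N := 0)) (dgX le_rfl) le_rfl))
    (by omega))

theorem dg_v : (Pl.v C X p c0 c1).natDegree ≤ p + 1 := by
  unfold Pl.v
  exact dgm (dgp p (dgX le_rfl) le_rfl) (dg_cv p c0 c1) (by omega)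

theorem dg_w1 : (1 - X : ℚ[X]).natDegree ≤ 1 := dgs dg1 (dgX le_rfl)
theorem dg_w2 : (1 + X : ℚ[X]).natDegree ≤ 1 := dga dg1 (dgX le_rfl)

theorem dg_sum {N : ℕ} (s : Finset ℕ) (f : ℕ → ℚ[X]) (h : ∀ i ∈ s, (f i).natDegree ≤ N) :
    (∑ i ∈ s, f i).natDegree ≤ N := natDegree_sum_le_of_forall_le s f h

theorem dg_sa (i : Fin 3) : (Pl.sa C X p i).natDegree ≤ 2 * (p - 1) := by
  unfold Pl.sa
  apply dg_sum
  intro k hk
  have hk := mem_range.mp hk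
  exact dgm (dgC _ (N := 0)) (dgp k (dgm (dgm (dgC _ (N := 0)) (dgX le_rfl) le_rfl) dg_w1 le_rfl)
    le_rfl) (by omega)

theorem dg_sbn (i : Fin 3) : (Pl.sbn C X p i).natDegree ≤ 4 * (p - 1) := by
  unfold Pl.sbn
  apply dg_sum
  intro k hk
  have hk := mem_range.mp hk
  exact dgm (dgm (dgC _ (N := 0)) (dgp k (dgm (dgm (dgC _ (N := 0)) (dgX le_rfl) le_rfl)
    (dgp 2 dg_w1 le_rfl) le_rfl) le_rfl) le_rfl) (dgp _ dg_w2 le_rfl) (by omega)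

theorem dg_mn : (Pl.mn C X p).natDegree ≤ p := by
  unfold Pl.mn
  exact dgm (dgC _ (N := 0)) (dgp p dg_w1 le_rfl) (by omega)

theorem dg_md : (Pl.md C X p c0 c1).natDegree ≤ p + 2 := by
  unfold Pl.md
  exact dgm (dg_cv p c0 c1) (dgs dg1 (dg_v p c0 c1)) (by omega)

theorem dg_m1n : (Pl.m1n C X p c0 c1).natDegree ≤ 6 * p + 4 := by
  unfold Pl.m1n
  exact dgm (dgm (dgC _ (N := 0)) (dgp (2 * p) dg_w1 le_rfl) le_rfl)
    (dgp 4 (dga dg1 (dg_v p c0 c1)) le_rfl) (by omega)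

theorem dg_m1d : (Pl.m1d C X p c0 c1).natDegree ≤ 6 * p + 3 := by
  unfold Pl.m1d
  exact dgm (dgm (dgp (4 * p) dg_w2 le_rfl) (dg_cv p c0 c1) le_rfl)
    (dgp 2 (dgs dg1 (dg_v p c0 c1)) le_rfl) (by omega)

theorem dg_xn : (Pl.xn C X p c0 c1).natDegree ≤ p + 2 := by
  unfold Pl.xn
  exact dgs ((dg_mn p).trans (by omega)) (dg_md p c0 c1)

theorem dg_x1n : (Pl.x1n C X p c0 c1).natDegree ≤ 6 * p + 4 := by
  unfold Pl.x1n
  exact dgs (dg_m1n p c0 c1) ((dg_m1d p c0 c1).trans (by omega))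

theorem dg_w4 : (Pl.w4 (X : ℚ[X]) p).natDegree ≤ 4 * (p - 1) := by
  unfold Pl.w4
  exact dgp (4 * (p - 1)) dg_w2 (by omega)

theorem dg_s : (Pl.s C X p c0 c1).natDegree ≤ 2 * p + 2 := by
  unfold Pl.s
  exact dga (dgs dg1 (dgm (dgo 6 (N := 0)) (dg_v p c0 c1) (by omega)))
    (dgp 2 (dg_v p c0 c1) (by omega))

theorem dg_ln : (Pl.ln C X p c0 c1).natDegree ≤ 2 * p + 4 := by
  unfold Pl.ln
  exact dgs (dgm (dg_xn p c0 c1) (dg_md p c0 c1) (by omega))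
    (dgm (dgC _ (N := 0)) (dgp 2 (dg_xn p c0 c1) le_rfl) (by omega))

theorem dg_l1n : (Pl.l1n C X p c0 c1).natDegree ≤ 12 * p + 8 := by
  unfold Pl.l1n
  exact dgs (dgm (dg_x1n p c0 c1) (dg_m1d p c0 c1) (by omega))
    (dgm (dgC _ (N := 0)) (dgp 2 (dg_x1n p c0 c1) le_rfl) (by omega))

theorem dg_hb0 : (Pl.hb0 C X p c0 c1).natDegree ≤ 16 * p + 6 := by
  unfold Pl.hb0
  exact dgm (dg_sbn p 0) (dgp 2 (dg_m1d p c0 c1) le_rfl) (by omega)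

theorem dg_hb1 : (Pl.hb1 C X p c0 c1).natDegree ≤ 16 * p + 8 := by
  unfold Pl.hb1
  exact dga (dgm (dgm (dgn p (N := 0)) (dg_sbn p 1) le_rfl) (dgp 2 (dg_m1d p c0 c1) le_rfl)
    (by omega)) (dgm (dg_l1n p c0 c1) (dg_sbn p 0) (by omega))

theorem dg_hb2 : (Pl.hb2 C X p c0 c1).natDegree ≤ 16 * p + 8 := by
  unfold Pl.hb2
  exact dga (dga (dgm (dgm (dgp 2 (dgn p (N := 0)) le_rfl) (dg_sbn p 2) le_rfl)
    (dgp 2 (dg_m1d p c0 c1) le_rfl) (by omega))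
    (dgm (dgm (dgn p (N := 0)) (dg_l1n p c0 c1) le_rfl) (dg_sbn p 1) (by omega)))
    (dgm (dgm (dgC _ (N := 0)) (dgp 2 (dg_x1n p c0 c1) le_rfl) le_rfl) (dg_sbn p 0) (by omega))

theorem dg_ha0 : (Pl.ha0 C X p c0 c1).natDegree ≤ 4 * p + 4 := by
  unfold Pl.ha0
  exact dgm (dg_sa p 0) (dgp 2 (dg_md p c0 c1) le_rfl) (by omega)

theorem dg_ha1 : (Pl.ha1 C X p c0 c1).natDegree ≤ 4 * p + 4 := by
  unfold Pl.ha1
  exact dga (dgm (dgm (dgn p (N := 0)) (dg_sa p 1) le_rfl) (dgp 2 (dg_md p c0 c1) le_rfl)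
    (by omega)) (dgm (dg_ln p c0 c1) (dg_sa p 0) (by omega))

theorem dg_ha2 : (Pl.ha2 C X p c0 c1).natDegree ≤ 4 * p + 4 := by
  unfold Pl.ha2
  exact dga (dga (dgm (dgm (dgp 2 (dgn p (N := 0)) le_rfl) (dg_sa p 2) le_rfl)
    (dgp 2 (dg_md p c0 c1) le_rfl) (by omega))
    (dgm (dgm (dgn p (N := 0)) (dg_ln p c0 c1) le_rfl) (dg_sa p 1) (by omega)))
    (dgm (dgm (dgC _ (N := 0)) (dgp 2 (dg_xn p c0 c1) le_rfl) le_rfl) (dg_sa p 0) (by omega))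

theorem dg_dd : (Pl.dd C X p c0 c1).natDegree ≤ 22 * p + 12 := by
  unfold Pl.dd
  exact dgm (dgm (dgp 2 (dg_m1d p c0 c1) le_rfl) (dg_w4 p) le_rfl)
    (dgp 3 (dg_s p c0 c1) le_rfl) (by omega)

theorem dg_wv : (1 + Pl.v C X p c0 c1).natDegree ≤ p + 1 := dga dg1 (dg_v p c0 c1)

theorem dg_vk (k : ℕ) : (Pl.v C X p c0 c1 ^ k).natDegree ≤ k * (p + 1) :=
  dgp k (dg_v p c0 c1) le_rfl

theorem dg_N0 (hp : 29 ≤ p) : (Pl.N0 C X p c0 c1).natDegree < p ^ 2 := by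
  have hv := dg_v p c0 c1
  have h1 : (Pl.N0 C X p c0 c1).natDegree ≤ 26 * p + 19 := by
    unfold Pl.N0
    refine dgs (dga (dga ?_ ?_) ?_) ?_
    · exact dgm (dgm (dgm (dg_hb0 p c0 c1) (dgp 2 (dg_md p c0 c1) le_rfl) le_rfl)
        (dg_wv p c0 c1) le_rfl) (dgp 3 (dg_s p c0 c1) le_rfl) (by omega)
    · exact dgm (dgm (dgm (dg_hb1 p c0 c1) (dgp 2 (dg_md p c0 c1) le_rfl) le_rfl)
        (dgs (N := 3 * (p + 1)) (hv.trans (by omega)) (dg_vk p c0 c1 3)) le_rfl)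
        (dgp 2 (dg_s p c0 c1) le_rfl) (by omega)
    · refine dgm (n := 7 * (p + 1)) (dgm (dg_hb2 p c0 c1) (dgp 2 (dg_md p c0 c1) le_rfl) le_rfl)
        (dgm (m := 2 * (p + 1)) (n := 5 * (p + 1)) (dgs dg1 (dg_vk p c0 c1 2)) ?_ (by omega))
        (by omega)
      exact dgs (dga (dgs (hv.trans (by omega)) (dgm (dgo 4 (N := 0)) (dg_vk p c0 c1 3)
        (by omega))) (dgm (dgo 12 (N := 0)) (dg_vk p c0 c1 4) (by omega))) (dg_vk p c0 c1 5)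
    · exact dgm (dgm dg_w2 (dg_ha0 p c0 c1) le_rfl) (dg_dd p c0 c1) (by omega)
  have h2 : 29 * p ≤ p * p := Nat.mul_le_mul_right _ hp
  rw [sq]
  omega

theorem dg_N1 (hp : 29 ≤ p) : (Pl.N1 C X p c0 c1).natDegree < p ^ 2 := by
  have hv := dg_v p c0 c1
  have h1 : (Pl.N1 C X p c0 c1).natDegree ≤ 26 * p + 19 := by
    unfold Pl.N1
    refine dgs (dga ?_ ?_) ?_
    · exact dgm (dgm (dgm (dg_hb1 p c0 c1) (dgp 2 (dg_md p c0 c1) le_rfl) le_rfl)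
        (dgm (dgs (N := p + 1) dg1 (dgm (dgo 2 (N := 0)) hv (by omega)))
          (dgp 2 (dg_wv p c0 c1) le_rfl) le_rfl) le_rfl)
        (dgp 2 (dg_s p c0 c1) le_rfl) (by omega)
    · refine dgm (n := 7 * (p + 1)) (dgm (dg_hb2 p c0 c1) (dgp 2 (dg_md p c0 c1) le_rfl) le_rfl)
        (dgm (m := 2 * (p + 1)) (n := 5 * (p + 1)) (dgs dg1 (dg_vk p c0 c1 2)) ?_ (by omega))
        (by omega)
      exact dgs (dga (dga (dgs (dgm (dgo 7 (N := 0)) hv (by omega)) (dgm (dgo 15 (N := 0))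
        (dg_vk p c0 c1 2) (by omega))) (dgm (dgo 17 (N := 0)) (dg_vk p c0 c1 3) (by omega)))
        (dgm (dgo 35 (N := 0)) (dg_vk p c0 c1 4) (by omega)))
        (dgm (dgo 4 (N := 0)) (dg_vk p c0 c1 5) (by omega))
    · exact dgm (dgm dg_w2 (dg_ha1 p c0 c1) le_rfl) (dg_dd p c0 c1) (by omega)
  have h2 : 29 * p ≤ p * p := Nat.mul_le_mul_right _ hp
  rw [sq]
  omega

theorem dg_N2 (hp : 29 ≤ p) : (Pl.N2 C X p c0 c1).natDegree < p ^ 2 := by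
  have hv := dg_v p c0 c1
  have h1 : (Pl.N2 C X p c0 c1).natDegree ≤ 26 * p + 19 := by
    unfold Pl.N2
    refine dgs ?_ ?_
    · exact dgm (dgm (dgm (dg_hb2 p c0 c1) (dgp 2 (dg_md p c0 c1) le_rfl) le_rfl)
        (dgm (dgp 2 (dgs (N := p + 1) dg1 (dgm (dgo 2 (N := 0)) hv (by omega))) le_rfl)
          (dgp 3 (dg_wv p c0 c1) le_rfl) le_rfl) le_rfl)
        (dg_s p c0 c1) (by omega)
    · exact dgm (dgm dg_w2 (dg_ha2 p c0 c1) le_rfl) (dg_dd p c0 c1) (by omega)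
  have h2 : 29 * p ≤ p * p := Nat.mul_le_mul_right _ hp
  rw [sq]
  omega

end degree

end Pool.Agent.Helper91.SC
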