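import Mathlib
import Pool.Agent.Helper91.SC.Q7

/-!
Evaluation at the quadratic point.
-/

set_option autoImplicit false

namespace Pool.Agent.Helper91.SC

open Finset Q7

theorem den_int {A : Type} [CommRing A] {D : ℕ → A → Prop} (F : Flt D) (φ : ℚ →+* A) (w : A)
    (p : ℕ) (c0 c1 : ℚ) (hw : D 0 w) (h0 : D 0 (φ c0)) (h1 : D 0 (φ c1)) :
    D 0 (Pl.den φ w p c0 c1) := by
  have hcv : D 0 (Pl.cv φ w p c0 c1) := by
    unfold Pl.cv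
    exact F.add F.one (F.mulL (F.nat p) (F.add h0 (F.mulL h1 hw)))
  have hv : D 0 (Pl.v φ w p c0 c1) := by
    unfold Pl.v; exact F.mulL (F.pow hw p) hcv
  have hw1 : D 0 (1 + w) := F.add F.one hw
  have h1v := F.sub F.one hv
  have hmd : D 0 (Pl.md φ w p c0 c1) := by unfold Pl.md; exact F.mulL hcv h1v
  have hm1 : D 0 (Pl.m1d φ w p c0 c1) := by
    unfold Pl.m1d; exact F.mulL (F.mulL (F.pow hw1 _) hcv) (F.pow h1v 2)
  have hs : D 0 (Pl.s φ w p c0 c1) := by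
    unfold Pl.s; exact F.add (F.sub F.one (F.mulL (F.ofNat 6) hv)) (F.pow hv 2)
  have hw4 : D 0 (Pl.w4 w p) := by unfold Pl.w4; exact F.pow hw1 _
  unfold Pl.den Pl.dd
  exact F.mulL (F.mulL (F.mulL (F.pow hm1 2) hw4) (F.pow hs 3)) (F.pow hmd 2)

section
variable {p : ℕ} (hp : p.Prime)

open Polynomial in
include hp in
theorem coeffs (h29 : 29 ≤ p) {c0 c1 : ℚ} (hc0 : Dv p 0 c0) (hc1 : Dv p 0 c1) :
    (∀ n, Dv p 3 ((Pl.N0 (C : ℚ →+* ℚ[X]) X p c0 c1).coeff n)) ∧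
    (∀ n, Dv p 3 ((Pl.N1 (C : ℚ →+* ℚ[X]) X p c0 c1).coeff n)) ∧
    (∀ n, Dv p 3 ((Pl.N2 (C : ℚ →+* ℚ[X]) X p c0 c1).coeff n)) := by
  have FQ := flt_rat hp
  have F := flt_ps FQ (p ^ 2)
  have G := ptQ_good hp hc0 (c1 := c1)
  obtain ⟨r0, r1, r2⟩ := ptQ_R hp (by omega) hc0 hc1
  have hd : PS (Dv p) (p ^ 2) 0 (Pl.den (ptQ p c0 c1).φ (ptQ p c0 c1).w p c0 c1) :=
    den_int F _ _ p c0 c1 (ps_X FQ _) (ps_C FQ _ hc0) (ps_C FQ _ hc1)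
  set ψ : ℚ[X] →+* PowerSeries ℚ := Polynomial.coeToPowerSeries.ringHom with hψ
  have hφ : ψ.comp (C : ℚ →+* ℚ[X]) = (ptQ p c0 c1).φ := by
    apply RingHom.ext
    intro r
    show ((C r : ℚ[X]) : PowerSeries ℚ) = PowerSeries.C r
    exact Polynomial.coe_C r
  have hw : ψ X = (ptQ p c0 c1).w := by
    show ((X : ℚ[X]) : PowerSeries ℚ) = PowerSeries.X
    exact Polynomial.coe_X
  have key : ∀ (f : ℚ[X]) (R : PowerSeries ℚ), ψ f = R * Pl.den (ptQ p c0 c1).φ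
      (ptQ p c0 c1).w p c0 c1 → PS (Dv p) (p ^ 2) 3 R → f.natDegree < p ^ 2 →
      ∀ n, Dv p 3 (f.coeff n) := by
    intro f R h1 h2 h3 n
    by_cases hn : n < p ^ 2
    · have h4 := F.mulR h2 hd n hn
      rw [← h1] at h4
      have h5 : PowerSeries.coeff n (ψ f) = f.coeff n := Polynomial.coeff_coe f n
      rw [h5] at h4
      exact h4
    · rw [coeff_eq_zero_of_natDegree_lt (by omega)]
      exact Dv_zero_mem hp 3
  refine ⟨key _ _ ?_ r0 (dg_N0 p c0 c1 h29), key _ _ ?_ r1 (dg_N1 p c0 c1 h29),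
    key _ _ ?_ r2 (dg_N2 p c0 c1 h29)⟩
  · rw [Pl.map_N0, hφ, hw, Pt.e_N0 _ G]
  · rw [Pl.map_N1, hφ, hw, Pt.e_N1 _ G]
  · rw [Pl.map_N2, hφ, hw, Pt.e_N2 _ G]

open Polynomial in
include hp in
/-- evaluation at a point of the quadratic ring -/
theorem evalQ (h29 : 29 ≤ p) {c0 c1 : ℚ} (hc0 : Dv p 0 c0) (hc1 : Dv p 0 c1) (D : Pt Q7 p c0 c1)
    (G : D.Good) (hφ : D.φ = Q7.em) (hw : DQ (Dv p) 0 D.w) (d2 : DQ (Dv p) 0 D.i2)
    (dC : DQ (Dv p) 0 D.iC) (e1 : DQ (Dv p) 0 D.j1) (e3 : DQ (Dv p) 0 D.j3) :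
    DQ (Dv p) 3 D.R0 ∧ DQ (Dv p) 3 D.R1 ∧ DQ (Dv p) 3 D.R2 := by
  have FQ := flt_rat hp
  have F := flt_q7 FQ
  obtain ⟨n0, n1, n2⟩ := coeffs hp h29 hc0 hc1
  set ψ : ℚ[X] →+* Q7 := Polynomial.eval₂RingHom Q7.em D.w with hψ
  have ev : ∀ f : ℚ[X], (∀ n, Dv p 3 (f.coeff n)) → DQ (Dv p) 3 (ψ f) := by
    intro f hf
    have e : ψ f = ∑ i ∈ range (f.natDegree + 1), Q7.em (f.coeff i) * D.w ^ i :=
      Polynomial.eval₂_eq_sum_range Q7.em D.w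
    rw [e]
    apply F.sum
    intro i _
    exact F.mulR (dq_em FQ (hf i)) (F.pow hw i)
  have hφ2 : ψ.comp (C : ℚ →+* ℚ[X]) = D.φ := by
    rw [hφ]
    apply RingHom.ext
    intro r
    exact Polynomial.eval₂_C Q7.em D.w
  have hw2 : ψ X = D.w := Polynomial.eval₂_X Q7.em D.w
  have hid : DQ (Dv p) 0 D.iden := by
    unfold Pt.iden
    exact F.mulL (F.mulL (F.mulL (F.pow (F.mulL (F.mulL (F.pow d2 _) dC) (F.pow e1 2)) 2)
      (F.pow d2 _)) (F.pow e3 3)) (F.pow (F.mulL dC e1) 2)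
  have hden := D.e_den G
  have fin : ∀ N R : Q7, N = R * Pl.den D.φ D.w p c0 c1 → DQ (Dv p) 3 N → DQ (Dv p) 3 R := by
    intro N R h1 h2
    have e : R = N * D.iden := by
      rw [h1]
      linear_combination (-R) * hden
    rw [e]
    exact F.mulR h2 hid
  have m0 := ev _ n0
  have m1 := ev _ n1
  have m2 := ev _ n2
  rw [Pl.map_N0, hφ2, hw2] at m0
  rw [Pl.map_N1, hφ2, hw2] at m1
  rw [Pl.map_N2, hφ2, hw2] at m2
  exact ⟨fin _ _ (D.e_N0 G) m0, fin _ _ (D.e_N1 G) m1, fin _ _ (D.e_N2 G) m2⟩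

end

end Pool.Agent.Helper91.SC
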