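import Mathlib
import Pool.Agent.Helper91.SC.Eval

/-!
The quadratic points and the resulting congruences.
-/

set_option autoImplicit false

namespace Pool.Agent.Helper91.SC

open Finset T3

namespace Q7

@[simp] theorem ofNat_c0 (n : ℕ) [n.AtLeastTwo] : (ofNat(n) : Q7).c0 = n := by
  have : (ofNat(n) : Q7) = em (ofNat(n) : ℚ) := by rw [map_ofNat]
  rw [this, em_c0]
  rfl
@[simp] theorem ofNat_c1 (n : ℕ) [n.AtLeastTwo] : (ofNat(n) : Q7).c1 = 0 := by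
  have : (ofNat(n) : Q7) = em (ofNat(n) : ℚ) := by rw [map_ofNat]
  rw [this, em_c1]

end Q7

/-- truncated sums -/
noncomputable def Am (p : ℕ) (i : Fin 3) : ℚ := ∑ k ∈ range p, cmp i (hseq Pa 1 k)
/-- truncated sums -/
noncomputable def Bm (p : ℕ) (i : Fin 3) : ℚ :=
  ∑ k ∈ range p, cmp i (hseq Pb 1 k) * (1 / 81) ^ k

/-- the quadratic point -/
def pt7 (p : ℕ) (c0 c1 ε : ℚ) : Pt Q7 p c0 c1 where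
  φ := Q7.em
  w := ⟨1 / 2, 3 / 2⟩
  i2 := ⟨1 / 12, -1 / 12⟩
  iC := (⟨1 / 2, 3 / 2⟩ : Q7) ^ p * ⟨1 / 32, -(3 * ε / 32)⟩
  j1 := ⟨1 / 32, 3 * ε / 32⟩
  j2 := ⟨1 / 12, -(ε / 12)⟩
  j3 := ⟨-1 / 40, 3 * ε / 280⟩

section
variable {p : ℕ} {c0 c1 ε : ℚ} (hε : ε ^ 2 = 1)
  (hV : (⟨1 / 2, 3 / 2⟩ : Q7) ^ p * (1 + (p : Q7) * (Q7.em c0 + Q7.em c1 * ⟨1 / 2, 3 / 2⟩)) =
    ⟨1 / 2, 3 * ε / 2⟩)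

include hV in
theorem pt7_V : (pt7 p c0 c1 ε).V = ⟨1 / 2, 3 * ε / 2⟩ := hV

include hε hV in
theorem pt7_good : (pt7 p c0 c1 ε).Good where
  h2 := by
    show (1 + (⟨1 / 2, 3 / 2⟩ : Q7)) * ⟨1 / 12, -1 / 12⟩ = 1
    ext <;> simp <;> norm_num
  hC := by
    show (1 + (p : Q7) * (Q7.em c0 + Q7.em c1 * ⟨1 / 2, 3 / 2⟩)) *
      ((⟨1 / 2, 3 / 2⟩ : Q7) ^ p * ⟨1 / 32, -(3 * ε / 32)⟩) = 1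
    rw [← mul_assoc, mul_comm _ ((⟨1 / 2, 3 / 2⟩ : Q7) ^ p), hV]
    ext
    · simp
      linear_combination (63 / 64) * hε
    · simp
      ring
  k1 := by
    rw [pt7_V hV]
    show (1 - (⟨1 / 2, 3 * ε / 2⟩ : Q7)) * ⟨1 / 32, 3 * ε / 32⟩ = 1
    ext
    · simp
      linear_combination (63 / 64) * hε
    · simp
      ring
  k2 := by
    rw [pt7_V hV]
    show (1 + (⟨1 / 2, 3 * ε / 2⟩ : Q7)) * ⟨1 / 12, -(ε / 12)⟩ = 1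
    ext
    · simp
      linear_combination (7 / 8) * hε
    · simp
      ring
  k3 := by
    rw [pt7_V hV]
    show (1 - 6 * (⟨1 / 2, 3 * ε / 2⟩ : Q7) + (⟨1 / 2, 3 * ε / 2⟩ : Q7) ^ 2) *
      ⟨-1 / 40, 3 * ε / 280⟩ = 1
    rw [sq]
    ext
    · simp
      linear_combination (153 / 160) * hε
    · simp
      linear_combination (-(27 / 160) * ε) * hε

theorem pt7_t : (pt7 p c0 c1 ε).t = 1 := by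
  show Q7.em (1 / 16) * (⟨1 / 2, 3 / 2⟩ : Q7) * (1 - ⟨1 / 2, 3 / 2⟩) = 1
  ext <;> simp <;> norm_num

theorem pt7_t1 : (pt7 p c0 c1 ε).t1 = Q7.em (1 / 81) := by
  show Q7.em (1 / 16) * (⟨1 / 2, 3 / 2⟩ : Q7) * (1 - ⟨1 / 2, 3 / 2⟩) ^ 2 *
    (⟨1 / 12, -1 / 12⟩ : Q7) ^ 4 = Q7.em (1 / 81)
  have e : (⟨1 / 12, -1 / 12⟩ : Q7) ^ 4 =
    (⟨1 / 12, -1 / 12⟩ * ⟨1 / 12, -1 / 12⟩) * (⟨1 / 12, -1 / 12⟩ * ⟨1 / 12, -1 / 12⟩) := by ring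
  rw [e, sq]
  ext <;> simp <;> norm_num

include hε in
theorem pt7_x (hp : 1 ≤ p) : (pt7 p c0 c1 ε).x = 0 := by
  show Q7.em ((1 / 16) ^ (p - 1)) * ((1 - (⟨1 / 2, 3 / 2⟩ : Q7)) ^ p * ⟨1 / 32, 3 * ε / 32⟩) *
    ((⟨1 / 2, 3 / 2⟩ : Q7) ^ p * ⟨1 / 32, -(3 * ε / 32)⟩) - 1 = 0
  have e1 : ((1 - (⟨1 / 2, 3 / 2⟩ : Q7)) * ⟨1 / 2, 3 / 2⟩) = Q7.em 16 := by
    ext <;> simp <;> norm_num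
  have e2 : (⟨1 / 32, 3 * ε / 32⟩ : Q7) * ⟨1 / 32, -(3 * ε / 32)⟩ = Q7.em (1 / 16) := by
    ext
    · simp
      linear_combination (63 / 1024) * hε
    · simp
      ring
  have e3 : Q7.em ((1 / 16) ^ (p - 1)) * ((1 - (⟨1 / 2, 3 / 2⟩ : Q7)) ^ p *
      ⟨1 / 32, 3 * ε / 32⟩) * ((⟨1 / 2, 3 / 2⟩ : Q7) ^ p * ⟨1 / 32, -(3 * ε / 32)⟩) =
      Q7.em ((1 / 16) ^ (p - 1)) * ((1 - (⟨1 / 2, 3 / 2⟩ : Q7)) * ⟨1 / 2, 3 / 2⟩) ^ p *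
      ((⟨1 / 32, 3 * ε / 32⟩ : Q7) * ⟨1 / 32, -(3 * ε / 32)⟩) := by
    rw [mul_pow]; ring
  rw [e3, e1, e2, ← map_pow, ← map_mul, ← map_mul]
  have e4 : (1 / 16 : ℚ) ^ (p - 1) * 16 ^ p * (1 / 16) = 1 := by
    obtain ⟨q, rfl⟩ : ∃ q, p = q + 1 := ⟨p - 1, by omega⟩
    rw [Nat.add_sub_cancel, pow_succ, ← mul_assoc, ← mul_pow]
    norm_num
  rw [e4, map_one, sub_self]

include hε hV in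
theorem pt7_x1 (hp : 1 ≤ p) : (pt7 p c0 c1 ε).x1 = Q7.em ((1 / 81) ^ (p - 1) - 1) := by
  have h : (pt7 p c0 c1 ε).x1 = Q7.em ((1 / 16) ^ (p - 1)) *
      ((1 - (⟨1 / 2, 3 / 2⟩ : Q7)) ^ p * ⟨1 / 32, 3 * ε / 32⟩) ^ 2 *
      ((1 + (pt7 p c0 c1 ε).V) * (⟨1 / 12, -1 / 12⟩ : Q7) ^ p) ^ 4 *
    ((⟨1 / 2, 3 / 2⟩ : Q7) ^ p * ⟨1 / 32, -(3 * ε / 32)⟩) - 1 := rfl
  rw [h, pt7_V hV]
  have e1 : ((1 - (⟨1 / 2, 3 / 2⟩ : Q7)) * ⟨1 / 2, 3 / 2⟩) = Q7.em 16 := by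
    ext <;> simp <;> norm_num
  have e2 : (⟨1 / 32, 3 * ε / 32⟩ : Q7) * ⟨1 / 32, -(3 * ε / 32)⟩ = Q7.em (1 / 16) := by
    ext
    · simp
      linear_combination (63 / 1024) * hε
    · simp
      ring
  have e5 : (1 - (⟨1 / 2, 3 / 2⟩ : Q7)) * ((⟨1 / 12, -1 / 12⟩ * ⟨1 / 12, -1 / 12⟩) *
      (⟨1 / 12, -1 / 12⟩ * ⟨1 / 12, -1 / 12⟩)) = Q7.em (1 / 81) := by
    ext <;> simp <;> norm_num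
  have e6 : (⟨1 / 32, 3 * ε / 32⟩ : Q7) * (((1 + ⟨1 / 2, 3 * ε / 2⟩) *
      (1 + ⟨1 / 2, 3 * ε / 2⟩)) * ((1 + ⟨1 / 2, 3 * ε / 2⟩) * (1 + ⟨1 / 2, 3 * ε / 2⟩))) =
      Q7.em 81 := by
    ext
    · simp
      linear_combination (-729 / 16 + 35721 / 512 * (ε ^ 2 + 1) - 45927 / 256 +
        3969 / 128 * ε ^ 2 + 30213 / 128) * hε
    · simp
      linear_combination (ε * (729 / 8) + ε * (11907 / 512 * ε ^ 2 - 47223 / 512)) * hε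
  have e3 : Q7.em ((1 / 16) ^ (p - 1)) *
      ((1 - (⟨1 / 2, 3 / 2⟩ : Q7)) ^ p * ⟨1 / 32, 3 * ε / 32⟩) ^ 2 *
      ((1 + ⟨1 / 2, 3 * ε / 2⟩) * (⟨1 / 12, -1 / 12⟩ : Q7) ^ p) ^ 4 *
    ((⟨1 / 2, 3 / 2⟩ : Q7) ^ p * ⟨1 / 32, -(3 * ε / 32)⟩) =
      Q7.em ((1 / 16) ^ (p - 1)) * ((1 - (⟨1 / 2, 3 / 2⟩ : Q7)) * ⟨1 / 2, 3 / 2⟩) ^ p *
      ((1 - (⟨1 / 2, 3 / 2⟩ : Q7)) * ((⟨1 / 12, -1 / 12⟩ * ⟨1 / 12, -1 / 12⟩) *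
      (⟨1 / 12, -1 / 12⟩ * ⟨1 / 12, -1 / 12⟩))) ^ p *
      ((⟨1 / 32, 3 * ε / 32⟩ : Q7) * ⟨1 / 32, -(3 * ε / 32)⟩) *
      ((⟨1 / 32, 3 * ε / 32⟩ : Q7) * (((1 + ⟨1 / 2, 3 * ε / 2⟩) *
      (1 + ⟨1 / 2, 3 * ε / 2⟩)) * ((1 + ⟨1 / 2, 3 * ε / 2⟩) * (1 + ⟨1 / 2, 3 * ε / 2⟩)))) := by
    simp only [mul_pow]; ring
  rw [e3, e1, e2, e5, e6, ← map_pow, ← map_pow, ← map_mul, ← map_mul, ← map_mul, ← map_mul,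
    map_sub, map_one]
  congr 2
  obtain ⟨q, rfl⟩ : ∃ q, p = q + 1 := ⟨p - 1, by omega⟩
  rw [Nat.add_sub_cancel, pow_succ, pow_succ]
  have : (1 / 16 : ℚ) ^ q * 16 ^ q = 1 := by rw [← mul_pow]; norm_num
  linear_combination ((1 / 81) ^ q) * this

theorem pt7_Sa (i : Fin 3) : (pt7 p c0 c1 ε).Sa i = Q7.em (Am p i) := by
  unfold Pt.Sa Am
  rw [map_sum, pt7_t]
  apply sum_congr rfl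
  intro k _
  rw [one_pow, mul_one]
  rfl

theorem pt7_Sb (i : Fin 3) : (pt7 p c0 c1 ε).Sb i = Q7.em (Bm p i) := by
  unfold Pt.Sb Bm
  rw [map_sum, pt7_t1]
  apply sum_congr rfl
  intro k _
  rw [map_mul, map_pow]
  rfl

/-- shorthand -/
noncomputable def xi (p : ℕ) : ℚ := (1 / 81) ^ (p - 1) - 1
/-- shorthand -/
noncomputable def hb1 (p : ℕ) : ℚ := p * Bm p 1 + (xi p - 1 / 2 * xi p ^ 2) * Bm p 0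
/-- shorthand -/
noncomputable def hb2 (p : ℕ) : ℚ :=
  p ^ 2 * Bm p 2 + p * (xi p - 1 / 2 * xi p ^ 2) * Bm p 1 + 1 / 2 * xi p ^ 2 * Bm p 0
/-- shorthand -/
noncomputable def ha1 (p : ℕ) : ℚ := p * Am p 1
/-- shorthand -/
noncomputable def ha2 (p : ℕ) : ℚ := p ^ 2 * Am p 2

theorem em_p (p : ℕ) : (p : Q7) = Q7.em (p : ℚ) := by rw [map_natCast]

include hε hV in
theorem pt7_Hb1 (hp : 1 ≤ p) : (pt7 p c0 c1 ε).Hb1 = Q7.em (hb1 p) := by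
  unfold Pt.Hb1 Pt.L1
  rw [pt7_x1 hε hV hp, pt7_Sb, pt7_Sb, em_p]
  unfold hb1 xi
  show Q7.em (p : ℚ) * Q7.em (Bm p 1) + (Q7.em ((1 / 81) ^ (p - 1) - 1) - Q7.em (1 / 2) *
    Q7.em ((1 / 81) ^ (p - 1) - 1) ^ 2) * Q7.em (Bm p 0) = _
  rw [← map_pow, ← map_mul, ← map_mul, ← map_sub, ← map_mul, ← map_add]

include hε hV in
theorem pt7_Hb2 (hp : 1 ≤ p) : (pt7 p c0 c1 ε).Hb2 = Q7.em (hb2 p) := by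
  unfold Pt.Hb2 Pt.L1
  rw [pt7_x1 hε hV hp, pt7_Sb, pt7_Sb, pt7_Sb, em_p]
  unfold hb2 xi
  show Q7.em (p : ℚ) ^ 2 * Q7.em (Bm p 2) + Q7.em (p : ℚ) *
    (Q7.em ((1 / 81) ^ (p - 1) - 1) - Q7.em (1 / 2) *
    Q7.em ((1 / 81) ^ (p - 1) - 1) ^ 2) * Q7.em (Bm p 1) + Q7.em (1 / 2) *
      Q7.em ((1 / 81) ^ (p - 1) - 1) ^ 2 * Q7.em (Bm p 0) = _
  simp only [← map_pow, ← map_mul, ← map_sub, ← map_add]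

include hε in
theorem pt7_L (hp : 1 ≤ p) : (pt7 p c0 c1 ε).L = 0 := by
  unfold Pt.L
  rw [pt7_x hε hp]
  ring

include hε in
theorem pt7_Ha1 (hp : 1 ≤ p) : (pt7 p c0 c1 ε).Ha1 = Q7.em (ha1 p) := by
  unfold Pt.Ha1
  rw [pt7_L hε hp, pt7_Sa, pt7_Sa, em_p, zero_mul, add_zero, ← map_mul]
  rfl

include hε in
theorem pt7_Ha2 (hp : 1 ≤ p) : (pt7 p c0 c1 ε).Ha2 = Q7.em (ha2 p) := by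
  unfold Pt.Ha2
  rw [pt7_L hε hp, pt7_x hε hp, pt7_Sa, pt7_Sa, pt7_Sa, em_p, mul_zero, zero_mul, add_zero,
    zero_pow (by norm_num), mul_zero, zero_mul, add_zero, ← map_pow, ← map_mul]
  rfl

include hε hV in
theorem pt7_R0 (hp : 1 ≤ p) : (pt7 p c0 c1 ε).R0 = Q7.em (Bm p 0) * (1 + ⟨1 / 2, 3 * ε / 2⟩) +
    Q7.em (hb1 p) * ((⟨1 / 2, 3 * ε / 2⟩ - ⟨1 / 2, 3 * ε / 2⟩ ^ 3) * ⟨-1 / 40, 3 * ε / 280⟩) +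
    Q7.em (hb2 p) * ((1 - ⟨1 / 2, 3 * ε / 2⟩ ^ 2) * (⟨1 / 2, 3 * ε / 2⟩ -
      4 * ⟨1 / 2, 3 * ε / 2⟩ ^ 3 + 12 * ⟨1 / 2, 3 * ε / 2⟩ ^ 4 - ⟨1 / 2, 3 * ε / 2⟩ ^ 5) *
      ⟨-1 / 40, 3 * ε / 280⟩ ^ 3) - (1 + ⟨1 / 2, 3 / 2⟩) * Q7.em (Am p 0) := by
  unfold Pt.R0 Pt.P10 Pt.P20
  rw [pt7_Hb1 hε hV hp, pt7_Hb2 hε hV hp, pt7_Sa, pt7_Sb, pt7_V hV]
  rfl

include hε hV in
theorem pt7_R1 (hp : 1 ≤ p) : (pt7 p c0 c1 ε).R1 =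
    Q7.em (hb1 p) * ((1 - 2 * ⟨1 / 2, 3 * ε / 2⟩) * (1 + ⟨1 / 2, 3 * ε / 2⟩) ^ 2 *
      ⟨-1 / 40, 3 * ε / 280⟩) +
    Q7.em (hb2 p) * ((1 - ⟨1 / 2, 3 * ε / 2⟩ ^ 2) * (7 * ⟨1 / 2, 3 * ε / 2⟩ -
      15 * ⟨1 / 2, 3 * ε / 2⟩ ^ 2 + 17 * ⟨1 / 2, 3 * ε / 2⟩ ^ 3 +
      35 * ⟨1 / 2, 3 * ε / 2⟩ ^ 4 - 4 * ⟨1 / 2, 3 * ε / 2⟩ ^ 5) *
      ⟨-1 / 40, 3 * ε / 280⟩ ^ 3) - (1 + ⟨1 / 2, 3 / 2⟩) * Q7.em (ha1 p) := by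
  unfold Pt.R1 Pt.P11 Pt.P21
  rw [pt7_Hb1 hε hV hp, pt7_Hb2 hε hV hp, pt7_Ha1 hε hp, pt7_V hV]
  rfl

include hε hV in
theorem pt7_R2 (hp : 1 ≤ p) : (pt7 p c0 c1 ε).R2 =
    Q7.em (hb2 p) * ((1 - 2 * ⟨1 / 2, 3 * ε / 2⟩) ^ 2 * (1 + ⟨1 / 2, 3 * ε / 2⟩) ^ 3 *
      ⟨-1 / 40, 3 * ε / 280⟩ ^ 2) - (1 + ⟨1 / 2, 3 / 2⟩) * Q7.em (ha2 p) := by
  unfold Pt.R2 Pt.P22
  rw [pt7_Hb2 hε hV hp, pt7_Ha2 hε hp, pt7_V hV]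
  rfl

end

theorem q10 (ε : ℚ) (h : ε = 1 ∨ ε = -1) :
    ((⟨1 / 2, 3 * ε / 2⟩ - ⟨1 / 2, 3 * ε / 2⟩ ^ 3) * ⟨-1 / 40, 3 * ε / 280⟩ : Q7) =
      ⟨-12 / 5, -(12 / 35) * ε⟩ := by
  rcases h with h | h <;> subst h <;> ext <;> simp [pow_succ] <;> norm_num

theorem q11 (ε : ℚ) (h : ε = 1 ∨ ε = -1) :
    ((1 - 2 * ⟨1 / 2, 3 * ε / 2⟩) * (1 + ⟨1 / 2, 3 * ε / 2⟩) ^ 2 *
      ⟨-1 / 40, 3 * ε / 280⟩ : Q7) = ⟨-27 / 5, 0⟩ := by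
  rcases h with h | h <;> subst h <;> ext <;> simp [pow_succ] <;> norm_num

theorem q20 (ε : ℚ) (h : ε = 1 ∨ ε = -1) :
    ((1 - ⟨1 / 2, 3 * ε / 2⟩ ^ 2) * (⟨1 / 2, 3 * ε / 2⟩ -
      4 * ⟨1 / 2, 3 * ε / 2⟩ ^ 3 + 12 * ⟨1 / 2, 3 * ε / 2⟩ ^ 4 - ⟨1 / 2, 3 * ε / 2⟩ ^ 5) *
      ⟨-1 / 40, 3 * ε / 280⟩ ^ 3 : Q7) = ⟨318 / 125, -(2454 / 6125) * ε⟩ := by
  rcases h with h | h <;> subst h <;> ext <;> simp [pow_succ] <;> norm_num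

theorem q21 (ε : ℚ) (h : ε = 1 ∨ ε = -1) :
    ((1 - ⟨1 / 2, 3 * ε / 2⟩ ^ 2) * (7 * ⟨1 / 2, 3 * ε / 2⟩ -
      15 * ⟨1 / 2, 3 * ε / 2⟩ ^ 2 + 17 * ⟨1 / 2, 3 * ε / 2⟩ ^ 3 +
      35 * ⟨1 / 2, 3 * ε / 2⟩ ^ 4 - 4 * ⟨1 / 2, 3 * ε / 2⟩ ^ 5) *
      ⟨-1 / 40, 3 * ε / 280⟩ ^ 3 : Q7) = ⟨918 / 125, -(54 / 25) * ε⟩ := by
  rcases h with h | h <;> subst h <;> ext <;> simp [pow_succ] <;> norm_num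

theorem q22 (ε : ℚ) (h : ε = 1 ∨ ε = -1) :
    ((1 - 2 * ⟨1 / 2, 3 * ε / 2⟩) ^ 2 * (1 + ⟨1 / 2, 3 * ε / 2⟩) ^ 3 *
      ⟨-1 / 40, 3 * ε / 280⟩ ^ 2 : Q7) = ⟨243 / 100, -(243 / 100) * ε⟩ := by
  rcases h with h | h <;> subst h <;> ext <;> simp [pow_succ] <;> norm_num

end Pool.Agent.Helper91.SC
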