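import Mathlib
import Pool.Agent.Helper91.SC.Point
import Pool.Agent.Helper91.Q1

/-!
The `p`-th power of the quadratic point and the final congruences for large primes.
-/

set_option autoImplicit false

namespace Pool.Agent.Helper91.SC

open Finset T3

namespace Q7

@[simp] theorem natCast_c0 (n : ℕ) : (n : Q7).c0 = n := by rw [em_p, em_c0]
@[simp] theorem natCast_c1 (n : ℕ) : (n : Q7).c1 = 0 := by rw [em_p, em_c1]
@[simp] theorem intCast_c0 (n : ℤ) : (n : Q7).c0 = n := by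
  have k : ((n : ℤ) : Q7) = Q7.em (n : ℚ) := by rw [map_intCast]
  rw [k, em_c0]
@[simp] theorem intCast_c1 (n : ℤ) : (n : Q7).c1 = 0 := by
  have k : ((n : ℤ) : Q7) = Q7.em (n : ℚ) := by rw [map_intCast]
  rw [k, em_c1]

end Q7

section
variable {p : ℕ} (hp : p.Prime)

include hp in
/-- `(-7)^((p-1)/2)` modulo `p` -/
theorem neg7_pow {h : ℕ} (hh : p = 2 * h + 1) :
    (p : ℤ) ∣ (-7) ^ h - jacobiSym p 7 := by
  have : Fact p.Prime := ⟨hp⟩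
  have h1 := legendreSym.eq_pow p (-7)
  rw [jacobiSym.legendreSym.to_jacobiSym] at h1
  have h2 : jacobiSym (-7) p = jacobiSym p 7 := by
    have e : (-7 : ℤ) = (-1) * ((7 : ℕ) : ℤ) := by norm_num
    rw [e, jacobiSym.mul_left, jacobiSym.quadratic_reciprocity (by decide) ⟨h, hh⟩, hh,
      jacobi_neg_one]
    have e2 : 7 / 2 * ((2 * h + 1) / 2) = 3 * h := by omega
    rw [e2, ← mul_assoc, ← pow_add, show h + 3 * h = 2 * (2 * h) by ring, pow_mul]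
    norm_num
  rw [h2] at h1
  have h3 : p / 2 = h := by omega
  rw [h3] at h1
  have h4 : (((-7) ^ h - jacobiSym p 7 : ℤ) : ZMod p) = 0 := by
    push_cast at h1 ⊢
    rw [h1, sub_self]
  exact (ZMod.intCast_zmod_eq_zero_iff_dvd _ _).mp h4

include hp in
theorem dq_int (z : ℤ) : DQ (Dv p) 0 ((z : ℤ) : Q7) := by
  have F := flt_q7 (flt_rat hp)
  rcases Int.eq_nat_or_neg z with ⟨m, hm | hm⟩
  · rw [hm]; simpa using F.nat m
  · rw [hm]; simpa using F.neg (F.nat m)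

include hp in
theorem dq_p : DQ (Dv p) 1 (p : Q7) := by
  rw [em_p]; exact dq_em (flt_rat hp) (Dv_p hp)

include hp in
theorem frob (h5 : 5 ≤ p) {ε : ℤ} (hε : jacobiSym p 7 = ε) :
    DQ (Dv p) 1 ((⟨1 / 2, 3 / 2⟩ : Q7) ^ p - ⟨1 / 2, 3 * ε / 2⟩) := by
  have FQ := flt_rat hp
  have F := flt_q7 FQ
  have hh := Dv_half hp h5
  obtain ⟨h, hh2⟩ := hp.odd_of_ne_two (by omega)
  have n7 := neg7_pow hp hh2
  rw [hε] at n7
  obtain ⟨c, hc⟩ := n7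
  have hc' : (-7 : Q7) ^ h = (ε : Q7) + (p : Q7) * (c : Q7) := by
    have := congrArg (Int.cast (R := Q7)) hc
    push_cast at this
    linear_combination this
  have s7 : DQ (Dv p) 0 Q7.sq7 := ⟨FQ.zero 0, FQ.one⟩
  have hw : DQ (Dv p) 0 (⟨1 / 2, 3 / 2⟩ : Q7) := ⟨hh, by
    have : (3 / 2 : ℚ) = 3 * (1 / 2) := by norm_num
    rw [this]; exact Dv_mul_int hp (Dv_ofNat hp 3) hh⟩
  -- freshman's dream
  obtain ⟨r, hr⟩ := exists_add_pow_prime_eq hp (1 : Polynomial ℤ) (3 * Polynomial.X)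
  have h1 := congrArg (Polynomial.eval₂RingHom (Int.castRingHom Q7) Q7.sq7) hr
  simp only [map_pow, map_add, map_mul, map_one, map_natCast, one_pow, mul_one,
    map_ofNat] at h1
  have ex : (Polynomial.eval₂RingHom (Int.castRingHom Q7) Q7.sq7) Polynomial.X = Q7.sq7 :=
    Polynomial.eval₂_X _ _
  rw [ex] at h1
  set ρ := (Polynomial.eval₂RingHom (Int.castRingHom Q7) Q7.sq7) r with hρ
  have iρ : DQ (Dv p) 0 ρ := by
    have e : ρ = ∑ i ∈ range (r.natDegree + 1), ((r.coeff i : ℤ) : Q7) * Q7.sq7 ^ i :=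
      Polynomial.eval₂_eq_sum_range (Int.castRingHom Q7) Q7.sq7
    rw [e]
    apply F.sum
    intro i _
    exact F.mulL (dq_int hp _) (F.pow s7 i)
  have e2 : (1 + 3 * Q7.sq7 : Q7) = 2 * ⟨1 / 2, 3 / 2⟩ := by
    ext <;> simp [Q7.sq7] <;> norm_num
  have e3 : Q7.sq7 ^ p = (-7) ^ h * Q7.sq7 := by
    rw [hh2, pow_succ, pow_mul, Q7.sq7_sq]
  have f2 : DQ (Dv p) 1 ((2 : Q7) ^ p - 2) := by
    have h2 : ¬ p ∣ 2 := fun h => by have := Nat.le_of_dvd (by norm_num) h; omega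
    have := fermat_Dv hp 2 h2
    have e : ((2 : Q7) ^ p - 2) = Q7.em (2 * (((2 : ℕ) : ℚ) ^ (p - 1) - 1)) := by
      have hp1 : p = (p - 1) + 1 := by have := hp.one_lt; omega
      conv_lhs => rw [hp1, pow_succ]
      rw [map_mul, map_sub, map_pow, map_one, map_natCast, map_ofNat]
      push_cast
      ring
    rw [e]
    exact dq_em FQ (Dv_int_mul hp (Dv_ofNat hp 2) this)
  have f3 : DQ (Dv p) 1 ((3 : Q7) ^ p - 3) := by
    have h2 : ¬ p ∣ 3 := fun h => by have := Nat.le_of_dvd (by norm_num) h; omega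
    have := fermat_Dv hp 3 h2
    have e : ((3 : Q7) ^ p - 3) = Q7.em (3 * (((3 : ℕ) : ℚ) ^ (p - 1) - 1)) := by
      have hp1 : p = (p - 1) + 1 := by have := hp.one_lt; omega
      conv_lhs => rw [hp1, pow_succ]
      rw [map_mul, map_sub, map_pow, map_one, map_natCast, map_ofNat]
      push_cast
      ring
    rw [e]
    exact dq_em FQ (Dv_int_mul hp (Dv_ofNat hp 3) this)
  have e4 : (⟨1 / 2, 3 * (ε : ℚ) / 2⟩ : Q7) = Q7.em (1 / 2) * (1 + 3 * (ε : Q7) * Q7.sq7) := by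
    have k : ((ε : ℤ) : Q7) = Q7.em (ε : ℚ) := by rw [map_intCast]
    have k0 : ((ε : ℤ) : Q7).c0 = ε := by rw [k, Q7.em_c0]
    have k1 : ((ε : ℤ) : Q7).c1 = 0 := by rw [k, Q7.em_c1]
    ext
    · simp [Q7.sq7, k1]
    · simp [Q7.sq7, k0]
      ring
  have eh : Q7.em (1 / 2) * 2 = 1 := by
    have : (2 : Q7) = Q7.em 2 := by rw [map_ofNat]
    rw [this, ← map_mul]; norm_num
  rw [e4]
  set w : Q7 := ⟨1 / 2, 3 / 2⟩ with hwd
  have key : w ^ p - Q7.em (1 / 2) * (1 + 3 * (ε : Q7) * Q7.sq7) =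
      Q7.em (1 / 2) * (-(2 ^ p - 2) * w ^ p + (3 ^ p - 3) * ((-7) ^ h * Q7.sq7) +
        (p : Q7) * (3 * (c : Q7) * Q7.sq7 + 3 * Q7.sq7 * ρ)) := by
    rw [e2, mul_pow, mul_pow, e3] at h1
    linear_combination (Q7.em (1 / 2)) * h1 - (w ^ p) * eh + (Q7.em (1 / 2) * 3 * Q7.sq7) * hc'
  rw [key]
  have ih : DQ (Dv p) 0 (Q7.em (1 / 2)) := dq_em FQ hh
  have i7 : DQ (Dv p) 0 ((-7 : Q7) ^ h) := F.pow (F.neg (F.ofNat 7)) h
  exact F.mulL ih (F.add (F.add (F.mulR (F.neg f2) (F.pow hw p)) (F.mulR f3 (F.mulL i7 s7)))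
    (F.mulR (dq_p hp) (F.add (F.mulL (F.mulL (F.ofNat 3) (dq_int hp c)) s7)
      (F.mulL (F.mulL (F.ofNat 3) s7) iρ))))

include hp in
theorem exists_c {ε : ℚ} (hε : DQ (Dv p) 1 ((⟨1 / 2, 3 / 2⟩ : Q7) ^ p - ⟨1 / 2, 3 * ε / 2⟩))
    (h5 : 5 ≤ p) : ∃ c0 c1 : ℚ, Dv p 0 c0 ∧ Dv p 0 c1 ∧
    (⟨1 / 2, 3 / 2⟩ : Q7) ^ p * (1 + (p : Q7) * (Q7.em c0 + Q7.em c1 * ⟨1 / 2, 3 / 2⟩)) =
      ⟨1 / 2, 3 * ε / 2⟩ := by
  have FQ := flt_rat hp
  have F := flt_q7 FQ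
  have hh := Dv_half hp h5
  have ht := Dv_third hp h5
  have hp0 : (p : ℚ) ≠ 0 := p_ne hp
  set w : Q7 := ⟨1 / 2, 3 / 2⟩ with hwd
  set v : Q7 := ⟨1 / 2, 3 * ε / 2⟩ with hvd
  set iw : Q7 := ⟨1 / 32, -3 / 32⟩ with hiw
  have hwi : w * iw = 1 := by
    rw [hwd, hiw]
    ext <;> simp <;> norm_num
  have hwp : w ^ p * iw ^ p = 1 := by rw [← mul_pow, hwi, one_pow]
  have d32 : Dv p 0 (1 / 32 : ℚ) := by
    have e : (1 / 32 : ℚ) = (1 / 2) ^ 5 := by norm_num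
    rw [e]; exact Dv_pow hp hh 5
  have iwi : DQ (Dv p) 0 iw := ⟨d32, by
    have e : (-3 / 32 : ℚ) = -(3 * (1 / 32)) := by norm_num
    show Dv p 0 (-3 / 32 : ℚ)
    rw [e]; exact Dv_neg (Dv_mul_int hp (Dv_ofNat hp 3) d32)⟩
  obtain ⟨z, hz⟩ : ∃ z, z = v * iw ^ p - 1 := ⟨_, rfl⟩
  have hz1 : DQ (Dv p) 1 z := by
    have e : z = -(w ^ p - v) * iw ^ p := by
      rw [hz]; linear_combination hwp
    rw [e]
    exact F.mulR (F.neg hε) (F.pow iwi p)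
  obtain ⟨y0, hy0, e0⟩ := Dv_eq hp hz1.1
  obtain ⟨y1, hy1, e1⟩ := Dv_eq hp hz1.2
  rw [pow_one] at e0 e1
  refine ⟨y0 - 1 / 2 * (2 * (1 / 3) * y1), 2 * (1 / 3) * y1, ?_, ?_, ?_⟩
  · exact Dv_sub hp hy0 (Dv_mul_int hp hh (Dv_mul_int hp (Dv_mul_int hp (Dv_ofNat hp 2) ht) hy1))
  · exact Dv_mul_int hp (Dv_mul_int hp (Dv_ofNat hp 2) ht) hy1
  · have e : (p : Q7) * (Q7.em (y0 - 1 / 2 * (2 * (1 / 3) * y1)) +
        Q7.em (2 * (1 / 3) * y1) * w) = z := by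
      rw [em_p, hwd]
      ext
      · rw [e0]; simp; left; ring
      · rw [e1]; simp; left; ring
    rw [e, hz]
    linear_combination v * hwp

include hp in
theorem Am_int (i : Fin 3) : Dv p 0 (Am p i) := by
  unfold Am
  apply Dv_sum hp
  intro k hk
  have h := hseq_int Pa_good hp (mem_range.mp hk)
  fin_cases i
  · exact h.1
  · exact h.2.1
  · exact h.2.2

include hp in
theorem Bm_int (h5 : 5 ≤ p) (i : Fin 3) : Dv p 0 (Bm p i) := by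
  unfold Bm
  apply Dv_sum hp
  intro k hk
  have h := hseq_int Pb_good hp (mem_range.mp hk)
  have h81 : Dv p 0 (1 / 81 : ℚ) := by
    have e : (1 / 81 : ℚ) = (1 / 3) ^ 4 := by norm_num
    rw [e]; exact Dv_pow hp (Dv_third hp h5) 4
  refine Dv_mul_int hp ?_ (Dv_pow hp h81 k)
  fin_cases i
  · exact h.1
  · exact h.2.1
  · exact h.2.2

include hp in
theorem smooth (h29 : 29 ≤ p) (z : ℤ) (k : ℕ) : Dv p 0 ((z : ℚ) * (1 / 210) ^ k) := by
  refine Dv_mul_int hp (Dv_int hp z) (Dv_pow hp ?_ k)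
  have h : ¬ p ∣ 210 := by
    intro h
    have e : 210 = 2 * (3 * (5 * 7)) := by norm_num
    rw [e] at h
    rcases hp.dvd_mul.mp h with h | h
    · have := Nat.le_of_dvd (by norm_num) h; omega
    rcases hp.dvd_mul.mp h with h | h
    · have := Nat.le_of_dvd (by norm_num) h; omega
    rcases hp.dvd_mul.mp h with h | h
    · have := Nat.le_of_dvd (by norm_num) h; omega
    · have := Nat.le_of_dvd (by norm_num) h; omega
  have := Dv_inv_nat hp h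
  rw [one_div]; exact_mod_cast this

include hp in
/-- the three congruences at the quadratic point -/
theorem three (h29 : 29 ≤ p) {ε : ℤ} (hε : ε = 1 ∨ ε = -1) (hJ : jacobiSym p 7 = ε) :
    DQ (Dv p) 3 ⟨3 / 2 * Bm p 0 - 12 / 5 * hb1 p + 318 / 125 * hb2 p - 3 / 2 * Am p 0,
      ε * (3 / 2 * Bm p 0 - 12 / 35 * hb1 p - 2454 / 6125 * hb2 p) - 3 / 2 * Am p 0⟩ ∧
    DQ (Dv p) 3 ⟨-27 / 5 * hb1 p + 918 / 125 * hb2 p - 3 / 2 * ha1 p,
      -(54 / 25) * ε * hb2 p - 3 / 2 * ha1 p⟩ ∧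
    DQ (Dv p) 3 ⟨243 / 100 * hb2 p - 3 / 2 * ha2 p,
      -(243 / 100) * ε * hb2 p - 3 / 2 * ha2 p⟩ := by
  have h5 : 5 ≤ p := by omega
  have hp1 : 1 ≤ p := by omega
  obtain ⟨c0, c1, hc0, hc1, hV⟩ := exists_c hp (frob hp h5 hJ) h5
  have hε2 : ((ε : ℚ)) ^ 2 = 1 := by
    rcases hε with h | h <;> rw [h] <;> norm_num
  have hε3 : ((ε : ℚ)) = 1 ∨ ((ε : ℚ)) = -1 := by
    rcases hε with h | h
    · left; rw [h]; norm_num
    · right; rw [h]; norm_num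
  have iε : Dv p 0 (ε : ℚ) := Dv_int hp ε
  have G := pt7_good hε2 hV
  have s1 : Dv p 0 (1 / 2 : ℚ) := Dv_half hp h5
  have s2 : Dv p 0 (3 / 2 : ℚ) := by
    have := smooth hp h29 315 1; norm_num at this; exact this
  have s3 : Dv p 0 (1 / 12 : ℚ) := by
    have := smooth hp h29 3675 2; norm_num at this; exact this
  have s4 : Dv p 0 (-1 / 12 : ℚ) := by
    have := smooth hp h29 (-3675) 2; norm_num at this; norm_num; exact this
  have s5 : Dv p 0 (1 / 32 : ℚ) := by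
    have e : (1 / 32 : ℚ) = (1 / 2) ^ 5 := by norm_num
    rw [e]; exact Dv_pow hp s1 5
  have s6 : Dv p 0 (-1 / 40 : ℚ) := by
    have := smooth hp h29 (-231525) 3; norm_num at this; norm_num; exact this
  have s7 : Dv p 0 (1 / 280 : ℚ) := by
    have := smooth hp h29 33075 3; norm_num at this; exact this
  have w32 : Dv p 0 (3 * (ε : ℚ) / 32) := by
    have e : 3 * (ε : ℚ) / 32 = 3 * ε * (1 / 32) := by ring
    rw [e]; exact Dv_mul_int hp (Dv_mul_int hp (Dv_ofNat hp 3) iε) s5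
  have w280 : Dv p 0 (3 * (ε : ℚ) / 280) := by
    have e : 3 * (ε : ℚ) / 280 = 3 * ε * (1 / 280) := by ring
    rw [e]; exact Dv_mul_int hp (Dv_mul_int hp (Dv_ofNat hp 3) iε) s7
  have F := flt_q7 (flt_rat hp)
  obtain ⟨r0, r1, r2⟩ := evalQ hp h29 hc0 hc1 (pt7 p c0 c1 ε) G rfl ⟨s1, s2⟩ ⟨s3, s4⟩
    (F.mulL (F.pow ⟨s1, s2⟩ p) ⟨s5, Dv_neg w32⟩) ⟨s5, w32⟩ ⟨s6, w280⟩
  rw [pt7_R0 hε2 hV hp1, q10 _ hε3, q20 _ hε3] at r0
  rw [pt7_R1 hε2 hV hp1, q11 _ hε3, q21 _ hε3] at r1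
  rw [pt7_R2 hε2 hV hp1, q22 _ hε3] at r2
  refine ⟨(congrArg (DQ (Dv p) 3) ?_).mp r0, (congrArg (DQ (Dv p) 3) ?_).mp r1,
    (congrArg (DQ (Dv p) 3) ?_).mp r2⟩
  · ext
    · simp; ring
    · simp; ring
  · ext
    · simp; ring
    · simp; ring
  · ext
    · simp; ring
    · simp; ring

end

end Pool.Agent.Helper91.SC
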