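import Mathlib
import Pool.Agent.Helper91.SC.Frob

/-!
Large primes: closed forms and conclusions.
-/

set_option autoImplicit false

namespace Pool.Agent.Helper91.SC

open Finset T3

theorem hseq_c0_Pa (n : ℕ) : (hseq Pa 1 n).c0 = ((2 * n).choose n : ℚ) ^ 3 := by
  induction n with
  | zero => simp [hseq]
  | succ n ih =>
    have e : (hseq Pa 1 (n + 1)).c0 = (hseq Pa 1 n).c0 * (4 * (n : ℚ) + 2) ^ 3 *
        ((n : ℚ) + 1)⁻¹ ^ 3 := by
      rw [hseq, Pa, natCast_eq]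
      have h4 : (4 : T3) = emb 4 := by rw [map_ofNat]
      have h2 : (2 : T3) = emb 2 := by rw [map_ofNat]
      rw [h4, h2, inv3]
      simp only [pow_succ, pow_zero, one_mul, mul_c0, add_c0, emb_c0, et_c0, mul_zero, add_zero]
    rw [e, ih]
    have h := Nat.succ_mul_centralBinom_succ n
    have h' : ((n : ℚ) + 1) * ((2 * (n + 1)).choose (n + 1) : ℚ) =
        2 * (2 * n + 1) * ((2 * n).choose n : ℚ) := by
      have := congrArg (Nat.cast (R := ℚ)) h
      unfold Nat.centralBinom at this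
      push_cast at this
      exact this
    have hn : ((n : ℚ) + 1) ≠ 0 := by positivity
    have e2 : ((2 * (n + 1)).choose (n + 1) : ℚ) =
        (4 * (n : ℚ) + 2) * ((2 * n).choose n : ℚ) * ((n : ℚ) + 1)⁻¹ := by
      field_simp
      linear_combination h'
    rw [e2]
    ring

theorem hseq_c0_Pb (n : ℕ) : (hseq Pb 1 n).c0 =
    ((4 * n).factorial : ℚ) / (n.factorial : ℚ) ^ 4 := by
  induction n with
  | zero => simp [hseq]
  | succ n ih =>
    have e : (hseq Pb 1 (n + 1)).c0 = (hseq Pb 1 n).c0 * (8 * (4 * (n : ℚ) + 1) *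
        (2 * n + 1) * (4 * n + 3)) * ((n : ℚ) + 1)⁻¹ ^ 3 := by
      rw [hseq, Pb, natCast_eq]
      have h8 : (8 : T3) = emb 8 := by rw [map_ofNat]
      have h4 : (4 : T3) = emb 4 := by rw [map_ofNat]
      have h3 : (3 : T3) = emb 3 := by rw [map_ofNat]
      have h2 : (2 : T3) = emb 2 := by rw [map_ofNat]
      rw [h8, h4, h3, h2, inv3]
      simp only [pow_succ, pow_zero, one_mul, mul_c0, add_c0, emb_c0, et_c0, mul_zero, add_zero,
        one_c0]
    rw [e, ih]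
    have hn : ((n : ℚ) + 1) ≠ 0 := by positivity
    have hf : (n.factorial : ℚ) ≠ 0 := by positivity
    have e2 : ((4 * (n + 1)).factorial : ℚ) = (4 * n + 4) * (4 * n + 3) * (4 * n + 2) *
        (4 * n + 1) * ((4 * n).factorial : ℚ) := by
      rw [show 4 * (n + 1) = 4 * n + 1 + 1 + 1 + 1 by ring, Nat.factorial_succ,
        Nat.factorial_succ, Nat.factorial_succ, Nat.factorial_succ]
      push_cast
      ring
    rw [e2, Nat.factorial_succ]
    push_cast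
    field_simp
    ring

theorem Am_zero (p : ℕ) : Am p 0 = ∑ k ∈ range p, ((2 * k).choose k : ℚ) ^ 3 := by
  unfold Am
  apply sum_congr rfl
  intro k _
  exact hseq_c0_Pa k

theorem Bm_zero (p : ℕ) : Bm p 0 =
    ∑ k ∈ range p, ((4 * k).factorial : ℚ) / (k.factorial : ℚ) ^ 4 / (81 : ℚ) ^ k := by
  unfold Bm
  apply sum_congr rfl
  intro k _
  have h : cmp 0 (hseq Pb 1 k) = (hseq Pb 1 k).c0 := rfl
  rw [h, hseq_c0_Pb, one_div, inv_pow, div_eq_mul_inv _ ((81 : ℚ) ^ k)]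

section
variable {p : ℕ} (hp : p.Prime) (h29 : 29 ≤ p)
include hp h29

theorem split_large (hJ : jacobiSym p 7 = 1) : Dv p 3 (Am p 0 - Bm p 0) := by
  obtain ⟨r0, r1, r2⟩ := three hp h29 (Or.inl rfl) hJ
  have a0 : Dv p 3 (3 / 2 * Bm p 0 - 12 / 5 * hb1 p + 318 / 125 * hb2 p - 3 / 2 * Am p 0) := r0.1
  have b0 : Dv p 3 (-27 / 5 * hb1 p + 918 / 125 * hb2 p - 3 / 2 * ha1 p) := r1.1
  have b1 : Dv p 3 (-(54 / 25) * ((1 : ℤ) : ℚ) * hb2 p - 3 / 2 * ha1 p) := r1.2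
  have d0 : Dv p 3 (243 / 100 * hb2 p - 3 / 2 * ha2 p) := r2.1
  have d1 : Dv p 3 (-(243 / 100) * ((1 : ℤ) : ℚ) * hb2 p - 3 / 2 * ha2 p) := r2.2
  have third := Dv_third hp (show 5 ≤ p by omega)
  have c243 : Dv p 0 (50 / 243 : ℚ) := by
    have e : (50 / 243 : ℚ) = 50 * (1 / 3) ^ 5 := by norm_num
    rw [e]; exact Dv_mul_int hp (Dv_ofNat hp 50) (Dv_pow hp third 5)
  have x2 : Dv p 3 (hb2 p) := by
    have e : hb2 p = (50 / 243) * ((243 / 100 * hb2 p - 3 / 2 * ha2 p) -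
      (-(243 / 100) * ((1 : ℤ) : ℚ) * hb2 p - 3 / 2 * ha2 p)) := by push_cast; ring
    rw [e]; exact Dv_int_mul hp c243 (Dv_sub hp d0 d1)
  have c1 : Dv p 0 (54 / 25 : ℚ) := by
    have := smooth hp h29 95256 2; norm_num at this; exact this
  have c2 : Dv p 0 (918 / 125 : ℚ) := by
    have := smooth hp h29 68012784 3; norm_num at this; exact this
  have c3 : Dv p 0 (5 / 27 : ℚ) := by
    have := smooth hp h29 1715000 3; norm_num at this; exact this
  have c4 : Dv p 0 (12 / 5 : ℚ) := by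
    have := smooth hp h29 504 1; norm_num at this; exact this
  have c5 : Dv p 0 (318 / 125 : ℚ) := by
    have := smooth hp h29 23559984 3; norm_num at this; exact this
  have c6 : Dv p 0 (2 / 3 : ℚ) := by
    have := smooth hp h29 140 1; norm_num at this; exact this
  have x1 : Dv p 3 (hb1 p) := by
    have e : hb1 p = (5 / 27) * (-(-27 / 5 * hb1 p + 918 / 125 * hb2 p - 3 / 2 * ha1 p) +
      (918 / 125) * hb2 p + ((-(54 / 25) * ((1 : ℤ) : ℚ) * hb2 p - 3 / 2 * ha1 p) +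
        (54 / 25) * hb2 p)) := by push_cast; ring
    rw [e]
    exact Dv_int_mul hp c3 (Dv_add hp (Dv_add hp (Dv_neg b0) (Dv_int_mul hp c2 x2))
      (Dv_add hp b1 (Dv_int_mul hp c1 x2)))
  have e : Am p 0 - Bm p 0 = (2 / 3) * (-(3 / 2 * Bm p 0 - 12 / 5 * hb1 p + 318 / 125 * hb2 p -
    3 / 2 * Am p 0) - 12 / 5 * hb1 p + 318 / 125 * hb2 p) := by ring
  rw [e]
  exact Dv_int_mul hp c6 (Dv_add hp (Dv_sub hp (Dv_neg a0) (Dv_int_mul hp c4 x1))
    (Dv_int_mul hp c5 x2))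

theorem inert_large (hJ : jacobiSym p 7 = -1) : Dv p 2 (Bm p 0) := by
  have h5 : 5 ≤ p := by omega
  obtain ⟨r0, r1, -⟩ := three hp h29 (Or.inr rfl) hJ
  have a0 : Dv p 3 (3 / 2 * Bm p 0 - 12 / 5 * hb1 p + 318 / 125 * hb2 p - 3 / 2 * Am p 0) := r0.1
  have a1 : Dv p 3 (((-1 : ℤ) : ℚ) * (3 / 2 * Bm p 0 - 12 / 35 * hb1 p - 2454 / 6125 * hb2 p) -
    3 / 2 * Am p 0) := r0.2
  have b0 : Dv p 3 (-27 / 5 * hb1 p + 918 / 125 * hb2 p - 3 / 2 * ha1 p) := r1.1
  have b1 : Dv p 3 (-(54 / 25) * ((-1 : ℤ) : ℚ) * hb2 p - 3 / 2 * ha1 p) := r1.2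
  have a0 := Dv_mono (show 2 ≤ 3 by norm_num) a0
  have a1 := Dv_mono (show 2 ≤ 3 by norm_num) a1
  have b0 := Dv_mono (show 2 ≤ 3 by norm_num) b0
  have b1 := Dv_mono (show 2 ≤ 3 by norm_num) b1
  have xi1 : Dv p 1 (xi p) := by
    have h81 : ¬ p ∣ 81 := by
      intro h
      have : p ∣ 3 ^ 4 := h
      have := hp.dvd_of_dvd_pow this
      have := Nat.le_of_dvd (by norm_num) this
      omega
    have hf := fermat_Dv hp 81 h81
    have hi : Dv p 0 ((1 / 81 : ℚ) ^ (p - 1)) := by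
      apply Dv_pow hp
      have := Dv_inv_nat hp h81
      rw [one_div]; exact_mod_cast this
    have e : xi p = -((1 / 81 : ℚ) ^ (p - 1) * (((81 : ℕ) : ℚ) ^ (p - 1) - 1)) := by
      have : (1 / 81 : ℚ) ^ (p - 1) * ((81 : ℕ) : ℚ) ^ (p - 1) = 1 := by
        rw [← mul_pow]; norm_num
      unfold xi
      linear_combination this
    rw [e]
    exact Dv_neg (Dv_int_mul hp hi hf)
  have hh := Dv_half hp h5
  have B0 := Bm_int hp h5 0
  have B1 := Bm_int hp h5 1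
  have B2 := Bm_int hp h5 2
  have x2 : Dv p 2 (hb2 p) := by
    unfold hb2
    have hl : Dv p 1 (xi p - 1 / 2 * xi p ^ 2) := by
      have e : xi p - 1 / 2 * xi p ^ 2 = xi p * (1 - 1 / 2 * xi p) := by ring
      rw [e]
      exact Dv_mul_int hp xi1 (Dv_sub hp (Dv_one hp) (Dv_mul_int hp hh
        (Dv_mono (by norm_num) xi1)))
    exact Dv_add hp (Dv_add hp (Dv_mul_int hp (Dv_ppow hp 2) B2)
      (Dv_mul_int hp (Dv_mul hp (Dv_p hp) hl) B1))
      (Dv_mul_int hp (Dv_int_mul hp hh (Dv_pow' hp xi1 2)) B0)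
  have c1 : Dv p 0 (54 / 25 : ℚ) := by
    have := smooth hp h29 95256 2; norm_num at this; exact this
  have c2 : Dv p 0 (918 / 125 : ℚ) := by
    have := smooth hp h29 68012784 3; norm_num at this; exact this
  have c3 : Dv p 0 (5 / 27 : ℚ) := by
    have := smooth hp h29 1715000 3; norm_num at this; exact this
  have c4 : Dv p 0 (12 / 5 : ℚ) := by
    have := smooth hp h29 504 1; norm_num at this; exact this
  have c5 : Dv p 0 (318 / 125 : ℚ) := by
    have := smooth hp h29 23559984 3; norm_num at this; exact this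
  have c7 : Dv p 0 (1 / 3 : ℚ) := Dv_third hp h5
  have c8 : Dv p 0 (12 / 35 : ℚ) := by
    have := smooth hp h29 15120 2; norm_num at this; exact this
  have c9 : Dv p 0 (2454 / 6125 : ℚ) := by
    have := smooth hp h29 3710448 3; norm_num at this; exact this
  have x1 : Dv p 2 (hb1 p) := by
    have e : hb1 p = (5 / 27) * (-(-27 / 5 * hb1 p + 918 / 125 * hb2 p - 3 / 2 * ha1 p) +
      (918 / 125) * hb2 p + ((-(54 / 25) * ((-1 : ℤ) : ℚ) * hb2 p - 3 / 2 * ha1 p) -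
        (54 / 25) * hb2 p)) := by push_cast; ring
    rw [e]
    exact Dv_int_mul hp c3 (Dv_add hp (Dv_add hp (Dv_neg b0) (Dv_int_mul hp c2 x2))
      (Dv_sub hp b1 (Dv_int_mul hp c1 x2)))
  have e : Bm p 0 = (1 / 3) * ((3 / 2 * Bm p 0 - 12 / 5 * hb1 p + 318 / 125 * hb2 p -
      3 / 2 * Am p 0) + 12 / 5 * hb1 p - 318 / 125 * hb2 p -
    ((((-1 : ℤ) : ℚ) * (3 / 2 * Bm p 0 - 12 / 35 * hb1 p - 2454 / 6125 * hb2 p) -
    3 / 2 * Am p 0) - 12 / 35 * hb1 p - 2454 / 6125 * hb2 p)) := by push_cast; ring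
  rw [e]
  exact Dv_int_mul hp c7 (Dv_sub hp (Dv_sub hp (Dv_add hp a0 (Dv_int_mul hp c4 x1))
    (Dv_int_mul hp c5 x2)) (Dv_sub hp (Dv_sub hp a1 (Dv_int_mul hp c8 x1))
    (Dv_int_mul hp c9 x2)))

end

end Pool.Agent.Helper91.SC
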