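import Mathlib
import Pool.Agent.Helper91.SC.Concl

/-!
Small primes by direct evaluation.
-/

set_option autoImplicit false

namespace Pool.Agent.Helper91.SC

open Finset

theorem small_11 : Dv 11 3 (Am 11 0 - Bm 11 0) := by
  rw [Am_zero, Bm_zero]
  refine ⟨58675682518297808309882699816016, 81 ^ 10, ?_, ?_⟩
  · norm_num
  · norm_num [Finset.sum_range_succ, Nat.choose, Nat.factorial]

theorem small_23 : Dv 23 3 (Am 23 0 - Bm 23 0) := by
  rw [Am_zero, Bm_zero]
  refine ⟨755123065434913394612577535256670511320975641981620616693367087294499050000, 81 ^ 22, ?_, ?_⟩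
  · norm_num
  · norm_num [Finset.sum_range_succ, Nat.choose, Nat.factorial]

theorem small_5 : Dv 5 2 (Bm 5 0) := by
  rw [Bm_zero]
  refine ⟨6613425, 81 ^ 4, ?_, ?_⟩
  · norm_num
  · norm_num [Finset.sum_range_succ, Nat.factorial]

theorem small_13 : Dv 13 2 (Bm 13 0) := by
  rw [Bm_zero]
  refine ⟨2189674838726141600079225, 81 ^ 12, ?_, ?_⟩
  · norm_num
  · norm_num [Finset.sum_range_succ, Nat.factorial]

theorem small_17 : Dv 17 2 (Bm 17 0) := by
  rw [Bm_zero]
  refine ⟨3521861858103918164217373942539225, 81 ^ 16, ?_, ?_⟩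
  · norm_num
  · norm_num [Finset.sum_range_succ, Nat.factorial]

theorem small_19 : Dv 19 2 (Bm 19 0) := by
  rw [Bm_zero]
  refine ⟨154219153291837903661927663078940287025, 81 ^ 18, ?_, ?_⟩
  · norm_num
  · norm_num [Finset.sum_range_succ, Nat.factorial]

end Pool.Agent.Helper91.SC
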