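import Mathlib
import Pool.Agent.Helper91.SC.Small

/-!
The companion sum `∑ (21k+8) C(2k,k)^3` modulo `p^3`.
-/

set_option autoImplicit false

namespace Pool.Agent.Helper91.SC

open Finset

/-- squares of binomials -/
def fb (m j : ℕ) : ℚ := ((m + j).choose j : ℚ) ^ 2

theorem fb_m (m j : ℕ) : ((m : ℚ) + 1) ^ 2 * fb (m + 1) j = ((m : ℚ) + 1 + j) ^ 2 * fb m j := by
  have h : (m + 1) * ((m + 1 + j).choose j) = (m + 1 + j) * ((m + j).choose j) := by
    have h1 := Nat.add_one_mul_choose_eq (m + j) m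
    have e1 : (m + j).choose m = (m + j).choose j := by
      rw [← Nat.choose_symm_add, add_comm]
    have e2 : (m + j + 1).choose (m + 1) = (m + 1 + j).choose j := by
      rw [show m + j + 1 = (m + 1) + j by ring, Nat.choose_symm_add]
    rw [e1, e2] at h1
    linarith [h1]
  have h' := congrArg (Nat.cast (R := ℚ)) h
  push_cast at h'
  unfold fb
  linear_combination (((m : ℚ) + 1) * ((m + 1 + j).choose j : ℚ) +
    ((m : ℚ) + 1 + j) * ((m + j).choose j : ℚ)) * h'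

theorem fb_j (m j : ℕ) : ((j : ℚ) + 1) ^ 2 * fb m (j + 1) = ((m : ℚ) + 1 + j) ^ 2 * fb m j := by
  have h : (j + 1) * ((m + (j + 1)).choose (j + 1)) = (m + 1 + j) * ((m + j).choose j) := by
    have h1 := Nat.add_one_mul_choose_eq (m + j) j
    rw [show m + (j + 1) = m + j + 1 by ring, mul_comm, ← h1]
    ring
  have h' := congrArg (Nat.cast (R := ℚ)) h
  push_cast at h'
  unfold fb
  linear_combination (((j : ℚ) + 1) * ((m + (j + 1)).choose (j + 1) : ℚ) +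
    ((m : ℚ) + 1 + j) * ((m + j).choose j : ℚ)) * h'

/-- sums of squares -/
def Ub (m : ℕ) : ℚ := ∑ j ∈ range (m + 1), fb m j

theorem Ub_tel (m J : ℕ) : ∑ j ∈ range J, (2 * (2 * (m : ℚ) + 3) * fb (m + 1) j -
    ((m : ℚ) + 1) * fb m j) = (J : ℚ) ^ 2 * (2 * J + 3 * ((m : ℚ) + 1)) / ((m : ℚ) + 1) ^ 2 *
      fb m J := by
  induction J with
  | zero => simp
  | succ J ih =>
    rw [sum_range_succ, ih]
    have h1 := fb_m m J
    have h2 := fb_j m J
    have hm : ((m : ℚ) + 1) ≠ 0 := by positivity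
    have e1 : fb (m + 1) J = ((m : ℚ) + 1 + J) ^ 2 * fb m J / ((m : ℚ) + 1) ^ 2 := by
      rw [← h1]; field_simp
    rw [e1]
    push_cast
    have e2 : ((J : ℚ) + 1) ^ 2 * (2 * ((J : ℚ) + 1) + 3 * ((m : ℚ) + 1)) / ((m : ℚ) + 1) ^ 2 *
        fb m (J + 1) = (2 * ((J : ℚ) + 1) + 3 * ((m : ℚ) + 1)) / ((m : ℚ) + 1) ^ 2 *
        (((m : ℚ) + 1 + J) ^ 2 * fb m J) := by
      rw [← h2]; ring
    rw [e2]
    field_simp
    ring

theorem Ub_rec (m : ℕ) : 2 * (2 * (m : ℚ) + 3) * Ub (m + 1) - ((m : ℚ) + 1) * Ub m =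
    (21 * m + 29) / 4 * ((2 * (m + 1)).choose (m + 1) : ℚ) ^ 2 := by
  have h := Ub_tel m (m + 1)
  rw [sum_sub_distrib, ← mul_sum, ← mul_sum] at h
  have hU : Ub (m + 1) = ∑ j ∈ range (m + 1), fb (m + 1) j + fb (m + 1) (m + 1) := by
    rw [Ub, sum_range_succ]
  have hU2 : Ub m = ∑ j ∈ range (m + 1), fb m j := rfl
  rw [← hU2] at h
  have e0 : fb (m + 1) (m + 1) = ((2 * (m + 1)).choose (m + 1) : ℚ) ^ 2 := by
    unfold fb; rw [two_mul]
  have e1 := fb_m m (m + 1)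
  have hm : ((m : ℚ) + 1) ≠ 0 := by positivity
  have e2 : fb m (m + 1) = ((2 * (m + 1)).choose (m + 1) : ℚ) ^ 2 / 4 := by
    rw [← e0]
    push_cast at e1
    field_simp at e1 ⊢
    linear_combination (-1 : ℚ) * e1
  rw [e2] at h
  rw [hU, e0]
  push_cast at h
  have e3 : ((m : ℚ) + 1) ^ 2 * (2 * ((m : ℚ) + 1) + 3 * ((m : ℚ) + 1)) / ((m : ℚ) + 1) ^ 2 =
      5 * ((m : ℚ) + 1) := by
    field_simp; ring
  rw [e3] at h
  linear_combination h

theorem SA_exact (m : ℕ) : ∑ k ∈ range (m + 1), (21 * (k : ℚ) + 8) *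
    ((2 * k).choose k : ℚ) ^ 3 = 4 * ((m : ℚ) + 1) * ((2 * (m + 1)).choose (m + 1) : ℚ) *
      Ub m := by
  induction m with
  | zero =>
    have : Ub 0 = 1 := by simp [Ub, fb]
    rw [this]
    simp
    norm_num
  | succ m ih =>
    rw [sum_range_succ, ih]
    have h := Nat.succ_mul_centralBinom_succ (m + 1)
    have h' := congrArg (Nat.cast (R := ℚ)) h
    unfold Nat.centralBinom at h'
    push_cast at h'
    have hr := Ub_rec m
    push_cast
    linear_combination (4 * ((2 * (m + 1)).choose (m + 1) : ℚ)) * (-1) * hr -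
      (4 * Ub (m + 1)) * h'

section
variable {p : ℕ} (hp : p.Prime) (h5 : 5 ≤ p)
include hp h5

theorem SA_cong : Dv p 3 (∑ k ∈ range p, (21 * (k : ℚ) + 8) * ((2 * k).choose k : ℚ) ^ 3 -
    8 * p) := by
  obtain ⟨m, hm⟩ : ∃ m, p = m + 1 := ⟨p - 1, by omega⟩
  have hU : Dv p 2 (Ub m - 1) := by
    have e : Ub m - 1 = ∑ j ∈ range m, fb m (j + 1) := by
      unfold Ub
      rw [sum_range_succ']
      have : fb m 0 = 1 := by simp [fb]
      rw [this]; ring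
    rw [e]
    apply Dv_sum hp
    intro j hj
    have hj := mem_range.mp hj
    have hd : p ∣ (m + (j + 1)).choose (j + 1) :=
      hp.dvd_choose (by omega) (by omega) (by omega)
    obtain ⟨c, hc⟩ := hd
    unfold fb
    rw [hc]
    push_cast
    have e2 : ((p : ℚ) * (c : ℚ)) ^ 2 = (p : ℚ) ^ 2 * (c : ℚ) ^ 2 := by ring
    rw [e2]
    exact Dv_mul_int hp (Dv_ppow hp 2) (Dv_pow hp (Dv_nat hp c) 2)
  have hC : Dv p 2 (((2 * p).choose p : ℚ) - 2) := by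
    have h1 := Nat.sum_range_choose_sq p
    have e : ((2 * p).choose p : ℚ) - 2 = ∑ i ∈ range m, ((p.choose (i + 1) : ℚ)) ^ 2 := by
      rw [← h1]
      push_cast
      conv_lhs => rw [sum_range_succ, hm, sum_range_succ', ← hm]
      simp
      ring
    rw [e]
    apply Dv_sum hp
    intro i hi
    have hi := mem_range.mp hi
    obtain ⟨c, hc⟩ := hp.dvd_choose_self (k := i + 1) (by omega) (by omega)
    rw [hc]
    push_cast
    have e2 : ((p : ℚ) * (c : ℚ)) ^ 2 = (p : ℚ) ^ 2 * (c : ℚ) ^ 2 := by ring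
    rw [e2]
    exact Dv_mul_int hp (Dv_ppow hp 2) (Dv_pow hp (Dv_nat hp c) 2)
  have h := SA_exact m
  rw [← hm] at h
  have hm' : (m : ℚ) + 1 = p := by rw [hm]; push_cast; ring
  rw [hm'] at h
  rw [h]
  have iU : Dv p 0 (Ub m) := by
    have e : Ub m = (Ub m - 1) + 1 := by ring
    rw [e]; exact Dv_add hp (Dv_mono (by norm_num) hU) (Dv_one hp)
  have e : 4 * (p : ℚ) * ((2 * p).choose p : ℚ) * Ub m - 8 * p =
      4 * ((p : ℚ) * ((((2 * p).choose p : ℚ) - 2) * Ub m)) + 8 * ((p : ℚ) * (Ub m - 1)) := by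
    ring
  rw [e]
  exact Dv_add hp (Dv_int_mul hp (Dv_ofNat hp 4) (Dv_mul hp (Dv_p hp) (Dv_mul_int hp hC iU)))
    (Dv_int_mul hp (Dv_ofNat hp 8) (Dv_mul hp (Dv_p hp) hU))

theorem SB_cong : Dv p 3 (SS p - 8 * p) := by
  have h := partA hp h5 (le_refl 1)
  rw [pow_one, pow_one] at h
  have hb := bern_int hp h5 (p - 3) (by omega)
  have ht := Dv_third hp h5
  have hc : Dv p 0 (416 / 27 : ℚ) := by
    have e : (416 / 27 : ℚ) = 416 * (1 / 3) ^ 3 := by norm_num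
    rw [e]; exact Dv_mul_int hp (Dv_ofNat hp 416) (Dv_pow hp ht 3)
  have hp0 : (p : ℚ) ≠ 0 := p_ne hp
  have e : SS p - 8 * p = (p : ℚ) * (SS p / (p : ℚ) - (8 + (416 / 27 : ℚ) * (p : ℚ) ^ 3 *
      bernoulli (p - 3))) + (p : ℚ) ^ 3 * ((p : ℚ) * ((416 / 27 : ℚ) * bernoulli (p - 3))) := by
    field_simp
    ring
  rw [e]
  exact Dv_add hp (Dv_int_mul hp (Dv_nat hp p) (Dv_mono (by norm_num) h))
    (Dv_mul_int hp (Dv_ppow hp 3) (Dv_mul_int hp (Dv_nat hp p) (Dv_mul_int hp hc hb)))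

/-- the fourth congruence from the third -/
theorem c2_of_c1 (h7 : p ≠ 7)
    (h : Dv p 3 ((∑ k ∈ range p, ((2 * k).choose k : ℚ) ^ 3) -
      ∑ k ∈ range p, ((4 * k).factorial : ℚ) / (k.factorial : ℚ) ^ 4 / (81 : ℚ) ^ k)) :
    Dv p 3 (3 * (∑ k ∈ range p, (k : ℚ) * ((2 * k).choose k : ℚ) ^ 3) -
      5 * (∑ k ∈ range p, (k : ℚ) * (((4 * k).factorial : ℚ) / (k.factorial : ℚ) ^ 4) /
        (81 : ℚ) ^ k)) := by
  have hA := SA_cong hp h5
  have hB := SB_cong hp h5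
  have i7 : Dv p 0 (1 / 7 : ℚ) := by
    have h1 : ¬ p ∣ 7 := by
      intro h2
      exact h7 ((Nat.prime_dvd_prime_iff_eq hp (by norm_num)).mp h2)
    have := Dv_inv_nat hp h1
    rw [one_div]; exact_mod_cast this
  have eA : ∑ k ∈ range p, (21 * (k : ℚ) + 8) * ((2 * k).choose k : ℚ) ^ 3 =
      21 * (∑ k ∈ range p, (k : ℚ) * ((2 * k).choose k : ℚ) ^ 3) +
      8 * ∑ k ∈ range p, ((2 * k).choose k : ℚ) ^ 3 := by
    rw [mul_sum, mul_sum, ← sum_add_distrib]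
    apply sum_congr rfl
    intro k _
    ring
  have eB : SS p = 35 * (∑ k ∈ range p, (k : ℚ) * (((4 * k).factorial : ℚ) /
      (k.factorial : ℚ) ^ 4) / (81 : ℚ) ^ k) +
      8 * ∑ k ∈ range p, ((4 * k).factorial : ℚ) / (k.factorial : ℚ) ^ 4 / (81 : ℚ) ^ k := by
    unfold SS
    rw [mul_sum, mul_sum, ← sum_add_distrib]
    apply sum_congr rfl
    intro k _
    ring
  rw [eA] at hA
  rw [eB] at hB
  set A := ∑ k ∈ range p, ((2 * k).choose k : ℚ) ^ 3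
  set B := ∑ k ∈ range p, ((4 * k).factorial : ℚ) / (k.factorial : ℚ) ^ 4 / (81 : ℚ) ^ k
  set A' := ∑ k ∈ range p, (k : ℚ) * ((2 * k).choose k : ℚ) ^ 3
  set B' := ∑ k ∈ range p, (k : ℚ) * (((4 * k).factorial : ℚ) /
      (k.factorial : ℚ) ^ 4) / (81 : ℚ) ^ k
  have e : 3 * A' - 5 * B' = (1 / 7) * (((21 * A' + 8 * A) - 8 * p) -
    ((35 * B' + 8 * B) - 8 * p) - 8 * (A - B)) := by ring
  rw [e]
  exact Dv_int_mul hp i7 (Dv_sub hp (Dv_sub hp hA hB) (Dv_int_mul hp (Dv_ofNat hp 8) h))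

end

end Pool.Agent.Helper91.SC
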