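import Mathlib
import Pool.Agent.Helper91.SC.PartA3

/-!
Part (b): the sum up to `(p-1)/2`, modulo `p^3`.
-/

set_option autoImplicit false

namespace Pool.Agent.Helper91.SC

open Finset

theorem dd_zero {N : ℕ} (hN : 1 ≤ N) : dd N 0 = 1 := by
  unfold dd
  rw [if_pos (by omega)]
  simp [Nat.factorial_ne_zero]

theorem neg_ne {N : ℕ} (i : ℕ) (hi : i < N - 1) : (1 - (N : ℚ)) + i ≠ 0 := by
  intro h
  have h1 : (N : ℚ) = 1 + i := by linear_combination -h
  have h2 : N = 1 + i := by exact_mod_cast h1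
  omega

theorem neg_ne2 {N : ℕ} (i : ℕ) (hi : i < N - 2) : (2 - (N : ℚ)) + i ≠ 0 := by
  intro h
  have h1 : (N : ℚ) = 2 + i := by linear_combination -h
  have h2 : N = 2 + i := by exact_mod_cast h1
  omega

section
variable {N L : ℕ} {B C : ℚ} (hLN : 3 * L + 1 ≤ N)
  (hBC : ∀ l : ℚ, ((N : ℚ) - 1 - 3 * l) * (N - 2 - 3 * l) * (N - 3 - 3 * l) =
    27 * (L - l) * (B + l) * (C + l))
include hLN hBC

omit hBC in
theorem dd_ratio' (l : ℕ) (hl : l < L) :
    dd N (l + 1) * (((l : ℚ) + 1) ^ 2 * 27 * (N - 1 - l)) =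
      dd N l * ((N - 1 - 3 * l) * (N - 2 - 3 * l) * (N - 3 - 3 * l)) := by
  obtain ⟨r, hr⟩ : ∃ r, N = 3 * l + 4 + r := ⟨N - (3 * l + 4), by omega⟩
  unfold dd
  rw [if_pos (by omega), if_pos (by omega)]
  have e1 : N - 1 - (l + 1) = 2 * l + 2 + r := by omega
  have e2 : N - 1 - 3 * (l + 1) = r := by omega
  have e3 : N - 1 - l = 2 * l + 2 + r + 1 := by omega
  have e4 : N - 1 - 3 * l = r + 3 := by omega
  rw [e1, e2, e3, e4]
  have hc : (N : ℚ) = 3 * l + 4 + r := by rw [hr]; push_cast; ring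
  rw [hc]
  simp only [Nat.factorial_succ]
  have h2 : ((r).factorial : ℚ) ≠ 0 := by exact_mod_cast Nat.factorial_ne_zero _
  have hl' : ((l).factorial : ℚ) ≠ 0 := by exact_mod_cast Nat.factorial_ne_zero _
  push_cast
  generalize ((2 * l + 2 + r).factorial : ℚ) = A at *
  generalize ((l).factorial : ℚ) = B at *
  generalize ((r).factorial : ℚ) = D at *
  field_simp
  ring

theorem dd_form' (l : ℕ) (hl : l ≤ L) :
    dd N l * ((l.factorial : ℚ) * poch (1 - N) l) =
      (-1) ^ l * (L.choose l : ℚ) * poch B l * poch C l := by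
  induction l with
  | zero =>
    rw [dd_zero (by omega)]
    simp [poch_zero]
  | succ l ih =>
    have ih := ih (by omega)
    have h1 := dd_ratio' hLN l (by omega)
    have h2 : (L.choose (l + 1) : ℚ) * ((l : ℚ) + 1) = (L.choose l : ℚ) * ((L : ℚ) - l) := by
      have := Nat.choose_succ_right_eq L l
      have e : ((L - l : ℕ) : ℚ) = L - l := by rw [Nat.cast_sub (by omega)]
      rw [← e]
      exact_mod_cast this
    have h3 := hBC l
    have hl1 : ((l : ℚ) + 1) ≠ 0 := by positivity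
    have h4 : dd N (l + 1) * ((((l + 1 : ℕ).factorial : ℕ) : ℚ) * poch (1 - N) (l + 1)) *
        (((l : ℚ) + 1) * 27) = - (dd N (l + 1) * (((l : ℚ) + 1) ^ 2 * 27 * (N - 1 - l))) *
          ((l.factorial : ℚ) * poch (1 - N) l) := by
      rw [Nat.factorial_succ, poch_succ]; push_cast; ring
    apply mul_right_cancel₀ (mul_ne_zero hl1 (by norm_num : (27 : ℚ) ≠ 0))
    rw [h4, h1, h3, poch_succ, poch_succ, pow_succ]
    linear_combination (-(27 * ((L : ℚ) - l) * (B + l) * (C + l))) * ih +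
      ((-1) ^ l * poch B l * (B + l) * poch C l * (C + l) * 27) * h2

/-- the sum at `1 - N` -/
def RR' (x : ℚ) (N L : ℕ) : ℚ := ∑ l ∈ range (L + 1), x / (x + l) * dd N l

theorem RR'_eval (hL1 : L < N - 1) (hsum : B + C = 2 - N + L) :
    RR' (1 - N) N L * ((L.factorial : ℚ) * poch (2 - N) L) =
      poch (1 - B) L * poch (2 - N - B) L := by
  have h1 := saal_alt B C 1 (2 - N) L (by linear_combination -hsum)
  rw [← h1, RR', sum_mul]
  apply sum_congr rfl
  intro l hl
  have hl := mem_range.mp hl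
  have h2 := dd_form' hLN hBC l (by omega)
  have h3 := fact_split (L := L) l (by omega)
  have h5 : poch (2 - (N : ℚ)) l * poch (2 - (N : ℚ) + l) (L - l) = poch (2 - (N : ℚ)) L := by
    rw [← poch_add]; congr 1; omega
  have h6 : (1 - (N : ℚ)) * poch (2 - (N : ℚ)) l = poch (1 - (N : ℚ)) l * (1 - N + l) := by
    rw [← poch_succ, poch_succ_left]
    congr 2
    ring
  have h7 := neg_ne l (show l < N - 1 by omega)
  rw [← h3, ← h5]
  rw [div_mul_eq_mul_div, div_mul_eq_mul_div, div_eq_iff h7]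
  linear_combination (dd N l * (l.factorial : ℚ) * poch (1 + (l : ℚ)) (L - l) *
    poch (2 - (N : ℚ) + l) (L - l)) * h6 + (poch (1 + (l : ℚ)) (L - l) *
    poch (2 - (N : ℚ) + l) (L - l) * (1 - N + l)) * h2

end

/-- the mod `p` version of `dd` -/
def d0 (L l : ℕ) : ℚ := (-1) ^ l * (L.choose l : ℚ) * ((L + l).choose l : ℚ)

theorem d0_succ (L l : ℕ) (hl : l < L) :
    d0 L (l + 1) * ((l : ℚ) + 1) ^ 2 = - d0 L l * ((L - l) * (L + 1 + l)) := by
  have h2 : (L.choose (l + 1) : ℚ) * ((l : ℚ) + 1) = (L.choose l : ℚ) * ((L : ℚ) - l) := by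
    have := Nat.choose_succ_right_eq L l
    have e : ((L - l : ℕ) : ℚ) = L - l := by rw [Nat.cast_sub (by omega)]
    rw [← e]
    exact_mod_cast this
  have h3 : ((L + (l + 1)).choose (l + 1) : ℚ) * ((l : ℚ) + 1) =
      ((L + l).choose l : ℚ) * ((L : ℚ) + 1 + l) := by
    have := Nat.add_one_mul_choose_eq (L + l) l
    have h : ((L + l + 1 : ℕ) : ℚ) * ((L + l).choose l : ℚ) =
        ((L + l + 1).choose (l + 1) : ℚ) * ((l + 1 : ℕ) : ℚ) := by exact_mod_cast this
    rw [← add_assoc]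
    push_cast at h
    linear_combination -h
  unfold d0
  rw [pow_succ]
  linear_combination (-(-1) ^ l * ((L + (l + 1)).choose (l + 1) : ℚ) * ((l : ℚ) + 1)) * h2 -
    ((-1) ^ l * (L.choose l : ℚ) * ((L : ℚ) - l)) * h3

theorem d0_poch (L l : ℕ) : d0 L l * (l.factorial : ℚ) =
    (-1) ^ l * (L.choose l : ℚ) * poch ((L : ℚ) + 1) l := by
  rw [poch_nat]
  have h1 := Nat.add_choose_mul_factorial_mul_factorial L l
  have h2 : ((L + l).choose l : ℚ) * (L.factorial : ℚ) * (l.factorial : ℚ) =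
    ((L + l).factorial : ℚ) := by exact_mod_cast h1
  have h4 : (L.factorial : ℚ) ≠ 0 := by exact_mod_cast Nat.factorial_ne_zero _
  unfold d0
  rw [← h2]
  field_simp

theorem Q_eval (x : ℚ) (L : ℕ) (hx : ∀ l ≤ L, x + l ≠ 0) :
    (∑ l ∈ range (L + 1), x / (x + l) * d0 L l) * poch (x + 1) L = poch (1 - x) L := by
  have h1 := saal_alt x (L + 1) 1 (x + 1) L (by ring)
  have e0 : x + 1 - x = 1 := by ring
  rw [e0, poch_one] at h1
  have h4 : (L.factorial : ℚ) ≠ 0 := by exact_mod_cast Nat.factorial_ne_zero _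
  apply mul_right_cancel₀ h4
  rw [← h1, mul_assoc, sum_mul]
  apply sum_congr rfl
  intro l hl
  have hl := mem_range.mp hl
  have h2 := d0_poch L l
  have h3 := fact_split (L := L) l (by omega)
  have h5 : poch (x + 1) l * poch (x + 1 + l) (L - l) = poch (x + 1) L := by
    rw [← poch_add]; congr 1; omega
  have h6 : x * poch (x + 1) l = poch x l * (x + l) := by
    rw [← poch_succ, poch_succ_left]
  have h7 := hx l (by omega)
  rw [← h3, ← h5]
  rw [div_mul_eq_mul_div, div_mul_eq_mul_div, div_eq_iff h7]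
  linear_combination (d0 L l * (l.factorial : ℚ) * poch (1 + (l : ℚ)) (L - l) *
    poch (x + 1 + l) (L - l)) * h6 + (poch (1 + (l : ℚ)) (L - l) *
    poch (x + 1 + l) (L - l) * (poch x l * (x + l))) * h2

section
variable {p : ℕ} (hp : p.Prime) (h5 : 5 ≤ p)
include hp h5

omit h5 in
/-- units -/
theorem nat_unit {n : ℕ} (h0 : 0 < n) (h1 : n < p) : Dv p 0 ((n : ℚ)⁻¹) :=
  Dv_inv_nat hp (fun h => by have := Nat.le_of_dvd h0 h; omega)

variable {N L : ℕ} (hpN : p + 1 = 2 * N) (hcase : N = 3 * L + 1 ∨ N = 3 * L + 3)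
include hpN hcase

theorem dd_d0 (l : ℕ) (hl : l ≤ L) : Dv p 1 (dd N l - d0 L l) ∧ Dv p 0 (dd N l) := by
  have hLN : 3 * L + 1 ≤ N := by omega
  have ht := Dv_third hp h5
  have hh := Dv_half hp h5
  have hpc : (p : ℚ) = 2 * N - 1 := by
    have : ((p + 1 : ℕ) : ℚ) = ((2 * N : ℕ) : ℚ) := by rw [hpN]
    push_cast at this
    linear_combination this
  have d0i : ∀ l, Dv p 0 (d0 L l) := by
    intro l
    have h1 := Dv_int hp ((-1) ^ l * (L.choose l : ℤ) * ((L + l).choose l : ℤ))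
    push_cast at h1
    exact h1
  induction l with
  | zero =>
    rw [dd_zero (by omega)]
    have : d0 L 0 = 1 := by simp [d0]
    rw [this, sub_self]
    exact ⟨Dv_zero_mem hp 1, Dv_one hp⟩
  | succ l ih =>
    obtain ⟨ih1, ih2⟩ := ih (by omega)
    have h1 := dd_ratio' hLN l (by omega)
    have h2 := d0_succ L l (by omega)
    have hl1 : ((l : ℚ) + 1) ≠ 0 := by positivity
    have u1 : Dv p 0 (((l : ℚ) + 1)⁻¹) := by
      have := nat_unit hp (n := l + 1) (by omega) (by omega)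
      push_cast at this; exact this
    have hn : ((N - 1 - l : ℕ) : ℚ) = N - 1 - l := by
      rw [Nat.cast_sub (by omega), Nat.cast_sub (by omega)]; push_cast; ring
    have u2 : Dv p 0 (((N : ℚ) - 1 - l)⁻¹) := by
      have := nat_unit hp (n := N - 1 - l) (by omega) (by omega)
      rw [hn] at this; exact this
    have hne : ((N : ℚ) - 1 - l) ≠ 0 := by
      rw [← hn]
      have : 0 < N - 1 - l := by omega
      positivity
    -- exact relation between the two ratios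
    have e1 : dd N (l + 1) = dd N l * (((N - 1 - 3 * l) * (N - 2 - 3 * l) * (N - 3 - 3 * l)) *
        (((l : ℚ) + 1)⁻¹ ^ 2 * (1 / 3) ^ 3 * ((N : ℚ) - 1 - l)⁻¹)) := by
      field_simp
      linear_combination h1
    have e2 : d0 L (l + 1) = - d0 L l * ((L - l) * (L + 1 + l)) * ((l : ℚ) + 1)⁻¹ ^ 2 := by
      field_simp
      linear_combination h2
    have hNi : Dv p 0 (N : ℚ) := Dv_nat hp N
    have hli : Dv p 0 (l : ℚ) := Dv_nat hp l
    have hLi : Dv p 0 (L : ℚ) := Dv_nat hp L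
    have int2 : Dv p 0 (((N : ℚ) - 1 - 3 * l) * (N - 2 - 3 * l) * (N - 3 - 3 * l)) :=
      Dv_mul_int hp (Dv_mul_int hp (Dv_sub hp (Dv_sub hp hNi (Dv_one hp)) (Dv_int_mul hp
        (Dv_ofNat hp 3) hli)) (Dv_sub hp (Dv_sub hp hNi (Dv_ofNat hp 2)) (Dv_int_mul hp
        (Dv_ofNat hp 3) hli))) (Dv_sub hp (Dv_sub hp hNi (Dv_ofNat hp 3)) (Dv_int_mul hp
        (Dv_ofNat hp 3) hli))
    have u3 : Dv p 0 (((l : ℚ) + 1)⁻¹ ^ 2 * (1 / 3) ^ 3 * ((N : ℚ) - 1 - l)⁻¹) :=
      Dv_mul_int hp (Dv_mul_int hp (Dv_pow hp u1 2) (Dv_pow hp ht 3)) u2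
    have hdd : Dv p 0 (dd N (l + 1)) := by
      rw [e1]
      exact Dv_mul_int hp ih2 (Dv_mul_int hp int2 u3)
    refine ⟨?_, hdd⟩
    -- numerator congruence
    have key : Dv p 1 (((N : ℚ) - 1 - 3 * l) * (N - 2 - 3 * l) * (N - 3 - 3 * l) +
        27 * (N - 1 - l) * ((L - l) * (L + 1 + l))) := by
      rcases hcase with h | h
      · have hc : (L : ℚ) = (N - 1) / 3 := by rw [h]; push_cast; ring
        have e : ((N : ℚ) - 1 - 3 * l) * (N - 2 - 3 * l) * (N - 3 - 3 * l) +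
          27 * (N - 1 - l) * ((L - l) * (L + 1 + l)) = p * (2 * N ^ 2 - 6 * (N * l) - 2 * N) := by
          rw [hpc, hc]; ring
        rw [e]
        exact Dv_mul_int hp (Dv_p hp) (Dv_sub hp (Dv_sub hp (Dv_int_mul hp (Dv_ofNat hp 2)
          (Dv_pow hp hNi 2)) (Dv_int_mul hp (Dv_ofNat hp 6) (Dv_mul_int hp hNi hli)))
          (Dv_int_mul hp (Dv_ofNat hp 2) hNi))
      · have hc : (L : ℚ) = (N - 3) / 3 := by rw [h]; push_cast; ring
        have e : ((N : ℚ) - 1 - 3 * l) * (N - 2 - 3 * l) * (N - 3 - 3 * l) +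
          27 * (N - 1 - l) * ((L - l) * (L + 1 + l)) = p * (2 * N ^ 2 - 6 * (N * l) - 8 * N +
            6 * l + 6) := by
          rw [hpc, hc]; ring
        rw [e]
        exact Dv_mul_int hp (Dv_p hp) (Dv_add hp (Dv_add hp (Dv_sub hp (Dv_sub hp
          (Dv_int_mul hp (Dv_ofNat hp 2) (Dv_pow hp hNi 2)) (Dv_int_mul hp (Dv_ofNat hp 6)
          (Dv_mul_int hp hNi hli))) (Dv_int_mul hp (Dv_ofNat hp 8) hNi))
          (Dv_int_mul hp (Dv_ofNat hp 6) hli)) (Dv_ofNat hp 6))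
    have e3 : dd N (l + 1) - d0 L (l + 1) = (dd N l - d0 L l) * (((N - 1 - 3 * l) *
        (N - 2 - 3 * l) * (N - 3 - 3 * l)) *
        (((l : ℚ) + 1)⁻¹ ^ 2 * (1 / 3) ^ 3 * ((N : ℚ) - 1 - l)⁻¹)) + d0 L l *
        ((((N : ℚ) - 1 - 3 * l) * (N - 2 - 3 * l) * (N - 3 - 3 * l) +
        27 * (N - 1 - l) * ((L - l) * (L + 1 + l))) *
        (((l : ℚ) + 1)⁻¹ ^ 2 * (1 / 3) ^ 3 * ((N : ℚ) - 1 - l)⁻¹)) := by
      rw [e1, e2]
      field_simp
      ring
    rw [e3]
    exact Dv_add hp (Dv_mul_int hp ih1 (Dv_mul_int hp int2 u3))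
      (Dv_int_mul hp (d0i l) (Dv_mul_int hp key u3))

/-- the main congruence for the short sum -/
theorem RR_cong (hL1 : L < N - 1) :
    Dv p 2 (RR N N - RR' (1 - N) N L * (poch (1 - N) L * poch (2 - N) L /
      (poch (1 + N) L * poch N L))) := by
  have hLN : 3 * L + 1 ≤ N := by omega
  have hpc : (p : ℚ) = 2 * N - 1 := by
    have : ((p + 1 : ℕ) : ℚ) = ((2 * N : ℕ) : ℚ) := by rw [hpN]
    push_cast at this
    linear_combination this
  have hN0 : 0 < (N : ℚ) := by
    have : 0 < N := by omega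
    exact_mod_cast this
  -- units
  have uN : ∀ l ≤ L, Dv p 0 (((N : ℚ) + l)⁻¹) := by
    intro l hl
    have := nat_unit hp (n := N + l) (by omega) (by omega)
    push_cast at this; exact this
  have uM : ∀ l ≤ L, Dv p 0 ((1 - (N : ℚ) + l)⁻¹) := by
    intro l hl
    have h1 := nat_unit hp (n := N - 1 - l) (by omega) (by omega)
    have hn : ((N - 1 - l : ℕ) : ℚ) = N - 1 - l := by
      rw [Nat.cast_sub (by omega), Nat.cast_sub (by omega)]; push_cast; ring
    rw [hn] at h1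
    have e : (1 - (N : ℚ) + l)⁻¹ = -((N : ℚ) - 1 - l)⁻¹ := by
      rw [← inv_neg]; congr 1; ring
    rw [e]; exact Dv_neg h1
  have hM : ∀ l ≤ L, (1 - (N : ℚ)) + l ≠ 0 := fun l hl => neg_ne l (by omega)
  have hNl : ∀ l ≤ L, (N : ℚ) + l ≠ 0 := fun l hl => by positivity
  -- RR N N as a sum up to L
  have hRR : RR N N = RR' N N L := by
    rw [RR, RR']
    symm
    apply sum_subset
    · intro x hx
      rw [mem_range] at hx ⊢
      omega
    · intro x _ hx
      rw [mem_range] at hx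
      rw [dd_zero_of N x (by omega), mul_zero]
  set QN := ∑ l ∈ range (L + 1), (N : ℚ) / (N + l) * d0 L l with hQN
  set QM := ∑ l ∈ range (L + 1), (1 - (N : ℚ)) / (1 - N + l) * d0 L l with hQM
  have hNi : Dv p 0 (N : ℚ) := Dv_nat hp N
  -- first difference
  have d1 : Dv p 2 (RR N N - RR' (1 - N) N L - (QN - QM)) := by
    have e : RR N N - RR' (1 - N) N L - (QN - QM) = ∑ l ∈ range (L + 1),
        (p : ℚ) * (l * (((N : ℚ) + l)⁻¹ * (1 - (N : ℚ) + l)⁻¹)) * (dd N l - d0 L l) := by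
      rw [hRR, RR', RR', hQN, hQM, ← sum_sub_distrib, ← sum_sub_distrib, ← sum_sub_distrib]
      apply sum_congr rfl
      intro l hl
      have hl := mem_range.mp hl
      have h1 := hM l (by omega)
      have h2 := hNl l (by omega)
      rw [hpc]
      field_simp
      ring
    rw [e]
    apply Dv_sum hp
    intro l hl
    have hl := mem_range.mp hl
    exact Dv_mul hp (Dv_mul_int hp (Dv_p hp) (Dv_int_mul hp (Dv_nat hp l) (Dv_mul_int hp
      (uN l (by omega)) (uM l (by omega))))) (dd_d0 hp h5 hpN hcase l (by omega)).1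
  have d2 : Dv p 1 (RR' (1 - N) N L - QM) := by
    have e : RR' (1 - N) N L - QM = ∑ l ∈ range (L + 1),
        (1 - (N : ℚ)) * (1 - (N : ℚ) + l)⁻¹ * (dd N l - d0 L l) := by
      rw [RR', hQM, ← sum_sub_distrib]
      apply sum_congr rfl
      intro l _
      ring
    rw [e]
    apply Dv_sum hp
    intro l hl
    have hl := mem_range.mp hl
    exact Dv_int_mul hp (Dv_mul_int hp (Dv_sub hp (Dv_one hp) hNi) (uM l (by omega)))
      (dd_d0 hp h5 hpN hcase l (by omega)).1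
  have d0i : ∀ l, Dv p 0 (d0 L l) := by
    intro l
    have h1 := Dv_int hp ((-1) ^ l * (L.choose l : ℤ) * ((L + l).choose l : ℤ))
    push_cast at h1
    exact h1
  have d3 : Dv p 1 (QN - QM) := by
    have e : QN - QM = ∑ l ∈ range (L + 1),
        (p : ℚ) * (l * (((N : ℚ) + l)⁻¹ * (1 - (N : ℚ) + l)⁻¹)) * d0 L l := by
      rw [hQN, hQM, ← sum_sub_distrib]
      apply sum_congr rfl
      intro l hl
      have hl := mem_range.mp hl
      have h1 := hM l (by omega)
      have h2 := hNl l (by omega)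
      rw [hpc]
      field_simp
      ring
    rw [e]
    apply Dv_sum hp
    intro l hl
    have hl := mem_range.mp hl
    exact Dv_mul_int hp (Dv_mul_int hp (Dv_p hp) (Dv_int_mul hp (Dv_nat hp l) (Dv_mul_int hp
      (uN l (by omega)) (uM l (by omega))))) (d0i l)
  -- closed forms
  have f1 := Q_eval (N : ℚ) L hNl
  have f2 := Q_eval (1 - (N : ℚ)) L hM
  rw [← hQN] at f1
  rw [← hQM] at f2
  have e2 : (1 - (N : ℚ)) + 1 = 2 - N := by ring
  have e3 : 1 - (1 - (N : ℚ)) = N := by ring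
  rw [e2, e3] at f2
  have e4 : (N : ℚ) + 1 = 1 + N := by ring
  rw [e4] at f1
  have g1 : poch (1 + (N : ℚ)) L ≠ 0 := (poch_pos L (by positivity)).ne'
  have g2 : poch (N : ℚ) L ≠ 0 := (poch_pos L hN0).ne'
  have g3 : poch (2 - (N : ℚ)) L ≠ 0 := by
    apply poch_ne_zero
    intro i hi
    exact neg_ne2 i (by omega)
  have hQM0 : QM ≠ 0 := by
    intro h
    rw [h, zero_mul] at f2
    exact g2 f2.symm
  -- QM is a unit
  have uQM : Dv p 0 QM⁻¹ := by
    have e : QM⁻¹ = poch (2 - (N : ℚ)) L * (poch (N : ℚ) L)⁻¹ := by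
      field_simp
      linear_combination -f2
    rw [e]
    refine Dv_mul_int hp ?_ ?_
    · exact Dv_prod hp _ _ (fun i _ => Dv_add hp (Dv_sub hp (Dv_ofNat hp 2) hNi) (Dv_nat hp i))
    · rw [poch, ← prod_inv_distrib]
      exact Dv_prod hp _ _ (fun i hi => uN i (by have := mem_range.mp hi; omega))
  have e5 : poch (1 - (N : ℚ)) L * poch (2 - (N : ℚ)) L / (poch (1 + (N : ℚ)) L *
      poch (N : ℚ) L) = QN * QM⁻¹ := by
    rw [← f1, ← f2]
    field_simp
  rw [e5]
  have e6 : RR N N - RR' (1 - N) N L * (QN * QM⁻¹) = (RR N N - RR' (1 - N) N L - (QN - QM)) -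
      (RR' (1 - N) N L - QM) * (QN - QM) * QM⁻¹ := by
    field_simp
    ring
  rw [e6]
  exact Dv_sub hp d1 (Dv_mul_int hp (Dv_mul hp d2 d3) uQM)

end

/-- the front factor. -/
theorem front_eq (h : ℕ) :
    18 * ((h + 1 : ℕ) : ℚ) * ((4 * (h + 1)).factorial : ℚ) / (((h + 1).factorial : ℚ) ^ 2 *
      ((2 * (h + 1)).factorial : ℚ) * 27 ^ (h + 1)) =
    144 * (2 * h + 1) * (4 * h + 3) / (2 * h + 2) * ((2 * h).choose h : ℚ) *
      (∏ i ∈ range (2 * h), (1 + 1 * zq (2 * h + 1) i)) / 27 ^ (h + 1) := by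
  have g := prod_zq (2 * h + 1) 1 (2 * h)
  have a1 : (1 + 1 * ((2 * h + 1 : ℕ) : ℚ)) = ((2 * h + 1 : ℕ) : ℚ) + 1 := by push_cast; ring
  rw [a1, poch_nat] at g
  have a2 : 2 * h + 1 + 2 * h = 4 * h + 1 := by ring
  rw [a2] at g
  have c := Nat.choose_mul_factorial_mul_factorial (n := 2 * h) (k := h) (by omega)
  have e : 2 * h - h = h := by omega
  rw [e] at c
  have c' : ((2 * h).choose h : ℚ) * (h.factorial : ℚ) * (h.factorial : ℚ) =
    ((2 * h).factorial : ℚ) := by exact_mod_cast c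
  have f1 : ((2 * h).factorial : ℚ) ≠ 0 := by exact_mod_cast Nat.factorial_ne_zero _
  have f2 : (h.factorial : ℚ) ≠ 0 := by exact_mod_cast Nat.factorial_ne_zero _
  have f3 : ((2 * h + 1).factorial : ℚ) = (2 * h + 1) * ((2 * h).factorial : ℚ) := by
    rw [Nat.factorial_succ]; push_cast; ring
  have f4 : ((4 * (h + 1)).factorial : ℚ) = (4 * h + 4) * (4 * h + 3) * (4 * h + 2) *
      ((4 * h + 1).factorial : ℚ) := by
    rw [show 4 * (h + 1) = 4 * h + 1 + 1 + 1 + 1 by ring]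
    simp only [Nat.factorial_succ]
    push_cast
    ring
  have f5 : ((2 * (h + 1)).factorial : ℚ) = (2 * h + 2) * (2 * h + 1) *
      ((2 * h).factorial : ℚ) := by
    rw [show 2 * (h + 1) = 2 * h + 1 + 1 by ring]
    simp only [Nat.factorial_succ]
    push_cast
    ring
  have f6 : ((h + 1).factorial : ℚ) = (h + 1) * (h.factorial : ℚ) := by
    rw [Nat.factorial_succ]; push_cast; ring
  rw [f3] at g
  rw [f4, f5, f6]
  generalize ∏ i ∈ range (2 * h), (1 + 1 * zq (2 * h + 1) i) = P at *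
  have g2 : ((4 * h + 1).factorial : ℚ) = P * ((2 * h).factorial : ℚ) * ((2 * h + 1) *
      ((2 * h).factorial : ℚ)) := by
    have h0 : (2 * (h : ℚ) + 1) ≠ 0 := by positivity
    field_simp at g
    linear_combination -g
  have c2 : ((2 * h).choose h : ℚ) = ((2 * h).factorial : ℚ) / ((h.factorial : ℚ) *
      (h.factorial : ℚ)) := by
    rw [eq_div_iff (mul_ne_zero f2 f2)]
    linear_combination c'
  rw [g2, c2]
  push_cast
  field_simp
  ring

end Pool.Agent.Helper91.SC
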