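import Mathlib
import Pool.Agent.Helper91.SC.PartB

/-!
Part (b), conclusion.
-/

set_option autoImplicit false

namespace Pool.Agent.Helper91.SC

open Finset

theorem fact_ne' (n : ℕ) : (n.factorial : ℚ) ≠ 0 := by exact_mod_cast Nat.factorial_ne_zero _

theorem choose_fact (a b : ℕ) : ((a + b).choose a : ℚ) =
    ((a + b).factorial : ℚ) / ((a.factorial : ℚ) * (b.factorial : ℚ)) := by
  rw [eq_div_iff (mul_ne_zero (fact_ne' a) (fact_ne' b))]
  have := Nat.choose_mul_factorial_mul_factorial (n := a + b) (k := a) (by omega)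
  have e : a + b - a = b := by omega
  rw [e, mul_assoc] at this
  exact_mod_cast this

theorem sign_sq (L : ℕ) : ((-1 : ℚ) ^ L) * (-1) ^ L = 1 := by rw [← mul_pow]; norm_num

/-- case `p = 6L+1`. -/
theorem case_one (L : ℕ) (hL : 1 ≤ L) :
    ((2 * (3 * L)).choose (3 * L) : ℚ) * (RR' (1 - ((3 * L + 1 : ℕ) : ℚ)) (3 * L + 1) L *
      (poch (1 - ((3 * L + 1 : ℕ) : ℚ)) L * poch (2 - ((3 * L + 1 : ℕ) : ℚ)) L /
      (poch (1 + ((3 * L + 1 : ℕ) : ℚ)) L * poch ((3 * L + 1 : ℕ) : ℚ) L))) =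
    ((2 * (3 * L)).choose (2 * L) : ℚ) ^ 2 * ((3 * L + 1) / (4 * L + 1)) / 27 ^ L := by
  have h1 := RR'_eval (N := 3 * L + 1) (L := L) (B := 1 / 3 - L) (C := 2 / 3 - L) le_rfl
    (by intro l; push_cast; ring) (by omega) (by push_cast; ring)
  have a1 : poch (1 - (1 / 3 - (L : ℚ))) L = poch ((L : ℚ) + 1 / 3 + 1 / 3) L := by
    congr 1; ring
  have a2 : poch (2 - ((3 * L + 1 : ℕ) : ℚ) - (1 / 3 - (L : ℚ))) L =
      (-1) ^ L * poch ((L : ℚ) + 1 / 3) L := by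
    rw [← poch_refl]; congr 1; push_cast; ring
  have a3 : poch (1 - ((3 * L + 1 : ℕ) : ℚ)) L = (-1) ^ L * poch (((2 * L : ℕ) : ℚ) + 1) L := by
    rw [← poch_refl]; congr 1; push_cast; ring
  have a4 : (1 + ((3 * L + 1 : ℕ) : ℚ)) = ((3 * L + 1 : ℕ) : ℚ) + 1 := by ring
  have a5 : ((3 * L + 1 : ℕ) : ℚ) = ((3 * L : ℕ) : ℚ) + 1 := by push_cast; ring
  have b := poch_triple ((L : ℚ) + 1 / 3) L
  have b1 : 3 * ((L : ℚ) + 1 / 3) = ((3 * L : ℕ) : ℚ) + 1 := by push_cast; ring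
  have b2 : (L : ℚ) + 1 / 3 + 2 / 3 = (L : ℚ) + 1 := by ring
  have hs := sign_sq L
  rw [b1, b2, poch_nat, poch_nat] at b
  rw [a1, a2] at h1
  rw [a3, a4, poch_nat, poch_nat]
  have a6 : poch ((3 * L + 1 : ℕ) : ℚ) L = ((3 * L + L).factorial : ℚ) / (3 * L).factorial := by
    rw [a5, poch_nat]
  rw [a6]
  have n1 : 3 * L + L = 4 * L := by ring
  have n2 : 3 * L + 1 + L = 4 * L + 1 := by ring
  have n3 : 2 * L + L = 3 * L := by ring
  have n4 : 3 * L + 3 * L = 6 * L := by ring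
  have n5 : L + L = 2 * L := by ring
  rw [n1, n2, n3]
  rw [n4, n5] at b
  have c1 : ((2 * (3 * L)).choose (3 * L) : ℚ) = ((6 * L).factorial : ℚ) /
      (((3 * L).factorial : ℚ) * ((3 * L).factorial : ℚ)) := by
    have := choose_fact (3 * L) (3 * L)
    rw [n4] at this
    rw [show 2 * (3 * L) = 6 * L by ring]
    exact this
  have c2 : ((2 * (3 * L)).choose (2 * L) : ℚ) = ((6 * L).factorial : ℚ) /
      (((2 * L).factorial : ℚ) * ((4 * L).factorial : ℚ)) := by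
    have := choose_fact (2 * L) (4 * L)
    rw [show 2 * L + 4 * L = 6 * L by ring] at this
    rw [show 2 * (3 * L) = 6 * L by ring]
    exact this
  rw [c1, c2]
  have d1 : ((3 * L + 1).factorial : ℚ) = (3 * L + 1) * ((3 * L).factorial : ℚ) := by
    rw [Nat.factorial_succ]; push_cast; ring
  have d2 : ((4 * L + 1).factorial : ℚ) = (4 * L + 1) * ((4 * L).factorial : ℚ) := by
    rw [Nat.factorial_succ]; push_cast; ring
  rw [d1, d2]
  have f1 := fact_ne' L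
  have f2 := fact_ne' (2 * L)
  have f3 := fact_ne' (3 * L)
  have f4 := fact_ne' (4 * L)
  generalize poch (2 - ((3 * L + 1 : ℕ) : ℚ)) L = Z at *
  generalize RR' (1 - ((3 * L + 1 : ℕ) : ℚ)) (3 * L + 1) L = R at *
  generalize poch ((L : ℚ) + 1 / 3 + 1 / 3) L = P1 at *
  generalize poch ((L : ℚ) + 1 / 3) L = P2 at *
  have h2 : R * Z = P1 * ((-1) ^ L * P2) / (L.factorial : ℚ) := by
    rw [eq_div_iff f1, ← h1]; ring
  have b3 : P2 * P1 = ((6 * L).factorial : ℚ) * (L.factorial : ℚ) /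
      (((3 * L).factorial : ℚ) * ((2 * L).factorial : ℚ) * 27 ^ L) := by
    rw [eq_div_iff (by positivity)]
    field_simp at b
    linear_combination b
  have e : ((6 * L).factorial : ℚ) / (((3 * L).factorial : ℚ) * ((3 * L).factorial : ℚ)) *
      (R * ((-1) ^ L * (((3 * L).factorial : ℚ) / ((2 * L).factorial : ℚ)) * Z /
      ((4 * L + 1) * ((4 * L).factorial : ℚ) / ((3 * L + 1) * ((3 * L).factorial : ℚ)) *
      (((4 * L).factorial : ℚ) / ((3 * L).factorial : ℚ))))) =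
      (R * Z) * (-1) ^ L * ((6 * L).factorial : ℚ) * (3 * L + 1) * ((3 * L).factorial : ℚ) /
      (((2 * L).factorial : ℚ) * (4 * L + 1) * ((4 * L).factorial : ℚ) *
        ((4 * L).factorial : ℚ)) := by
    field_simp
  rw [e, h2]
  have e2 : P1 * ((-1) ^ L * P2) / (L.factorial : ℚ) * (-1) ^ L * ((6 * L).factorial : ℚ) *
      (3 * L + 1) * ((3 * L).factorial : ℚ) / (((2 * L).factorial : ℚ) * (4 * L + 1) *
      ((4 * L).factorial : ℚ) * ((4 * L).factorial : ℚ)) = (P2 * P1) * ((-1) ^ L * (-1) ^ L) /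
      (L.factorial : ℚ) * ((6 * L).factorial : ℚ) *
      (3 * L + 1) * ((3 * L).factorial : ℚ) / (((2 * L).factorial : ℚ) * (4 * L + 1) *
      ((4 * L).factorial : ℚ) * ((4 * L).factorial : ℚ)) := by ring
  rw [e2, hs, b3]
  field_simp

/-- case `p = 6L+5`. -/
theorem case_two (L : ℕ) :
    ((2 * (3 * L + 2)).choose (3 * L + 2) : ℚ) * (RR' (1 - ((3 * L + 3 : ℕ) : ℚ)) (3 * L + 3) L *
      (poch (1 - ((3 * L + 3 : ℕ) : ℚ)) L * poch (2 - ((3 * L + 3 : ℕ) : ℚ)) L /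
      (poch (1 + ((3 * L + 3 : ℕ) : ℚ)) L * poch ((3 * L + 3 : ℕ) : ℚ) L))) =
    ((2 * (3 * L + 2)).choose (2 * L + 1) : ℚ) ^ 2 * ((4 * L + 3) / (4 * (3 * L + 2))) /
      27 ^ L := by
  have h1 := RR'_eval (N := 3 * L + 3) (L := L) (B := -2 / 3 - L) (C := -1 / 3 - L) (by omega)
    (by intro l; push_cast; ring) (by omega) (by push_cast; ring)
  have a1 : poch (1 - (-2 / 3 - (L : ℚ))) L = poch ((L : ℚ) + 4 / 3 + 1 / 3) L := by
    congr 1; ring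
  have a2 : poch (2 - ((3 * L + 3 : ℕ) : ℚ) - (-2 / 3 - (L : ℚ))) L =
      (-1) ^ L * poch ((L : ℚ) + 4 / 3) L := by
    rw [← poch_refl]; congr 1; push_cast; ring
  have a3 : poch (1 - ((3 * L + 3 : ℕ) : ℚ)) L =
      (-1) ^ L * poch (((2 * L + 2 : ℕ) : ℚ) + 1) L := by
    rw [← poch_refl]; congr 1; push_cast; ring
  have a4 : (1 + ((3 * L + 3 : ℕ) : ℚ)) = ((3 * L + 3 : ℕ) : ℚ) + 1 := by ring
  have a5 : ((3 * L + 3 : ℕ) : ℚ) = ((3 * L + 2 : ℕ) : ℚ) + 1 := by push_cast; ring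
  have b := poch_triple ((L : ℚ) + 4 / 3) L
  have b1 : 3 * ((L : ℚ) + 4 / 3) = ((3 * L + 3 : ℕ) : ℚ) + 1 := by push_cast; ring
  have b2 : (L : ℚ) + 4 / 3 + 2 / 3 = ((L + 1 : ℕ) : ℚ) + 1 := by push_cast; ring
  have hs := sign_sq L
  rw [b1, b2, poch_nat, poch_nat] at b
  rw [a1, a2] at h1
  rw [a3, a4, poch_nat, poch_nat]
  have a6 : poch ((3 * L + 3 : ℕ) : ℚ) L = ((3 * L + 2 + L).factorial : ℚ) /
      (3 * L + 2).factorial := by
    rw [a5, poch_nat]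
  rw [a6]
  have n1 : 3 * L + 2 + L = 4 * L + 2 := by ring
  have n2 : 3 * L + 3 + L = 4 * L + 3 := by ring
  have n3 : 2 * L + 2 + L = 3 * L + 2 := by ring
  have n4 : 3 * L + 3 + 3 * L = 6 * L + 3 := by ring
  have n5 : L + 1 + L = 2 * L + 1 := by ring
  rw [n1, n2, n3]
  rw [n4, n5] at b
  have c1 : ((2 * (3 * L + 2)).choose (3 * L + 2) : ℚ) = ((6 * L + 4).factorial : ℚ) /
      (((3 * L + 2).factorial : ℚ) * ((3 * L + 2).factorial : ℚ)) := by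
    have := choose_fact (3 * L + 2) (3 * L + 2)
    rw [show 3 * L + 2 + (3 * L + 2) = 6 * L + 4 by ring] at this
    rw [show 2 * (3 * L + 2) = 6 * L + 4 by ring]
    exact this
  have c2 : ((2 * (3 * L + 2)).choose (2 * L + 1) : ℚ) = ((6 * L + 4).factorial : ℚ) /
      (((2 * L + 1).factorial : ℚ) * ((4 * L + 3).factorial : ℚ)) := by
    have := choose_fact (2 * L + 1) (4 * L + 3)
    rw [show 2 * L + 1 + (4 * L + 3) = 6 * L + 4 by ring] at this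
    rw [show 2 * (3 * L + 2) = 6 * L + 4 by ring]
    exact this
  rw [c1, c2]
  have d1 : ((3 * L + 3).factorial : ℚ) = (3 * L + 3) * ((3 * L + 2).factorial : ℚ) := by
    rw [show 3 * L + 3 = 3 * L + 2 + 1 by ring, Nat.factorial_succ]; push_cast; ring
  have d2 : ((4 * L + 3).factorial : ℚ) = (4 * L + 3) * ((4 * L + 2).factorial : ℚ) := by
    rw [show 4 * L + 3 = 4 * L + 2 + 1 by ring, Nat.factorial_succ]; push_cast; ring
  have d3 : ((2 * L + 2).factorial : ℚ) = (2 * L + 2) * ((2 * L + 1).factorial : ℚ) := by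
    rw [show 2 * L + 2 = 2 * L + 1 + 1 by ring, Nat.factorial_succ]; push_cast; ring
  have d4 : ((L + 1).factorial : ℚ) = (L + 1) * ((L).factorial : ℚ) := by
    rw [Nat.factorial_succ]; push_cast; ring
  have d5 : ((6 * L + 4).factorial : ℚ) = (6 * L + 4) * ((6 * L + 3).factorial : ℚ) := by
    rw [show 6 * L + 4 = 6 * L + 3 + 1 by ring, Nat.factorial_succ]; push_cast; ring
  rw [d1, d4] at b
  rw [d1, d2, d3, d5]
  have f1 := fact_ne' L
  have f2 := fact_ne' (2 * L + 1)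
  have f3 := fact_ne' (3 * L + 2)
  have f4 := fact_ne' (4 * L + 2)
  have f5 := fact_ne' (6 * L + 3)
  generalize poch (2 - ((3 * L + 3 : ℕ) : ℚ)) L = Z at *
  generalize RR' (1 - ((3 * L + 3 : ℕ) : ℚ)) (3 * L + 3) L = R at *
  generalize poch ((L : ℚ) + 4 / 3 + 1 / 3) L = P1 at *
  generalize poch ((L : ℚ) + 4 / 3) L = P2 at *
  have h2 : R * Z = P1 * ((-1) ^ L * P2) / (L.factorial : ℚ) := by
    rw [eq_div_iff f1, ← h1]; ring
  have hL1 : ((L : ℚ) + 1) ≠ 0 := by positivity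
  have b3 : P2 * P1 = ((6 * L + 3).factorial : ℚ) * (L.factorial : ℚ) /
      (3 * ((3 * L + 2).factorial : ℚ) * ((2 * L + 1).factorial : ℚ) * 27 ^ L) := by
    rw [eq_div_iff (by positivity)]
    field_simp at b
    linear_combination b
  generalize ((6 * L + 3).factorial : ℚ) = A6 at *
  generalize ((3 * L + 2).factorial : ℚ) = A3 at *
  generalize ((2 * L + 1).factorial : ℚ) = A2 at *
  generalize ((4 * L + 2).factorial : ℚ) = A4 at *
  generalize (L.factorial : ℚ) = A1 at *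
  have e : (6 * L + 4) * A6 / (A3 * A3) * (R * ((-1) ^ L * (A3 / ((2 * L + 2) * A2)) * Z /
      ((4 * L + 3) * A4 / ((3 * L + 3) * A3) * (A4 / A3)))) =
      (R * Z) * (-1) ^ L * ((6 * L + 4) * A6) * (3 * (L + 1)) * A3 /
      (2 * (L + 1) * A2 * (4 * L + 3) * A4 * A4) := by
    field_simp
  rw [e, h2]
  have e2 : P1 * ((-1) ^ L * P2) / A1 * (-1) ^ L * ((6 * L + 4) * A6) * (3 * (L + 1)) * A3 /
      (2 * (L + 1) * A2 * (4 * L + 3) * A4 * A4) = (P2 * P1) * ((-1) ^ L * (-1) ^ L) / A1 *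
      ((6 * L + 4) * A6) * (3 * (L + 1)) * A3 /
      (2 * (L + 1) * A2 * (4 * L + 3) * A4 * A4) := by ring
  rw [e2, hs, b3]
  field_simp
  ring

section
variable {p : ℕ} (hp : p.Prime) (h5 : 5 ≤ p) {h : ℕ} (hh : p = 2 * h + 1)
include hp h5 hh

/-- `C(p-1, ⌊p/3⌋)^2 ≡ 27^(p-1) mod p^2`. -/
theorem choose_third {K : ℕ} (hK : p = 3 * K + 1 ∨ p = 3 * K + 2) :
    Dv p 2 (((2 * h).choose K : ℚ) ^ 2 - 27 ^ (2 * h)) ∧
      Dv p 2 (∏ i ∈ range (2 * h), (1 + 1 * zq (2 * h + 1) i) - 1) := by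
  have Hz := Hz_of_pow hp (a := 1) (m := h) (by rw [pow_one, hh])
  have ht := Dv_third hp h5
  have hK2 : K ≤ 2 * h := by omega
  have h1 := prod_three hK
  have c := pC_choose h K hK2
  have s1 := S1_Dv hp Hz K hK2
  have full := S1_full2 hp Hz
  have e1 : p - 1 = 2 * h := by omega
  rw [e1, hh] at h1
  have x1 := prod_exp1 hp (fun i => 1 / 3 * zq (2 * h + 1) i) K
    (fun i hi => Dv_int_mul hp ht (Hz i (by omega)))
  have x2 := prod_exp1 hp (fun i => (-2 / 3) * zq (2 * h + 1) i) K (fun i hi => by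
    have : (-2 / 3 : ℚ) * zq (2 * h + 1) i = (-(2 * (1 / 3))) * zq (2 * h + 1) i := by ring
    rw [this]
    exact Dv_int_mul hp (Dv_neg (Dv_mul_int hp (Dv_ofNat hp 2) ht)) (Hz i (by omega)))
  have x3 := prod_exp1 hp (fun i => (-1) * zq (2 * h + 1) i) K (fun i hi =>
    Dv_int_mul hp (Dv_neg (Dv_one hp)) (Hz i (by omega)))
  have x4 := prod_exp1 hp (fun i => 1 * zq (2 * h + 1) i) (2 * h) (fun i hi =>
    Dv_int_mul hp (Dv_one hp) (Hz i (by omega)))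
  rw [← mul_sum, ← S1] at x1 x2 x3 x4
  have e2 : pC (2 * h + 1) K = ∏ i ∈ range K, (1 + (-1) * zq (2 * h + 1) i) := by
    rw [pC]
    exact prod_congr rfl (fun i _ => by ring)
  rw [e2] at c
  have e3 : ((2 * h).choose K : ℚ) ^ 2 =
      (∏ i ∈ range K, (1 + (-1) * zq (2 * h + 1) i)) ^ 2 := by
    rw [c, mul_pow, ← pow_mul, mul_comm K 2, pow_mul]; norm_num
  have e4 : (27 : ℚ) ^ (2 * h) = (3 ^ (2 * h)) ^ 3 := by
    rw [← pow_mul, show (27 : ℚ) = 3 ^ 3 by norm_num, ← pow_mul, mul_comm]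
  rw [e3, e4]
  clear c e2 e3 e4
  have f3 := fermat_Dv hp 3 (fun h => by
    have := (Nat.prime_dvd_prime_iff_eq hp Nat.prime_three).mp h
    omega)
  rw [e1] at f3
  push_cast at f3
  generalize ∏ i ∈ range K, (1 + (-1) * zq (2 * h + 1) i) = D at *
  generalize ∏ i ∈ range K, (1 + 1 / 3 * zq (2 * h + 1) i) = A1 at *
  generalize ∏ i ∈ range K, (1 + (-2 / 3) * zq (2 * h + 1) i) = A2 at *
  generalize ∏ i ∈ range (2 * h), (1 + 1 * zq (2 * h + 1) i) = P at *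
  generalize S1 (2 * h + 1) K = s at *
  generalize S1 (2 * h + 1) (2 * h) = t at *
  generalize (3 : ℚ) ^ (2 * h) = T at *
  have xP : Dv p 2 (P - 1) := by
    have e : P - 1 = (P - (1 + 1 * t)) + t := by ring
    rw [e]; exact Dv_add hp x4 full
  refine ⟨?_, xP⟩
  have hA : Dv p 2 (A1 * A2 - (1 + (1 / 3 * s + -2 / 3 * s))) := mul_first hp x1 x2
    (Dv_int_mul hp ht s1) (by
      have : (-2 / 3 : ℚ) * s = (-(2 * (1 / 3))) * s := by ring
      rw [this]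
      exact Dv_int_mul hp (Dv_neg (Dv_mul_int hp (Dv_ofNat hp 2) ht)) s1)
  have s0 : Dv p 0 s := Dv_mono (by norm_num) s1
  have T0 : Dv p 0 T := by
    have : T = (T - 1) + 1 := by ring
    rw [this]; exact Dv_add hp (Dv_mono (by norm_num) f3) (Dv_one hp)
  have D1 : Dv p 1 (D - 1) := by
    have : D - 1 = (D - (1 + -1 * s)) - s := by ring
    rw [this]; exact Dv_sub hp (Dv_mono (by norm_num) x3) s1
  have D0 : Dv p 0 D := by
    have : D = (D - 1) + 1 := by ring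
    rw [this]; exact Dv_add hp (Dv_mono (by norm_num) D1) (Dv_one hp)
  -- T (1 - s/3) ≡ 1 - s
  have hT : Dv p 2 (T - (1 - 2 / 3 * s)) := by
    have e : T - (1 - 2 / 3 * s) = (-(T * (A1 * A2 - (1 + (1 / 3 * s + -2 / 3 * s)))) +
      (P - 1) * D + (D - (1 + -1 * s))) + (T - 1) * ((1 / 3) * s) := by
      linear_combination h1
    rw [e]
    exact Dv_add hp (Dv_add hp (Dv_add hp (Dv_neg (Dv_int_mul hp T0 hA)) (Dv_mul_int hp xP D0))
      x3) (Dv_mul hp f3 (Dv_int_mul hp ht s1))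
  have e : D ^ 2 - T ^ 3 = (D - (1 + -1 * s)) * (D + (1 - s)) - (T - (1 - 2 / 3 * s)) *
      (T ^ 2 + T * (1 - 2 * (1 / 3) * s) + (1 - 2 * (1 / 3) * s) ^ 2) -
      (s * s) * (1 / 3 - (8 * (1 / 3) ^ 3) * s) := by ring
  rw [e]
  have w : Dv p 0 (1 - 2 * (1 / 3) * s) :=
    Dv_sub hp (Dv_one hp) (Dv_mul_int hp (Dv_mul_int hp (Dv_ofNat hp 2) ht) s0)
  refine Dv_sub hp (Dv_sub hp (Dv_mul_int hp x3 (Dv_add hp D0 (Dv_sub hp (Dv_one hp) s0)))
    (Dv_mul_int hp hT (Dv_add hp (Dv_add hp (Dv_pow hp T0 2) (Dv_mul_int hp T0 w))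
      (Dv_pow hp w 2)))) (Dv_mul_int hp (Dv_mul hp s1 s1) (Dv_sub hp ht (Dv_mul_int hp
      (Dv_mul_int hp (Dv_ofNat hp 8) (Dv_pow hp ht 3)) s0)))

/-- Part (b). -/
theorem partB : Dv p 3 (SS (h + 1) - 8 * (p : ℚ) * 3 ^ (2 * h)) := by
  have ht := Dv_third hp h5
  have hhalf := Dv_half hp h5
  have h3 : ¬ (3 ∣ p) := by
    intro h'
    have := (Nat.prime_dvd_prime_iff_eq Nat.prime_three hp).mp h'
    omega
  obtain ⟨L, hcase⟩ : ∃ L, h + 1 = 3 * L + 1 ∨ h + 1 = 3 * L + 3 := ⟨h / 3, by omega⟩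
  have hL1 : L < h + 1 - 1 := by omega
  have c := RR_cong hp h5 (N := h + 1) (by omega) hcase hL1
  have S := SS_exact (h + 1) (by omega)
  rw [front_eq] at S
  have hpc : (p : ℚ) = 2 * h + 1 := by rw [hh]; push_cast; ring
  -- units
  have i27 : ∀ n : ℕ, Dv p 0 (((27 : ℚ) ^ n)⁻¹) := by
    intro n
    have e : ((27 : ℚ) ^ n)⁻¹ = ((1 / 3) ^ 3) ^ n := by
      rw [← inv_pow]; congr 1; norm_num
    rw [e]
    exact Dv_pow hp (Dv_pow hp ht 3) n
  have i9 : ∀ n : ℕ, Dv p 0 (((9 : ℚ) ^ n)⁻¹) := by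
    intro n
    have e : ((9 : ℚ) ^ n)⁻¹ = ((1 / 3) ^ 2) ^ n := by
      rw [← inv_pow]; congr 1; norm_num
    rw [e]
    exact Dv_pow hp (Dv_pow hp ht 2) n
  have uh : Dv p 0 ((2 * (h : ℚ) + 2)⁻¹) := by
    have h1 := nat_unit hp (n := h + 1) (by omega) (by omega)
    have e : (2 * (h : ℚ) + 2)⁻¹ = (1 / 2) * ((h + 1 : ℕ) : ℚ)⁻¹ := by
      have : ((h : ℚ) + 1) ≠ 0 := by positivity
      have h2 : (2 * (h : ℚ) + 2) ≠ 0 := by positivity
      push_cast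
      field_simp
    rw [e]
    exact Dv_mul_int hp hhalf h1
  have hi : Dv p 0 (h : ℚ) := Dv_nat hp h
  set K := if h + 1 = 3 * L + 1 then 2 * L else 2 * L + 1 with hKdef
  have hK : p = 3 * K + 1 ∨ p = 3 * K + 2 := by
    rw [hKdef]
    split_ifs with hc
    · left; omega
    · right
      have := hcase.resolve_left hc
      omega
  obtain ⟨c1, c2⟩ := choose_third hp h5 hh hK
  have hPi : Dv p 0 (∏ i ∈ range (2 * h), (1 + 1 * zq (2 * h + 1) i)) := by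
    have e : (∏ i ∈ range (2 * h), (1 + 1 * zq (2 * h + 1) i)) =
      ((∏ i ∈ range (2 * h), (1 + 1 * zq (2 * h + 1) i)) - 1) + 1 := by ring
    rw [e]
    exact Dv_add hp (Dv_mono (by norm_num) c2) (Dv_one hp)
  -- the exact value of the main term
  have main : ∃ κ : ℚ, Dv p 2 (κ - 1) ∧
      144 * (4 * (h : ℚ) + 3) / (2 * h + 2) / 27 ^ (h + 1) * (((2 * h).choose h : ℚ) *
        (RR' (1 - ((h + 1 : ℕ) : ℚ)) (h + 1) L *
      (poch (1 - ((h + 1 : ℕ) : ℚ)) L * poch (2 - ((h + 1 : ℕ) : ℚ)) L /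
      (poch (1 + ((h + 1 : ℕ) : ℚ)) L * poch ((h + 1 : ℕ) : ℚ) L)))) =
      8 * ((2 * h).choose K : ℚ) ^ 2 * κ / 9 ^ (2 * h) := by
    rcases hcase with hc | hc
    · have hc' : h = 3 * L := by omega
      have hKe : K = 2 * L := by rw [hKdef, if_pos hc]
      have := case_one L (by omega)
      refine ⟨1, by rw [sub_self]; exact Dv_zero_mem hp 2, ?_⟩
      rw [hKe, hc', this]
      have e9 : (9 : ℚ) ^ (2 * (3 * L)) = 27 ^ (3 * L) * 27 ^ L := by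
        rw [← pow_add, show (27 : ℚ) = 3 ^ 3 by norm_num, show (9 : ℚ) = 3 ^ 2 by norm_num,
          ← pow_mul, ← pow_mul]
        congr 1; ring
      rw [e9, pow_succ]
      have n1 : (4 * (L : ℚ) + 1) ≠ 0 := by positivity
      have n2 : (3 * (L : ℚ) + 1) ≠ 0 := by positivity
      have n3 : (2 * (((3 * L : ℕ)) : ℚ) + 2) ≠ 0 := by positivity
      push_cast at n3 ⊢
      field_simp
      ring
    · have hc' : h = 3 * L + 2 := by omega
      have hKe : K = 2 * L + 1 := by rw [hKdef, if_neg (by omega)]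
      have := case_two L
      refine ⟨(1 - 4 * (p : ℚ) ^ 2) / (1 - (p : ℚ) ^ 2), ?_, ?_⟩
      · have hp2 : Dv p 1 ((p : ℚ) ^ 2) := Dv_mono (by norm_num) (Dv_ppow hp 2)
        obtain ⟨u1, u2⟩ := one_sub_unit' hp hp2
        have e : (1 - 4 * (p : ℚ) ^ 2) / (1 - (p : ℚ) ^ 2) - 1 =
          (p : ℚ) ^ 2 * (-3 * (1 - (p : ℚ) ^ 2)⁻¹) := by
          field_simp
          ring
        rw [e]
        exact Dv_mul_int hp (Dv_ppow hp 2) (Dv_mul_int hp (Dv_neg (Dv_ofNat hp 3)) u2)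
      · rw [hKe, hpc, hc', this]
        have e9 : (9 : ℚ) ^ (2 * (3 * L + 2)) * 3 = 27 ^ (3 * L + 2 + 1) * 27 ^ L := by
          rw [← pow_add, show (27 : ℚ) = 3 ^ 3 by norm_num, show (9 : ℚ) = 3 ^ 2 by norm_num,
            ← pow_mul, ← pow_mul, ← pow_succ]
          congr 1; ring
        have e9' : (9 : ℚ) ^ (2 * (3 * L + 2)) = 27 ^ (3 * L + 2 + 1) * 27 ^ L / 3 := by
          rw [← e9]; ring
        rw [e9']
        have n1 : (3 * (L : ℚ) + 2) ≠ 0 := by positivity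
        have n3 : (2 * (((3 * L + 2 : ℕ)) : ℚ) + 2) ≠ 0 := by positivity
        have n4 : (1 - (2 * (((3 * L + 2 : ℕ)) : ℚ) + 1) ^ 2) ≠ 0 := by
          push_cast
          have : (1 - (2 * (3 * (L : ℚ) + 2) + 1) ^ 2) = -(4 * (3 * L + 2) * (3 * L + 3)) := by ring
          rw [this]
          have : (4 * (3 * (L : ℚ) + 2) * (3 * L + 3)) ≠ 0 := by positivity
          exact neg_ne_zero.mpr this
        push_cast at n3 n4 ⊢
        field_simp
        ring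
  obtain ⟨κ, hκ, hmain⟩ := main
  -- assemble
  have e : SS (h + 1) - 8 * (p : ℚ) * 3 ^ (2 * h) =
      (p : ℚ) * ((144 * (4 * h + 3) * (2 * (h : ℚ) + 2)⁻¹ * ((2 * h).choose h : ℚ) *
        (∏ i ∈ range (2 * h), (1 + 1 * zq (2 * h + 1) i)) * ((27 : ℚ) ^ (h + 1))⁻¹) *
      (RR ((h + 1 : ℕ) : ℚ) (h + 1) - RR' (1 - ((h + 1 : ℕ) : ℚ)) (h + 1) L *
      (poch (1 - ((h + 1 : ℕ) : ℚ)) L * poch (2 - ((h + 1 : ℕ) : ℚ)) L /
      (poch (1 + ((h + 1 : ℕ) : ℚ)) L * poch ((h + 1 : ℕ) : ℚ) L))) +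
      (8 * ((9 : ℚ) ^ (2 * h))⁻¹) * (((2 * h).choose K : ℚ) ^ 2 *
        ((κ - 1) * (∏ i ∈ range (2 * h), (1 + 1 * zq (2 * h + 1) i)) +
        ((∏ i ∈ range (2 * h), (1 + 1 * zq (2 * h + 1) i)) - 1)) +
        (((2 * h).choose K : ℚ) ^ 2 - 27 ^ (2 * h)))) := by
    have e27 : (27 : ℚ) ^ (2 * h) = 9 ^ (2 * h) * 3 ^ (2 * h) := by
      rw [← mul_pow]; norm_num
    rw [S, e27]
    have n9 : (9 : ℚ) ^ (2 * h) ≠ 0 := by positivity
    rw [hpc]
    generalize ∏ i ∈ range (2 * h), (1 + 1 * zq (2 * h + 1) i) = P at *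
    generalize RR ((h + 1 : ℕ) : ℚ) (h + 1) = R at *
    generalize RR' (1 - ((h + 1 : ℕ) : ℚ)) (h + 1) L *
      (poch (1 - ((h + 1 : ℕ) : ℚ)) L * poch (2 - ((h + 1 : ℕ) : ℚ)) L /
      (poch (1 + ((h + 1 : ℕ) : ℚ)) L * poch ((h + 1 : ℕ) : ℚ) L)) = Y at *
    have n2 : (2 * (h : ℚ) + 2) ≠ 0 := by positivity
    have n27 : (27 : ℚ) ^ (h + 1) ≠ 0 := by positivity
    have hm' : 144 * (4 * (h : ℚ) + 3) * (2 * (h : ℚ) + 2)⁻¹ * ((2 * h).choose h : ℚ) *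
        ((27 : ℚ) ^ (h + 1))⁻¹ * Y = 8 * ((2 * h).choose K : ℚ) ^ 2 * κ * ((9 : ℚ) ^ (2 * h))⁻¹ := by
      rw [← div_eq_mul_inv _ ((9 : ℚ) ^ (2 * h)), ← hmain]
      field_simp
    have e1 : 144 * (2 * (h : ℚ) + 1) * (4 * h + 3) / (2 * h + 2) * ((2 * h).choose h : ℚ) * P /
        27 ^ (h + 1) * R - 8 * (2 * (h : ℚ) + 1) * 3 ^ (2 * h) =
        (2 * h + 1) * ((144 * (4 * h + 3) * (2 * (h : ℚ) + 2)⁻¹ * ((2 * h).choose h : ℚ) *
        P * ((27 : ℚ) ^ (h + 1))⁻¹) * (R - Y) + P * (144 * (4 * (h : ℚ) + 3) *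
        (2 * (h : ℚ) + 2)⁻¹ * ((2 * h).choose h : ℚ) *
        ((27 : ℚ) ^ (h + 1))⁻¹ * Y) - 8 * 3 ^ (2 * h)) := by
      rw [div_eq_mul_inv, div_eq_mul_inv]
      ring
    rw [e1, hm']
    have e2 : (9 : ℚ) ^ (2 * h) * ((9 : ℚ) ^ (2 * h))⁻¹ = 1 := mul_inv_cancel₀ n9
    linear_combination (-(2 * (h : ℚ) + 1) * 8 * 3 ^ (2 * h)) * (-1) * e2
  rw [e]
  have three : (3 : ℕ) = 1 + 2 := rfl
  rw [three]
  refine Dv_mul hp (Dv_p hp) (Dv_add hp ?_ ?_)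
  · refine Dv_int_mul hp ?_ c
    exact Dv_mul_int hp (Dv_mul_int hp (Dv_mul_int hp (Dv_mul_int hp (Dv_mul_int hp
      (Dv_ofNat hp 144) (Dv_add hp (Dv_int_mul hp (Dv_ofNat hp 4) hi) (Dv_ofNat hp 3))) uh)
      (Dv_nat hp _)) hPi) (i27 _)
  · refine Dv_int_mul hp (Dv_mul_int hp (Dv_ofNat hp 8) (i9 _)) (Dv_add hp ?_ c1)
    exact Dv_int_mul hp (Dv_pow hp (Dv_nat hp _) 2) (Dv_add hp (Dv_mul_int hp hκ hPi) c2)

end

end Pool.Agent.Helper91.SC
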