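import Mathlib
import Pool.Agent.Helper91.SC.CTwo
import Pool.Agent.Helper91.SC.PartB2

/-!
All primes.
-/

set_option autoImplicit false

namespace Pool.Agent.Helper91.SC

open Finset

section
variable {p : ℕ} (hp : p.Prime) (h5 : 5 ≤ p)
include hp h5

theorem split_all (hJ : jacobiSym p 7 = 1) : Dv p 3 (Am p 0 - Bm p 0) := by
  by_cases h29 : 29 ≤ p
  · exact split_large hp h29 hJ
  · push Not at h29
    interval_cases p
    all_goals first
      | exact small_11
      | exact small_23
      | (exfalso; revert hp; norm_num; done)
      | (exfalso; revert hJ; simp only [Nat.cast_ofNat]; norm_num; done)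

theorem inert_all (hJ : jacobiSym p 7 = -1) : Dv p 2 (Bm p 0) := by
  by_cases h29 : 29 ≤ p
  · exact inert_large hp h29 hJ
  · push Not at h29
    interval_cases p
    all_goals first
      | exact small_5
      | exact small_13
      | exact small_17
      | exact small_19
      | (exfalso; revert hp; norm_num; done)
      | (exfalso; revert hJ; simp only [Nat.cast_ofNat]; norm_num; done)

end

end Pool.Agent.Helper91.SC
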